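import Mathlib

set_option autoImplicit false
set_option linter.unusedSectionVars false
set_option linter.unusedVariables false

namespace Pool.Agent.Lib.MP_16ef92_ag.AL

open Module LinearMap Polynomial

noncomputable section

/-- The sequence `r` of power sums contains the number one with multiplicity `m`. -/
def Mult (r : ℕ → ℚ) (m : ℕ) : Prop :=
  ∃ h : ℚ[X], h.eval 1 ≠ 0 ∧ ∀ j, 0 < j → (h.sum fun i c => c * (r (i + j) - m)) = 0

def na2a_phi (u : ℕ → ℚ) : ℚ[X] →ₗ[ℚ] ℚ := Polynomial.lsum fun i => LinearMap.mulRight ℚ (u i)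

theorem na2a_mon (u : ℕ → ℚ) (i : ℕ) (c : ℚ) : na2a_phi u (monomial i c) = c * u i := by
  simp [na2a_phi, Polynomial.lsum_apply, Polynomial.sum_monomial_index]

theorem na2a_shift (u : ℕ → ℚ) (h : ℚ[X]) (j : ℕ) :
    na2a_phi u (h * X ^ j) = h.sum fun i c => c * u (i + j) := by
  induction h using Polynomial.induction_on' with
  | add p q hp hq => rw [add_mul, map_add, hp, hq, Polynomial.sum_add_index] <;> simp [add_mul]
  | monomial i c => rw [monomial_mul_X_pow, na2a_mon, Polynomial.sum_monomial_index]; simp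

theorem na2a_zero {u : ℕ → ℚ} {h : ℚ[X]} (H : ∀ j, 0 < j → (h.sum fun i c => c * u (i + j)) = 0)
    (h' : ℚ[X]) : na2a_phi u (h * h' * X) = 0 := by
  induction h' using Polynomial.induction_on' with
  | add p q hp hq => rw [mul_add, add_mul, map_add, hp, hq, add_zero]
  | monomial i c =>
    rw [show h * monomial i c * X = c • (h * X ^ (i + 1)) by
      rw [← C_mul_X_pow_eq_monomial, smul_eq_C_mul]; ring, map_smul, na2a_shift, H _ (by omega), smul_zero]

theorem na2a_diff (r : ℕ → ℚ) (a b : ℚ) (p : ℚ[X]) :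
    na2a_phi (fun i => r i - a) p - na2a_phi (fun i => r i - b) p = p.eval 1 * (b - a) := by
  induction p using Polynomial.induction_on' with
  | add p q hp hq => rw [map_add, map_add, eval_add, add_mul, ← hp, ← hq]; ring
  | monomial i c => rw [na2a_mon, na2a_mon]; simp; ring

theorem Mult.unique {r : ℕ → ℚ} {m m' : ℕ} (h : Mult r m) (h' : Mult r m') : m = m' := by
  obtain ⟨p, p1, p2⟩ := h
  obtain ⟨q, q1, q2⟩ := h'
  have := na2a_diff r m m' (p * q * X)
  rw [na2a_zero (u := fun i => r i - m) p2, mul_comm p, na2a_zero (u := fun i => r i - m') q2] at this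
  simp only [eval_mul, eval_X, mul_one, sub_self, zero_eq_mul, mul_eq_zero, p1, q1, or_self, false_or] at this
  exact Nat.cast_injective (R := ℚ) (sub_eq_zero.1 this).symm

variable {R Z T : Type} [CommRing R] [IsDomain R] [IsPrincipalIdealRing R] [AddCommGroup Z]
  [Module R Z] [Module.Free R Z] [Module.Finite R Z] [AddCommGroup T] [Module R T]
  [Module.Free R T] [Module.Finite R T]

theorem na2a_mem (g : End R Z) (x : Z) : x ∈ g.maxGenEigenspace 1 ↔ ∃ k : ℕ, ((g - 1) ^ k) x = 0 := by
  rw [End.mem_maxGenEigenspace, one_smul]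

/-- The cofactor of the root one in the characteristic polynomial. -/
theorem exists_kill (g : End R Z) : ∃ P : R[X], P.eval 1 ≠ 0 ∧ ∀ S : R[X],
    trace R Z (aeval g (S * P)) = (S * P).eval 1 * finrank R (g.maxGenEigenspace 1) := by
  obtain ⟨P, e, hP⟩ := exists_eq_pow_rootMultiplicity_mul_and_not_dvd g.charpoly g.charpoly_monic.ne_zero 1
  refine ⟨P, fun r => hP (dvd_iff_isRoot.2 r), fun S => ?_⟩
  have eX : aeval g (X - C 1 : R[X]) = g - 1 := by simp
  have hf : ∀ x, aeval g (S * P) x ∈ g.maxGenEigenspace 1 := fun x => (na2a_mem g _).2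
    ⟨rootMultiplicity 1 g.charpoly, by
      rw [← eX, ← map_pow, ← End.mul_apply, ← map_mul, mul_left_comm, ← e, map_mul, aeval_self_charpoly]; simp⟩
  rw [← trace_restrict_eq_of_forall_mem _ _ hf]
  obtain ⟨Q, hQ⟩ := X_sub_C_dvd_sub_C_eval (a := (1 : R)) (p := S * P)
  have hN : ∀ x ∈ g.maxGenEigenspace 1, aeval g (S * P - C ((S * P).eval 1)) x ∈ g.maxGenEigenspace 1 :=
    fun x hx => by
      rw [map_sub, LinearMap.sub_apply, aeval_C, Module.algebraMap_end_apply]
      exact Submodule.sub_mem _ (hf x) (Submodule.smul_mem _ _ hx)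
  have nil : IsNilpotent ((aeval g (S * P - C ((S * P).eval 1))).restrict hN) := by
    rw [End.isNilpotent_iff_of_finite]
    intro x
    obtain ⟨k, hk⟩ := (na2a_mem g _).1 x.2
    refine ⟨k, Subtype.ext ?_⟩
    rw [End.pow_restrict, coe_restrict_apply, hQ, ← map_pow, mul_pow, mul_comm, map_mul, map_pow _ (X - C 1), eX,
      End.mul_apply, hk, map_zero, Submodule.coe_zero]
  have t := (isNilpotent_trace_of_isNilpotent nil).eq_zero
  rw [show (aeval g (S * P - C ((S * P).eval 1))).restrict hN =
    (aeval g (S * P)).restrict (fun x _ => hf x) - (S * P).eval 1 • 1 by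
      ext x; simp [coe_restrict_apply, Module.algebraMap_end_apply, smul_smul, mul_comm], map_sub, map_smul, trace_one,
    sub_eq_zero] at t
  exact t

/-- Rank at most one of the generalised eigenspace, read on Jordan blocks of size two. -/
theorem rank_le_one_iff (g : End R Z) : finrank R (g.maxGenEigenspace 1) ≤ 1 ↔
    ∃ w₀, g w₀ = w₀ ∧ ∀ w, (g - 1) ((g - 1) w) = 0 → ∃ a b : R, a ≠ 0 ∧ a • w + b • w₀ = 0 := by
  constructor
  · intro h
    obtain ⟨v, hv⟩ := finrank_le_one_iff.1 h
    obtain ⟨k, hk⟩ := (na2a_mem g _).1 v.2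
    refine ⟨v, ?_, fun w hw => ?_⟩
    · obtain ⟨c, hc⟩ := hv ⟨(g - 1) v, (na2a_mem g _).2 ⟨k, by
        rw [← End.mul_apply, ← pow_succ, pow_succ', End.mul_apply, hk, map_zero]⟩⟩
      have hc : (g - 1) v = c • (v : Z) := (congrArg Subtype.val hc).symm
      have : ∀ n : ℕ, ((g - 1) ^ n) v = c ^ n • (v : Z) := fun n => by
        induction n with
        | zero => simp
        | succ n ih => rw [pow_succ', End.mul_apply, ih, map_smul, hc, smul_smul, pow_succ]
      rw [this, smul_eq_zero] at hk
      have z : (g - 1) v = 0 := by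
        rcases hk with r | r
        · rw [hc, pow_eq_zero_iff'.1 r |>.1, zero_smul]
        · rw [r, map_zero]
      exact sub_eq_zero.1 z
    · obtain ⟨c, hc⟩ := hv ⟨w, (na2a_mem g _).2 ⟨2, by rw [pow_two]; exact hw⟩⟩
      have hc : c • (v : Z) = w := congrArg Subtype.val hc
      exact ⟨1, -c, one_ne_zero, by simp [hc]⟩
  · rintro ⟨w₀, h0, h⟩
    have key : ∀ (k : ℕ) w, ((g - 1) ^ k) w = 0 → ∃ a b : R, a ≠ 0 ∧ a • w + b • w₀ = 0 := by
      intro k
      induction k with
      | zero => intro w hw; exact ⟨1, 0, one_ne_zero, by simpa using hw⟩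
      | succ k ih =>
        intro w hw
        obtain ⟨a, b, ha, e⟩ := ih ((g - 1) w) (by rwa [pow_succ] at hw)
        have := congrArg (g - 1 : End R Z) e
        rw [map_add, map_smul, map_smul, show (g - 1) w₀ = 0 by simp [h0], smul_zero, add_zero, map_zero,
          smul_eq_zero] at this
        exact h w (this.resolve_left ha)
    by_contra c
    obtain ⟨f, hf⟩ := exists_linearIndependent_of_le_finrank (show 2 ≤ _ from not_le.1 c)
    obtain ⟨a, b, ha, e⟩ := ((na2a_mem g _).1 (f 0).2).elim (key · _)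
    obtain ⟨a', b', ha', e'⟩ := ((na2a_mem g _).1 (f 1).2).elim (key · _)
    have li : LinearIndependent R ![f 0, f 1] := by
      convert hf using 1; ext i; fin_cases i <;> rfl
    have z := (LinearIndependent.pair_iff.1 li (b' * a) (-(b * a')) (Subtype.ext (by
      simp only [Submodule.coe_add, Submodule.coe_smul, Submodule.coe_zero]
      linear_combination (norm := module) b' • e - b • e'))).1
    rw [(mul_eq_zero.1 z).resolve_right ha, zero_smul, add_zero, smul_eq_zero] at e'
    exact hf.ne_zero 1 (Subtype.ext (e'.resolve_left ha'))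

end

end Pool.Agent.Lib.MP_16ef92_ag.AL
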