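import Mathlib

set_option autoImplicit false
set_option linter.unusedSectionVars false
set_option linter.unusedVariables false

namespace Pool.Agent.Lib.MP_16ef92_ag.AL

open Module LinearMap Function
open scoped Classical

noncomputable section

/-- Finite projective modules are free. -/
class PF (R : Type) [CommRing R] : Prop where
  free : ∀ (M : Type) [AddCommGroup M] [Module R M] [Module.Finite R M] [Module.Projective R M],
    Module.Free R M

instance pf_zmod (l a : ℕ) [Fact l.Prime] : PF (ZMod (l ^ a)) := by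
  refine ⟨fun M _ _ _ _ => ?_⟩
  have hl : l.Prime := Fact.out
  rcases a.eq_zero_or_pos with rfl | ha
  · have : Subsingleton (ZMod (l ^ 0)) := ZMod.subsingleton_iff.2 (pow_zero l)
    have := Module.subsingleton (ZMod (l ^ 0)) M
    infer_instance
  · have : NeZero (l ^ a) := ⟨pow_ne_zero _ hl.ne_zero⟩
    have : Nontrivial (ZMod (l ^ a)) :=
      ZMod.nontrivial_iff.2 (Nat.one_lt_pow ha.ne' hl.one_lt).ne'
    have : IsLocalRing (ZMod (l ^ a)) := .of_isUnit_or_isUnit_of_isUnit_add fun {x y} h => by
      rw [← x.natCast_zmod_val, ← y.natCast_zmod_val] at h ⊢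
      simp only [← Nat.cast_add, ZMod.isUnit_natCast_iff_not_dvd_pow hl ha] at h ⊢
      exact not_and_or.1 fun k => h (dvd_add k.1 k.2)
    exact Module.free_of_flat_of_isLocalRing

variable {R A B C : Type} [CommRing R] [AddCommGroup A] [Module R A] [AddCommGroup B] [Module R B]
  [AddCommGroup C] [Module R C]

theorem exists_split [Module.Free R C] {i : A →ₗ[R] B} {p : B →ₗ[R] C} (hi : Injective i)
    (hp : Surjective p) (h : Function.Exact i p) :
    ∃ e : B ≃ₗ[R] A × C, (∀ a, e (i a) = (a, 0)) ∧ ∀ b, (e b).2 = p b := by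
  obtain ⟨l, hl⟩ := Module.projective_lifting_property p .id hp
  obtain ⟨e, e1, e2⟩ := h.splitSurjectiveEquiv hi ⟨l, hl⟩
  exact ⟨e, fun a => by rw [e1]; exact e.apply_symm_apply _, fun b => by rw [e2]; rfl⟩

theorem free_mid [Module.Free R A] [Module.Finite R A] [Module.Free R C] [Module.Finite R C]
    {i : A →ₗ[R] B} {p : B →ₗ[R] C} (hi : Injective i) (hp : Surjective p)
    (h : Function.Exact i p) : Module.Free R B ∧ Module.Finite R B := by
  obtain ⟨e, -⟩ := exists_split hi hp h
  exact ⟨.of_equiv e.symm, .equiv e.symm⟩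

theorem retract [PF R] [Module.Free R B] [Module.Finite R B] (i : A →ₗ[R] B) (r : B →ₗ[R] A)
    (h : ∀ a, r (i a) = a) : Module.Free R A ∧ Module.Finite R A ∧
      ∀ f : End R A, trace R A f = trace R B (i ∘ₗ f ∘ₗ r) := by
  have h' : r ∘ₗ i = .id := LinearMap.ext h
  have := Module.Projective.of_split i r h'
  have h1 := Module.Finite.of_surjective r (RightInverse.surjective h)
  have h2 := PF.free (R := R) A
  refine ⟨h2, h1, fun f => ?_⟩
  rw [trace_comp_comm', LinearMap.comp_assoc, h', LinearMap.comp_id]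

theorem free_ker [PF R] [Module.Free R B] [Module.Finite R B] [Module.Free R C]
    {i : A →ₗ[R] B} {p : B →ₗ[R] C} (hi : Injective i) (hp : Surjective p)
    (h : Function.Exact i p) : Module.Free R A ∧ Module.Finite R A := by
  obtain ⟨e, e1, -⟩ := exists_split hi hp h
  obtain ⟨h1, h2, -⟩ := retract i (fst R A C ∘ₗ e.toLinearMap) fun a => congrArg Prod.fst (e1 a)
  exact ⟨h1, h2⟩

/-- Additivity of the trace. -/
theorem tr3 [Module.Free R A] [Module.Finite R A] [Module.Free R C] [Module.Finite R C]
    {i : A →ₗ[R] B} {p : B →ₗ[R] C} (hi : Injective i) (hp : Surjective p)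
    (h : Function.Exact i p) {fA : End R A} {fB : End R B} {fC : End R C}
    (h1 : ∀ a, fB (i a) = i (fA a)) (h2 : ∀ b, p (fB b) = fC (p b)) :
    trace R B fB = trace R A fA + trace R C fC := by
  obtain ⟨e, e1, e2⟩ := exists_split hi hp h
  have e3 : ∀ a, e.symm (a, 0) = i a := fun a => e.symm_apply_eq.2 (e1 a).symm
  have k : e.conj fB = prodMap fA fC +
      inl R A C ∘ₗ (fst R A C ∘ₗ e.conj fB ∘ₗ inr R A C) ∘ₗ snd R A C := by
    refine LinearMap.prod_ext (LinearMap.ext fun a => ?_) (LinearMap.ext fun c => ?_)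
    · simp [e3, h1, e1]
    · refine Prod.ext (by simp) ?_
      simp [e2, h2, ← e2 (e.symm _)]
  rw [← trace_conj' fB e, k, map_add, trace_prodMap', trace_comp_comm', LinearMap.comp_assoc,
    snd_comp_inl, LinearMap.comp_zero, map_zero, add_zero]

theorem trace_fun {G : Type} [Fintype G] (β : G → G) :
    trace R (G → R) (LinearMap.funLeft R R β) = ∑ x, if β x = x then 1 else 0 := by
  rw [trace_eq_matrix_trace R (Pi.basisFun R G), Matrix.trace]
  refine Finset.sum_congr rfl fun x _ => ?_
  simp [Pi.single_apply]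

theorem trace_pi {J : Type} [Fintype J] [Module.Free R A] [Module.Finite R A]
    (f : End R (J → A)) : trace R (J → A) f =
      ∑ j, trace R A (LinearMap.proj j ∘ₗ f ∘ₗ LinearMap.single R (fun _ => A) j) := by
  have k : f = ∑ j, LinearMap.single R (fun _ => A) j ∘ₗ LinearMap.proj j ∘ₗ f := by
    refine LinearMap.ext fun x => ?_
    simp [Finset.univ_sum_single]
  rw [congrArg (trace R _) k, map_sum]
  exact Finset.sum_congr rfl fun j _ => trace_comp_comm' _ _

end

end Pool.Agent.Lib.MP_16ef92_ag.AL
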