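import Mathlib
import Pool.Agent.Lib.MP_16ef92_ag.AL.PT

set_option autoImplicit false
set_option linter.unusedSectionVars false
set_option linter.unusedVariables false

namespace Pool.Agent.Lib.MP_16ef92_ag.AL

open Module LinearMap Polynomial

noncomputable section

variable {R Z T : Type} [CommRing R] [IsDomain R] [IsPrincipalIdealRing R] [AddCommGroup Z]
  [Module R Z] [Module.Free R Z] [Module.Finite R Z] [AddCommGroup T] [Module R T]
  [Module.Free R T] [Module.Finite R T]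

/-- Torsion modulo the image of `ι`. -/
def Nul (ι : T →ₗ[R] Z) (z : Z) : Prop := ∃ a : R, a ≠ 0 ∧ ∃ x, a • z = ι x

/-- The eigenvalue one is at most simple modulo the image of `ι`. -/
def Sim (ι : T →ₗ[R] Z) (g : End R Z) : Prop :=
  ∃ z₀, Nul ι ((g - 1) z₀) ∧ ∀ z, Nul ι ((g - 1) ((g - 1) z)) →
    ∃ a b : R, a ≠ 0 ∧ Nul ι (a • z + b • z₀)

theorem na2b_tr {f : End R Z} {t : End R T} {j : T →ₗ[R] Z} {m : Z →ₗ[R] T} {a : R} (ha : a ≠ 0)
    (h1 : ∀ z, j (m z) = a • z) (h2 : ∀ x, m (j x) = a • x) (hc : ∀ x, j (t x) = f (j x)) :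
    trace R Z f = trace R T t := by
  have e1 : j ∘ₗ (t ∘ₗ m) = a • f := LinearMap.ext fun z => by simp [hc, h1]
  have e2 : (t ∘ₗ m) ∘ₗ j = a • t := LinearMap.ext fun x => by simp [h2]
  have := trace_comp_comm' (t ∘ₗ m) j
  rw [e1, e2, map_smul, map_smul] at this
  exact mul_left_cancel₀ ha this

/-- The saturation of the image. -/
def na2b_U (ι : T →ₗ[R] Z) : Submodule R Z where
  carrier := {z | Nul ι z}
  add_mem' := fun {z z'} ⟨a, ha, x, hx⟩ ⟨b, hb, y, hy⟩ => ⟨a * b, mul_ne_zero ha hb, b • x + a • y, by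
    rw [map_add, map_smul, map_smul, ← hx, ← hy, smul_add, smul_smul, smul_smul, mul_comm b a]⟩
  zero_mem' := ⟨1, one_ne_zero, 0, by simp⟩
  smul_mem' := fun r z ⟨a, ha, x, hx⟩ => ⟨a, ha, r • x, by rw [map_smul, ← hx, smul_comm]⟩

theorem na2b_bound (ι : T →ₗ[R] Z) : ∃ a : R, a ≠ 0 ∧ ∀ z ∈ na2b_U ι, a • z ∈ range ι := by
  obtain ⟨s, hs⟩ := IsNoetherian.noetherian (na2b_U ι)
  have h : ∀ z : s, Nul ι z := fun z => show z.1 ∈ na2b_U ι from hs ▸ Submodule.subset_span z.2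
  choose a ha x hx using h
  refine ⟨∏ z, a z, Finset.prod_ne_zero_iff.2 fun z _ => ha z, fun z hz => ?_⟩
  rw [← hs] at hz
  refine (Submodule.span_le (p := (range ι).comap ((∏ z, a z) • LinearMap.id))).2
    (fun y hy => ?_) hz
  obtain ⟨c, hc⟩ := Finset.dvd_prod_of_mem a (Finset.mem_univ (⟨y, hy⟩ : s))
  refine ⟨c • x ⟨y, hy⟩, ?_⟩
  rw [map_smul, ← hx, hc, smul_smul, mul_comm]
  rfl

theorem na2b_pow {A B : Type} [AddCommGroup A] [Module R A] [AddCommGroup B] [Module R B]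
    {i : A →ₗ[R] B} {f : End R A} {g : End R B} (h : ∀ x, i (f x) = g (i x)) (n : ℕ) (x : A) :
    i ((f ^ n) x) = (g ^ n) (i x) := by
  induction n generalizing x with
  | zero => rfl
  | succ n ih => rw [pow_succ, pow_succ, End.mul_apply, End.mul_apply, ih, h]

/-- Quotient by the saturation of the image of `ι`. -/
theorem exists_quot {ι : T →ₗ[R] Z} {g : End R Z} {t : End R T} (hc : ∀ x, ι (t x) = g (ι x)) :
    ∃ (W : Type) (_ : AddCommGroup W) (_ : Module R W) (_ : Module.Free R W)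
      (_ : Module.Finite R W) (p : Z →ₗ[R] W) (w : End R W) (t₀ : End R (ker ι)),
      Function.Surjective p ∧ (∀ z, p z = 0 ↔ Nul ι z) ∧ (∀ z, p (g z) = w (p z)) ∧
      (∀ x, (t₀ x : T) = t x) ∧ ∀ j : ℕ, trace R Z (g ^ j) - trace R T (t ^ j) =
        trace R W (w ^ j) - trace R _ (t₀ ^ j) := by
  have hU : ∀ z ∈ na2b_U ι, g z ∈ na2b_U ι := fun z ⟨a, ha, x, hx⟩ =>
    ⟨a, ha, t x, by rw [hc, ← hx, map_smul]⟩
  have hI : ∀ z ∈ range ι, g z ∈ range ι := fun z ⟨x, hx⟩ => ⟨t x, by rw [hc, hx]⟩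
  have hK : ∀ x ∈ ker ι, t x ∈ ker ι := fun x hx => by
    rw [mem_ker] at hx ⊢
    rw [hc, hx, map_zero]
  have hle : range ι ≤ na2b_U ι := fun z ⟨x, hx⟩ => ⟨1, one_ne_zero, x, by rw [one_smul, hx]⟩
  have : Module.IsTorsionFree R (Z ⧸ na2b_U ι) := by
    refine .of_smul_eq_zero fun r w h => ?_
    obtain ⟨z, rfl⟩ := (na2b_U ι).mkQ_surjective w
    rw [← map_smul, Submodule.mkQ_apply, Submodule.Quotient.mk_eq_zero] at h
    obtain ⟨a, ha, x, hx⟩ := h
    refine or_iff_not_imp_left.2 fun hr => (Submodule.Quotient.mk_eq_zero _).2 ?_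
    exact ⟨a * r, mul_ne_zero ha hr, x, by rw [← hx, mul_smul]⟩
  obtain ⟨a, ha, hb⟩ := na2b_bound ι
  refine ⟨Z ⧸ na2b_U ι, inferInstance, inferInstance, inferInstance, inferInstance,
    (na2b_U ι).mkQ, (na2b_U ι).mapQ _ g hU, t.restrict hK, (na2b_U ι).mkQ_surjective,
    fun z => Submodule.Quotient.mk_eq_zero _, fun z => rfl, fun x => rfl, fun j => ?_⟩
  have h1 := tr3 (na2b_U ι).injective_subtype (na2b_U ι).mkQ_surjective
    (LinearMap.exact_subtype_mkQ _) (fA := g.restrict hU ^ j) (fB := g ^ j)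
    (fC := (na2b_U ι).mapQ (na2b_U ι) g hU ^ j)
    (fun x => (na2b_pow (i := (na2b_U ι).subtype) (g := g) (fun _ => rfl) j x).symm)
    (na2b_pow (i := (na2b_U ι).mkQ) (fun _ => rfl) j)
  have h2 := tr3 (ker ι).injective_subtype ι.surjective_rangeRestrict
    (LinearMap.exact_iff.2 (by rw [ker_rangeRestrict, Submodule.range_subtype]))
    (fA := t.restrict hK ^ j) (fB := t ^ j) (fC := g.restrict hI ^ j)
    (fun x => (na2b_pow (i := (ker ι).subtype) (g := t) (fun _ => rfl) j x).symm)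
    (na2b_pow (i := ι.rangeRestrict) (fun x => by exact Subtype.ext (hc x)) j)
  have h3 := na2b_tr (f := g.restrict hU ^ j) (t := g.restrict hI ^ j)
    (j := Submodule.inclusion hle)
    (m := (a • (na2b_U ι).subtype).codRestrict (range ι) fun z => hb z z.2) ha (fun _ => rfl)
    (fun _ => rfl) (na2b_pow (i := Submodule.inclusion hle) (fun _ => rfl) j)
  rw [h1, h2, h3]
  ring

end

end Pool.Agent.Lib.MP_16ef92_ag.AL
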