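import Mathlib
import Pool.Agent.Lib.MP_16ef92_ag.AL.E0

set_option autoImplicit false
set_option linter.unusedSectionVars false
set_option linter.unusedVariables false

namespace Pool.Agent.Lib.MP_16ef92_ag.AL.EC

open WeierstrassCurve Polynomial

noncomputable section

/-- A smooth cubic `y ^ 2 = x ^ 3 + a₂ x ^ 2 + a₄ x + a₆`. -/
structure Sh {R : Type} [CommRing R] (E : WeierstrassCurve R) : Prop where
  a₁ : E.a₁ = 0
  a₃ : E.a₃ = 0
  Δ : E.Δ ≠ 0

/-- The symmetric product of two points of the projective line. -/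
def sy {R : Type} [CommRing R] (a b c d : R) : Fin 3 → R := ![a * c, a * d + b * c, b * d]

/-- The addition and subtraction map. -/
def gv {R : Type} [CommRing R] (E : WeierstrassCurve R) (T : Fin 3 → R) : Fin 3 → R :=
  ![T 0 ^ 2 - E.b₄ * T 0 * T 2 - E.b₆ * T 1 * T 2 - E.b₈ * T 2 ^ 2,
    2 * T 1 * T 0 + E.b₂ * T 0 * T 2 + E.b₄ * T 1 * T 2 + E.b₆ * T 2 ^ 2,
    T 1 ^ 2 - 4 * T 0 * T 2]

theorem gv_eq {R : Type} [CommRing R] (E : WeierstrassCurve R) (T : Fin 3 → R) (i : Fin 3) :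
    gv E T i = MvPolynomial.eval T (addSubMap E i) := by
  fin_cases i <;> simp [gv, addSubMap]

theorem gv_map {R S : Type} [CommRing R] [CommRing S] (f : R →+* S) (E : WeierstrassCurve R)
    (T : Fin 3 → R) (i : Fin 3) : f (gv E T i) = gv (E.map f) (fun j => f (T j)) i := by
  fin_cases i <;> simp [gv, map_ofNat]

theorem gv_mul {R : Type} [CommRing R] (E : WeierstrassCurve R) (c : R) (T : Fin 3 → R)
    (i : Fin 3) : gv E (fun j => c * T j) i = c ^ 2 * gv E T i := by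
  fin_cases i <;> simp [gv] <;> ring

/-- `p` has degree at most `n` and coefficient `a` in degree `n`. -/
def Tp {K : Type} [Field K] (p : K[X]) (n : ℕ) (a : K) : Prop := p.natDegree ≤ n ∧ p.coeff n = a

/-- `u / v` is a reduced fraction with `u = X ^ N + ...` and `v = γ X ^ (N - 1) + ...`. -/
structure Nf {K : Type} [Field K] (u v : K[X]) (N : ℕ) (γ : K) : Prop where
  cop : IsCoprime u v
  tu : Tp u N 1
  tv : Tp (X * v) N γ

/-- Polynomials with coefficients in a subring. -/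
def PA {K : Type} [Field K] (A : Subring K) : Subring K[X] := (mapRingHom A.subtype).range

section
variable {K L : Type} [Field K] [Field L]

theorem Sh.map {E : WeierstrassCurve K} (h : Sh E) (σ : K →+* L) : Sh (E.map σ) :=
  ⟨by simp [h.a₁], by simp [h.a₃], by rw [map_Δ]; exact (_root_.map_ne_zero σ).2 h.Δ⟩

theorem Sh.two {E : WeierstrassCurve K} (h : Sh E) : (2 : K) ≠ 0 := fun h2 => h.Δ (by
  have h4 : (4 : K) = 0 := by linear_combination 2 * h2
  simp only [WeierstrassCurve.Δ, b₂, b₄, b₆, b₈, h.a₁, h.a₃]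
  linear_combination (-4 * E.a₂ ^ 2 * (4 * E.a₂ * E.a₆ - E.a₄ ^ 2) - 16 * E.a₄ ^ 3 -
    108 * E.a₆ ^ 2 + 72 * E.a₂ * E.a₄ * E.a₆) * h4)

theorem cub_map (E : WeierstrassCurve K) (σ : K →+* L) : cub (E.map σ) = (cub E).map σ := by
  simp [cub]

variable [DecidableEq K] [DecidableEq L] {E : Affine K} {E' : Affine L}

theorem xRep_of_ne {P : E.Point} (h : P ≠ 0) : P.xRep 0 = xc P ∧ P.xRep 1 = 1 := by
  rcases P with _ | ⟨x, y, n⟩
  · exact absurd rfl h
  · exact ⟨rfl, rfl⟩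

theorem xRep_zero' : (0 : E.Point).xRep 0 = 1 ∧ (0 : E.Point).xRep 1 = 0 := ⟨rfl, rfl⟩

theorem Sh.exists_pt [IsSepClosed K] (h : Sh E) (x : K) : ∃ P : E.Point, P ≠ 0 ∧ xc P = x := by
  have : NeZero ((2 : ℕ) : K) := ⟨by exact_mod_cast h.two⟩
  obtain ⟨y, hy⟩ := IsSepClosed.exists_pow_nat_eq ((cub E).eval x) 2
  obtain ⟨P, hP, hx, -⟩ := EC.exists_pt h.a₁ h.a₃ h.Δ hy
  exact ⟨P, hP, hx⟩

theorem Sh.two_tors (h : Sh E) {P : E.Point} (hP : P ≠ 0) :
    P = -P ↔ (cub E).eval (xc P) = 0 := by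
  rw [← yc_sq h.a₁ h.a₃ hP, pow_eq_zero_iff two_ne_zero]
  constructor
  · intro e
    have := congrArg yc e
    rw [yc_neg h.a₁ h.a₃] at this
    exact (mul_eq_zero.1 (by linear_combination this : 2 * yc P = 0)).resolve_left h.two
  · intro e
    exact pt_ext hP (neg_ne_zero.2 hP) (xc_neg P).symm (by rw [yc_neg h.a₁ h.a₃, e, neg_zero])

/-- `φ` applies `σ` to the coordinates. -/
structure IsMap (σ : K →+* L) (φ : E.Point →+ E'.Point) : Prop where
  ne : ∀ P, P ≠ 0 → φ P ≠ 0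
  x : ∀ P, xc (φ P) = σ (xc P)
  y : ∀ P, yc (φ P) = σ (yc P)

theorem exists_isMap (h : Sh E) (σ : K →+* L) (hE : E' = WeierstrassCurve.map E σ) :
    ∃ φ : E.Point →+ E'.Point, IsMap σ φ := by
  subst hE
  have h' := h.map σ
  have D : SpecData ⊤ (σ.comp (⊤ : Subring K).subtype) E (WeierstrassCurve.map E σ) :=
    ⟨fun _ => Or.inl trivial, fun _ _ => trivial, h.a₁, h.a₃, h'.a₁, h'.a₃, ⟨trivial, rfl⟩,
      ⟨trivial, rfl⟩, ⟨trivial, rfl⟩, h'.Δ⟩
  refine ⟨D.hom, fun P hP => (D.spec_of_mem hP trivial).1, fun P => ?_, fun P => ?_⟩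
  · by_cases hP : P = 0
    · rw [hP, map_zero, xc_zero, xc_zero, map_zero]
    · exact (D.spec_of_mem hP trivial).2.1
  · by_cases hP : P = 0
    · rw [hP, map_zero, yc_zero, yc_zero, map_zero]
    · exact (D.spec_of_mem hP trivial).2.2

theorem IsMap.inj {σ : K →+* L} {φ : E.Point →+ E'.Point} (h : IsMap σ φ) :
    Function.Injective φ :=
  (injective_iff_map_eq_zero φ).2 fun P hP => not_not.1 fun e => h.ne P e hP

theorem isMap_id : IsMap (RingHom.id K) (AddMonoidHom.id E.Point) :=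
  ⟨fun _ h => h, fun _ => rfl, fun _ => rfl⟩

theorem IsMap.mem_range {σ : K →+* L} {φ : E.Point →+ E'.Point} (h : IsMap σ φ) (hE : Sh E)
    (e : E' = WeierstrassCurve.map E σ) {P : E'.Point} :
    P ∈ φ.range ↔ xc P ∈ σ.range ∧ yc P ∈ σ.range := by
  refine ⟨?_, ?_⟩
  · rintro ⟨Q, rfl⟩
    exact ⟨⟨_, (h.x Q).symm⟩, _, (h.y Q).symm⟩
  · rintro ⟨⟨x, hx⟩, y, hy⟩
    by_cases hP : P = 0
    · exact hP ▸ zero_mem _
    subst e
    have h1 := yc_sq (hE.map σ).a₁ (hE.map σ).a₃ hP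
    rw [← hx, ← hy, cub_map, eval_map, eval₂_at_apply, ← map_pow] at h1
    obtain ⟨Q, q1, q2, q3⟩ := EC.exists_pt hE.a₁ hE.a₃ hE.Δ (σ.injective h1)
    exact ⟨Q, pt_ext (h.ne Q q1) hP (by rw [h.x, q2, hx]) (by rw [h.y, q3, hy])⟩

/-- Specialisation commutes with compatible field homomorphisms. -/
theorem SpecData.equiv {O : Subring K} {ev : O →+* L} (D : SpecData O ev E E') {σ : K →+* K}
    {τ : L →+* L} {φ : E.Point →+ E.Point} {ψ : E'.Point →+ E'.Point} (hφ : IsMap σ φ)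
    (hψ : IsMap τ ψ) (h1 : ∀ z, σ z ∈ O ↔ z ∈ O)
    (h2 : ∀ z (h : z ∈ O) (h' : σ z ∈ O), ev ⟨σ z, h'⟩ = τ (ev ⟨z, h⟩)) (P : E.Point) :
    D.hom (φ P) = ψ (D.hom P) := by
  by_cases h0 : P = 0
  · rw [h0, map_zero, map_zero, map_zero]
  by_cases hO : xc P ∈ O
  · have hO' : xc (φ P) ∈ O := by rw [hφ.x]; exact (h1 _).2 hO
    obtain ⟨s1, s2, s3⟩ := D.spec_of_mem h0 hO
    obtain ⟨t1, t2, t3⟩ := D.spec_of_mem (hφ.ne P h0) hO'
    refine pt_ext t1 (hψ.ne _ s1) ?_ ?_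
    · rw [hψ.x, D.hom_apply, D.hom_apply, t2, s2, ← h2 _ hO ((h1 _).2 hO)]
      exact congrArg ev (Subtype.ext (hφ.x P))
    · rw [hψ.y, D.hom_apply, D.hom_apply, t3, s3, ← h2 _ _ ((h1 _).2 (D.yc_mem hO))]
      exact congrArg ev (Subtype.ext (hφ.y P))
  · have hO' : xc (φ P) ∉ O := by rw [hφ.x]; exact fun h => hO ((h1 _).1 h)
    rw [D.hom_apply, D.hom_apply, D.spec_of_not_mem hO, D.spec_of_not_mem hO', map_zero]

end

section
variable {K Ω : Type} [Field K] [Field Ω] [Algebra K Ω] [DecidableEq Ω] {E : Affine Ω}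

/-- The abscissa of `R` is `u / v` evaluated at the abscissa of `G`. -/
def Rq (G R : E.Point) (u v : K[X]) : Prop :=
  ∃ c : Ω, aeval (xc G) u = c * R.xRep 0 ∧ aeval (xc G) v = c * R.xRep 1

/-- The abscissa of `ψ P` is `u / v` evaluated at the abscissa of `P`. -/
def Sp (ψ : E.Point →+ E.Point) (u v : K[X]) : Prop :=
  ∀ P, P ≠ 0 → (ψ P).xRep 0 * aeval (xc P) v = (ψ P).xRep 1 * aeval (xc P) u

end

section
variable {K k Ω : Type} [Field K] [Field k] [Field Ω] [Algebra K k] [Algebra k Ω] [Algebra K Ω]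
  [DecidableEq k] [DecidableEq Ω] {E' : Affine Ω}

/-- A generic point. -/
structure Gs (W : WeierstrassCurve K) (E : Affine k) (G : E'.Point) : Prop where
  sh : Sh W
  eq : E = W.map (algebraMap K k)
  eq' : E' = W.map (algebraMap K Ω)
  ne : G ≠ 0
  tr : Transcendental k (xc G)
  alg : ∀ z : Ω, Transcendental k z → ∀ w : Ω, IsAlgebraic (Algebra.adjoin k {z}) w

/-- `R` specialises to the image under `ψ` of the specialisation of `G`. -/
def Cp {E : Affine k} (G R : E'.Point) (ψ : E.Point →+ E.Point) : Prop :=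
  ∀ (O : Subring Ω) (ev : O →+* k) (D : SpecData O ev E' E), D.hom R = ψ (D.hom G)

end

end

end Pool.Agent.Lib.MP_16ef92_ag.AL.EC
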