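import Mathlib
import Pool.Agent.Lib.MP_16ef92_ag.Loc

set_option autoImplicit false
set_option linter.unusedSectionVars false
set_option linter.unusedVariables false

namespace Pool.Agent.Lib.MP_16ef92_ag.AL

open Polynomial

noncomputable section

variable {F : Type} [Field F] [Fintype F] [Clos F] {W : WeierstrassCurve (RatFunc F)}

/-- Membership in the `l`-adic Tate module. -/
def InT (l : ℕ) (P : ℕ → Pt W) : Prop := P 0 = 0 ∧ ∀ n, l • P (n + 1) = P n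

/-- Continuous cocycles of the geometric Galois group with values in the Tate module. -/
structure Coc (l : ℕ) (c : Gam F → ℕ → Pt W) : Prop where
  mem : ∀ g ∈ Geo F, InT l (c g)
  mul : ∀ g ∈ Geo F, ∀ h ∈ Geo F, c (g * h) = c g + act g (c h)
  near : ∀ n, Near fun g => g ∈ Geo F → c g n = 0

/-- The class is torsion. -/
def Null (l : ℕ) (c : Gam F → ℕ → Pt W) : Prop :=
  ∃ (j : ℕ) (m : ℕ → Pt W), InT l m ∧ ∀ g ∈ Geo F, l ^ j • c g = act g m - m

/-- The action of an `l`-adic integer. -/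
def zs {l : ℕ} [Fact l.Prime] (a : ℤ_[l]) (c : Gam F → ℕ → Pt W) : Gam F → ℕ → Pt W :=
  fun g n => (PadicInt.toZModPow n a).val • c g n

/-- Modulo torsion the kernel of `(s - 1) ^ 2` lies in the span of one fixed class. -/
def SimpleL (l : ℕ) [Fact l.Prime] (W : WeierstrassCurve (RatFunc F)) (s : Gam F) : Prop :=
  ∃ c₀ : Gam F → ℕ → Pt W, Coc l c₀ ∧ Null l (subOne s c₀) ∧
    ∀ c : Gam F → ℕ → Pt W, Coc l c → Null l (subOne s (subOne s c)) →
      ∃ a b : ℤ_[l], a ≠ 0 ∧ Null l (zs a c + zs b c₀)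

/-- The interface between etale cohomology and Galois cocycles. -/
structure BIntL (l : ℕ) (W : WeierstrassCurve (RatFunc F)) (s : Gam F) (H : ℕ → Type)
    [∀ n, AddCommGroup (H n)] (sq : ∀ n, H (n + 1) → H n) (fr : ∀ n, H n → H n)
    (Cl : ∀ n, H n → (Gam F → Pt W) → Prop) : Prop where
  total : ∀ n x, ∃ c, Cl n x c
  tors : ∀ n x c, Cl n x c → ∀ g ∈ Geo F, l ^ n • c g = 0
  mul : ∀ n x c, Cl n x c → ∀ g ∈ Geo F, ∀ h ∈ Geo F, c (g * h) = c g + pm g (c h)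
  near : ∀ n x c, Cl n x c → Near fun g => g ∈ Geo F → c g = 0
  sub : ∀ n x c x' c', Cl n x c → Cl n x' c' → Cl n (x - x') (c - c')
  zero : ∀ n c, Cl n 0 c → ∃ P, l ^ n • P = 0 ∧ ∀ g ∈ Geo F, c g = pm g P - P
  inj : ∀ n x c P, Cl n x c → l ^ n • P = 0 → (∀ g ∈ Geo F, c g = pm g P - P) → x = 0
  sq : ∀ n x c, Cl (n + 1) x c → Cl n (sq n x) (l • c)
  act : ∀ n x c, Cl n x c → Cl n (fr n x) fun g => pm s (c (s⁻¹ * g * s))

/-- Coordinates on the Tate module. -/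
structure TM (l : ℕ) [Fact l.Prime] (W : WeierstrassCurve (RatFunc F)) where
  ro : Gam F →* Module.End ℤ_[l] (Fin 2 → ℤ_[l])
  ev : (Fin 2 → ℤ_[l]) →+ ℕ → Pt W
  mem : ∀ x, InT l (ev x)
  surj : ∀ P, InT l P → ∃ x, ev x = P
  lvl : ∀ n (P : Pt W), l ^ n • P = 0 → ∃ x, ev x n = P
  zero : ∀ n x, ev x n = 0 ↔ ∀ i, (l : ℤ_[l]) ^ n ∣ x i
  equiv : ∀ g x, ev (ro g x) = act g (ev x)

/-- Good reduction outside the zeros of `N` and infinity, with integral traces `a`. -/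
structure TM.Good {l : ℕ} [Fact l.Prime] (T : TM l W) (N : F[X]) (a : kk F → ℕ → ℤ) : Prop where
  unr : ∀ c : kk F, aeval c N ≠ 0 → ∀ O, Over O (some c) → ∀ g ∈ Ine O, T.ro g = 1
  tr : ∀ c : kk F, aeval c N ≠ 0 → ∀ O, Over O (some c) → ∀ f ∈ St O, ∀ r, 0 < r →
    Fr f (Fintype.card F ^ r) → LinearMap.trace _ _ (T.ro f) = a c r
  wt : ∀ c : kk F, aeval c N ≠ 0 → ∀ O, Over O (some c) → ∀ f ∈ St O, ∀ r, 0 < r →
    Fr f (Fintype.card F ^ r) → ∀ x,
      (T.ro f x = x ∨ T.ro f x = (Fintype.card F : ℤ_[l]) ^ r • x) → x = 0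

end

end Pool.Agent.Lib.MP_16ef92_ag.AL
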