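import Mathlib
import Pool.Agent.Lib.MP_16ef92_ag.AL.IDef
import Pool.Agent.Lib.MP_16ef92_ag.AL.EDef

set_option autoImplicit false
set_option linter.unusedSectionVars false
set_option linter.unusedVariables false

namespace Pool.Agent.Lib.MP_16ef92_ag.AL

open Polynomial WeierstrassCurve EC

noncomputable section

variable {F : Type} [Field F] [Fintype F] [Clos F] [hq : Fact (Odd (Fintype.card F))]

/-- The fibre at a constant. -/
def fib (A B D : F[X]) (c : kk F) : Affine (kk F) :=
  ⟨0, -(aeval c (D * A) + aeval c (D * B)), 0, aeval c (D * A) * aeval c (D * B), 0⟩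

theorem e7_sh {K : Type} [Field K] (h2 : (2 : K) ≠ 0) {a b d : K} (h : a * b * (a - b) * d ≠ 0) :
    Sh (⟨0, -(d * a + d * b), 0, d * a * (d * b), 0⟩ : WeierstrassCurve K) := by
  refine ⟨rfl, rfl, fun e => mul_ne_zero (pow_ne_zero 4 h2) (mul_ne_zero (pow_ne_zero 2 h)
    (pow_ne_zero 4 (right_ne_zero_of_mul h))) ?_⟩
  simp only [WeierstrassCurve.Δ, b₂, b₄, b₆, b₈] at e
  linear_combination e

theorem sh_curve {A B D : F[X]} (h0 : A * B * (A - B) * D ≠ 0) : Sh (curve A B D) := by
  have h := (map_ne_zero_iff _ (IsFractionRing.injective F[X] (RatFunc F))).2 h0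
  have h2 := (map_ne_zero (algebraMap F (RatFunc F))).2 (two_neF (F := F))
  simp only [map_mul, map_sub] at h
  simp only [curve, map_mul]
  exact e7_sh (by rwa [map_ofNat] at h2) h

theorem sh_fib {A B D : F[X]} {c : kk F} (hc : aeval c (A * B * (A - B) * D) ≠ 0) :
    Sh (fib A B D c) := by
  simp only [map_mul, map_sub] at hc
  simp only [fib, map_mul]
  exact e7_sh (fun e => two_ne (F := F) (congrArg Subtype.val e)) hc

theorem fib_frob {A B D : F[X]} {c : kk F} {r : ℕ} (hc : c ^ Fintype.card F ^ r = c)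
    {σ : kk F →+* kk F} (hσ : ∀ z, σ z = z ^ Fintype.card F ^ r) :
    fib A B D c = WeierstrassCurve.map (fib A B D c) σ := by
  let f : kk F →ₐ[F] kk F := { σ with
    commutes' := fun a => (hσ _).trans (by rw [← map_pow, FiniteField.pow_card_pow]) }
  have h : ∀ p : F[X], σ (aeval c p) = aeval c p := fun p =>
    (aeval_algHom_apply f c p).symm.trans (congrArg (aeval · p) ((hσ c).trans hc))
  ext <;> simp only [fib, WeierstrassCurve.map, map_zero, map_neg, map_add, map_mul (f := σ), h]

theorem isMap_pm {W : WeierstrassCurve (RatFunc F)} (g : Gam F) :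
    IsMap (g : Om F →+* Om F) (pm (W := W) g) := by
  refine ⟨fun P h => ?_, fun P => ?_, fun P => ?_⟩
  · exact (map_ne_zero_iff _ (Affine.Point.map_injective _)).2 h
  · cases P
    · exact (map_zero (g : Om F →+* Om F)).symm
    · rfl
  · cases P
    · exact (map_zero (g : Om F →+* Om F)).symm
    · rfl

theorem fix_of_st {O : ValuationSubring (Om F)} {c : kk F} (hO : Over O (some c)) {f : Gam F}
    (hf : f ∈ St O) {Q : ℕ} (hQ : Fr f Q) : c ^ Q = c := by
  have h0 : O.valuation (tt F - c) < 1 := hO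
  have h1 := st_lt hf h0
  rw [map_sub, gam_tt, hQ] at h1
  have h2 := Valuation.map_sub_lt _ h0 h1
  rw [sub_sub_sub_cancel_left] at h2
  exact const_eq O h2

theorem e7_ev {O : ValuationSubring (Om F)} {x : Option (kk F)} (hO : Over O x) :
    ∃ ev : O.toSubring →+* kk F, ∀ z : O.toSubring, O.valuation ((z : Om F) - ev z) < 1 := by
  choose e he using fun z : O.toSubring => hO.res z.2
  have hu : ∀ (z : O.toSubring) (d : kk F), O.valuation ((z : Om F) - d) < 1 → e z = d :=
    fun z d h => const_eq O (by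
      have := Valuation.map_sub_lt _ h (he z)
      rwa [sub_sub_sub_cancel_left] at this)
  refine ⟨⟨⟨⟨e, hu _ _ (by simp)⟩, fun a b => hu _ _ ?_⟩, hu _ _ (by simp),
    fun a b => hu _ _ ?_⟩, he⟩
  · have := Valuation.map_add_lt _ (val_mul_lt O ((O.valuation_le_one_iff _).2 a.2) (he b))
      (val_mul_lt O (val_const_le O (e b)) (he a))
    rwa [show (a : Om F) * (b - e b) + e b * (a - e a) = (a * b : O.toSubring) - (e a * e b : kk F) by
      push_cast; ring] at this
  · have := Valuation.map_add_lt _ (he a) (he b)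
    rwa [show (a : Om F) - e a + (b - e b) = (a + b : O.toSubring) - (e a + e b : kk F) by
      push_cast; ring] at this

variable [DecidableEq (kk F)]

/-- Good reduction. -/
theorem exists_spec {A B D : F[X]} {c : kk F} (hc : aeval c (A * B * (A - B) * D) ≠ 0)
    {O : ValuationSubring (Om F)} (hO : Over O (some c)) :
    ∃ (ev : O.toSubring →+* kk F) (S : SpecData O.toSubring ev
      ((curve A B D).baseChange (Om F)).toAffine (fib A B D c)),
      (∀ g ∈ Ine O, ∀ P, S.hom (pm g P) = S.hom P) ∧
      ∀ f ∈ St O, ∀ Q, Fr f Q → ∀ (σ : kk F →+* kk F) (φ : (fib A B D c).Point →+ _),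
        (∀ z, σ z = z ^ Q) → IsMap σ φ → ∀ P, S.hom (pm f P) = φ (S.hom P) := by
  obtain ⟨ev, he⟩ := e7_ev hO
  have hu : ∀ (z : O.toSubring) (d : kk F), O.valuation ((z : Om F) - d) < 1 → ev z = d :=
    fun z d h => const_eq O (by
      have := Valuation.map_sub_lt _ h (he z)
      rwa [sub_sub_sub_cancel_left] at this)
  have hp : ∀ p : F[X], ∃ h : aeval (tt F) p ∈ O.toSubring, ev ⟨_, h⟩ = aeval c p := fun p => by
    have h1 := poly_sub O hO (p.map (algebraMap F (kk F)))
    rw [aeval_map_algebraMap, eval_map_algebraMap] at h1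
    have h2 := Valuation.map_add_le O.valuation h1.le (val_const_le O (aeval c p))
    rw [sub_add_cancel] at h2
    exact ⟨(O.valuation_le_one_iff _).1 h2, hu _ _ h1⟩
  have e2 : ((curve A B D).baseChange (Om F)).a₂ = aeval (tt F) (-(D * A + D * B)) := by
    rw [← rf_eq]
    simp [curve]
  have e4 : ((curve A B D).baseChange (Om F)).a₄ = aeval (tt F) (D * A * (D * B)) := by
    rw [← rf_eq]
    simp [curve]
  have e6 : ((curve A B D).baseChange (Om F)).a₆ = aeval (tt F) (0 : F[X]) := by simp [curve]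
  have S : SpecData O.toSubring ev ((curve A B D).baseChange (Om F)).toAffine (fib A B D c) := by
    refine ⟨O.mem_or_inv_mem, fun z hz => ?_, by simp [curve], by simp [curve], rfl, rfl, ?_, ?_,
      ?_, (sh_fib hc).Δ⟩
    · refine (O.valuation_le_one_iff _).1 ?_
      rw [map_inv₀, val_one_of_sub O (val_const O hz) (he z), inv_one]
    · simp only [e2]
      exact (hp _).imp fun _ h => h.trans (by rw [map_neg, map_add]; rfl)
    · simp only [e4]
      exact (hp _).imp fun _ h => h.trans (map_mul _ _ _)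
    · simp only [e6]
      exact (hp _).imp fun _ h => h.trans (map_zero _)
  refine ⟨ev, S, fun g hg P => S.equiv (isMap_pm g) isMap_id hg.2 (fun z h h' => hu _ _ ?_) P,
    fun f hf Q hQ σ φ hσ hφ P => S.equiv (isMap_pm f) hφ hf (fun z h h' => hu _ _ ?_) P⟩
  · have h1 := st_lt hg.2 (he ⟨z, h⟩)
    rwa [map_sub, geo_fix hg.1] at h1
  · have h1 := st_lt hf (he ⟨z, h⟩)
    rw [map_sub, hQ] at h1
    rw [hσ]
    exact h1

end

end Pool.Agent.Lib.MP_16ef92_ag.AL
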