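import Mathlib
import Pool.Agent.Lib.MP_16ef92_ag.AL.EDef

set_option autoImplicit false
set_option linter.unusedSectionVars false
set_option linter.unusedVariables false

namespace Pool.Agent.Lib.MP_16ef92_ag.AL.EC

open WeierstrassCurve Polynomial

noncomputable section

variable {K : Type} [Field K] [DecidableEq K] {E : Affine K}

theorem e1_add (h : Sh E) {P Q : E.Point} (hP : P ≠ 0) (hQ : Q ≠ 0) (hR : P + Q ≠ 0) : ∃ l : K,
    yc Q - yc P = l * (xc Q - xc P) ∧ l * (yc P + yc Q) =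
      xc P ^ 2 + xc P * xc Q + xc Q ^ 2 + E.a₂ * (xc P + xc Q) + E.a₄ ∧
      xc (P + Q) = l ^ 2 - E.a₂ - xc P - xc Q := by
  obtain ⟨l, m, a, b, -, c, d, -⟩ :=
    (add3_iff h.a₁ h.a₃ hP hQ (neg_ne_zero.2 hR)).1 (add_neg_cancel _)
  rw [xc_neg] at c d
  exact ⟨l, by linear_combination b - a,
    by linear_combination l * a + l * b - (xc P + xc Q) * c + d, by linear_combination c⟩

theorem e1_dbl (h : Sh E) {P : E.Point} (hP : P ≠ 0) : ∃ c : K, ∀ i,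
    gv E (sy (xc P) 1 (xc P) 1) i = c * ![(P + P).xRep 0, (P + P).xRep 1, 0] i := by
  have e := yc_sq h.a₁ h.a₃ hP
  by_cases z : P + P = 0
  · have f := (h.two_tors hP).1 (add_eq_zero_iff_eq_neg.1 z)
    rw [eval_cub] at f
    refine ⟨gv E (sy (xc P) 1 (xc P) 1) 0, fun i => ?_⟩
    fin_cases i <;> simp [z, gv, sy, b₂, b₄, b₆, h.a₁, h.a₃]
    · linear_combination 4 * f
    · ring
  · obtain ⟨l, -, a, b⟩ := e1_add h hP hP z
    rw [eval_cub] at e
    refine ⟨4 * yc P ^ 2, fun i => ?_⟩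
    rw [(xRep_of_ne z).1, (xRep_of_ne z).2, b]
    fin_cases i <;> simp [gv, sy, b₂, b₄, b₆, b₈, h.a₁, h.a₃]
    · linear_combination -(2 * l * yc P + 3 * xc P ^ 2 + 2 * E.a₂ * xc P + E.a₄) * a +
        4 * (E.a₂ + 2 * xc P) * e
    · linear_combination -4 * e
    · ring

/-- The addition and subtraction map does what it should. -/
theorem addSub (h : Sh E) (P Q : E.Point) : ∃ c : K, ∀ i,
    gv E (sy (P.xRep 0) (P.xRep 1) (Q.xRep 0) (Q.xRep 1)) i =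
      c * sy ((P + Q).xRep 0) ((P + Q).xRep 1) ((P - Q).xRep 0) ((P - Q).xRep 1) i := by
  by_cases hP : P = 0
  · refine ⟨1, fun i => ?_⟩
    fin_cases i <;> simp [hP, gv, sy] <;> ring
  by_cases hQ : Q = 0
  · refine ⟨1, fun i => ?_⟩
    fin_cases i <;> simp [hQ, gv, sy] <;> ring
  rw [(xRep_of_ne hP).1, (xRep_of_ne hP).2, (xRep_of_ne hQ).1, (xRep_of_ne hQ).2]
  by_cases h1 : P - Q = 0
  · obtain rfl := sub_eq_zero.1 h1
    obtain ⟨c, hc⟩ := e1_dbl h hP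
    exact ⟨c, fun i => by rw [hc, h1]; simp [sy]⟩
  by_cases h2 : P + Q = 0
  · obtain rfl := eq_neg_of_add_eq_zero_right h2
    obtain ⟨c, hc⟩ := e1_dbl h hP
    exact ⟨c, fun i => by rw [xc_neg, hc, h2, sub_neg_eq_add]; simp [sy]⟩
  obtain ⟨l, a1, a2, a3⟩ := e1_add h hP hQ h2
  rw [(xRep_of_ne h1).1, (xRep_of_ne h1).2, (xRep_of_ne h2).1, (xRep_of_ne h2).2]
  rw [sub_eq_add_neg] at h1 ⊢
  obtain ⟨m, b1, -, b3⟩ := e1_add h hP (neg_ne_zero.2 hQ) h1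
  have e := yc_sq h.a₁ h.a₃ hP
  have e' := yc_sq h.a₁ h.a₃ hQ
  rw [eval_cub] at e e'
  rw [xc_neg, yc_neg h.a₁ h.a₃] at b1
  rw [a3, b3, xc_neg]
  generalize xc P = x at *
  generalize xc Q = x' at *
  generalize yc P = y at *
  generalize yc Q = y' at *
  have k1 : l * m * (x' - x) + (x ^ 2 + x * x' + x' ^ 2 + E.a₂ * (x + x') + E.a₄) = 0 := by
    linear_combination -l * b1 - a2
  have k2 : (x' - x) ^ 2 * (l ^ 2 + m ^ 2) = 2 * y ^ 2 + 2 * y' ^ 2 := by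
    linear_combination -(y' - y + l * (x' - x)) * a1 - (-y' - y + m * (x' - x)) * b1
  refine ⟨(x' - x) ^ 2, fun i => ?_⟩
  fin_cases i <;> simp [gv, sy, b₂, b₄, b₆, b₈, h.a₁, h.a₃]
  · linear_combination -(l * m * (x' - x) - (x ^ 2 + x * x' + x' ^ 2 + E.a₂ * (x + x') + E.a₄)) * k1 +
      (E.a₂ + x + x') * (k2 + 2 * e + 2 * e')
  · linear_combination -k2 - 2 * e - 2 * e'
  · ring

end

end Pool.Agent.Lib.MP_16ef92_ag.AL.EC
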