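import Mathlib
import Pool.Agent.Lib.MP_16ef92_ag.AL.EDef

set_option autoImplicit false
set_option linter.unusedSectionVars false
set_option linter.unusedVariables false

namespace Pool.Agent.Lib.MP_16ef92_ag.AL.EC

open WeierstrassCurve Polynomial

noncomputable section

variable {K : Type} [Field K]

theorem e2_um_sy {R : Type} [CommRing R] {a b c d : R} (h₁ : IsCoprime a b) (h₂ : IsCoprime c d) :
    ∃ w : Fin 3 → R, ∑ i, w i * sy a b c d i = 1 := by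
  obtain ⟨p, q, h₁⟩ := h₁
  obtain ⟨r, s, h₂⟩ := h₂
  refine ⟨![p * r + (p * s - q * r) * r * d, q * r + (p * s - q * r) * s * d,
    q * s - (p * s - q * r) * s * c], ?_⟩
  simp only [sy, Fin.sum_univ_three, Matrix.cons_val]
  linear_combination (r * c + s * d) * h₁ + (1 + (p * s - q * r) * a * d) * h₂

theorem e2_um_gv {R : Type} [CommRing R] (E : WeierstrassCurve R) [E.IsElliptic] {T : Fin 3 → R}
    (h : ∃ w : Fin 3 → R, ∑ i, w i * T i = 1) : ∃ w : Fin 3 → R, ∑ i, w i * gv E T i = 1 := by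
  obtain ⟨w, hw⟩ := h
  rw [← Ideal.mem_span_range_iff_exists_fun, ← Ideal.eq_top_iff_one, ← Ideal.radical_eq_top,
    Ideal.eq_top_iff_one, ← hw]
  refine Ideal.sum_mem _ fun i _ => Ideal.mul_mem_left _ _ ⟨4, ?_⟩
  rw [← addSubMapCoeff_condition E T i]
  exact Ideal.sum_mem _ fun j _ => Ideal.mul_mem_left _ _ (Ideal.subset_span ⟨j, gv_eq E T j⟩)

theorem e2_prop {R : Type} [CommRing R] {G S : Fin 3 → R}
    (hG : ∃ w : Fin 3 → R, ∑ i, w i * G i = 1) (hS : ∃ w : Fin 3 → R, ∑ i, w i * S i = 1)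
    (h : ∀ i j, G i * S j = G j * S i) : ∃ w, IsUnit w ∧ ∀ i, S i = w * G i := by
  obtain ⟨c, hc⟩ := hG
  obtain ⟨d, hd⟩ := hS
  have h1 : ∀ i, S i = (∑ j, c j * S j) * G i := fun i => by
    rw [← one_mul (S i), ← hc, Finset.sum_mul, Finset.sum_mul]
    exact Finset.sum_congr rfl fun j _ => by linear_combination c j * h j i
  refine ⟨_, IsUnit.of_mul_eq_one (∑ i, d i * G i) ?_, h1⟩
  rw [← hd, Finset.mul_sum]
  exact Finset.sum_congr rfl fun i _ => by linear_combination -d i * h1 i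

section
variable {p q : K[X]} {n m : ℕ} {a b : K}

theorem e2_mul (hp : Tp p n a) (hq : Tp q m b) : Tp (p * q) (n + m) (a * b) :=
  ⟨natDegree_mul_le_of_le hp.1 hq.1, by rw [coeff_mul_add_eq_of_natDegree_le hp.1 hq.1, hp.2, hq.2]⟩

theorem e2_add (hp : Tp p n a) (hq : Tp q n b) : Tp (p + q) n (a + b) :=
  ⟨natDegree_add_le_of_degree_le hp.1 hq.1, by rw [coeff_add, hp.2, hq.2]⟩

theorem e2_C (c : K) (hp : Tp p n a) : Tp (C c * p) n (c * a) :=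
  ⟨(natDegree_C_mul_le c p).trans hp.1, by rw [coeff_C_mul, hp.2]⟩

theorem e2_eq (hp : Tp p n a) (h1 : p = q) (h2 : a = b) : Tp q n b := h1 ▸ h2 ▸ hp

theorem e2_lt (hp : Tp p n a) (h : n < m) : Tp p m 0 :=
  ⟨hp.1.trans h.le, coeff_eq_zero_of_natDegree_lt (hp.1.trans_lt h)⟩

theorem e2_unX (hp : Tp (X * p) n a) : Tp p n 0 := by
  by_cases h : p = 0
  · simp [Tp, h]
  · exact e2_lt ⟨le_rfl, rfl⟩ (by have := hp.1; rw [natDegree_X_mul h] at this; omega)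

theorem e2_X (hp : Tp p n 0) : ∃ g, Tp (X * p) n g := by
  refine ⟨_, ?_, rfl⟩
  by_cases h : p = 0
  · simp [h]
  · rw [natDegree_X_mul h]
    exact hp.1.lt_of_ne fun e => leadingCoeff_ne_zero.2 h (by rw [leadingCoeff, e, hp.2])

theorem e2_top (h : IsCoprime p q) : ∃ d a b, Tp p d a ∧ Tp q d b ∧ (a ≠ 0 ∨ b ≠ 0) := by
  refine ⟨max p.natDegree q.natDegree, _, _, ⟨le_max_left _ _, rfl⟩, ⟨le_max_right _ _, rfl⟩, ?_⟩
  by_cases hp : p = 0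
  · subst hp
    rw [natDegree_zero, max_eq_right (Nat.zero_le _)]
    exact Or.inr (leadingCoeff_ne_zero.2 fun hq => not_isCoprime_zero_zero (hq ▸ h))
  by_cases hq : q = 0
  · rw [hq, natDegree_zero, max_eq_left (Nat.zero_le _)]
    exact Or.inl (leadingCoeff_ne_zero.2 hp)
  rcases le_total p.natDegree q.natDegree with e | e
  · rw [max_eq_right e]
    exact Or.inr (leadingCoeff_ne_zero.2 hq)
  · rw [max_eq_left e]
    exact Or.inl (leadingCoeff_ne_zero.2 hp)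

end

theorem e2_sy {u v u' v' : K[X]} {N N' : ℕ} {γ γ' : K} (h : Nf u v N γ) (h' : Nf u' v' N' γ') :
    Tp (sy u v u' v' 0) (N + N') 1 ∧ Tp (X * sy u v u' v' 1) (N + N') (γ + γ') ∧
      Tp (X * (X * sy u v u' v' 2)) (N + N') (γ * γ') :=
  ⟨e2_eq (e2_mul h.tu h'.tu) rfl (one_mul 1),
    e2_eq (e2_add (e2_mul h.tu h'.tv) (e2_mul h.tv h'.tu)) (by simp [sy]; ring) (by ring),
    e2_eq (e2_mul h.tv h'.tv) (by simp [sy]; ring) rfl⟩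

theorem e2_gv (E : WeierstrassCurve K) {T : Fin 3 → K[X]} {n : ℕ} {s t : K} (h0 : Tp (T 0) n 1)
    (h1 : Tp (X * T 1) n s) (h2 : Tp (X * (X * T 2)) n t) :
    Tp (gv (E.map C) T 0) (n + n) 1 ∧ Tp (X * gv (E.map C) T 1) (n + n) (2 * s) ∧
      Tp (X * (X * gv (E.map C) T 2)) (n + n) (s ^ 2 - 4 * t) := by
  have h3 := e2_unX h1
  have h4 := e2_unX h2
  have h5 := e2_unX h4
  refine ⟨e2_eq (e2_add (e2_add (e2_add (e2_mul h0 h0) (e2_C (-E.b₄) (e2_mul h0 h5)))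
      (e2_C (-E.b₆) (e2_mul h3 h5))) (e2_C (-E.b₈) (e2_mul h5 h5))) ?_ (by ring),
    e2_eq (e2_add (e2_add (e2_add (e2_C 2 (e2_mul h1 h0)) (e2_C E.b₂ (e2_mul h0 h4)))
      (e2_C E.b₄ (e2_mul h3 h4))) (e2_C E.b₆ (e2_mul h5 h4))) ?_ (by ring),
    e2_eq (e2_add (e2_mul h1 h1) (e2_C (-4) (e2_mul h0 h2))) ?_ (by ring)⟩ <;>
  simp only [gv, map_b₂, map_b₄, map_b₆, map_b₈, map_neg, map_ofNat, Matrix.cons_val] <;> ring

/-- The parallelogram law for reduced fractions. -/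
theorem par_poly {E : WeierstrassCurve K} (hE : E.Δ ≠ 0) {u₁ v₁ u₂ v₂ u₃ v₃ u₄ v₄ : K[X]}
    {N₁ N₂ : ℕ} {γ₁ γ₂ : K} (h₁ : Nf u₁ v₁ N₁ γ₁) (h₂ : Nf u₂ v₂ N₂ γ₂) (c₃ : IsCoprime u₃ v₃)
    (c₄ : IsCoprime u₄ v₄)
    (h : ∀ i j, gv (E.map C) (sy u₁ v₁ u₂ v₂) i * sy u₃ v₃ u₄ v₄ j =
      gv (E.map C) (sy u₁ v₁ u₂ v₂) j * sy u₃ v₃ u₄ v₄ i) :
    ∃ (a b : K) (N₃ N₄ : ℕ) (γ₃ γ₄ : K), Nf (C a * u₃) (C a * v₃) N₃ γ₃ ∧
      Nf (C b * u₄) (C b * v₄) N₄ γ₄ ∧ N₃ + N₄ = 2 * N₁ + 2 * N₂ ∧ γ₃ + γ₄ = 2 * γ₁ + 2 * γ₂ ∧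
      γ₃ * γ₄ = (γ₁ - γ₂) ^ 2 ∧
      sy (C a * u₃) (C a * v₃) (C b * u₄) (C b * v₄) = gv (E.map C) (sy u₁ v₁ u₂ v₂) := by
  have : (E.map (C : K →+* K[X])).IsElliptic := ⟨by rw [map_Δ]; exact (Ne.isUnit hE).map C⟩
  obtain ⟨w, hw, hS⟩ := e2_prop (e2_um_gv _ (e2_um_sy h₁.cop h₂.cop)) (e2_um_sy c₃ c₄) h
  obtain ⟨c, hc, rfl⟩ := Polynomial.isUnit_iff.1 hw
  have hc0 := hc.ne_zero
  obtain ⟨t0, t1, t2⟩ := e2_sy h₁ h₂
  obtain ⟨g0, g1, g2⟩ := e2_gv E t0 t1 t2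
  obtain ⟨d₃, a₃, b₃, p₃, q₃, n₃⟩ := e2_top c₃
  obtain ⟨d₄, a₄, b₄, p₄, q₄, n₄⟩ := e2_top c₄
  have s0 : Tp (sy u₃ v₃ u₄ v₄ 0) _ _ := e2_mul p₃ p₄
  have s1 : Tp (sy u₃ v₃ u₄ v₄ 1) _ _ := e2_add (e2_mul p₃ q₄) (e2_mul q₃ p₄)
  have s2 : Tp (sy u₃ v₃ u₄ v₄ 2) _ _ := e2_mul q₃ q₄
  have r0 := e2_eq (e2_C c g0) (hS 0).symm (mul_one c)
  have r1 := e2_eq (e2_C c (e2_unX g1)) (hS 1).symm (mul_zero c)
  have r2 := e2_eq (e2_C c (e2_unX (e2_unX g2))) (hS 2).symm (mul_zero c)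
  have hd : d₃ + d₄ = N₁ + N₂ + (N₁ + N₂) := by
    refine le_antisymm (not_lt.1 fun hl => ?_) ((le_natDegree_of_ne_zero (r0.2 ▸ hc0)).trans s0.1)
    have e0 := s0.2.symm.trans (e2_lt r0 hl).2
    have e1 := s1.2.symm.trans (e2_lt r1 hl).2
    have e2 := s2.2.symm.trans (e2_lt r2 hl).2
    rcases n₃ with n₃ | n₃ <;> rcases n₄ with n₄ | n₄
    · exact mul_ne_zero n₃ n₄ e0
    · rw [(mul_eq_zero.1 e0).resolve_left n₃, mul_zero, add_zero] at e1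
      exact mul_ne_zero n₃ n₄ e1
    · rw [(mul_eq_zero.1 e0).resolve_right n₄, zero_mul, zero_add] at e1
      exact mul_ne_zero n₃ n₄ e1
    · exact mul_ne_zero n₃ n₄ e2
  rw [← hd] at r0 r1 r2 g1 g2
  have e0 := s0.2.symm.trans r0.2
  have e1 := s1.2.symm.trans r1.2
  have e2 := s2.2.symm.trans r2.2
  have m₃ : a₃ ≠ 0 := left_ne_zero_of_mul (e0 ▸ hc0)
  have m₄ : a₄ ≠ 0 := right_ne_zero_of_mul (e0 ▸ hc0)
  obtain ⟨rfl, rfl⟩ : b₃ = 0 ∧ b₄ = 0 := by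
    rcases mul_eq_zero.1 e2 with e | e
    · rw [e, zero_mul, add_zero] at e1
      exact ⟨e, (mul_eq_zero.1 e1).resolve_left m₃⟩
    · rw [e, mul_zero, zero_add] at e1
      exact ⟨(mul_eq_zero.1 e1).resolve_right m₄, e⟩
  have nf : ∀ {u v : K[X]} {d : ℕ} {a : K}, IsCoprime u v → Tp u d a → Tp v d 0 → a ≠ 0 →
      ∃ γ, Nf (C a⁻¹ * u) (C a⁻¹ * v) d γ := fun {u v d a} h1 h2 h3 h4 =>
    (e2_X (e2_eq (e2_C a⁻¹ h3) rfl (mul_zero _))).imp fun γ h5 =>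
      ⟨(isCoprime_mul_unit_left ((Ne.isUnit (inv_ne_zero h4)).map C) u v).2 h1,
        e2_eq (e2_C a⁻¹ h2) rfl (inv_mul_cancel₀ h4), h5⟩
  obtain ⟨γ₃, f₃⟩ := nf c₃ p₃ q₃ m₃
  obtain ⟨γ₄, f₄⟩ := nf c₄ p₄ q₄ m₄
  have hC : C a₃⁻¹ * C a₄⁻¹ * C c = 1 := by
    rw [← map_mul, ← map_mul, ← e0, ← mul_inv, inv_mul_cancel₀ (mul_ne_zero m₃ m₄), map_one]
  have he : sy (C a₃⁻¹ * u₃) (C a₃⁻¹ * v₃) (C a₄⁻¹ * u₄) (C a₄⁻¹ * v₄) =
      gv (E.map C) (sy u₁ v₁ u₂ v₂) := funext fun i => by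
    rw [← one_mul (gv _ _ i), ← hC, mul_assoc, ← hS i]
    fin_cases i <;> simp [sy] <;> ring
  obtain ⟨-, y1, y2⟩ := e2_sy f₃ f₄
  rw [he] at y1 y2
  exact ⟨_, _, _, _, γ₃, γ₄, f₃, f₄, by omega, by linear_combination y1.2.symm.trans g1.2,
    by linear_combination y2.2.symm.trans g2.2, he⟩

end

end Pool.Agent.Lib.MP_16ef92_ag.AL.EC
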