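import Mathlib
import Pool.Agent.Lib.MP_16ef92_ag.AL.EDef

set_option autoImplicit false
set_option linter.unusedSectionVars false
set_option linter.unusedVariables false

namespace Pool.Agent.Lib.MP_16ef92_ag.AL.EC

open WeierstrassCurve Polynomial

noncomputable section

variable {K L : Type} [Field K] [Field L] {u v u' v' : K[X]} {N N' : ℕ} {γ γ' : K}

theorem e2b_lt (h : Nf u v N γ) (hv : v ≠ 0) : v.natDegree < N := by
  have := h.tv.1
  rwa [natDegree_X_mul hv] at this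

theorem Nf.monic (h : Nf u v N γ) : u.Monic ∧ u.natDegree = N := by
  exact ⟨monic_of_natDegree_le_of_coeff_eq_one N h.tu.1 h.tu.2,
    natDegree_eq_of_le_of_coeff_ne_zero h.tu.1 (h.tu.2 ▸ one_ne_zero)⟩

theorem Nf.eq_zero (h : Nf u v 0 γ) : v = 0 ∧ γ = 0 := by
  have hv : v = 0 := not_not.1 fun hv => Nat.not_lt_zero _ (e2b_lt h hv)
  exact ⟨hv, by rw [← h.tv.2, hv, mul_zero, coeff_zero]⟩

theorem Nf.monic_sub (h : Nf u v N γ) (c : K) :
    (u - C c * v).Monic ∧ (u - C c * v).natDegree = N := by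
  have h1 : (C c * v).degree < u.degree := by
    rw [degree_eq_natDegree h.monic.1.ne_zero, h.monic.2]
    by_cases hv : v = 0
    · rw [hv, mul_zero, degree_zero]
      exact WithBot.bot_lt_coe _
    · exact degree_le_natDegree.trans_lt
        (WithBot.coe_lt_coe.2 ((natDegree_C_mul_le c v).trans_lt (e2b_lt h hv)))
  exact ⟨h.monic.1.sub_of_left h1,
    (natDegree_eq_of_degree_eq (degree_sub_eq_left_of_degree_lt h1)).trans h.monic.2⟩

theorem e2b_map {p : K[X]} {n : ℕ} {a : K} (h : Tp p n a) (σ : K →+* L) :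
    Tp (p.map σ) n (σ a) :=
  ⟨natDegree_map_le.trans h.1, by rw [coeff_map, h.2]⟩

theorem Nf.map (h : Nf u v N γ) (σ : K →+* L) : Nf (u.map σ) (v.map σ) N (σ γ) := by
  refine ⟨h.cop.map (mapRingHom σ), by simpa using e2b_map h.tu σ, ?_⟩
  simpa [Polynomial.map_mul] using e2b_map h.tv σ

theorem Nf.pow (h : Nf u v N γ) {Q : ℕ} (hQ : 1 < Q) : Nf (u ^ Q) (v ^ Q) (Q * N) 0 := by
  have h1 : (u ^ Q).natDegree = Q * N := by rw [natDegree_pow, h.monic.2]
  refine ⟨h.cop.pow, ⟨h1.le, h1 ▸ (h.monic.1.pow Q).coeff_natDegree⟩, ?_⟩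
  by_cases hv : v = 0
  · rw [hv, zero_pow (by omega), mul_zero]
    exact ⟨by simp, coeff_zero _⟩
  · have h2 : (X * v ^ Q).natDegree < Q * N := by
      rw [natDegree_X_mul (pow_ne_zero _ hv), natDegree_pow]
      have := Nat.mul_le_mul_left Q (Nat.succ_le_of_lt (e2b_lt h hv))
      rw [Nat.mul_succ] at this
      omega
    exact ⟨h2.le, coeff_eq_zero_of_natDegree_lt h2⟩

theorem Nf.uniq (h : Nf u v N γ) (h' : Nf u' v' N' γ') (e : u * v' = u' * v) :
    u = u' ∧ v = v' ∧ N = N' ∧ γ = γ' := by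
  have h1 : u = u' := eq_of_monic_of_associated h.monic.1 h'.monic.1 (associated_of_dvd_dvd
    (h.cop.dvd_of_dvd_mul_right ⟨v', e.symm⟩) (h'.cop.dvd_of_dvd_mul_right ⟨v, e⟩))
  subst h1
  have h2 : v' = v := mul_left_cancel₀ h.monic.1.ne_zero e
  subst h2
  have h3 : N = N' := h.monic.2.symm.trans h'.monic.2
  subst h3
  exact ⟨rfl, rfl, rfl, h.tv.2.symm.trans h'.tv.2⟩

theorem Nf.wr (h : Nf u v N γ) (hγ : γ ≠ 0) : derivative u * v - u * derivative v ≠ 0 := by
  intro e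
  have h1 : derivative u = 0 := eq_zero_of_dvd_of_degree_lt
    (h.cop.dvd_of_dvd_mul_right ⟨_, sub_eq_zero.1 e⟩) (degree_derivative_lt h.monic.1.ne_zero)
  rw [h1, zero_mul, zero_sub, neg_eq_zero] at e
  have h2 : derivative v = 0 := (mul_eq_zero.1 e).resolve_left h.monic.1.ne_zero
  rcases N with _ | n
  · exact hγ h.eq_zero.2
  have h3 := coeff_derivative u n
  rw [h1, coeff_zero, h.tu.2, one_mul] at h3
  rcases n with _ | n
  · simp at h3
  have h4 := coeff_derivative v n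
  rw [h2, coeff_zero, ← coeff_X_mul, h.tv.2] at h4
  rw [Nat.cast_succ, (mul_eq_zero.1 h4.symm).resolve_left hγ, zero_add] at h3
  exact zero_ne_one h3

theorem nf_zero : Nf (1 : K[X]) 0 0 0 := by
  exact ⟨isCoprime_one_left, ⟨by simp, by simp⟩, by simp, by simp⟩

theorem nf_one : Nf (X : K[X]) 1 1 1 := by
  exact ⟨isCoprime_one_right, ⟨by simp, by simp⟩, by simp, by simp⟩

theorem exists_cop {r s : K[X]} (hs : s ≠ 0) :
    ∃ u v : K[X], IsCoprime u v ∧ v ≠ 0 ∧ r * v = s * u := by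
  classical
  obtain ⟨u, v, h1, h2, h3⟩ := extract_gcd r s
  refine ⟨u, v, (gcd_isUnit_iff u v).1 h3, fun hv => hs (by rw [h2, hv, mul_zero]), ?_⟩
  linear_combination v * h1 - u * h2

theorem PA.of_mul {A : Subring K} {p q : K[X]} (hq : q.Monic) (h1 : q ∈ PA A) (h2 : p * q ∈ PA A) :
    p ∈ PA A := by
  obtain ⟨q₀, rfl, -, h3⟩ := lifts_and_natDegree_eq_and_monic ((mem_lifts (f := A.subtype) q).2 h1) hq
  obtain ⟨r, hr⟩ := h2
  refine ⟨r /ₘ q₀, (map_divByMonic A.subtype h3).trans ?_⟩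
  rw [show r.map A.subtype = _ from hr, mul_comm, mul_divByMonic_cancel_left _ hq]

theorem PA.C_mem {A : Subring K} {a : K} (h : a ∈ A) : C a ∈ PA A := by
  exact ⟨C ⟨a, h⟩, map_C _⟩

theorem PA.X_mem {A : Subring K} : (X : K[X]) ∈ PA A := by
  exact ⟨X, map_X _⟩

/-- A root of an integral polynomial with unit top coefficient is integral. -/
theorem root_mem {O : Subring K} {ev : O →+* L} (hval : ∀ x : K, x ∈ O ∨ x⁻¹ ∈ O)
    (hloc : ∀ z : O, ev z ≠ 0 → (z : K)⁻¹ ∈ O) {p : K[X]} (hp : p ∈ PA O) {n : ℕ} {a : O}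
    (ht : Tp p n a) (ha : ev a ≠ 0) {x : K} (hx : p.eval x = 0) : x ∈ O := by
  by_contra hO
  have hy := (hval x).resolve_left hO
  have h0 : x ≠ 0 := fun e => hO (e ▸ zero_mem O)
  have h1 : ev ⟨x⁻¹, hy⟩ = 0 := not_not.1 fun e => hO (by simpa using hloc _ e)
  obtain ⟨q, rfl⟩ := hp
  have hi : Function.Injective O.subtype := Subtype.val_injective
  have h2 : q.natDegree ≤ n := (natDegree_map_eq_of_injective hi q).ge.trans ht.1
  have h3 : q.coeff n = a := hi ((coeff_map _ _).symm.trans ht.2)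
  let _ := invertibleOfNonzero h0
  have h4 := (eval₂_reflect_eq_zero_iff O.subtype x n q h2).2 ((eval_map _ _).symm.trans hx)
  have h5 : (reflect n q).eval ⟨x⁻¹, hy⟩ = 0 :=
    hi ((eval₂_at_apply O.subtype ⟨x⁻¹, hy⟩).symm.trans h4)
  have h6 := eval₂_at_apply (p := reflect n q) ev ⟨x⁻¹, hy⟩
  rw [h1, h5, map_zero, eval₂_at_zero, coeff_reflect, revAt_zero, h3] at h6
  exact ha h6

end

end Pool.Agent.Lib.MP_16ef92_ag.AL.EC
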