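import Mathlib
import Pool.Agent.Lib.MP_16ef92_ag.AL.E1
import Pool.Agent.Lib.MP_16ef92_ag.AL.E2
import Pool.Agent.Lib.MP_16ef92_ag.AL.E2b

set_option autoImplicit false
set_option linter.unusedSectionVars false
set_option linter.unusedVariables false

namespace Pool.Agent.Lib.MP_16ef92_ag.AL.EC

open WeierstrassCurve Polynomial

noncomputable section

open IntermediateField

variable {K Ω : Type} [Field K] [Field Ω] [Algebra K Ω] [DecidableEq Ω] {W : WeierstrassCurve K}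
  {E : Affine Ω} {G R R₁ R₂ : E.Point}

/-- A point with transcendental abscissa. -/
structure Gn (W : WeierstrassCurve K) (G : E.Point) : Prop where
  sh : Sh W
  eq : E = W.map (algebraMap K Ω)
  ne : G ≠ 0
  tr : Transcendental K (xc G)

variable (K) in
/-- Points of the twist by the ordinate of `G`. -/
def MM (G R : E.Point) : Prop := xc R ∈ K⟮xc G⟯ ∧ yc R / yc G ∈ K⟮xc G⟯

theorem Gn.shE (h : Gn W G) : Sh E := h.eq ▸ h.sh.map _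

theorem Gn.inj (h : Gn W G) : Function.Injective (aeval (xc G) : K[X] →ₐ[K] Ω) :=
  transcendental_iff_injective.1 h.tr

theorem Gn.sq (h : Gn W G) : yc G ^ 2 = aeval (xc G) (cub W) := by
  rw [yc_sq h.shE.a₁ h.shE.a₃ h.ne, ← eval_map_algebraMap, ← cub_map, ← h.eq]

theorem Gn.y_ne (h : Gn W G) : yc G ≠ 0 := fun e => by
  classical
  exact monic_cub.ne_zero (h.inj (by rw [← h.sq, e, map_zero, zero_pow two_ne_zero]))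

theorem Gn.sq_mem (h : Gn W G) : yc G ^ 2 ∈ K⟮xc G⟯ := by
  rw [h.sq]
  exact (mem_adjoin_simple_iff K _).2 ⟨cub W, 1, by simp⟩

theorem mm_zero : MM K G 0 := ⟨zero_mem _, by rw [yc_zero, zero_div]; exact zero_mem _⟩

theorem Gn.mm_self (h : Gn W G) : MM K G G :=
  ⟨mem_adjoin_simple_self K _, by rw [div_self h.y_ne]; exact one_mem _⟩

theorem Gn.mm_neg (h : Gn W G) (m : MM K G R) : MM K G (-R) :=
  ⟨by rw [xc_neg]; exact m.1, by rw [yc_neg h.shE.a₁ h.shE.a₃, neg_div]; exact neg_mem m.2⟩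

theorem Gn.mm_add (h : Gn W G) (m₁ : MM K G R₁) (m₂ : MM K G R₂) : MM K G (R₁ + R₂) := by
  rcases R₁ with _ | ⟨x₁, y₁, n₁⟩
  · exact (zero_add R₂).symm ▸ m₂
  rcases R₂ with _ | ⟨x₂, y₂, n₂⟩
  · exact (add_zero (Affine.Point.some x₁ y₁ n₁)).symm ▸ m₁
  have hs := h.shE
  have hw := h.y_ne
  have hq := h.sq_mem
  have hn : ∀ x y : Ω, E.negY x y = -y := fun x y => by simp [Affine.negY, hs.a₁, hs.a₃]
  have h2 : E.a₂ ∈ K⟮xc G⟯ := by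
    have : E.a₂ = algebraMap K Ω W.a₂ := congrArg WeierstrassCurve.a₂ h.eq
    exact this ▸ IntermediateField.algebraMap_mem _ _
  have h4 : E.a₄ ∈ K⟮xc G⟯ := by
    have : E.a₄ = algebraMap K Ω W.a₄ := congrArg WeierstrassCurve.a₄ h.eq
    exact this ▸ IntermediateField.algebraMap_mem _ _
  by_cases hxy : x₁ = x₂ ∧ y₁ = E.negY x₂ y₂
  · rw [Affine.Point.add_of_Y_eq hxy.1 hxy.2]
    exact mm_zero
  obtain ⟨a₁, b₁⟩ : x₁ ∈ K⟮xc G⟯ ∧ y₁ / yc G ∈ K⟮xc G⟯ := m₁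
  obtain ⟨a₂, b₂⟩ : x₂ ∈ K⟮xc G⟯ ∧ y₂ / yc G ∈ K⟮xc G⟯ := m₂
  obtain ⟨s₁, s₂⟩ := curve0_slope hs.a₁ hs.a₃ n₁.1 n₂.1 hxy
  rw [Affine.Point.add_some hxy]
  change E.addX x₁ x₂ (E.slope x₁ x₂ y₁ y₂) ∈ K⟮xc G⟯ ∧
    E.addY x₁ x₂ y₁ (E.slope x₁ x₂ y₁ y₂) / yc G ∈ K⟮xc G⟯
  generalize E.slope x₁ x₂ y₁ y₂ = l at s₁ s₂
  have hl : l / yc G ∈ K⟮xc G⟯ := by
    by_cases hx : x₁ = x₂
    · have hy : y₁ + y₂ ≠ 0 := fun e => hxy ⟨hx, by rw [hn]; linear_combination e⟩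
      have : l / yc G = (x₁ ^ 2 + x₁ * x₂ + x₂ ^ 2 + E.a₂ * (x₁ + x₂) + E.a₄) /
          ((y₁ / yc G + y₂ / yc G) * yc G ^ 2) := by
        rw [← s₂]
        field_simp
      rw [this]
      exact div_mem (add_mem (add_mem (add_mem (add_mem (pow_mem a₁ 2) (mul_mem a₁ a₂))
        (pow_mem a₂ 2)) (mul_mem h2 (add_mem a₁ a₂))) h4) (mul_mem (add_mem b₁ b₂) hq)
    · have hx' : x₂ - x₁ ≠ 0 := sub_ne_zero.2 (Ne.symm hx)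
      have : l / yc G = (y₂ / yc G - y₁ / yc G) / (x₂ - x₁) := by
        rw [s₁]
        field_simp
        ring
      rw [this]
      exact div_mem (sub_mem b₂ b₁) (sub_mem a₂ a₁)
  have hX : E.addX x₁ x₂ l ∈ K⟮xc G⟯ := by
    have : E.addX x₁ x₂ l = (l / yc G) ^ 2 * yc G ^ 2 - E.a₂ - x₁ - x₂ := by
      rw [Affine.addX, hs.a₁]
      field_simp
      ring
    rw [this]
    exact sub_mem (sub_mem (sub_mem (mul_mem (pow_mem hl 2) hq) h2) a₁) a₂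
  refine ⟨hX, ?_⟩
  have : E.addY x₁ x₂ y₁ l / yc G = -(l / yc G * (E.addX x₁ x₂ l - x₁) + y₁ / yc G) := by
    rw [Affine.addY, hn, Affine.negAddY]
    field_simp
  rw [this]
  exact neg_mem (add_mem (mul_mem hl (sub_mem hX a₁)) b₁)

theorem Gn.mm_sub (h : Gn W G) (m₁ : MM K G R₁) (m₂ : MM K G R₂) : MM K G (R₁ - R₂) := by
  rw [sub_eq_add_neg]
  exact h.mm_add m₁ (h.mm_neg m₂)

theorem rq_zero : Rq G 0 (1 : K[X]) 0 := ⟨1, by simp, by simp⟩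

theorem Gn.rq_self (h : Gn W G) : Rq G G (X : K[X]) 1 :=
  ⟨1, by simp [(xRep_of_ne h.ne).1], by simp [(xRep_of_ne h.ne).2]⟩

theorem Gn.exists_rq (h : Gn W G) (m : MM K G R) : ∃ u v : K[X], IsCoprime u v ∧ Rq G R u v := by
  by_cases h0 : R = 0
  · exact ⟨1, 0, isCoprime_one_left, h0 ▸ rq_zero⟩
  obtain ⟨r, s, e⟩ := (mem_adjoin_simple_iff K _).1 m.1
  by_cases hs : s = 0
  · exact ⟨0, 1, isCoprime_one_right, 1, by simp [(xRep_of_ne h0).1, e, hs],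
      by simp [(xRep_of_ne h0).2]⟩
  obtain ⟨u, v, h1, h2, h3⟩ := exists_cop (r := r) hs
  have hs' : aeval (xc G) s ≠ 0 := fun e => hs (h.inj (by rw [e, map_zero]))
  refine ⟨u, v, h1, aeval (xc G) v, ?_, by rw [(xRep_of_ne h0).2, mul_one]⟩
  have := congrArg (aeval (xc G)) h3
  rw [map_mul, map_mul] at this
  rw [(xRep_of_ne h0).1, e]
  field_simp
  linear_combination -this

variable {u v u' v' u₁ v₁ u₂ v₂ : K[X]} {N N' N₁ N₂ : ℕ} {γ γ' γ₁ γ₂ : K}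

theorem Rq.smul (q : Rq G R u v) (a : K) : Rq G R (C a * u) (C a * v) := by
  obtain ⟨c, h1, h2⟩ := q
  exact ⟨algebraMap K Ω a * c, by rw [map_mul, aeval_C, h1, mul_assoc],
    by rw [map_mul, aeval_C, h2, mul_assoc]⟩

theorem Rq.neg (q : Rq G R u v) : Rq G (-R) u v := by
  rwa [Rq, Affine.Point.xRep_neg]

theorem Gn.cross (h : Gn W G) (q : Rq G R u v) (q' : Rq G R u' v') : u * v' = u' * v := by
  obtain ⟨c, h1, h2⟩ := q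
  obtain ⟨c', h3, h4⟩ := q'
  refine h.inj ?_
  rw [map_mul, map_mul, h1, h2, h3, h4]
  ring

theorem sy_rq (q₁ : Rq G R₁ u₁ v₁) (q₂ : Rq G R₂ u₂ v₂) : ∃ c : Ω, ∀ j,
    aeval (xc G) (sy u₁ v₁ u₂ v₂ j) = c * sy (R₁.xRep 0) (R₁.xRep 1) (R₂.xRep 0) (R₂.xRep 1) j := by
  obtain ⟨c, h1, h2⟩ := q₁
  obtain ⟨c', h3, h4⟩ := q₂
  refine ⟨c * c', fun j => ?_⟩
  fin_cases j <;> simp [sy, h1, h2, h3, h4] <;> ring

theorem Gn.par (h : Gn W G) (m₁ : MM K G R₁) (m₂ : MM K G R₂) (n₁ : Nf u₁ v₁ N₁ γ₁)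
    (n₂ : Nf u₂ v₂ N₂ γ₂) (q₁ : Rq G R₁ u₁ v₁) (q₂ : Rq G R₂ u₂ v₂) :
    ∃ (u₃ v₃ u₄ v₄ : K[X]) (N₃ N₄ : ℕ) (γ₃ γ₄ : K), (Nf u₃ v₃ N₃ γ₃ ∧ Rq G (R₁ + R₂) u₃ v₃) ∧
      (Nf u₄ v₄ N₄ γ₄ ∧ Rq G (R₁ - R₂) u₄ v₄) ∧ N₃ + N₄ = 2 * N₁ + 2 * N₂ ∧
      γ₃ + γ₄ = 2 * γ₁ + 2 * γ₂ ∧ γ₃ * γ₄ = (γ₁ - γ₂) ^ 2 ∧
      sy u₃ v₃ u₄ v₄ = gv (W.map C) (sy u₁ v₁ u₂ v₂) := by
  obtain ⟨u₃, v₃, c₃, q₃⟩ := h.exists_rq (h.mm_add m₁ m₂)
  obtain ⟨u₄, v₄, c₄, q₄⟩ := h.exists_rq (h.mm_sub m₁ m₂)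
  obtain ⟨c, hc⟩ := sy_rq q₁ q₂
  obtain ⟨d, hd⟩ := sy_rq q₃ q₄
  obtain ⟨e, he⟩ := addSub h.shE R₁ R₂
  have h1 : (W.map C).map (aeval (xc G) : K[X] →ₐ[K] Ω).toRingHom = E := by
    rw [WeierstrassCurve.map_map]
    exact (congrArg _ (RingHom.ext fun a => aeval_C _ a)).trans h.eq.symm
  have h2 : ∀ i, aeval (xc G) (gv (W.map C) (sy u₁ v₁ u₂ v₂) i) = c ^ 2 * (e * sy
      ((R₁ + R₂).xRep 0) ((R₁ + R₂).xRep 1) ((R₁ - R₂).xRep 0) ((R₁ - R₂).xRep 1) i) := fun i => by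
    have := gv_map (aeval (xc G) : K[X] →ₐ[K] Ω).toRingHom (W.map C) (sy u₁ v₁ u₂ v₂) i
    rw [h1] at this
    rw [← he, ← gv_mul, ← funext hc]
    exact this
  obtain ⟨a, b, N₃, N₄, γ₃, γ₄, h3, h4, h5⟩ := par_poly h.sh.Δ n₁ n₂ c₃ c₄ fun i j => h.inj (by
    rw [map_mul, map_mul, h2, h2, hd, hd]
    ring)
  exact ⟨_, _, _, _, N₃, N₄, γ₃, γ₄, ⟨h3, q₃.smul a⟩, ⟨h4, q₄.smul b⟩, h5⟩

/-- `R` has degree `N` and leading ratio `γ`. -/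
def Rp (G R : E.Point) (N : ℕ) (γ : K) : Prop :=
  MM K G R ∧ ∃ u v : K[X], Nf u v N γ ∧ Rq G R u v

theorem Gn.rp_par (h : Gn W G) (r₁ : Rp G R₁ N₁ γ₁) (r₂ : Rp G R₂ N₂ γ₂) :
    ∃ (N₃ N₄ : ℕ) (γ₃ γ₄ : K), Rp G (R₁ + R₂) N₃ γ₃ ∧ Rp G (R₁ - R₂) N₄ γ₄ ∧
      N₃ + N₄ = 2 * N₁ + 2 * N₂ ∧ γ₃ + γ₄ = 2 * γ₁ + 2 * γ₂ ∧ γ₃ * γ₄ = (γ₁ - γ₂) ^ 2 := by
  obtain ⟨m₁, u₁, v₁, n₁, q₁⟩ := r₁
  obtain ⟨m₂, u₂, v₂, n₂, q₂⟩ := r₂
  obtain ⟨u₃, v₃, u₄, v₄, N₃, N₄, γ₃, γ₄, h1, h2, h3, h4, h5, -⟩ := h.par m₁ m₂ n₁ n₂ q₁ q₂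
  exact ⟨N₃, N₄, γ₃, γ₄, ⟨h.mm_add m₁ m₂, _, _, h1⟩, ⟨h.mm_sub m₁ m₂, _, _, h2⟩, h3, h4, h5⟩

theorem Gn.rp_uniq (h : Gn W G) (r : Rp G R N γ) (r' : Rp G R N' γ') : N = N' ∧ γ = γ' := by
  obtain ⟨-, u, v, n, q⟩ := r
  obtain ⟨-, u', v', n', q'⟩ := r'
  exact (n.uniq n' (h.cross q q')).2.2

theorem Gn.rp_neg (h : Gn W G) (r : Rp G R N γ) : Rp G (-R) N γ := by
  obtain ⟨m, u, v, n, q⟩ := r
  exact ⟨h.mm_neg m, u, v, n, q.neg⟩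

theorem Gn.rp_self (h : Gn W G) : Rp G G 1 (1 : K) := ⟨h.mm_self, _, _, nf_one, h.rq_self⟩

theorem Gn.rp_frob (h : Gn W G) {σ : Ω →+* Ω} {φ : E.Point →+ E.Point} (hφ : IsMap σ φ) {Q : ℕ}
    (hσ : ∀ z, σ z = z ^ Q) (hQ : 1 < Q) (ho : Odd Q) (r : Rp G R N γ) :
    Rp G (φ R) (Q * N) (0 : K) := by
  obtain ⟨m, u, v, n, c, h1, h2⟩ := r
  obtain ⟨j, hj⟩ := ho
  refine ⟨⟨by rw [hφ.x, hσ]; exact pow_mem m.1 Q, ?_⟩, _, _, n.pow hQ, c ^ Q, ?_⟩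
  · have : yc (φ R) / yc G = (yc R / yc G) ^ Q * (yc G ^ 2) ^ j := by
      have := h.y_ne
      rw [hφ.y, hσ, div_pow, hj]
      field_simp
      ring
    rw [this]
    exact mul_mem (pow_mem m.2 Q) (pow_mem h.sq_mem j)
  · rw [map_pow, map_pow, h1, h2, mul_pow, mul_pow]
    by_cases h0 : R = 0
    · have : Q ≠ 0 := by omega
      simp [h0, this]
    · rw [(xRep_of_ne h0).1, (xRep_of_ne h0).2, (xRep_of_ne (hφ.ne R h0)).1,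
        (xRep_of_ne (hφ.ne R h0)).2, hφ.x, hσ, one_pow]
      exact ⟨rfl, rfl⟩

theorem gv_mem {A : Subring K} (hW : Sh W) (h2 : W.a₂ ∈ A) (h4 : W.a₄ ∈ A) (h6 : W.a₆ ∈ A)
    {T : Fin 3 → K[X]} (hT : ∀ j, T j ∈ PA A) (i : Fin 3) : gv (W.map C) T i ∈ PA A := by
  choose T₀ h0 using hT
  let W₀ : WeierstrassCurve A := ⟨0, ⟨_, h2⟩, 0, ⟨_, h4⟩, ⟨_, h6⟩⟩
  refine ⟨gv (W₀.map C) T₀ i, ?_⟩
  rw [gv_map, funext h0]
  refine congrArg (fun V => gv V T i) ?_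
  ext1 <;> simp [W₀, hW.a₁, hW.a₃]

theorem Gn.nsmul (h : Gn W G) {A : Subring K} (h2 : W.a₂ ∈ A) (h4 : W.a₄ ∈ A) (h6 : W.a₆ ∈ A)
    (n : ℕ) : MM K G (n • G) ∧ ∃ u v : K[X], Nf u v (n ^ 2) ((n : K) ^ 2) ∧ Rq G (n • G) u v ∧
      u ∈ PA A ∧ v ∈ PA A := by
  induction n using Nat.twoStepInduction with
  | zero => exact ⟨by simpa using mm_zero, 1, 0, by simpa using nf_zero, by simpa using rq_zero,
      one_mem _, zero_mem _⟩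
  | one => exact ⟨by simpa using h.mm_self, X, 1, by simpa using nf_one,
      by simpa using h.rq_self, PA.X_mem, one_mem _⟩
  | more n i₀ i₁ =>
    obtain ⟨-, u, v, n₀, q₀, a₀, b₀⟩ := i₀
    obtain ⟨m₁, u₁, v₁, n₁, q₁, a₁, b₁⟩ := i₁
    obtain ⟨u₃, v₃, u₄, v₄, N₃, N₄, γ₃, γ₄, ⟨n₃, q₃⟩, ⟨n₄, q₄⟩, h3, h5, -, h7⟩ :=
      h.par m₁ h.mm_self n₁ nf_one q₁ h.rq_self
    rw [← succ_nsmul] at q₃
    rw [succ_nsmul, add_sub_cancel_right] at q₄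
    obtain ⟨rfl, rfl, rfl, rfl⟩ := n₄.uniq n₀ (h.cross q₄ q₀)
    obtain rfl : N₃ = (n + 2) ^ 2 := by nlinarith
    obtain rfl : γ₃ = ((n + 2 : ℕ) : K) ^ 2 := by
      push_cast at h5 ⊢
      linear_combination h5
    have h8 : ∀ i, sy u₃ v₃ u₄ v₄ i ∈ PA A := fun i => h7 ▸ gv_mem h.sh h2 h4 h6 (fun j => by
      fin_cases j
      exacts [mul_mem a₁ PA.X_mem, add_mem (mul_mem a₁ (one_mem _)) (mul_mem b₁ PA.X_mem),
        mul_mem b₁ (one_mem _)]) i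
    have a₃ : u₃ ∈ PA A := PA.of_mul n₀.monic.1 a₀ (h8 0)
    refine ⟨by rw [succ_nsmul]; exact h.mm_add m₁ h.mm_self, u₃, v₃, n₃, q₃, a₃,
      PA.of_mul n₀.monic.1 a₀ ?_⟩
    have := sub_mem (h8 1) (mul_mem a₃ b₀)
    rwa [show sy u₃ v₃ u₄ v₄ 1 = u₃ * v₄ + v₃ * u₄ from rfl, add_sub_cancel_left] at this

theorem Gn.rp_zsmul (h : Gn W G) (m : ℤ) : Rp G (m • G) (m.natAbs ^ 2) ((m : K) ^ 2) := by
  obtain ⟨h1, u, v, h2, h3, -⟩ := h.nsmul (A := ⊤) trivial trivial trivial m.natAbs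
  have r : Rp G (m.natAbs • G) (m.natAbs ^ 2) ((m.natAbs : K) ^ 2) := ⟨h1, u, v, h2, h3⟩
  obtain ⟨n, rfl | rfl⟩ := Int.eq_nat_or_neg m
  · simpa using r
  · simpa using h.rp_neg r

/-- The degree is a quadratic function. -/
theorem Gn.quad (h : Gn W G) (r : Rp G R N (0 : K)) : ∃ β : ℤ, ∀ m : ℤ, ∃ M : ℕ,
    Rp G (m • G + R) M ((m : K) ^ 2) ∧ (M : ℤ) = m ^ 2 + β * m + N := by
  have h1 : ∀ m : ℤ, ∃ M : ℕ, Rp G (m • G + R) M ((m : K) ^ 2) := fun m => by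
    obtain ⟨N₃, N₄, γ₃, γ₄, r₃, -, -, h3, h4⟩ := h.rp_par (h.rp_zsmul m) r
    obtain rfl : γ₃ = (m : K) ^ 2 := sub_eq_zero.1 (pow_eq_zero_iff two_ne_zero |>.1 (by
      linear_combination γ₃ * h3 - h4))
    exact ⟨N₃, r₃⟩
  choose q hq using h1
  have h2 : ∀ m : ℤ, (q (m + 1) : ℤ) + q (m - 1) = 2 * q m + 2 := fun m => by
    obtain ⟨N₃, N₄, γ₃, γ₄, r₃, r₄, h3, -⟩ := h.rp_par (hq m) h.rp_self
    rw [show m • G + R + G = (m + 1) • G + R by module] at r₃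
    rw [show m • G + R - G = (m - 1) • G + R by module] at r₄
    rw [← (h.rp_uniq r₃ (hq _)).1, ← (h.rp_uniq r₄ (hq _)).1]
    exact_mod_cast h3
  have h0 : q 0 = N := (h.rp_uniq (by simpa using hq 0) r).1
  have h3 : ∀ m : ℤ, (q (m + 1) : ℤ) - q m = 2 * m + (q 1 - q 0) := fun m => by
    induction m using Int.induction_on with
    | zero => simp
    | succ i ih =>
      have := h2 (i + 1)
      rw [add_sub_cancel_right] at this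
      linear_combination this + ih
    | pred i ih =>
      rw [sub_add_cancel]
      linear_combination ih - h2 (-i)
  refine ⟨q 1 - q 0 - 1, fun m => ⟨q m, hq m, ?_⟩⟩
  rw [← h0]
  induction m using Int.induction_on with
  | zero => simp
  | succ i ih => linear_combination ih + h3 i
  | pred i ih =>
    have := h3 (-i - 1)
    rw [sub_add_cancel] at this
    linear_combination ih - this

end

end Pool.Agent.Lib.MP_16ef92_ag.AL.EC
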