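import Mathlib

set_option autoImplicit false
set_option linter.unusedSectionVars false
set_option linter.unusedVariables false

namespace Pool.Agent.Lib.MP_16ef92_ag.AL.EC

open WeierstrassCurve Polynomial

theorem lang_mem_range {k R : Type} [Field k] [IsAlgClosed k] [Field R] [Algebra k R] {x : R}
    (hx : IsAlgebraic k x) : ∃ c : k, algebraMap k R c = x :=
  minpoly.mem_range_of_degree_eq_one k x
    (IsAlgClosed.degree_eq_one_of_irreducible k (minpoly.irreducible hx.isIntegral))

/-- a place of a field of transcendence degree one with a prescribed zero -/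
theorem lang_place {k Ω : Type} [Field k] [IsAlgClosed k] [Field Ω] [Algebra k Ω]
    (H : ∀ z : Ω, Transcendental k z → ∀ w : Ω, IsAlgebraic (Algebra.adjoin k {z}) w)
    {u : Ω} (hu : Transcendental k u) :
    ∃ (O : Subring Ω) (ev : O →+* k), (∀ x : Ω, x ∈ O ∨ x⁻¹ ∈ O) ∧
      (∀ z : O, ev z ≠ 0 → (z : Ω)⁻¹ ∈ O) ∧
      (∀ a : k, ∃ h : algebraMap k Ω a ∈ O, ev ⟨_, h⟩ = a) ∧ ∃ h : u ∈ O, ev ⟨u, h⟩ = 0 := by
  have hu0 : u ≠ 0 := fun h => hu (h ▸ isAlgebraic_zero)
  have huA : u ∈ (Algebra.adjoin k {u}).toSubring := Algebra.self_mem_adjoin_singleton k u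
  have hI : Ideal.span {(⟨u, huA⟩ : (Algebra.adjoin k {u}).toSubring)} ≠ ⊤ := by
    rw [Ne, Ideal.span_singleton_eq_top, isUnit_iff_exists_inv]
    rintro ⟨⟨w, hw⟩, e⟩
    have e' : u * w = 1 := congrArg Subtype.val e
    have hw' : w ∈ Algebra.adjoin k {u} := hw
    rw [Algebra.adjoin_singleton_eq_range_aeval] at hw'
    obtain ⟨g, rfl⟩ := hw'
    refine hu ⟨X * g - 1, fun h => ?_, ?_⟩
    · have := congrArg (Polynomial.eval 0) h
      simp at this
    · rw [map_sub, map_mul, aeval_X, map_one]
      exact sub_eq_zero.2 e'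
  obtain ⟨B, hB, hBI⟩ := Ideal.image_subset_nonunits_valuationSubring _ hI
  have hkB : ∀ a : k, algebraMap k Ω a ∈ B := fun a =>
    hB ((Algebra.adjoin k {u}).algebraMap_mem a)
  have huB : u ∈ B := hB huA
  have hun : u ∈ B.nonunits := hBI ⟨⟨u, huA⟩, Ideal.mem_span_singleton_self _, rfl⟩
  have hures : IsLocalRing.residue B ⟨u, huB⟩ = 0 := by
    rw [IsLocalRing.residue_eq_zero_iff]
    exact ValuationSubring.coe_mem_nonunits_iff.1 hun
  let ι : k →+* B := (algebraMap k Ω).codRestrict B.toSubring hkB
  let φ : k →+* IsLocalRing.ResidueField B := (IsLocalRing.residue B).comp ι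
  have hev : ∀ (z : B) (g : k[X]), ((g.eval₂ ι z : B) : Ω) = aeval (z : Ω) g := by
    intro z g
    have := Polynomial.hom_eval₂ g ι B.subtype z
    rw [aeval_def]
    exact this
  have hsurj : Function.Surjective φ := by
    intro y
    obtain ⟨z, rfl⟩ := IsLocalRing.residue_surjective y
    let _ : Algebra k (IsLocalRing.ResidueField B) := φ.toAlgebra
    apply lang_mem_range (k := k)
    by_contra hz
    have hres : ∀ g : k[X], IsLocalRing.residue B (g.eval₂ ι z) =
        aeval (IsLocalRing.residue B z) g := by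
      intro g
      rw [Polynomial.hom_eval₂, aeval_def]
      rfl
    have hzt : Transcendental k (z : Ω) := by
      rintro ⟨g, hg, e⟩
      refine hz ⟨g, hg, ?_⟩
      rw [← hres]
      have : g.eval₂ ι z = 0 := Subtype.ext ((hev z g).trans e)
      rw [this, map_zero]
    obtain ⟨t, ht, r, hr, e⟩ := (H z hzt u).exists_nonzero_eq_adjoin_mul
      (mem_nonZeroDivisors_of_ne_zero hu0)
    have hzB : ∀ w ∈ Algebra.adjoin k {(z : Ω)}, ∃ g : k[X], aeval (z : Ω) g = w := by
      intro w hw
      rw [Algebra.adjoin_singleton_eq_range_aeval] at hw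
      exact hw
    have htB : t ∈ B := by
      refine Algebra.adjoin_induction (p := fun t _ => t ∈ B) ?_ ?_ ?_ ?_ ht
      · rintro x rfl
        exact huB
      · intro w
        obtain ⟨g, hg⟩ := hzB w w.2
        change (w : Ω) ∈ B
        rw [← hg, ← hev]
        exact Subtype.property _
      · intro x y _ _ hx hy
        exact B.add_mem _ _ hx hy
      · intro x y _ _ hx hy
        exact B.mul_mem _ _ hx hy
    obtain ⟨g, hg⟩ := hzB r r.2
    have hg0 : g ≠ 0 := by
      rintro rfl
      exact hr (Subtype.ext (by simpa using hg.symm))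
    refine hz ⟨g, hg0, ?_⟩
    rw [← hres]
    have : g.eval₂ ι z = ⟨u, huB⟩ * ⟨t, htB⟩ := Subtype.ext (by
      rw [hev, hg]
      exact e.symm)
    rw [this, map_mul, hures, zero_mul]
  let e : k ≃+* IsLocalRing.ResidueField B := RingEquiv.ofBijective φ ⟨φ.injective, hsurj⟩
  refine ⟨B.toSubring, e.symm.toRingHom.comp (IsLocalRing.residue B), B.mem_or_inv_mem, ?_, ?_,
    huB, ?_⟩
  · intro z hz
    have h1 : IsLocalRing.residue B z ≠ 0 := fun h => hz (by
      change e.symm (IsLocalRing.residue B z) = 0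
      rw [h, map_zero])
    have h2 : IsUnit (show B from z) := (IsLocalRing.residue_ne_zero_iff_isUnit _).1 h1
    obtain ⟨w, hw⟩ := isUnit_iff_exists_inv.1 h2
    have h3 : (z : Ω) * (w : Ω) = 1 := congrArg Subtype.val hw
    rw [← eq_inv_of_mul_eq_one_right h3]
    exact w.2
  · intro a
    exact ⟨hkB a, e.symm_apply_apply a⟩
  · change e.symm (IsLocalRing.residue B ⟨u, huB⟩) = 0
    rw [hures, map_zero]

theorem lang_inj (k : Type) [Field k] :
    Function.Injective (algebraMap k[X] (AlgebraicClosure (FractionRing k[X]))) := by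
  rw [IsScalarTower.algebraMap_eq k[X] (FractionRing k[X])]
  exact (algebraMap (FractionRing k[X]) _).injective.comp (IsFractionRing.injective _ _)

theorem lang_omega (k : Type) [Field k] (z : AlgebraicClosure (FractionRing k[X]))
    (hz : Transcendental k z) (w : AlgebraicClosure (FractionRing k[X])) :
    IsAlgebraic (Algebra.adjoin k {z}) w := by
  have h1 : Algebra.IsAlgebraic k[X] (AlgebraicClosure (FractionRing k[X])) :=
    (IsFractionRing.comap_isAlgebraic_iff (K := FractionRing k[X])).2 inferInstance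
  have h0 := (faithfulSMul_iff_algebraMap_injective _ _).2 (lang_inj k)
  have h2 := trdeg_add_eq k k[X] (A := AlgebraicClosure (FractionRing k[X]))
  rw [Polynomial.trdeg_of_isDomain, trdeg_eq_zero, add_zero] at h2
  have h3 : AlgebraicIndependent k (fun _ : Unit => z) :=
    algebraicIndependent_unique_type_iff.2 hz
  have h4 := (h3.isTranscendenceBasis_of_trdeg_le_of_finite (by rw [← h2]; simp)).isAlgebraic
  rw [Set.range_const] at h4
  exact h4.isAlgebraic w

theorem lang_trans (k : Type) [Field k] :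
    ∃ t : AlgebraicClosure (FractionRing k[X]), Transcendental k t := by
  refine ⟨algebraMap k[X] _ X, ?_⟩
  rw [transcendental_algebraMap_iff (lang_inj k)]
  exact transcendental_X k

end Pool.Agent.Lib.MP_16ef92_ag.AL.EC
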