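import Mathlib
import Pool.Agent.Lib.MP_16ef92_ag.AL.E2b
import Pool.Agent.Lib.MP_16ef92_ag.AL.E0b

set_option autoImplicit false
set_option linter.unusedSectionVars false
set_option linter.unusedVariables false

namespace Pool.Agent.Lib.MP_16ef92_ag.AL.EC

open WeierstrassCurve Polynomial

noncomputable section

variable {K k Ω : Type} [Field K] [Field k] [Field Ω] [Algebra K k] [Algebra k Ω] [Algebra K Ω]
  [IsScalarTower K k Ω] [DecidableEq k] [DecidableEq Ω] [IsAlgClosed k] {W : WeierstrassCurve K}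
  {E : Affine k} {E' : Affine Ω}

/-- A place of the function field above a given abscissa. -/
theorem Gs.red {G : E'.Point} (h : Gs W E G) (c : k) :
    ∃ (O : Subring Ω) (ev : O →+* k), SpecData O ev E' E ∧
      (∀ a : k, ∃ h : algebraMap k Ω a ∈ O, ev ⟨_, h⟩ = a) ∧ ∃ h : xc G ∈ O, ev ⟨_, h⟩ = c := by
  have hu : Transcendental k (xc G - algebraMap k Ω c) := fun e => h.tr (by
    simpa using e.add (isAlgebraic_algebraMap c))
  obtain ⟨O, ev, hval, hloc, hk, h0, h0'⟩ := lang_place h.alg hu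
  have hS : ∀ s : K, ∃ h : algebraMap K Ω s ∈ O, ev ⟨_, h⟩ = algebraMap K k s := fun s => by
    simp only [IsScalarTower.algebraMap_apply K k Ω]
    exact hk _
  obtain ⟨hc, hc'⟩ := hk c
  have hm : xc G ∈ O := by simpa using O.add_mem h0 hc
  have e : (⟨xc G, hm⟩ : O) = ⟨_, h0⟩ + ⟨_, hc⟩ := Subtype.ext (by simp)
  refine ⟨O, ev, ?_, hk, hm, by rw [e, map_add, h0', hc', zero_add]⟩
  obtain rfl := h.eq
  obtain rfl := h.eq'
  have s1 := h.sh.map (algebraMap K k)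
  have s2 := h.sh.map (algebraMap K Ω)
  exact ⟨hval, hloc, s2.a₁, s2.a₃, s1.a₁, s1.a₃, hS _, hS _, hS _, s1.Δ⟩

theorem e4a_aeval {O : Subring Ω} {ev : O →+* k}
    (hk : ∀ a : k, ∃ h : algebraMap k Ω a ∈ O, ev ⟨_, h⟩ = a) {t : Ω} (ht : t ∈ O) (w : K[X]) :
    ∃ h : aeval t w ∈ O, ev ⟨_, h⟩ = aeval (ev ⟨t, ht⟩) w := by
  induction w using Polynomial.induction_on with
  | C a =>
    simp only [aeval_C, IsScalarTower.algebraMap_apply K k Ω]
    exact hk _
  | add f g hf hg =>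
    obtain ⟨a, a'⟩ := hf
    obtain ⟨b, b'⟩ := hg
    simp only [map_add]
    exact ⟨O.add_mem a b, by rw [← a', ← b', ← ev.map_add]; rfl⟩
  | monomial n a hf =>
    obtain ⟨b, b'⟩ := hf
    simp only [pow_succ, ← mul_assoc, map_mul _ _ X, aeval_X]
    exact ⟨O.mul_mem b ht, by rw [← b', ← ev.map_mul]; rfl⟩

/-- Specialisation of the fraction. -/
theorem Gs.sp {G R : E'.Point} (h : Gs W E G) {ψ : E.Point →+ E.Point} (hc : Cp G R ψ)
    {u v : K[X]} (hq : Rq G R u v) : Sp ψ u v := by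
  intro P hP
  obtain ⟨O, ev, D, hk, hG, eG⟩ := h.red (xc P)
  obtain ⟨s1, s2, -⟩ := D.spec_of_mem h.ne hG
  have e : (ψ P).xRep = (spec O ev E' E R).xRep := by
    rw [← D.hom_apply, hc O ev D, D.hom_apply]
    rcases eq_or_eq_neg_of_xc s1 hP (s2.trans eG) with e | e
    · rw [e]
    · rw [e, map_neg, Affine.Point.xRep_neg]
  obtain ⟨u1, u2⟩ := e4a_aeval hk hG u
  obtain ⟨v1, v2⟩ := e4a_aeval hk hG v
  obtain ⟨c, c1, c2⟩ := hq
  rw [e, ← eG, ← u2, ← v2]
  by_cases hR : R = 0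
  · have : (⟨_, v1⟩ : O) = 0 := Subtype.ext (by simpa [hR] using c2)
    simp [hR, D.curve_spec_zero, this]
  rw [(xRep_of_ne hR).1] at c1
  rw [(xRep_of_ne hR).2, mul_one] at c2
  by_cases hO : xc R ∈ O
  · obtain ⟨t1, t2, -⟩ := D.spec_of_mem hR hO
    rw [(xRep_of_ne t1).1, (xRep_of_ne t1).2, t2, one_mul, ← map_mul]
    exact congrArg ev (Subtype.ext (by simp [c1, c2, mul_comm]))
  · have h0 : xc R ≠ 0 := fun z => hO (z ▸ O.zero_mem)
    have : (⟨_, v1⟩ : O) = ⟨_, u1⟩ * ⟨_, D.curve_inv_mem hO⟩ :=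
      Subtype.ext (by simp [c1, c2, h0])
    rw [D.spec_of_not_mem hO, this, ev.map_mul, D.curve_ev_inv hO]
    simp

open scoped Classical in
/-- Generic points exist. -/
theorem exists_gs (hW : Sh W) (hE : E = W.map (algebraMap K k)) :
    ∃ G : Affine.Point (W.map (algebraMap K (AlgebraicClosure (FractionRing k[X])))),
      Gs W E G := by
  obtain ⟨t, ht⟩ := lang_trans k
  obtain ⟨G, h1, h2⟩ := Sh.exists_pt
    (hW.map (algebraMap K (AlgebraicClosure (FractionRing k[X])))) t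
  exact ⟨G, hW, hE, rfl, h1, h2 ▸ ht, lang_omega k⟩

end

end Pool.Agent.Lib.MP_16ef92_ag.AL.EC
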