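import Mathlib
import Pool.Agent.Lib.MP_16ef92_ag.AL.E2b

set_option autoImplicit false
set_option linter.unusedSectionVars false
set_option linter.unusedVariables false

namespace Pool.Agent.Lib.MP_16ef92_ag.AL.EC

open WeierstrassCurve Polynomial

noncomputable section

variable {k : Type} [Field k] [DecidableEq k] [IsAlgClosed k] {E : Affine k}
  {ψ : E.Point →+ E.Point}

section
variable {K : Type} [Field K] [Algebra K k] {u v : K[X]} {N : ℕ} {γ : K}

theorem Sp.map (h : Sp ψ u v) : Sp ψ (u.map (algebraMap K k)) (v.map (algebraMap K k)) := by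
  simpa only [Sp, aeval_map_algebraMap] using h

theorem Sp.ker (h : Sp ψ u v) {P : E.Point} (hP : P ≠ 0) (h0 : ψ P = 0) : aeval (xc P) v = 0 := by
  simpa [h0] using h P hP

theorem Sp.eq_zero (h : Sp ψ u v) (hn : Nf u v 0 γ) (P : E.Point) : ψ P = 0 := by
  by_contra h0
  have hP : P ≠ 0 := fun e => h0 (by rw [e, map_zero])
  have := h P hP
  rw [hn.eq_zero.1, hn.monic.1.natDegree_eq_zero.1 hn.monic.2, (xRep_of_ne h0).2] at this
  simp at this

theorem Sp.fib (h : Sp ψ u v) (hc : IsCoprime u v) {P Q : E.Point} (hP : P ≠ 0) (hQ : Q ≠ 0) :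
    aeval (xc P) u = xc Q * aeval (xc P) v ↔ ψ P = Q ∨ ψ P = -Q := by
  have hv (e : aeval (xc P) u = xc Q * aeval (xc P) v) : aeval (xc P) v ≠ 0 := fun e' => by
    obtain ⟨a, b, hab⟩ := hc
    simpa [e, e'] using congrArg (aeval (xc P)) hab
  have key (h0 : ψ P ≠ 0) : aeval (xc P) u = xc (ψ P) * aeval (xc P) v := by
    have := h P hP
    rwa [(xRep_of_ne h0).1, (xRep_of_ne h0).2, one_mul, eq_comm] at this
  refine ⟨fun e => ?_, ?_⟩
  · have h0 : ψ P ≠ 0 := fun h0 => hv e (h.ker hP h0)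
    exact eq_or_eq_neg_of_xc h0 hQ (mul_right_cancel₀ (hv e) ((key h0).symm.trans e))
  · rintro (e | e)
    · rw [key (e ▸ hQ), e]
    · rw [key (e ▸ neg_ne_zero.2 hQ), e, xc_neg]

theorem e4b_eval (x c : k) : (u.map (algebraMap K k) - C c * v.map (algebraMap K k)).IsRoot x ↔
    aeval x u = c * aeval x v := by
  simp [sub_eq_zero, eval_map_algebraMap]

theorem e4b_root (hE : Sh E) (h : Sp ψ u v) (hc : IsCoprime u v) {Q : E.Point} (hQ : Q ≠ 0) {x : k}
    (hx : (u.map (algebraMap K k) - C (xc Q) * v.map (algebraMap K k)).IsRoot x) :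
    ∃ P : E.Point, xc P = x ∧ ψ P = Q := by
  obtain ⟨P, hP, rfl⟩ := hE.exists_pt x
  rcases (h.fib hc hP hQ).1 ((e4b_eval _ _).1 hx) with e | e
  · exact ⟨P, rfl, e⟩
  · exact ⟨-P, xc_neg P, by rw [map_neg, e, neg_neg]⟩

theorem Sp.surj (hE : Sh E) (h : Sp ψ u v) (hn : Nf u v N γ) (hN : N ≠ 0) :
    Function.Surjective ψ := by
  intro Q
  by_cases hQ : Q = 0
  · exact ⟨0, by rw [hQ, map_zero]⟩
  obtain ⟨m, d⟩ := (hn.map (algebraMap K k)).monic_sub (xc Q)
  obtain ⟨x, hx⟩ := IsAlgClosed.exists_root _ (degree_ne_of_natDegree_ne (n := 0) (d ▸ hN))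
  obtain ⟨P, -, e⟩ := e4b_root hE h hn.cop hQ hx
  exact ⟨P, e⟩

theorem e4b_ne (hn : Nf u v N γ) (hγ : γ ≠ 0) : N ≠ 0 := by
  rintro rfl
  exact hγ hn.eq_zero.2

theorem e4b_card (hE : Sh E) (h : Sp ψ u v) (hn : Nf u v N γ) (hN : N ≠ 0) {Q : E.Point}
    (hQ : Q ≠ -Q) : Nat.card {P // ψ P = 0} =
      (u.map (algebraMap K k) - C (xc Q) * v.map (algebraMap K k)).roots.toFinset.card := by
  have h0 : Q ≠ 0 := fun e => hQ (by rw [e, neg_zero])
  have hp := ((hn.map (algebraMap K k)).monic_sub (xc Q)).1.ne_zero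
  have n (P : ψ ⁻¹' {Q}) : P.1 ≠ 0 := fun e => h0 (P.2.symm.trans (by rw [e, map_zero]))
  rw [← Nat.card_eq_finsetCard]
  refine (Nat.card_congr (ψ.fiberEquivKerOfSurjective (h.surj hE hn hN) Q)).symm.trans
    (Nat.card_eq_of_bijective (fun P => ⟨xc P.1, ?_⟩) ⟨fun P P' e => ?_, fun x => ?_⟩)
  · rw [Multiset.mem_toFinset, mem_roots hp, e4b_eval]
    exact (h.fib hn.cop (n P) h0).2 (.inl P.2)
  · refine Subtype.ext ((eq_or_eq_neg_of_xc (n P) (n P') (congrArg Subtype.val e)).resolve_right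
      fun e => hQ ?_)
    have a : ψ P.1 = Q := P.2
    have b : ψ P'.1 = Q := P'.2
    rw [e, map_neg, b] at a
    exact a.symm
  · obtain ⟨P, a, b⟩ := e4b_root hE h hn.cop h0 ((mem_roots hp).1 (Multiset.mem_toFinset.1 x.2))
    exact ⟨⟨P, b⟩, Subtype.ext a⟩

/-- The kernel of a separable endomorphism has as many points as its degree. -/
theorem Sp.card (hE : Sh E) (h : Sp ψ u v) (hn : Nf u v N γ) (hγ : γ ≠ 0) :
    Nat.card {P // ψ P = 0} = N := by
  have hN := e4b_ne hn hγ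
  have hm := hn.map (algebraMap K k)
  have hw := hm.wr ((_root_.map_ne_zero _).2 hγ)
  generalize hu : u.map (algebraMap K k) = a at hm hw
  generalize hv : v.map (algebraMap K k) = b at hm hw
  obtain ⟨c, hc⟩ := Infinite.exists_notMem_finset ((cub E).roots.toFinset ∪
    (derivative a * b - a * derivative b).roots.toFinset.image fun x => a.eval x / b.eval x)
  obtain ⟨Q, hQ, rfl⟩ := hE.exists_pt c
  simp only [Finset.mem_union, Finset.mem_image, Multiset.mem_toFinset, not_or, not_exists, not_and,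
    mem_roots hw, mem_roots monic_cub.ne_zero] at hc
  obtain ⟨m, d⟩ := hm.monic_sub (xc Q)
  rw [e4b_card hE h hn hN (fun e => hc.1 ((hE.two_tors hQ).1 e)), hu, hv,
    Multiset.toFinset_card_of_nodup, IsAlgClosed.card_roots_eq_natDegree, d]
  refine Multiset.nodup_iff_count_le_one.2 fun x => not_lt.1 fun hx => ?_
  rw [count_roots, one_lt_rootMultiplicity_iff_isRoot m.ne_zero] at hx
  simp only [IsRoot.def, derivative_sub, derivative_C_mul, eval_sub, eval_mul, eval_C] at hx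
  have hb : b.eval x ≠ 0 := fun e => by
    obtain ⟨r, t, hrt⟩ := hm.cop
    have := congrArg (eval x) hrt
    simp [e, show a.eval x = 0 by simpa [e] using hx.1] at this
  refine hc.2 x ?_ (by rw [div_eq_iff hb]; linear_combination hx.1)
  simp only [IsRoot.def, eval_sub, eval_mul]
  linear_combination b.eval x * hx.2 - (derivative b).eval x * hx.1

theorem e4b_inf [IsSepClosed K] : Infinite K := ⟨fun _ => by
  have := Fintype.ofFinite K
  obtain ⟨x, hx⟩ := IsSepClosed.exists_root_C_mul_X_pow_add_C_mul_X_add_C (1 : K) (-1) 1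
    (FiniteField.cast_card_eq_zero K) Fintype.one_lt_card (by simp)
  simp [FiniteField.pow_card] at hx⟩

theorem e4b_y [IsSepClosed K] {W : WeierstrassCurve K} (hW : Sh W)
    (hE : E = W.map (algebraMap K k)) {P : E.Point} (hP : P ≠ 0) {x : K}
    (hx : algebraMap K k x = xc P) : yc P ∈ (algebraMap K k).range := by
  have hS : Sh E := hE ▸ hW.map _
  have : NeZero ((2 : ℕ) : K) := ⟨by exact_mod_cast hW.two⟩
  obtain ⟨y, hy⟩ := IsSepClosed.exists_pow_nat_eq ((cub W).eval x) 2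
  have := yc_sq hS.a₁ hS.a₃ hP
  rw [← hx, show cub E = _ from hE ▸ cub_map W _, eval_map, eval₂_at_apply, ← hy, map_pow,
    sq_eq_sq_iff_eq_or_eq_neg] at this
  rcases this with e | e
  · exact ⟨y, e.symm⟩
  · exact ⟨-y, by rw [map_neg, e]⟩

/-- Fibres over rational points are rational over a separably closed field. -/
theorem Sp.sep [IsSepClosed K] {W : WeierstrassCurve K} (hW : Sh W)
    (hE : E = W.map (algebraMap K k)) (h : Sp ψ u v) (hn : Nf u v N γ) (hγ : γ ≠ 0)
    {P : E.Point} (h1 : xc (ψ P) ∈ (algebraMap K k).range) (h2 : ψ P ≠ -ψ P) :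
    xc P ∈ (algebraMap K k).range ∧ yc P ∈ (algebraMap K k).range := by
  have hS : Sh E := hE ▸ hW.map _
  have h0 : ψ P ≠ 0 := fun e => h2 (by rw [e, neg_zero])
  have hP : P ≠ 0 := fun e => h0 (by rw [e, map_zero])
  obtain ⟨c, hc⟩ := h1
  have e : (u - C c * v).map (algebraMap K k) =
      u.map (algebraMap K k) - C (xc (ψ P)) * v.map (algebraMap K k) := by simp [hc]
  obtain ⟨m, d⟩ := (hn.map (algebraMap K k)).monic_sub (xc (ψ P))
  have n := e4b_card hS h hn (e4b_ne hn hγ) h2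
  rw [h.card hS hn hγ, ← d, ← IsAlgClosed.card_roots_eq_natDegree, eq_comm,
    Multiset.toFinset_card_eq_card_iff_nodup,
    nodup_roots_iff_of_splits m.ne_zero (IsAlgClosed.splits _), ← e, separable_map] at n
  obtain ⟨x, hx⟩ := (IsSepClosed.splits_of_separable _ n).mem_range_of_isRoot
    (hn.monic_sub c).1.ne_zero (i := algebraMap K k) (x := xc P)
    (by rw [e, e4b_eval]; exact (h.fib hn.cop hP h0).2 (.inl rfl))
  exact ⟨⟨x, hx⟩, e4b_y hW hE hP hx⟩

/-- The kernel is rational over a separably closed field. -/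
theorem Sp.sep_ker [IsSepClosed K] {W : WeierstrassCurve K} (hW : Sh W)
    (hE : E = W.map (algebraMap K k)) (h : Sp ψ u v) (hn : Nf u v N γ) (hγ : γ ≠ 0)
    {P : E.Point} (h1 : ψ P = 0) :
    xc P ∈ (algebraMap K k).range ∧ yc P ∈ (algebraMap K k).range := by
  classical
  have := e4b_inf (K := K)
  have hS : Sh E := hE ▸ hW.map _
  obtain ⟨φ, hφ⟩ := exists_isMap (E := W) hW (algebraMap K k) hE
  obtain ⟨c, hc⟩ := Infinite.exists_notMem_finset (cub W).roots.toFinset
  obtain ⟨Q, hQ, e⟩ := hS.exists_pt (algebraMap K k c)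
  obtain ⟨R, rfl⟩ := h.surj hS hn (e4b_ne hn hγ) Q
  have n : ψ R ≠ -ψ R := fun e' => hc <| by
    have := (hS.two_tors hQ).1 e'
    rw [e, show cub E = _ from hE ▸ cub_map W _, eval_map, eval₂_at_apply,
      _root_.map_eq_zero] at this
    exact Multiset.mem_toFinset.2 ((mem_roots (monic_cub (E := W)).ne_zero).2 this)
  have a : ψ (P + R) = ψ R := by rw [map_add, h1, zero_add]
  simpa using (hφ.mem_range hW hE).1 (sub_mem
    ((hφ.mem_range hW hE).2 (h.sep hW hE hn hγ (P := P + R) (a ▸ ⟨c, e.symm⟩) (a ▸ n)))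
    ((hφ.mem_range hW hE).2 (h.sep hW hE hn hγ ⟨c, e.symm⟩ n)))

end

theorem card_ker_comp {A : Type} [AddCommGroup A] (f g : A →+ A) (hg : Function.Surjective g) :
    Nat.card {P // f (g P) = 0} = Nat.card {P // f P = 0} * Nat.card {P // g P = 0} := by
  rw [← Nat.card_prod]
  refine (Nat.card_eq_of_bijective
    (fun q : {P // f P = 0} × {P // g P = 0} => (⟨(hg q.1).choose + q.2, by
      rw [map_add, (hg q.1).choose_spec, q.2.2, add_zero, q.1.2]⟩ : {P // f (g P) = 0}))
    ⟨fun a b e => ?_, fun P => ?_⟩).symm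
  · have e := congrArg Subtype.val e
    have e' := congrArg g e
    simp only [map_add, (hg _).choose_spec, a.2.2, b.2.2, add_zero] at e'
    obtain ⟨a, a'⟩ := a
    obtain ⟨b, b'⟩ := b
    obtain rfl : a = b := Subtype.ext e'
    exact Prod.ext rfl (Subtype.ext (add_left_cancel e))
  · exact ⟨(⟨g P, P.2⟩, ⟨P - (hg (g P)).choose, by rw [map_sub, (hg _).choose_spec, sub_self]⟩),
      Subtype.ext (add_sub_cancel _ _)⟩

end

end Pool.Agent.Lib.MP_16ef92_ag.AL.EC
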