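import Mathlib
import Pool.Agent.Lib.MP_16ef92_ag.AL.E3
import Pool.Agent.Lib.MP_16ef92_ag.AL.E4a
import Pool.Agent.Lib.MP_16ef92_ag.AL.E4b

set_option autoImplicit false
set_option linter.unusedSectionVars false
set_option linter.unusedVariables false

namespace Pool.Agent.Lib.MP_16ef92_ag.AL.EC

open WeierstrassCurve Polynomial

noncomputable section

theorem Gs.gn {K k Ω : Type} [Field K] [Field k] [Field Ω] [Algebra K k] [Algebra k Ω]
    [Algebra K Ω] [IsScalarTower K k Ω] [DecidableEq k] [DecidableEq Ω] {W : WeierstrassCurve K}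
    {E : Affine k} {E' : Affine Ω} {G : E'.Point} (h : Gs W E G) : Gn W G :=
  ⟨h.sh, h.eq', h.ne, h.tr.of_tower_top K⟩

theorem nsmul_sp {K k : Type} [Field K] [Field k] [Algebra K k] [DecidableEq k] [IsAlgClosed k]
    {W : WeierstrassCurve K} {E : Affine k} (hW : Sh W) (hE : E = W.map (algebraMap K k))
    {A : Subring K} (h2 : W.a₂ ∈ A) (h4 : W.a₄ ∈ A) (h6 : W.a₆ ∈ A) (n : ℕ) :
    ∃ u v : K[X], Nf u v (n ^ 2) ((n : K) ^ 2) ∧
      Sp (nsmulAddMonoidHom n : E.Point →+ E.Point) u v ∧ v ∈ PA A := by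
  classical
  obtain ⟨G, hG⟩ := exists_gs hW hE
  obtain ⟨-, u, v, h1, h3, -, h5⟩ := hG.gn.nsmul h2 h4 h6 n
  exact ⟨u, v, h1, hG.sp (R := n • G) (fun O ev D => map_nsmul _ _ _) h3, h5⟩

variable {K : Type} [Field K] {n : ℕ}

theorem tors_rat [IsSepClosed K] {Ω : Type} [Field Ω] [DecidableEq Ω] [Algebra K Ω]
    {W : WeierstrassCurve K} {E : Affine Ω} (hW : Sh W) (hE : E = W.map (algebraMap K Ω))
    (hn : (n : K) ≠ 0) {P : E.Point} (hP : n • P = 0) :
    xc P ∈ (algebraMap K Ω).range ∧ yc P ∈ (algebraMap K Ω).range := by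
  classical
  have hs : Sh E := hE ▸ hW.map _
  obtain ⟨ι, hι⟩ := exists_isMap hs (algebraMap Ω (AlgebraicClosure Ω)) rfl
  have e : WeierstrassCurve.map E (algebraMap Ω (AlgebraicClosure Ω)) =
      W.map (algebraMap K (AlgebraicClosure Ω)) := by
    rw [hE, WeierstrassCurve.map_map, ← IsScalarTower.algebraMap_eq]
  obtain ⟨u, v, h1, h2, -⟩ := nsmul_sp hW e (A := ⊤) trivial trivial trivial n
  obtain ⟨⟨a, ha⟩, b, hb⟩ := h2.sep_ker hW e h1 (pow_ne_zero 2 hn) (P := ι P) (by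
    change n • ι P = 0
    rw [← map_nsmul, hP, map_zero])
  rw [hι.x, IsScalarTower.algebraMap_apply K Ω] at ha
  rw [hι.y, IsScalarTower.algebraMap_apply K Ω] at hb
  exact ⟨⟨a, (algebraMap Ω _).injective ha⟩, b, (algebraMap Ω _).injective hb⟩

variable [DecidableEq K] {E : Affine K}

theorem card_tors_sep [IsSepClosed K] (hE : Sh E) (hn : (n : K) ≠ 0) :
    Nat.card {P : E.Point // n • P = 0} = n ^ 2 := by
  classical
  obtain ⟨ι, hι⟩ := exists_isMap hE (algebraMap K (AlgebraicClosure K)) rfl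
  obtain ⟨u, v, h1, h2, -⟩ := nsmul_sp (k := AlgebraicClosure K) hE rfl (A := ⊤) trivial trivial
    trivial n
  rw [← h2.card (hE.map _) h1 (pow_ne_zero 2 hn)]
  refine Nat.card_congr (Equiv.ofBijective (fun P => ⟨ι P.1, by
    change n • ι P.1 = 0
    rw [← map_nsmul, P.2, map_zero]⟩) ⟨fun P Q e => Subtype.ext (hι.inj (congrArg Subtype.val e)),
      fun P => ?_⟩)
  obtain ⟨Q, hQ⟩ := (hι.mem_range hE rfl).2 (tors_rat hE rfl hn P.2)
  exact ⟨⟨Q, hι.inj (by rw [map_nsmul, hQ, map_zero]; exact P.2)⟩, Subtype.ext hQ⟩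

theorem div_sep [IsSepClosed K] (hE : Sh E) (hn : (n : K) ≠ 0) (Q : E.Point) :
    ∃ P, n • P = Q := by
  classical
  obtain ⟨ι, hι⟩ := exists_isMap hE (algebraMap K (AlgebraicClosure K)) rfl
  obtain ⟨u, v, h1, h2, -⟩ := nsmul_sp (k := AlgebraicClosure K) hE rfl (A := ⊤) trivial trivial
    trivial n
  have h0 : n ≠ 0 := fun e => hn (by rw [e, Nat.cast_zero])
  obtain ⟨P, hP⟩ := h2.surj (hE.map _) h1 (pow_ne_zero 2 h0) (ι Q)
  have h3 : P ∈ ι.range := by
    rw [hι.mem_range hE rfl]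
    by_cases e : ι Q = -ι Q
    · refine tors_rat hE rfl (n := 2 * n) (by push_cast; exact mul_ne_zero hE.two hn) ?_
      rw [mul_nsmul', two_nsmul, show n • P = ι Q from hP]
      exact add_eq_zero_iff_eq_neg.2 e
    · exact h2.sep hE rfl h1 (pow_ne_zero 2 hn) (by rw [hP, hι.x]; exact ⟨_, rfl⟩) (by rwa [hP])
  obtain ⟨R, rfl⟩ := h3
  exact ⟨R, hι.inj (by rw [map_nsmul]; exact hP)⟩

/-- Reduction is injective on torsion of invertible order. -/
theorem SpecData.tors_inj {κ : Type} [Field κ] [DecidableEq κ] {O : Subring K} {ev : O →+* κ}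
    {E' : Affine κ} (D : SpecData O ev E E') (hE : Sh E) (hn : (n : κ) ≠ 0) {P : E.Point}
    (hP : n • P = 0) (h0 : D.hom P = 0) : P = 0 := by
  classical
  by_contra h
  obtain ⟨ι, hι⟩ := exists_isMap hE (algebraMap K (AlgebraicClosure K)) rfl
  obtain ⟨u, v, h1, h2, h3⟩ := nsmul_sp (k := AlgebraicClosure K) hE rfl D.a₂.1 D.a₄.1 D.a₆.1 n
  have h4 := h2.ker (hι.ne P h) (by
    change n • ι P = 0
    rw [← map_nsmul, hP, map_zero])
  rw [hι.x, aeval_algebraMap_apply, _root_.map_eq_zero, coe_aeval_eq_eval] at h4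
  refine (D.spec_of_mem h (root_mem D.val D.loc (mul_mem PA.X_mem h3) (n := n ^ 2)
    (a := (n : O) ^ 2) (by push_cast; exact h1.tv) ?_ (by rw [eval_mul, h4, mul_zero]))).1 h0
  rw [map_pow, map_natCast]
  exact pow_ne_zero 2 hn

end

end Pool.Agent.Lib.MP_16ef92_ag.AL.EC
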