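import Mathlib
import Pool.Agent.Lib.MP_16ef92_ag.AL.ETor

set_option autoImplicit false
set_option linter.unusedSectionVars false
set_option linter.unusedVariables false

namespace Pool.Agent.Lib.MP_16ef92_ag.AL.EC

open WeierstrassCurve Polynomial

noncomputable section

variable {k : Type} [Field k] [IsAlgClosed k] [DecidableEq k] {E : Affine k}

theorem SpecData.pow_mem_iff {K κ : Type} [Field K] [Field κ] {O : Subring K} {ev : O →+* κ}
    {W₁ : Affine K} {W₂ : Affine κ} (D : SpecData O ev W₁ W₂) {Q : ℕ} (hQ : 0 < Q) (z : K) :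
    z ^ Q ∈ O ↔ z ∈ O := by
  refine ⟨fun h => (D.val z).elim id fun hi => ?_, fun h => pow_mem h Q⟩
  by_cases h0 : z = 0
  · exact h0 ▸ zero_mem O
  obtain ⟨j, rfl⟩ := Nat.exists_eq_succ_of_ne_zero hQ.ne'
  have := mul_mem h (pow_mem hi j)
  rwa [pow_succ', mul_assoc, ← mul_pow, mul_inv_cancel₀ h0, one_pow, mul_one] at this

theorem e5_int {β δ t Q a p : ℤ} (hp : p ≠ 0)
    (h : ∀ j : ℤ, (-((a + p * j) * (a + p * j + t))) ^ 2 + β * -((a + p * j) * (a + p * j + t)) +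
      δ = (Q + (a + p * j) * (a + p * j + t)) ^ 2) : Q ^ 2 + β * Q + δ = 0 := by
  have h1 : (β + 2 * Q) * (2 * p ^ 2) = 0 := by linear_combination 2 * h 1 - h 0 - h 2
  have h2 : β = -2 * Q := by
    have := (mul_eq_zero.1 h1).resolve_right (by positivity)
    linear_combination this
  subst h2
  linear_combination h 0

/-- The characteristic polynomial of Frobenius. -/
theorem frob_char (hE : Sh E) {p r : ℕ} [Fact p.Prime] [CharP k p] (hr : 0 < r) {σ : k →+* k}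
    (hσ : ∀ z, σ z = z ^ p ^ r) (e : E = WeierstrassCurve.map E σ) {φ : E.Point →+ E.Point}
    (hφ : IsMap σ φ) : ∃ t : ℤ, (∀ P, φ (φ P) - t • φ P + ((p ^ r : ℕ) : ℤ) • P = 0) ∧
      ∀ a : ℤ, (a : k) ≠ 0 → 0 < Nat.card {P // a • P + φ P = 0} ∧
        (Nat.card {P // a • P + φ P = 0} : ℤ) = a ^ 2 + t * a + (p ^ r : ℕ) := by
  classical
  have hp : p.Prime := Fact.out
  obtain ⟨G, hG⟩ := exists_gs (K := k) (k := k) (E := E) hE E.map_id.symm
  have : CharP (AlgebraicClosure (FractionRing k[X])) p :=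
    charP_of_injective_algebraMap (algebraMap k _).injective p
  have hQ : 1 < p ^ r := Nat.one_lt_pow hr.ne' hp.one_lt
  have ho : Odd (p ^ r) := (hp.odd_of_ne_two fun h => hE.two (by
    have := CharP.cast_eq_zero k p
    rwa [h] at this)).pow
  obtain ⟨Φ, hΦ⟩ := exists_isMap hG.gn.shE (iterateFrobenius _ p r) (E' := WeierstrassCurve.map E
      (algebraMap k (AlgebraicClosure (FractionRing k[X])))) (by
    conv_lhs => rw [e]
    rw [WeierstrassCurve.map_map, WeierstrassCurve.map_map]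
    exact congrArg _ (RingHom.ext fun z => by simp [hσ, iterateFrobenius_def]))
  have h1 : ∀ O ev (D : SpecData O ev _ E) R, D.hom (Φ R) = φ (D.hom R) := fun O ev D R =>
    D.equiv hΦ hφ (D.pow_mem_iff (by omega)) (fun z h h' => by
      rw [hσ, ← map_pow]
      rfl) R
  have hf : ∀ {R N} {γ : k}, Rp G R N γ → Rp G (Φ R) (p ^ r * N) (0 : k) := fun h =>
    hG.gn.rp_frob hΦ (fun _ => rfl) hQ ho h
  have h2 : ∀ {R N} {γ : k} {ψ : E.Point →+ E.Point}, Rp G R N γ → Cp G R ψ → γ ≠ 0 →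
      N ≠ 0 ∧ Nat.card {P // ψ P = 0} = N ∧ Function.Surjective ψ := by
    rintro R N γ ψ ⟨-, u, v, n, q⟩ hc hγ
    have h0 : N ≠ 0 := fun h => hγ (by subst h; exact n.eq_zero.2)
    exact ⟨h0, (hG.sp hc q).card hE n hγ, (hG.sp hc q).surj hE n h0⟩
  obtain ⟨t, ht⟩ := hG.gn.quad (hf hG.gn.rp_self)
  let ψ : ℤ → E.Point →+ E.Point := fun a => a • AddMonoidHom.id _ + φ
  have hψ : ∀ a P, ψ a P = a • P + φ P := fun _ _ => rfl
  have h3 : ∀ a : ℤ, (a : k) ≠ 0 → 0 < Nat.card {P // ψ a P = 0} ∧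
      (Nat.card {P // ψ a P = 0} : ℤ) = a ^ 2 + t * a + (p ^ r : ℕ) ∧
        Function.Surjective (ψ a) := fun a ha => by
    obtain ⟨M, h4, h5⟩ := ht a
    obtain ⟨h6, h7, h8⟩ := h2 (ψ := ψ a) h4
      (fun O ev D => by rw [map_add, map_zsmul, h1, hψ]) (pow_ne_zero 2 ha)
    exact ⟨by omega, by rw [h7, h5, mul_one], h8⟩
  refine ⟨t, ?_, fun a ha => ⟨(h3 a ha).1, (h3 a ha).2.1⟩⟩
  obtain ⟨M, h4, -⟩ := ht (-t)
  obtain ⟨β, hβ⟩ := hG.gn.quad (hf h4)
  let χ : ℤ → E.Point →+ E.Point := fun m => m • AddMonoidHom.id _ + φ.comp (ψ (-t))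
  have hχ : ∀ m P, χ m P = m • P + φ (ψ (-t) P) := fun _ _ => rfl
  have hc : ∀ m, Cp G (m • G + Φ ((-t) • G + Φ G)) (χ m) := fun m O ev D => by
    rw [map_add, map_zsmul, h1, map_add, map_zsmul, h1, hχ, hψ]
  have h5 : ∀ a : ℤ, (a : k) ≠ 0 → ((a + t : ℤ) : k) ≠ 0 → (-(a * (a + t))) ^ 2 +
      β * -(a * (a + t)) + (p ^ r * M : ℕ) = ((p ^ r : ℕ) + a * (a + t)) ^ 2 := fun a ha hb => by
    have hb' : ((-(a + t) : ℤ) : k) ≠ 0 := by rwa [Int.cast_neg, neg_ne_zero]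
    obtain ⟨N, h6, h7⟩ := hβ (-(a * (a + t)))
    have h8 := (h2 h6 (hc _) (pow_ne_zero 2 (by
      rw [Int.cast_neg, Int.cast_mul, neg_ne_zero]
      exact mul_ne_zero ha hb))).2.1
    have h9 : ∀ P, χ (-(a * (a + t))) P = ψ a (ψ (-(a + t)) P) := fun P => by
      simp only [hχ, hψ, map_add, map_zsmul]
      module
    simp only [h9] at h8
    rw [← h7, ← h8, card_ker_comp _ _ (h3 _ hb').2.2, Nat.cast_mul, (h3 a ha).2.1, (h3 _ hb').2.1]
    ring
  obtain ⟨a, ha, hb⟩ : ∃ a : ℤ, (a : k) ≠ 0 ∧ ((a + t : ℤ) : k) ≠ 0 := by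
    by_cases h : ((1 + t : ℤ) : k) = 0
    · refine ⟨-1, by simp, fun h' => hE.two ?_⟩
      push_cast at h h'
      linear_combination h - h'
    · exact ⟨1, by simp, h⟩
  have h6 := e5_int (p := p) (by exact_mod_cast hp.ne_zero) fun j => h5 (a + p * j)
    (by simpa using ha) (by simpa using hb)
  obtain ⟨N, ⟨-, u, v, n, q⟩, h7⟩ := hβ (p ^ r : ℕ)
  obtain rfl : N = 0 := by exact_mod_cast h7.trans h6
  intro P
  have := (hG.sp (hc _) q).eq_zero n P
  rw [hχ, hψ, map_add, map_zsmul] at this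
  rw [← this]
  module

end

end Pool.Agent.Lib.MP_16ef92_ag.AL.EC
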