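import Mathlib

set_option autoImplicit false
set_option linter.unusedSectionVars false
set_option linter.unusedVariables false

namespace Pool.Agent.Lib.MP_16ef92_ag.AL.EC



noncomputable section

/-- Coordinates on the Tate module of an abelian group. -/
structure TA (l : ℕ) [Fact l.Prime] {A : Type} [AddCommGroup A]
    (ev : (Fin 2 → ℤ_[l]) →+ ℕ → A) : Prop where
  mem : ∀ x, ev x 0 = 0 ∧ ∀ n, l • ev x (n + 1) = ev x n
  surj : ∀ P : ℕ → A, (P 0 = 0 ∧ ∀ n, l • P (n + 1) = P n) → ∃ x, ev x = P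
  lvl : ∀ n (P : A), l ^ n • P = 0 → ∃ x, ev x n = P
  zero : ∀ n x, ev x n = 0 ↔ ∀ i, (l : ℤ_[l]) ^ n ∣ x i

end

end Pool.Agent.Lib.MP_16ef92_ag.AL.EC
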