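import Mathlib
import Pool.Agent.Lib.MP_16ef92_ag.AL.E6

set_option autoImplicit false
set_option linter.unusedSectionVars false
set_option linter.unusedVariables false

namespace Pool.Agent.Lib.MP_16ef92_ag.AL.EC

open WeierstrassCurve Polynomial

noncomputable section

variable {l : ℕ} [Fact l.Prime] {A : Type} [AddCommGroup A]

theorem e6a_div (h : ∀ j, Nat.card {P : A // l ^ j • P = 0} = l ^ (2 * j)) (j : ℕ) (P : A)
    (hP : l ^ j • P = 0) : ∃ Q, l • Q = P := by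
  have l0 : 0 < l := (Fact.out : l.Prime).pos
  have hc : ∀ j, Nat.card (nsmulAddMonoidHom (l ^ j) : A →+ A).ker = l ^ (2 * j) := h
  have hf : ∀ j, Finite (nsmulAddMonoidHom (l ^ j) : A →+ A).ker := fun j =>
    Nat.finite_of_card_ne_zero (by rw [hc]; positivity)
  let f : (nsmulAddMonoidHom (l ^ (j + 1)) : A →+ A).ker →+
      (nsmulAddMonoidHom (l ^ j) : A →+ A).ker :=
    ((nsmulAddMonoidHom l).comp (AddSubgroup.subtype _)).codRestrict _ fun Q => by
      change l ^ j • l • (Q : A) = 0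
      rw [smul_smul, ← pow_succ]
      exact Q.2
  have h1 : Nat.card f.ker ≤ l ^ (2 * 1) := by
    rw [← h]
    have : Finite {P : A // l ^ 1 • P = 0} := hf 1
    exact Nat.card_le_card_of_injective
      (fun Q => (⟨Q.1.1, by rw [pow_one]; exact congrArg Subtype.val Q.2⟩ : {P : A // l ^ 1 • P = 0}))
      fun Q R e => Subtype.ext (Subtype.ext (Subtype.ext_iff.1 e :))
  have h2 := AddSubgroup.card_eq_card_quotient_mul_card_addSubgroup f.ker
  rw [Nat.card_congr (QuotientAddGroup.quotientKerEquivRange f).toEquiv, hc, mul_add, pow_add] at h2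
  have h3 : f.range = ⊤ := AddSubgroup.eq_top_of_le_card _ (by
    rw [hc]
    exact Nat.le_of_mul_le_mul_right (h2.trans_le (Nat.mul_le_mul_left _ h1)) (by positivity))
  obtain ⟨Q, hQ⟩ := AddMonoidHom.range_eq_top.1 h3 ⟨P, hP⟩
  exact ⟨Q, congrArg Subtype.val hQ⟩

theorem e6a_vs {T : Type} [AddCommGroup T] (h : Nat.card T = l ^ 2) (h0 : ∀ x : T, l • x = 0) :
    ∃ e : Fin 2 → T, ∀ m : Fin 2 → ℕ, ∑ i, m i • e i = 0 → ∀ i, l ∣ m i := by
  have l1 : 1 < l := (Fact.out : l.Prime).one_lt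
  have : Finite T := Nat.finite_of_card_ne_zero (by rw [h]; positivity)
  obtain ⟨_⟩ : Nonempty (Module (ZMod l) T) := ⟨AddCommGroup.zmodModule h0⟩
  rw [Module.natCard_eq_pow_finrank (K := ZMod l), Nat.card_zmod] at h
  let b := Module.finBasisOfFinrankEq (ZMod l) T (Nat.pow_right_injective l1 h)
  refine ⟨b, fun m hm i => (ZMod.natCast_eq_zero_iff _ _).1 ?_⟩
  refine Fintype.linearIndependent_iff.1 b.linearIndependent (fun i => (m i : ZMod l)) ?_ i
  simpa only [Nat.cast_smul_eq_nsmul] using hm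

theorem e6a_basis (h : Nat.card {P : A // l ^ 1 • P = 0} = l ^ (2 * 1)) : ∃ e : Fin 2 → A,
    (∀ i, l ^ 1 • e i = 0) ∧ ∀ m : Fin 2 → ℕ, ∑ i, m i • e i = 0 → ∀ i, l ∣ m i := by
  obtain ⟨e, he⟩ := e6a_vs (l := l) (T := (nsmulAddMonoidHom (l ^ 1) : A →+ A).ker) h fun x =>
    Subtype.ext ((congrArg (· • x.1) (pow_one l)).symm.trans x.2)
  exact ⟨fun i => e i, fun i => (e i).2, fun m hm => he m (Subtype.ext (by simpa using hm))⟩

theorem e6a_pow {b : ℕ → A} (h : ∀ n, l • b (n + 1) = b n) (k n : ℕ) : l ^ n • b (k + n) = b k := by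
  induction n with
  | zero => simp
  | succ n ih => rw [pow_succ, mul_smul, ← add_assoc, h, ih]

theorem e6a_chain (h : ∀ (j : ℕ) (P : A), l ^ j • P = 0 → ∃ Q, l • Q = P) {e : A}
    (he : l ^ 1 • e = 0) : ∃ b : ℕ → A, b 0 = 0 ∧ b 1 = e ∧ ∀ n, l • b (n + 1) = b n := by
  have h1 : ∀ P : {P : A // ∃ j, l ^ j • P = 0}, ∃ Q : {P : A // ∃ j, l ^ j • P = 0},
      l • Q.1 = P.1 := fun ⟨P, j, hj⟩ => by
    obtain ⟨Q, hQ⟩ := h j P hj
    exact ⟨⟨Q, j + 1, by rw [pow_succ, mul_smul, hQ, hj]⟩, hQ⟩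
  choose f hf using h1
  refine ⟨fun n => Nat.casesOn n 0 fun m => (f^[m] ⟨e, 1, he⟩).1, rfl, rfl, fun n => ?_⟩
  cases n with
  | zero => exact (congrArg (· • e) (pow_one l)).symm.trans he
  | succ n =>
    change l • (f^[n + 1] _).1 = (f^[n] _).1
    rw [Function.iterate_succ_apply', hf]

theorem e6a_red {n : ℕ} {a : ℤ_[l]} : PadicInt.toZModPow n a = 0 ↔ (l : ℤ_[l]) ^ n ∣ a := by
  rw [← RingHom.mem_ker, PadicInt.ker_toZModPow, Ideal.mem_span_singleton]

theorem e6a_pe (n : ℕ) {P : A} (h : l ^ n • P = 0) : ∃ f : ℤ_[l] →+ A,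
    ∀ (a : ℤ_[l]) (m : ℕ), (l : ℤ_[l]) ^ n ∣ a - m → f a = m • P := by
  refine ⟨(ZMod.lift (l ^ n) ⟨zmultiplesHom A P, (natCast_zsmul P _).trans h⟩).comp
    (PadicInt.toZModPow n).toAddMonoidHom, fun a m hm => ?_⟩
  rw [← e6a_red, map_sub, sub_eq_zero, map_natCast, ← Int.cast_natCast] at hm
  rw [AddMonoidHom.comp_apply, RingHom.toAddMonoidHom_eq_coe, AddMonoidHom.coe_coe, hm,
    ZMod.lift_coe]
  exact natCast_zsmul P m

theorem exists_TA (h : ∀ j, Nat.card {P : A // l ^ j • P = 0} = l ^ (2 * j)) :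
    ∃ ev : (Fin 2 → ℤ_[l]) →+ ℕ → A, TA l ev := by
  have l0 : 0 < l := (Fact.out : l.Prime).pos
  obtain ⟨e, he, hi⟩ := e6a_basis (h 1)
  choose b b0 b1 b2 using fun i => e6a_chain (e6a_div h) (he i)
  choose f hf using fun i n => e6a_pe (l := l) n (P := b i n) (by
    rw [← b0 i, ← e6a_pow (b2 i) 0 n, zero_add])
  obtain ⟨ev, key⟩ : ∃ ev : (Fin 2 → ℤ_[l]) →+ ℕ → A, ∀ n x (m : Fin 2 → ℕ),
      (∀ i, (l : ℤ_[l]) ^ n ∣ x i - m i) → ev x n = ∑ i, m i • b i n :=
    ⟨AddMonoidHom.mk' (fun x n => ∑ i, f i n (x i)) fun x y => funext fun n => by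
      simp only [Pi.add_apply, map_add, Finset.sum_add_distrib], fun n x m hm =>
      Finset.sum_congr (s₁ := Finset.univ) rfl fun i _ => hf i n _ _ (hm i)⟩
  have ap : ∀ n (x : Fin 2 → ℤ_[l]) i, (l : ℤ_[l]) ^ n ∣ x i - ((x i).appr n : ℕ) := fun n x i =>
    Ideal.mem_span_singleton.1 (PadicInt.appr_spec n (x i))
  have st : ∀ x n, l • ev x (n + 1) = ev x n := fun x n => by
    rw [key _ _ _ (ap (n + 1) x), key n _ _ fun i => (pow_dvd_pow _ n.le_succ).trans (ap _ x i),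
      Finset.smul_sum]
    exact Finset.sum_congr rfl fun i _ => by rw [smul_comm, b2]
  have z0 : ∀ x, ev x 0 = 0 := fun x => by simp [key _ _ _ (ap 0 x), b0]
  have hn : ∀ n (m : Fin 2 → ℕ), ∑ i, m i • b i n = 0 → ∀ i, l ^ n ∣ m i := fun n => by
    induction n with
    | zero => simp
    | succ n ih =>
      intro m hm
      choose c hc using ih m (by
        rw [← smul_zero l, ← hm, Finset.smul_sum]
        exact Finset.sum_congr rfl fun i _ => by rw [smul_comm, b2])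
      intro i
      rw [hc, pow_succ]
      refine mul_dvd_mul_left _ (hi c (hm ▸ Finset.sum_congr rfl fun i _ => ?_) i)
      rw [hc, mul_comm, mul_smul, add_comm, e6a_pow (b2 i), b1]
  have hz : ∀ n x, ev x n = 0 ↔ ∀ i, (l : ℤ_[l]) ^ n ∣ x i := fun n x => by
    refine ⟨fun hx i => ?_, fun hx => by simp [key n x 0 (by simpa using hx)]⟩
    have h1 := (Nat.cast_dvd_cast (α := ℤ_[l]) (hn n _ (key _ _ _ (ap n x) ▸ hx) i))
    rw [Nat.cast_pow] at h1
    simpa using dvd_add (ap n x i) h1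
  have cg : ∀ n x y, ev x n = ev y n ↔ ∀ i, (l : ℤ_[l]) ^ n ∣ x i - y i := fun n x y => by
    rw [← sub_eq_zero, ← Pi.sub_apply, ← map_sub, hz]
    rfl
  have lv : ∀ n (P : A), l ^ n • P = 0 → ∃ x, ev x n = P := fun n P hP => by
    have : Finite {P : A // l ^ n • P = 0} := Nat.finite_of_card_ne_zero (by rw [h]; positivity)
    have h1 : Function.Injective fun z : Fin 2 → ZMod (l ^ n) =>
        (⟨ev (fun i => ((z i).val : ℕ)) n, by
          rw [← z0 _, ← e6a_pow (st _) 0 n, zero_add]⟩ : {P : A // l ^ n • P = 0}) := by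
      intro z w hzw
      funext i
      have h2 := e6a_red.2 ((cg _ _ _).1 (congrArg Subtype.val hzw) i)
      rwa [map_sub, map_natCast, map_natCast, ZMod.natCast_zmod_val, ZMod.natCast_zmod_val,
        sub_eq_zero] at h2
    obtain ⟨z, hz⟩ := (h1.bijective_of_nat_card_le (by
      rw [h, Nat.card_fun, Nat.card_zmod, Nat.card_fin, pow_mul'])).2 ⟨P, hP⟩
    exact ⟨_, congrArg Subtype.val hz⟩
  refine ⟨ev, fun x => ⟨z0 x, st x⟩, fun P hP => ?_, lv, hz⟩
  have hcl : ∀ n, IsClosed {x | ev x n = P n} := fun n => by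
    rw [← isOpen_compl_iff, Metric.isOpen_iff]
    intro x hx
    have hp : (0 : ℝ) < (l : ℝ) ^ (-(n : ℤ)) := by positivity
    refine ⟨_, hp, fun y hy hC => hx (((cg n x y).2 fun i => ?_).trans hC)⟩
    have h1 := (dist_pi_lt_iff hp).1 (Metric.mem_ball'.1 hy) i
    rw [dist_eq_norm] at h1
    exact Ideal.mem_span_singleton.1 ((PadicInt.norm_le_pow_iff_mem_span_pow _ n).1 h1.le)
  obtain ⟨x, hx⟩ := IsCompact.nonempty_iInter_of_sequence_nonempty_isCompact_isClosed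
    (fun n => {x | ev x n = P n}) (fun n x hx => by
      change ev x n = P n
      rw [← st, ← hP.2, show ev x (n + 1) = _ from hx])
    (fun n => lv n _ (by rw [← hP.1, ← e6a_pow hP.2 0 n, zero_add])) (hcl 0).isCompact hcl
  exact ⟨x, funext (Set.mem_iInter.1 hx)⟩

end

end Pool.Agent.Lib.MP_16ef92_ag.AL.EC
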