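import Mathlib
import Pool.Agent.Lib.MP_16ef92_ag.AL.E6

set_option autoImplicit false
set_option linter.unusedSectionVars false
set_option linter.unusedVariables false

namespace Pool.Agent.Lib.MP_16ef92_ag.AL.EC

open WeierstrassCurve Polynomial

noncomputable section

variable {l : ℕ} [Fact l.Prime] {A : Type} [AddCommGroup A] {ev : (Fin 2 → ℤ_[l]) →+ ℕ → A}

theorem e6b_zero {c : ℤ_[l]} (h : ∀ n, (l : ℤ_[l]) ^ n ∣ c) : c = 0 := by
  refine PadicInt.ext_of_toZModPow.1 fun n => ?_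
  rw [map_zero, ← RingHom.mem_ker, PadicInt.ker_toZModPow, Ideal.mem_span_singleton]
  exact h n

theorem TA.inj (h : TA l ev) : Function.Injective ev :=
  (injective_iff_map_eq_zero ev).2 fun x hx => funext fun i =>
    e6b_zero fun n => (h.zero n x).1 (congrFun hx n) i

theorem TA.tors (h : TA l ev) (x : Fin 2 → ℤ_[l]) (n : ℕ) : l ^ n • ev x n = 0 := by
  have e := (h.zero n (l ^ n • x)).2 fun i => ⟨x i, by simp⟩
  rwa [map_nsmul] at e

theorem e6b_key (h : TA l ev) (c : ℤ_[l]) (x : Fin 2 → ℤ_[l]) (n : ℕ) :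
    ev (c • x) n = PadicInt.appr c n • ev x n := by
  have e := (h.zero n (c • x - PadicInt.appr c n • x)).2 fun i => by
    have h1 := Ideal.mem_span_singleton.1 (PadicInt.appr_spec n c)
    have h2 : (c • x - PadicInt.appr c n • x) i = (c - PadicInt.appr c n) * x i := by
      simp [sub_mul]
    rw [h2]
    exact h1.mul_right _
  rw [map_sub, map_nsmul] at e
  exact sub_eq_zero.1 e

theorem TA.exists_end (h : TA l ev) (f : A →+ A) :
    ∃ M : Module.End ℤ_[l] (Fin 2 → ℤ_[l]), ∀ x n, ev (M x) n = f (ev x n) := by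
  choose M hM using fun x => h.surj (fun n => f (ev x n))
    ⟨by rw [(h.mem x).1, map_zero], fun n => by rw [← map_nsmul, (h.mem x).2]⟩
  have hM' : ∀ x n, ev (M x) n = f (ev x n) := fun x n => congrFun (hM x) n
  refine ⟨⟨⟨M, fun x y => h.inj (funext fun n => ?_)⟩, fun c x => h.inj (funext fun n => ?_)⟩, hM'⟩
  · rw [map_add, Pi.add_apply, hM', hM', hM', map_add, Pi.add_apply, map_add]
  · rw [RingHom.id_apply, e6b_key h, hM', hM', e6b_key h, map_nsmul]

theorem TA.exists_rep (h : TA l ev) {G : Type} [Group G] (f : G → A →+ A)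
    (h1 : ∀ P, f 1 P = P) (h2 : ∀ a b P, f (a * b) P = f a (f b P)) :
    ∃ ro : G →* Module.End ℤ_[l] (Fin 2 → ℤ_[l]), ∀ g x n, ev (ro g x) n = f g (ev x n) := by
  choose M hM using fun g => h.exists_end (f g)
  refine ⟨⟨⟨M, LinearMap.ext fun x => h.inj (funext fun n => ?_)⟩,
    fun a b => LinearMap.ext fun x => h.inj (funext fun n => ?_)⟩, hM⟩
  · rw [hM, h1, Module.End.one_apply]
  · rw [Module.End.mul_apply, hM, hM, hM, h2]

variable (h : TA l ev) {f : A →+ A} {M : Module.End ℤ_[l] (Fin 2 → ℤ_[l])}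
  (hM : ∀ x n, ev (M x) n = f (ev x n)) {t Q : ℤ}
  (h1 : ∀ (n : ℕ) (P : A), l ^ n • P = 0 → f (f P) - t • f P + Q • P = 0)
include h hM h1

theorem e6b_char (x : Fin 2 → ℤ_[l]) :
    M (M x) - (t : ℤ_[l]) • M x + (Q : ℤ_[l]) • x = 0 := by
  refine h.inj (funext fun n => ?_)
  rw [Int.cast_smul_eq_zsmul, Int.cast_smul_eq_zsmul, map_add, map_sub, map_zsmul, map_zsmul,
    map_zero, Pi.add_apply, Pi.sub_apply, Pi.smul_apply, Pi.smul_apply, hM, hM]
  exact h1 n _ (h.tors x n)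

theorem e6b_scal {p : ℕ} (hp : p.Prime) (hpl : p ≠ l)
    (h2 : ∀ (a : ℤ) (j : ℕ), ¬ (p : ℤ) ∣ a → (∀ P : A, l ^ j • P = 0 → a • P + f P = 0) →
      (l : ℤ) ^ (2 * j) ∣ a ^ 2 + t * a + Q) {s : ℤ_[l]} (hs : ∀ x, M x = s • x) :
    s + s = t := by
  rw [eq_comm, ← sub_eq_zero]
  refine e6b_zero fun j => ?_
  have hc : IsCoprime ((l : ℤ) ^ j) p :=
    (Nat.isCoprime_iff_coprime.2 ((Nat.coprime_primes Fact.out hp).2 hpl.symm)).pow_left
  have h3 : ∀ a : ℤ, ¬ (p : ℤ) ∣ a → (l : ℤ_[l]) ^ j ∣ a + s →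
      (l : ℤ) ^ (2 * j) ∣ a ^ 2 + t * a + Q := by
    intro a ha hd
    refine h2 a j ha fun P hP => ?_
    obtain ⟨x, rfl⟩ := h.lvl j P hP
    have e := (h.zero j (a • x + M x)).2 fun i => by
      have h4 : (a • x + M x) i = (a + s) * x i := by simp [hs, add_mul]
      rw [h4]
      exact hd.mul_right _
    rwa [map_add, map_zsmul, Pi.add_apply, Pi.smul_apply, hM] at e
  obtain ⟨a, ha, hd⟩ : ∃ a : ℤ, ¬ (p : ℤ) ∣ a ∧ (l : ℤ_[l]) ^ j ∣ a + s := by
    have h5 : (l : ℤ_[l]) ^ j ∣ ((-(PadicInt.appr s j : ℤ) : ℤ) : ℤ_[l]) + s := by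
      have h6 := Ideal.mem_span_singleton.1 (PadicInt.appr_spec j s)
      rwa [Int.cast_neg, Int.cast_natCast, neg_add_eq_sub]
    by_cases h7 : (p : ℤ) ∣ -(PadicInt.appr s j : ℤ)
    · refine ⟨-(PadicInt.appr s j : ℤ) + l ^ j, fun h8 => ?_, ?_⟩
      · exact (Nat.prime_iff_prime_int.1 hp).not_isUnit
          (hc.isUnit_of_dvd' ((dvd_add_right h7).1 h8) dvd_rfl)
      · rw [Int.cast_add, add_right_comm]
        exact h5.add (by simp)
    · exact ⟨_, h7, h5⟩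
  have h9 := (h3 (a + p * l ^ j) (fun h8 => ha ((dvd_add_left (dvd_mul_right _ _)).1 h8)) (by
    rw [Int.cast_add, add_right_comm]
    exact hd.add (by simp))).sub (h3 a ha hd)
  have e : (a + p * l ^ j) ^ 2 + t * (a + p * l ^ j) + Q - (a ^ 2 + t * a + Q) =
      (l : ℤ) ^ j * (p * (2 * a + t + p * l ^ j)) := by ring
  have hl : (l : ℤ) ^ j ≠ 0 := pow_ne_zero _ (Int.natCast_ne_zero.2 (Fact.out : l.Prime).ne_zero)
  rw [e, two_mul j, pow_add, mul_dvd_mul_iff_left hl] at h9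
  obtain ⟨k, hk⟩ := (dvd_add_left (dvd_mul_left _ _)).1 (hc.dvd_of_dvd_mul_left h9)
  obtain ⟨k', hk'⟩ := hd
  have hk2 := congrArg (Int.cast : ℤ → ℤ_[l]) hk
  push_cast at hk2
  exact ⟨k - 2 * k', by linear_combination hk2 - 2 * hk'⟩

theorem TA.trace {p : ℕ} (hp : p.Prime) (hpl : p ≠ l)
    (h2 : ∀ (a : ℤ) (j : ℕ), ¬ (p : ℤ) ∣ a → (∀ P : A, l ^ j • P = 0 → a • P + f P = 0) →
      (l : ℤ) ^ (2 * j) ∣ a ^ 2 + t * a + Q) : LinearMap.trace _ _ M = t := by
  rw [LinearMap.trace_eq_matrix_trace _ (Pi.basisFun ℤ_[l] (Fin 2)), LinearMap.toMatrix_eq_toMatrix',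
    Matrix.trace_fin_two]
  have hx : ∀ x, M x = (LinearMap.toMatrix' M).mulVec x := fun x =>
    (LinearMap.toMatrix'_mulVec M x).symm
  have hc := e6b_char h hM h1
  generalize LinearMap.toMatrix' M = N at hx
  by_contra hn
  have hn' : N 0 0 + N 1 1 - t ≠ 0 := sub_ne_zero.2 hn
  have e0 := hc ![1, 0]
  have e1 := hc ![0, 1]
  have e00 := congrFun e0 0
  have e01 := congrFun e0 1
  have e10 := congrFun e1 0
  have e11 := congrFun e1 1
  simp only [hx, Matrix.mulVec, dotProduct, Fin.sum_univ_two, Pi.add_apply, Pi.sub_apply,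
    Pi.smul_apply, smul_eq_mul, Matrix.cons_val_zero, Matrix.cons_val_one, Pi.zero_apply]
    at e00 e01 e10 e11
  have b0 : N 0 1 = 0 := (mul_eq_zero.1 (by linear_combination e10)).resolve_right hn'
  have c0 : N 1 0 = 0 := (mul_eq_zero.1 (by linear_combination e01)).resolve_right hn'
  have d0 : N 1 1 - N 0 0 = 0 :=
    (mul_eq_zero.1 (by linear_combination e11 - e00)).resolve_right hn'
  rw [sub_eq_zero] at d0
  refine hn (d0 ▸ e6b_scal h hM h1 hp hpl h2 fun x => ?_)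
  rw [hx]
  funext i
  fin_cases i <;> simp [Matrix.mulVec, dotProduct, Fin.sum_univ_two, b0, c0, d0]

theorem TA.wt (hQ : Q ≠ 0) (h3 : 1 - t + Q ≠ 0) (x : Fin 2 → ℤ_[l])
    (hx : M x = x ∨ M x = (Q : ℤ_[l]) • x) : x = 0 := by
  have e := e6b_char h hM h1 x
  have h4 : ((1 - t + Q : ℤ) : ℤ_[l]) ≠ 0 := Int.cast_ne_zero.2 h3
  rcases hx with hx | hx
  · rw [hx, hx] at e
    refine (smul_eq_zero.1 ?_).resolve_left h4
    rw [← e]
    push_cast
    module
  · rw [hx, map_smul, hx] at e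
    refine (smul_eq_zero.1 ?_).resolve_left (mul_ne_zero (Int.cast_ne_zero.2 hQ) h4)
    rw [← e]
    push_cast
    module

end

end Pool.Agent.Lib.MP_16ef92_ag.AL.EC
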