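import Mathlib
import Pool.Agent.Lib.MP_16ef92_ag.AL.E7
import Pool.Agent.Lib.MP_16ef92_ag.AL.ETor

set_option autoImplicit false
set_option linter.unusedSectionVars false
set_option linter.unusedVariables false

namespace Pool.Agent.Lib.MP_16ef92_ag.AL

open Polynomial WeierstrassCurve EC

noncomputable section

variable {F : Type} [Field F] [Fintype F] [Clos F] [hq : Fact (Odd (Fintype.card F))]

theorem cast_om {m : ℕ} (hm : (m : F) ≠ 0) : (m : Om F) ≠ 0 := by
  simpa using (map_ne_zero (algebraMap F (Om F))).2 hm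

theorem sh_om {A B D : F[X]} (h0 : A * B * (A - B) * D ≠ 0) :
    Sh ((curve A B D).baseChange (Om F)).toAffine := (sh_curve h0).map _

/-- Torsion points of order prime to the characteristic are defined over the separable closure. -/
theorem tors_sep {Ω : Type} [Field Ω] [DecidableEq Ω] [Algebra (RatFunc F) Ω] [Algebra (Om F) Ω]
    [IsScalarTower (RatFunc F) (Om F) Ω] {A B D : F[X]} (h0 : A * B * (A - B) * D ≠ 0) {m : ℕ}
    (hm : (m : F) ≠ 0) {a b : Ω} (hn : ((curve A B D).baseChange Ω).toAffine.Nonsingular a b)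
    (h : m • Affine.Point.some a b hn = 0) :
    a ∈ (algebraMap (Om F) Ω).range ∧ b ∈ (algebraMap (Om F) Ω).range :=
  tors_rat (sh_om h0) (by
    rw [baseChange, baseChange, toAffine, toAffine, WeierstrassCurve.map_map,
      ← IsScalarTower.algebraMap_eq]) (cast_om hm) h

/-- The number of torsion points. -/
theorem card_tors {A B D : F[X]} (h0 : A * B * (A - B) * D ≠ 0) {m : ℕ} (hm : (m : F) ≠ 0) :
    Nat.card {P : Pt (curve A B D) // m • P = 0} = m ^ 2 :=
  card_tors_sep (sh_om h0) (cast_om hm)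

/-- Divisibility. -/
theorem pt_div {A B D : F[X]} (h0 : A * B * (A - B) * D ≠ 0) {m : ℕ} (hm : (m : F) ≠ 0)
    (P : Pt (curve A B D)) : ∃ Q, m • Q = P :=
  div_sep (sh_om h0) (cast_om hm) P

end

end Pool.Agent.Lib.MP_16ef92_ag.AL
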