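import Mathlib
import Pool.Agent.Lib.MP_16ef92_ag.Loc

set_option autoImplicit false
set_option linter.unusedSectionVars false
set_option linter.unusedVariables false

namespace Pool.Agent.Lib.MP_16ef92_ag.AL

open Polynomial IntermediateField
open scoped Classical

noncomputable section

variable {F : Type} [Field F] [Clos F] [Fintype F] [hq : Fact (Odd (Fintype.card F))]

theorem cast_ne {n : ℕ} (hn : (n : F) ≠ 0) : (n : Om F) ≠ 0 := by
  have := (map_ne_zero (algebraMap F (Om F))).2 hn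
  rwa [map_natCast] at this

theorem exists_prm {n : ℕ} (hn : (n : F) ≠ 0) : ∃ r : Om F, IsPrimitiveRoot r n :=
  have : NeZero (n : Om F) := ⟨cast_ne hn⟩
  have : NeZero n := NeZero.of_neZero_natCast (Om F)
  HasEnoughRootsOfUnity.exists_primitiveRoot _ _

variable {n : ℕ} [NeZero n] {r : Om F}

theorem exists_rtn (hr : IsPrimitiveRoot r n) (z : Om F) : ∃ w, w ^ n = z :=
  have : NeZero (n : Om F) := hr.neZero'
  IsSepClosed.exists_pow_nat_eq z n

/-- The character `a ↦ r^a`. -/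
def chn (r : Om F) (a : ZMod n) : Om F := r ^ a.val

theorem chn_nat (hr : IsPrimitiveRoot r n) (m : ℕ) : chn r (m : ZMod n) = r ^ m := by
  unfold chn
  rw [ZMod.val_natCast, ← pow_eq_pow_mod m hr.pow_eq_one]

theorem chn_zero : chn r (0 : ZMod n) = 1 := by simp [chn]

theorem chn_add (hr : IsPrimitiveRoot r n) (a b : ZMod n) :
    chn r (a + b) = chn r a * chn r b := by
  conv_lhs => rw [← ZMod.natCast_zmod_val a, ← ZMod.natCast_zmod_val b, ← Nat.cast_add, chn_nat hr,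
    pow_add]
  rfl

theorem chn_pow (hr : IsPrimitiveRoot r n) (a : ZMod n) (m : ℕ) :
    chn r ((m : ZMod n) * a) = chn r a ^ m := by
  conv_lhs => rw [← ZMod.natCast_zmod_val a, ← Nat.cast_mul, chn_nat hr, mul_comm, pow_mul]
  rfl

theorem chn_ne (hr : IsPrimitiveRoot r n) (a : ZMod n) : chn r a ≠ 0 :=
  pow_ne_zero _ (hr.ne_zero (NeZero.ne n))

theorem chn_neg (hr : IsPrimitiveRoot r n) (a : ZMod n) : chn r (-a) = (chn r a)⁻¹ := by
  apply eq_inv_of_mul_eq_one_left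
  rw [← chn_add hr, neg_add_cancel, chn_zero]

theorem chn_zpow (hr : IsPrimitiveRoot r n) (a : ZMod n) (m : ℤ) :
    chn r ((m : ZMod n) * a) = chn r a ^ m := by
  obtain ⟨m, rfl | rfl⟩ := m.eq_nat_or_neg
  · simpa using chn_pow hr a m
  · rw [Int.cast_neg, neg_mul, chn_neg hr, zpow_neg, Int.cast_natCast, chn_pow hr, zpow_natCast]

theorem chn_inj (hr : IsPrimitiveRoot r n) {a b : ZMod n} (h : chn r a = chn r b) :
    a = b := ZMod.val_injective _ (hr.pow_inj (ZMod.val_lt a) (ZMod.val_lt b) h)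

theorem chn_surj (hr : IsPrimitiveRoot r n) {w : Om F} (hw : w ^ n = 1) :
    ∃ a : ZMod n, w = chn r a := by
  obtain ⟨i, _, hi⟩ := hr.eq_pow_of_pow_eq_one hw
  exact ⟨i, by rw [chn_nat hr, hi]⟩

theorem chn_pow_one (hr : IsPrimitiveRoot r n) (a : ZMod n) : chn r a ^ n = 1 := by
  unfold chn
  rw [← pow_mul, mul_comm, pow_mul, hr.pow_eq_one, one_pow]

theorem chn_mem (hr : IsPrimitiveRoot r n) (a : ZMod n) : chn r a ∈ kk F := by
  obtain ⟨c, hc⟩ := root_one_const (NeZero.pos n) (chn_pow_one hr a)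
  rw [hc]
  exact c.2

theorem geo_prm (hr : IsPrimitiveRoot r n) {g : Gam F} (hg : g ∈ Geo F) : g r = r :=
  geo_root hg (NeZero.pos n) hr.pow_eq_one

theorem fix_chn {g : Gam F} (hg : g r = r) (a : ZMod n) : g (chn r a) = chn r a := by
  rw [chn, map_pow, hg]

/-- The Kummer character of `z`. -/
def kp (r : Om F) (n : ℕ) (z : Om F) (g : Gam F) : ZMod n :=
  if h : ∃ a : ZMod n, ∀ w, w ^ n = z → g w = chn r a * w then h.choose else 0

section kp

variable (hr : IsPrimitiveRoot r n) {g h : Gam F} {z w : Om F}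
include hr

theorem kp_spec (hg : g r = r) (hz : g z = z) (h0 : z ≠ 0) (hw : w ^ n = z) :
    g w = chn r (kp r n z g) * w := by
  have hw0 : w ≠ 0 := fun e => h0 (by rw [← hw, e]; simp [NeZero.ne n])
  have hex : ∃ a : ZMod n, ∀ w, w ^ n = z → g w = chn r a * w := by
    obtain ⟨a, ha⟩ := chn_surj hr (w := g w / w) (by rw [div_pow, ← map_pow, hw, hz, div_self h0])
    refine ⟨a, fun y hy => ?_⟩
    obtain ⟨b, hb⟩ := chn_surj hr (w := y / w) (by rw [div_pow, hy, hw, div_self h0])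
    rw [div_eq_iff hw0] at ha hb
    rw [hb, map_mul, fix_chn hg, ha]
    ring
  unfold kp
  rw [dif_pos hex]
  exact hex.choose_spec w hw

theorem kp_eq (hg : g r = r) (h0 : z ≠ 0) (hw : w ^ n = z) {a : ZMod n}
    (e : g w = chn r a * w) : kp r n z g = a := by
  have hw0 : w ≠ 0 := fun e => h0 (by rw [← hw, e]; simp [NeZero.ne n])
  have hz : g z = z := by rw [← hw, map_pow, e, mul_pow, chn_pow_one hr, one_mul]
  exact chn_inj hr (mul_right_cancel₀ hw0 ((kp_spec hr hg hz h0 hw).symm.trans e))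

theorem kp_mul_left (hg : g r = r) {y : Om F} (hz : g z = z) (h0 : z ≠ 0) (hy : g y = y)
    (h1 : y ≠ 0) : kp r n (z * y) g = kp r n z g + kp r n y g := by
  obtain ⟨a, ha⟩ := exists_rtn hr z
  obtain ⟨b, hb⟩ := exists_rtn hr y
  refine kp_eq hr hg (mul_ne_zero h0 h1) (w := a * b) (by rw [mul_pow, ha, hb]) ?_
  rw [map_mul, kp_spec hr hg hz h0 ha, kp_spec hr hg hy h1 hb, chn_add hr]
  ring

theorem kp_zpow (hg : g r = r) (hz : g z = z) (h0 : z ≠ 0) (j : ℤ) :
    kp r n (z ^ j) g = j * kp r n z g := by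
  obtain ⟨a, ha⟩ := exists_rtn hr z
  refine kp_eq hr hg (zpow_ne_zero _ h0) (w := a ^ j)
    (by rw [← zpow_natCast, ← zpow_mul, mul_comm, zpow_mul, zpow_natCast, ha]) ?_
  rw [map_zpow₀, kp_spec hr hg hz h0 ha, chn_zpow hr, mul_zpow]

theorem kp_inv_left (hg : g r = r) (hz : g z = z) (h0 : z ≠ 0) :
    kp r n z⁻¹ g = -kp r n z g := by simpa using kp_zpow hr hg hz h0 (-1)

theorem kp_div (hg : g r = r) {y : Om F} (hz : g z = z) (h0 : z ≠ 0) (hy : g y = y)
    (h1 : y ≠ 0) : kp r n (z / y) g = kp r n z g - kp r n y g := by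
  rw [div_eq_mul_inv, kp_mul_left hr hg hz h0 (by rw [map_inv₀, hy]) (inv_ne_zero h1),
    kp_inv_left hr hg hy h1, sub_eq_add_neg]

theorem kp_mul (hg : g r = r) (hh : h r = r) (hz : g z = z) (hz' : h z = z) (h0 : z ≠ 0) :
    kp r n z (g * h) = kp r n z g + kp r n z h := by
  obtain ⟨a, ha⟩ := exists_rtn hr z
  refine kp_eq hr (by rw [AlgEquiv.mul_apply, hh, hg]) h0 ha ?_
  rw [AlgEquiv.mul_apply, kp_spec hr hh hz' h0 ha, map_mul, fix_chn hg, kp_spec hr hg hz h0 ha,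
    chn_add hr]
  ring

theorem kp_of_fix (hg : g r = r) (h0 : z ≠ 0) (hw : w ^ n = z) (e : g w = w) :
    kp r n z g = 0 := kp_eq hr hg h0 hw (by rw [chn_zero, one_mul, e])

theorem kp_one (h0 : z ≠ 0) : kp r n z 1 = 0 := by
  obtain ⟨a, ha⟩ := exists_rtn hr z
  exact kp_of_fix hr rfl h0 ha rfl

theorem kp_inv (hg : g r = r) (hz : g z = z) (h0 : z ≠ 0) : kp r n z g⁻¹ = -kp r n z g := by
  have := kp_mul hr (inv_fix hg) hg (inv_fix hz) hz h0
  rw [inv_mul_cancel, kp_one hr h0] at this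
  exact eq_neg_of_add_eq_zero_left this.symm

theorem near_kp (h0 : z ≠ 0) : Near fun g : Gam F => kp r n z g = 0 := by
  obtain ⟨a, ha⟩ := exists_rtn hr z
  exact ((Near.fix r).and (Near.fix a)).mono fun g hg => kp_of_fix hr hg.1 h0 ha hg.2

theorem kp_const (hg : g ∈ Geo F) {c : kk F} (hc : c ≠ 0) : kp r n c g = 0 := by
  obtain ⟨a, ha⟩ := exists_rtn hr (c : Om F)
  obtain ⟨d, rfl⟩ := root_mem_kk (NeZero.pos n) ha
  exact kp_of_fix hr (geo_prm hr hg) (fun e => hc (Subtype.ext e)) ha (geo_fix hg d)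

theorem kp_conj {s : Gam F} {Q : ℕ} (hs : s r = r ^ Q) (hg : g ∈ Geo F) (hz : g z = z)
    (h0 : z ≠ 0) : kp r n (s z) (s * g * s⁻¹) = Q * kp r n z g := by
  obtain ⟨a, ha⟩ := exists_rtn hr z
  refine kp_eq hr (geo_prm hr (geo_conj' hg s)) (by simpa using h0) (w := s a)
    (by rw [← map_pow, ha]) ?_
  rw [AlgEquiv.mul_apply, AlgEquiv.mul_apply, inv_apply_self, kp_spec hr (geo_prm hr hg) hz h0 ha,
    map_mul, chn_pow hr, chn, map_pow, hs, ← pow_mul, ← pow_mul, mul_comm Q]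

variable {O : ValuationSubring (Om F)} {x : Option (kk F)}

theorem kp_unit (hO : Over O x) (hg : g ∈ Ine O) (hz : g z = z) (hv : O.valuation z = 1) :
    kp r n z g = 0 := by
  have h0 : z ≠ 0 := fun e => by simp [e] at hv
  obtain ⟨a, ha⟩ := exists_rtn hr z
  have h1 := kp_spec hr (geo_prm hr hg.1) hz h0 ha
  have hva : O.valuation a = 1 := by
    rw [← ha, map_pow] at hv
    exact (pow_eq_one_iff_of_nonneg zero_le (NeZero.ne n)).1 hv
  exact chn_inj hr ((hO.ine_mem hg hva (chn_mem hr _) h1).trans chn_zero.symm)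

theorem h90_addn (H : Subgroup (Gam F)) (hH : H ≤ Geo F) (f : Gam F → ZMod n)
    (hm : ∀ g ∈ H, ∀ h ∈ H, f (g * h) = f g + f h) (hn : Near fun g => g ∈ H → f g = 0) :
    ∃ b : Om F, b ≠ 0 ∧ ∀ g ∈ H, g b = chn r (f g) * b :=
  hilbert90 H (fun g => chn r (f g)) (fun g _ => chn_ne hr _)
    (fun g hg h hh => by rw [hm g hg h hh, chn_add hr, fix_chn (geo_prm hr (hH hg))])
    (hn.mono fun g hg hH => by rw [hg hH, chn_zero])

end kp

end

end Pool.Agent.Lib.MP_16ef92_ag.AL
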