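import Mathlib
import Pool.Agent.Lib.MP_16ef92_ag.AL.PKum

set_option autoImplicit false
set_option linter.unusedSectionVars false
set_option linter.unusedVariables false

namespace Pool.Agent.Lib.MP_16ef92_ag.AL

open Polynomial IntermediateField
open scoped Classical

noncomputable section

variable {F : Type} [Field F] [Clos F] [Fintype F] [hq : Fact (Odd (Fintype.card F))]

/-- `H` is closed. -/
def Cld (H : Subgroup (Gam F)) : Prop :=
  ∀ g : Gam F, (∀ z, (∀ h ∈ H, h z = z) → g z = z) → g ∈ H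

theorem cld_geo : Cld (Geo F) := fun g hg => mem_geo fun c => hg c fun h hh => geo_fix hh c

/-- `π` is a uniformiser at `O` of the fixed field of the closed subgroup `H`. -/
structure Unif (H : Subgroup (Gam F)) (O : ValuationSubring (Om F)) (π : Om F) : Prop where
  le : H ≤ Geo F
  cld : Cld H
  ov : ∃ x, Over O x
  ne : π ≠ 0
  fix : ∀ g ∈ H, g π = π
  lt : O.valuation π < 1
  val : ∀ z, z ≠ 0 → (∀ g ∈ H, g z = z) → ∃ j : ℤ, O.valuation z = O.valuation π ^ j

variable {H : Subgroup (Gam F)} {O : ValuationSubring (Om F)} {π : Om F} {x : Option (kk F)}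

theorem unif_geo (hO : Over O x) : Unif (Geo F) O (pl x) :=
  ⟨le_rfl, cld_geo, ⟨x, hO⟩, pl_ne x, fun g hg => geo_pl hg x, hO,
    fun z h0 hz => hO.kf (geo_fixed_mem x hz) h0⟩

theorem Unif.val_ne (h : Unif H O π) : O.valuation π ≠ 0 := by simpa using h.ne

theorem Unif.val_pow (h : Unif H O π) {z : Om F} (h0 : z ≠ 0) :
    ∃ (m : ℕ) (j : ℤ), 0 < m ∧ O.valuation z ^ m = O.valuation π ^ j := by
  obtain ⟨x, hx⟩ := h.ov
  obtain ⟨m, j, hm, e⟩ := hx.val_pow h0
  obtain ⟨i, hi⟩ := h.val _ (pl_ne x) fun g hg => geo_pl (h.le hg) x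
  exact ⟨m, i * j, hm, by rw [e, hi, zpow_mul]⟩

theorem Unif.inj (h : Unif H O π) {i j : ℤ} (e : O.valuation π ^ i = O.valuation π ^ j) : i = j :=
  zpow_right_injective₀ (zero_lt_iff.2 h.val_ne) h.lt.ne e

theorem val_sum_twist {L G ι : Type} [Field L] [LinearOrderedCommGroupWithZero G]
    (v : Valuation L G) (s : Finset ι) (t c : ι → L) (hc : ∀ i, v (c i) = 1)
    (ht : ∀ i ∈ s, ∀ j ∈ s, t i ≠ 0 → v (t i) = v (t j) → i = j) :
    v (∑ i ∈ s, c i * t i) = v (∑ i ∈ s, t i) := by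
  rcases s.eq_empty_or_nonempty with rfl | hs
  · simp
  obtain ⟨j, hj, hm⟩ := s.exists_max_image (fun i => v (t i)) hs
  by_cases h0 : t j = 0
  · have : ∀ i ∈ s, t i = 0 := fun i hi => by simpa [h0] using hm i hi
    rw [Finset.sum_eq_zero this, Finset.sum_eq_zero fun i hi => by rw [this i hi, mul_zero]]
  have hlt : ∀ i ∈ s \ {j}, v (t i) < v (t j) := fun i hi => by
    rw [Finset.mem_sdiff, Finset.mem_singleton] at hi
    exact lt_of_le_of_ne (hm i hi.1) fun e => hi.2 (ht j hj i hi.1 h0 e.symm).symm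
  rw [v.map_sum_eq_of_lt hj hlt, v.map_sum_eq_of_lt (f := fun i => c i * t i) hj
      (by simpa only [map_mul, hc, one_mul] using hlt), map_mul, hc, one_mul]

/-- An element of the inertia group moves the `l`-th root of a uniformiser. -/
theorem Unif.exists_move (h : Unif H O π) {l : ℕ} (hl : l.Prime) {w : Om F} (hw : w ^ l = π) :
    ∃ g ∈ H ⊓ Ine O, g w ≠ w := by
  have hw0 : w ≠ 0 := fun e => h.ne (by rw [← hw, e]; simp [hl.ne_zero])
  have hvw : O.valuation w ^ l = O.valuation π := by rw [← map_pow, hw]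
  have hw1 : O.valuation w ≠ 0 := by simpa using hw0
  obtain ⟨g, hg, hne⟩ : ∃ g ∈ H, g w ≠ w := by
    by_contra hc
    push Not at hc
    obtain ⟨j, hj⟩ := h.val w hw0 hc
    rw [hj, ← zpow_natCast, ← zpow_mul] at hvw
    have h1 := h.inj (hvw.trans (zpow_one _).symm)
    have h2 := Int.eq_one_or_neg_one_of_mul_eq_one' h1
    have := hl.two_le
    omega
  have hz : (g w / w) ^ l = 1 := by rw [div_pow, ← map_pow, hw, h.fix g hg, div_self h.ne]
  have hvz : O.valuation (g w / w) = 1 := by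
    have := congrArg O.valuation hz
    rw [map_pow, map_one] at this
    exact (pow_eq_one_iff_of_nonneg zero_le hl.ne_zero).1 this
  let K : IntermediateField (RatFunc F) (Om F) := fixedField H
  have hK : ∀ a : K, ∀ g ∈ H, g (a : Om F) = a := fun a => (mem_fixedField_iff _ _).1 a.2
  let p : K := ⟨π, (mem_fixedField_iff _ _).2 h.fix⟩
  have hmo : (X ^ l - C p).Monic := monic_X_pow_sub_C p hl.ne_zero
  have hro : aeval w (X ^ l - C p) = 0 := by simp [hw, p]
  obtain ⟨g', hg'⟩ := trans_val (M := K⟮w⟯) (cm g O) O (by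
    rintro ⟨z, hz⟩
    change z ∈ cm g O ↔ z ∈ O
    rw [← mem_toSubalgebra, adjoin_simple_toSubalgebra_of_isAlgebraic
      (IsIntegral.isAlgebraic ⟨_, hmo, hro⟩), Algebra.adjoin_singleton_eq_range_aeval] at hz
    obtain ⟨P, rfl⟩ := hz
    have h1 : aeval w P = aeval w (P %ₘ (X ^ l - C p)) :=
      (aeval_modByMonic_eq_self_of_root hro).symm
    have h2 : (P %ₘ (X ^ l - C p)).natDegree < l := by
      have := natDegree_modByMonic_lt P hmo fun e => by
        have := congrArg natDegree e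
        rw [natDegree_X_pow_sub_C, natDegree_one] at this
        exact hl.ne_zero this
      rwa [natDegree_X_pow_sub_C] at this
    change aeval w P ∈ cm g O ↔ aeval w P ∈ O
    rw [h1, aeval_eq_sum_range' h2, mem_cm, ← O.valuation_le_one_iff, ← O.valuation_le_one_iff,
      map_sum]
    generalize P %ₘ (X ^ l - C p) = R
    rw [← val_sum_twist O.valuation (Finset.range l) (fun i => R.coeff i • w ^ i)
      (fun i => (g w / w) ^ i) (fun i => by rw [map_pow, hvz, one_pow]) ?_]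
    · rw [Finset.sum_congr rfl]
      intro i _
      rw [IntermediateField.smul_def, smul_eq_mul, map_mul, hK _ g hg, map_pow, div_pow]
      field_simp
    · intro i hi j hj h0 e
      rw [Finset.mem_range] at hi hj
      simp only [IntermediateField.smul_def, smul_eq_mul] at h0 e
      have h0' : (R.coeff j : Om F) * w ^ j ≠ 0 := fun e' => h0 (by simpa [e'] using e)
      obtain ⟨a, ha⟩ := h.val _ (left_ne_zero_of_mul h0) (hK _)
      obtain ⟨b, hb⟩ := h.val _ (left_ne_zero_of_mul h0') (hK _)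
      have e' := congrArg (· ^ l) e
      simp only [map_mul, map_pow, ha, hb, mul_pow] at e'
      rw [← pow_mul, ← pow_mul, mul_comm i, mul_comm j, pow_mul, pow_mul, hvw] at e'
      simp only [← zpow_natCast, ← zpow_mul, ← zpow_add₀ h.val_ne] at e'
      have e2 := h.inj e'
      have e3 : (l : ℤ) ∣ (i : ℤ) - j := ⟨b - a, by linear_combination e2⟩
      have := Int.eq_zero_of_abs_lt_dvd e3 (by rw [abs_lt]; omega)
      omega)
  let g₁ : Gam F := (g'.restrictScalars K).restrictScalars (RatFunc F)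
  have hw' : g₁ w = w := g'.commutes ⟨w, mem_adjoin_simple_self _ w⟩
  have hg₁ : g₁ ∈ H := h.cld _ fun z hz =>
    (g'.restrictScalars K).commutes ⟨z, (mem_fixedField_iff _ _).2 hz⟩
  have hm := mul_mem hg (inv_mem hg₁)
  refine ⟨g * g₁⁻¹, ⟨hm, h.le hm, fun z => ?_⟩, ?_⟩
  · rw [AlgEquiv.mul_apply, ← mem_cm, hg']
    exact iff_of_eq (congrArg (· ∈ O) (self_apply_inv g₁ z))
  · rwa [AlgEquiv.mul_apply, inv_fix hw']

theorem kp_isUnit {l a : ℕ} (hl : l.Prime) [NeZero (l ^ a)] {r : Om F}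
    (hr : IsPrimitiveRoot r (l ^ a)) {g : Gam F} {z w : Om F} (hg : g r = r) (hz : g z = z)
    (h0 : z ≠ 0) (hw : ∀ w, w ^ l = z → g w ≠ w) : IsUnit (kp r (l ^ a) z g) := by
  cases a with
  | zero =>
    have : Subsingleton (ZMod (l ^ 0)) := inferInstanceAs (Subsingleton (ZMod 1))
    exact isUnit_of_subsingleton _
  | succ a =>
    obtain ⟨y, hy⟩ := exists_rtn hr z
    rw [← ZMod.natCast_zmod_val (kp r _ z g), ZMod.isUnit_iff_coprime]
    apply Nat.Coprime.pow_right
    rw [Nat.coprime_comm, hl.coprime_iff_not_dvd]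
    rintro ⟨m, hm⟩
    apply hw (y ^ l ^ a) (by rw [← pow_mul, ← pow_succ, hy])
    rw [map_pow, kp_spec hr hg hz h0 hy, mul_pow, chn, hm, ← pow_mul, mul_right_comm, ← pow_succ',
      pow_mul, hr.pow_eq_one, one_pow, one_mul]

variable {l a : ℕ} [hl : Fact l.Prime] {r : Om F} (hr : IsPrimitiveRoot r (l ^ a))
include hr

theorem Unif.exists_unit (h : Unif H O π) (hF : (l : F) ≠ 0) :
    ∃ g ∈ H ⊓ Ine O, IsUnit (kp r (l ^ a) π g) := by
  have : NeZero l := ⟨hl.out.ne_zero⟩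
  obtain ⟨r', hr'⟩ := exists_prm hF
  obtain ⟨w, hw⟩ := exists_rtn hr' π
  obtain ⟨g, hg, e⟩ := h.exists_move hl.out hw
  have hg' := h.fix g hg.1
  refine ⟨g, hg, kp_isUnit (w := w) hl.out hr (geo_prm hr hg.2.1) hg' h.ne fun y hy e' => e ?_⟩
  rw [kp_spec hr' (geo_prm hr' hg.2.1) hg' h.ne hw,
    kp_of_fix hr' (geo_prm hr' hg.2.1) h.ne hy e', chn_zero, one_mul]

theorem Unif.kp_val (h : Unif H O π) {g : Gam F} (hg : g ∈ H ⊓ Ine O) {z : Om F} (hz : g z = z)
    {j : ℤ} (hv : O.valuation z = O.valuation π ^ j) :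
    kp r (l ^ a) z g = j * kp r (l ^ a) π g := by
  obtain ⟨x, hO⟩ := h.ov
  have hp := zpow_ne_zero j h.ne
  have hv' : O.valuation (z / π ^ j) = 1 := by
    rw [map_div₀, map_zpow₀, hv, div_self (zpow_ne_zero _ h.val_ne)]
  have h0 : z ≠ 0 := fun e => by simp [e] at hv'
  have hgp := h.fix g hg.1
  have := kp_unit hr hO hg.2 (by rw [map_div₀, map_zpow₀, hz, hgp]) hv'
  rw [kp_div hr (geo_prm hr hg.2.1) hz h0 (by rw [map_zpow₀, hgp]) hp,
    kp_zpow hr (geo_prm hr hg.2.1) hgp h.ne] at this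
  exact sub_eq_zero.1 this

/-- A character of an inertia group is a multiple of the Kummer character of the uniformiser. -/
theorem Unif.local_char (h : Unif H O π) (hF : (l : F) ≠ 0) (f : Gam F → ZMod (l ^ a))
    (hm : ∀ g ∈ H ⊓ Ine O, ∀ h ∈ H ⊓ Ine O, f (g * h) = f g + f h)
    (hn : Near fun g => g ∈ H ⊓ Ine O → f g = 0) :
    ∃ j : ZMod (l ^ a), ∀ g ∈ H ⊓ Ine O, f g = j * kp r (l ^ a) π g := by
  obtain ⟨x, hO⟩ := h.ov
  have hl0 := hl.out.ne_zero
  obtain ⟨b, hb0, hb⟩ := h90_addn hr (H ⊓ Ine O) (inf_le_left.trans h.le) f hm hn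
  obtain ⟨m, j, hm0, hv⟩ := h.val_pow hb0
  obtain ⟨e, m₁, hodd, rfl⟩ := Nat.exists_eq_pow_mul_and_not_dvd hm0.ne' l hl.out.ne_one
  obtain ⟨r', hr'⟩ := exists_prm (F := F) (n := l ^ (e + a)) (by push_cast; exact pow_ne_zero _ hF)
  obtain ⟨y, hy⟩ := exists_rtn hr' π
  have hy0 : y ≠ 0 := fun e => h.ne (by rw [← hy, e]; simp [hl0])
  have hu : O.valuation (b ^ m₁ / (y ^ l ^ a) ^ j) = 1 := by
    apply (pow_eq_one_iff_of_nonneg zero_le (n := l ^ e) (by positivity)).1
    rw [map_div₀, div_pow, map_pow, ← pow_mul, mul_comm m₁, hv, ← map_pow, ← zpow_natCast,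
      ← zpow_mul, mul_comm j, zpow_mul, zpow_natCast, ← pow_mul, ← pow_add, add_comm a, hy,
      map_zpow₀, div_self (zpow_ne_zero _ h.val_ne)]
  have key : ∀ g ∈ H ⊓ Ine O,
      chn r (f g) ^ m₁ = (chn r' (kp r' (l ^ (e + a)) π g) ^ l ^ a) ^ j := by
    intro g hg
    have h1 := kp_spec hr' (geo_prm hr' hg.2.1) (h.fix g hg.1) h.ne hy
    have := hO.ine_mem hg.2 hu
      (c := chn r (f g) ^ m₁ / (chn r' (kp r' (l ^ (e + a)) π g) ^ l ^ a) ^ j)
      (div_mem (pow_mem (chn_mem hr _) _) (zpow_mem (pow_mem (chn_mem hr' _) _) _)) (by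
      rw [map_div₀, map_zpow₀, map_pow, map_pow, hb g hg, h1, mul_pow, mul_pow, mul_zpow,
        div_mul_div_comm])
    exact (div_eq_one_iff_eq (zpow_ne_zero _ (pow_ne_zero _ (chn_ne hr' _)))).1 this
  obtain ⟨g₀, hg₀, hu₀⟩ := h.exists_unit hr' hF
  have hdiv : ((l : ℤ) ^ e) ∣ l ^ a * j := by
    have h1 := congrArg (· ^ l ^ a) (key g₀ hg₀)
    beta_reduce at h1
    rw [← pow_mul, mul_comm m₁, pow_mul, chn_pow_one hr, one_pow, ← chn_pow hr', ← chn_zpow hr',
      ← chn_pow hr', ← chn_zero (r := r') (n := l ^ (e + a))] at h1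
    have h2 := (chn_inj hr' h1).symm
    rw [← mul_assoc, ← mul_assoc, hu₀.mul_left_eq_zero] at h2
    have h3 : ((l ^ (e + a) : ℕ) : ℤ) ∣ l ^ a * j * l ^ a := by
      rw [← ZMod.intCast_zmod_eq_zero_iff_dvd]
      exact_mod_cast h2
    push_cast at h3
    rw [pow_add] at h3
    exact Int.dvd_of_mul_dvd_mul_right (by positivity) h3
  obtain ⟨j', hj'⟩ := hdiv
  have hm₁ : IsUnit (m₁ : ZMod (l ^ a)) := by
    rw [ZMod.isUnit_iff_coprime]
    exact Nat.Coprime.pow_right _ (hl.out.coprime_iff_not_dvd.2 hodd).symm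
  obtain ⟨u, hu'⟩ := hm₁.exists_left_inv
  refine ⟨u * j', fun g hg => ?_⟩
  have h1 := kp_spec hr' (geo_prm hr' hg.2.1) (h.fix g hg.1) h.ne hy
  have h2 := kp_spec hr (geo_prm hr hg.2.1) (h.fix g hg.1) h.ne (w := y ^ l ^ e)
    (by rw [← pow_mul, ← pow_add, hy])
  rw [map_pow, h1, mul_pow] at h2
  have h3 := mul_right_cancel₀ (pow_ne_zero _ hy0) h2
  have h4 := key g hg
  rw [← zpow_natCast _ (l ^ a), ← zpow_mul] at h4
  push_cast at h4
  rw [hj', zpow_mul, ← Nat.cast_pow, zpow_natCast, h3, ← chn_zpow hr, ← chn_pow hr] at h4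
  rw [mul_assoc, ← chn_inj hr h4, ← mul_assoc, hu', one_mul]

omit hr

theorem over_unique {y : Option (kk F)} (h : Over O x) (h' : Over O y) : x = y := by
  obtain ⟨r, hr⟩ := exists_prim (F := F) 0
  have key : ∀ {c : kk F}, Over O none → Over O (some c) → False := fun {c} h h' => by
    have h1 := h.val_inf hr c
    rw [zpow_neg_one] at h1
    have h2 : O.valuation (pl (some c)) * O.valuation (pl (none : Option (kk F))) < 1 :=
      mul_lt_one_of_lt_of_le h' h.le
    rw [h1, inv_mul_cancel₀ h.val_ne] at h2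
    exact h2.ne rfl
  rcases x with _ | c <;> rcases y with _ | d
  · rfl
  · exact (key h h').elim
  · exact (key h' h).elim
  · by_contra hne
    exact h'.ne (h.val_other hr fun e => hne (by rw [e]))

theorem st_pl (hO : Over O x) {f : Gam F} (hf : f ∈ St O) : f (pl x) = pl x := by
  rw [gam_pl, ← over_unique hO (y := x.map (ck f)) (by rw [Over, ← gam_pl]; exact st_lt hf hO)]

theorem ine_inf : Geo F ⊓ Ine O = Ine O := inf_eq_right.2 inf_le_left

/-- Frobenius multiplies characters of inertia groups by `Q`. -/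
theorem hom_conj (hF : (l : F) ≠ 0) (hO : Over O x) (u : Gam F → ZMod (l ^ a))
    (hm : ∀ g ∈ Ine O, ∀ h ∈ Ine O, u (g * h) = u g + u h)
    (hn : Near fun g => g ∈ Ine O → u g = 0) {f : Gam F} (hf : f ∈ St O) {Q : ℕ} (hQ : Fr f Q)
    {g : Gam F} (hg : g ∈ Ine O) : u (f * g * f⁻¹) = Q * u g := by
  obtain ⟨r, hr⟩ := exists_prm (F := F) (n := l ^ a) (by push_cast; exact pow_ne_zero _ hF)
  obtain ⟨j, hj⟩ := (unif_geo hO).local_char hr hF u (by rwa [ine_inf]) (by rwa [ine_inf])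
  rw [ine_inf] at hj
  have h6 := kp_conj hr (hQ.root (NeZero.pos _) hr.pow_eq_one) hg.1 (geo_pl hg.1 x) (pl_ne _)
  rw [st_pl hO hf] at h6
  rw [hj _ (st_conj hf hg), h6, hj g hg, mul_left_comm]

end

end Pool.Agent.Lib.MP_16ef92_ag.AL
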