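import Mathlib
import Pool.Agent.Lib.MP_16ef92_ag.AL.IDef
import Pool.Agent.Lib.MP_16ef92_ag.AL.PUni

set_option autoImplicit false
set_option linter.unusedSectionVars false
set_option linter.unusedVariables false

namespace Pool.Agent.Lib.MP_16ef92_ag.AL

open Polynomial

noncomputable section

variable {F : Type} [Field F] [Fintype F] [Clos F] [hq : Fact (Odd (Fintype.card F))]

theorem ew_root {w : Gam F} {c : kk F} {p : F[X]} (h : aeval c p ≠ 0) : aeval (ck w c) p ≠ 0 :=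
  fun e => h (Subtype.ext (w.injective (by
    have h1 : ∀ c : kk F, ((aeval c p : kk F) : Om F) = aeval (c : Om F) p := fun c =>
      (aeval_algHom_apply (kk F).val c p).symm
    have h2 := congrArg Subtype.val e
    rw [h1] at h2 ⊢
    exact ((aeval_algHom_apply (w.restrictScalars F) _ p).symm.trans h2).trans (map_zero w).symm)))

section

variable {l : ℕ} [Fact l.Prime] {W : WeierstrassCurve (RatFunc F)} {T : TM l W} {N : F[X]}
  {a : kk F → ℕ → ℤ} {s : Gam F} {b : Gam F → Fin 2 → ℤ_[l]}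

/-- The action on cochains. -/
def ewTw (T : TM l W) (s : Gam F) (b : Gam F → Fin 2 → ℤ_[l]) : Gam F → Fin 2 → ℤ_[l] :=
  fun g => T.ro s (b (s⁻¹ * g * s))

/-- The cochain vanishes on inertia at the good places. -/
def EwLT (N : F[X]) (b : Gam F → Fin 2 → ℤ_[l]) : Prop :=
  ∀ x : kk F, aeval x N ≠ 0 → ∀ O, Over O (some x) → ∀ g ∈ Ine O, b g = 0

/-- Continuous cocycles in coordinates. -/
structure EwCy (T : TM l W) (b : Gam F → Fin 2 → ℤ_[l]) : Prop where
  mul : ∀ g ∈ Geo F, ∀ h ∈ Geo F, b (g * h) = b g + T.ro g (b h)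
  near : ∀ n, Near fun g => g ∈ Geo F → T.ev (b g) n = 0

theorem ew_ro (T : TM l W) (g h : Gam F) (y : Fin 2 → ℤ_[l]) :
    T.ro (g * h) y = T.ro g (T.ro h y) := by
  rw [map_mul, Module.End.mul_apply]

theorem ew_red {n : ℕ} {y : ℤ_[l]} : PadicInt.toZModPow n y = 0 ↔ (l : ℤ_[l]) ^ n ∣ y := by
  rw [← RingHom.mem_ker, PadicInt.ker_toZModPow, Ideal.mem_span_singleton]

theorem ew_inj (T : TM l W) : Function.Injective T.ev :=
  (injective_iff_map_eq_zero _).2 fun y h => funext fun i => PadicInt.ext_of_toZModPow.1 fun n => by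
    rw [Pi.zero_apply, map_zero]
    exact ew_red.2 ((T.zero n y).1 (congrFun h n) i)

theorem EwLT.tw (h : EwLT N b) (s : Gam F) : EwLT N (ewTw T s b) := fun x hx O hO g hg => by
  rw [ewTw, h (ck s⁻¹ x) (ew_root hx) (cm s O) (over_cm (by
    rwa [Option.map_some, show ck s (ck s⁻¹ x) = x from Subtype.ext (self_apply_inv s _)])) _
    (conj_ine (fun z => mem_cm) hg), map_zero]

theorem EwCy.sub (h : EwCy T b) (s : Gam F) : EwCy T (ewTw T s b - b) := by
  refine ⟨fun g hg k hk => ?_, fun n => (((h.near n).conj s).and (h.near n)).mono fun g e hg => ?_⟩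
  · simp only [Pi.sub_apply (ewTw T s b) b, ewTw]
    rw [show s⁻¹ * (g * k) * s = s⁻¹ * g * s * (s⁻¹ * k * s) by group,
      h.mul _ (geo_conj hg s) _ (geo_conj hk s), h.mul g hg k hk, map_add, map_sub, ← ew_ro,
      ← ew_ro, show s * (s⁻¹ * g * s) = g * s by group]
    abel
  · rw [Pi.sub_apply, map_sub, ewTw, T.equiv, Pi.sub_apply, act, e.1 (geo_conj hg s), e.2 hg,
      map_zero, sub_zero]

theorem ew_pow (h : EwLT N (ewTw T s b - b)) (d : ℕ) : EwLT N (ewTw T (s ^ d) b - b) := by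
  induction d with
  | zero => exact fun x _ O _ g _ => by simp [ewTw]
  | succ d ih =>
    intro x hx O hO g hg
    have h1 := ih.tw (T := T) s x hx O hO g hg
    have h2 := h x hx O hO g hg
    simp only [ewTw, Pi.sub_apply (ewTw T _ b) b, map_sub, sub_eq_zero] at h1 h2 ⊢
    rw [pow_succ', ew_ro, show (s * s ^ d)⁻¹ * g * (s * s ^ d) =
      (s ^ d)⁻¹ * (s⁻¹ * g * s) * s ^ d by group, h1, h2]

theorem ew_key (hl : (l : F) ≠ 0) (hT : T.Good N a) (hs : Fr s (Fintype.card F)) (hb : EwCy T b)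
    (h : EwLT N (ewTw T s b - b)) : EwLT N b := by
  intro x hx O hO g hg
  obtain ⟨d, hd, hc⟩ := kk_frob x
  obtain ⟨k, hk, hf⟩ := (hs.pow d).exists_st hc hO
  have hQ := (hs.pow d).geo_mul hk
  have h1 := st_conj hf hg
  have h2 := conj_ine (g := k) (fun z => mem_cm) h1
  have h3 := ew_pow h d x hx (cm k O) (over_cm (by
    rwa [Option.map_some, show ck k x = x from Subtype.ext (geo_fix hk x)])) _ h2
  have h4 := hb.mul k hk _ h2.1
  rw [show k * (k⁻¹ * (k * s ^ d * g * (k * s ^ d)⁻¹) * k) = k * s ^ d * g * (k * s ^ d)⁻¹ * k by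
    group, hb.mul _ h1.1 k hk, hT.unr x hx O hO _ h1, Module.End.one_apply, add_comm,
    add_right_inj, ← sub_eq_zero.1 h3, ewTw, ← ew_ro, show (s ^ d)⁻¹ *
      (k⁻¹ * (k * s ^ d * g * (k * s ^ d)⁻¹) * k) * s ^ d = g by group] at h4
  refine hT.wt x hx O hO _ hf d hd hQ _ (Or.inr (h4.symm.trans ?_))
  refine funext fun i => PadicInt.ext_of_toZModPow.1 fun n => ?_
  rw [hom_conj hl hO (fun g => PadicInt.toZModPow n (b g i)) (fun g hg k hk => by
    rw [hb.mul g hg.1 k hk.1, hT.unr x hx O hO g hg, Module.End.one_apply, Pi.add_apply, map_add])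
    ((hb.near n).mono fun g e hg => ew_red.2 ((T.zero n _).1 (e hg.1) i)) hf hQ hg]
  simp

end

/-- Cocycles in the generalised eigenspace of eigenvalue one vanish on inertia at good places. -/
theorem weightL {l : ℕ} [Fact l.Prime] (hl : (l : F) ≠ 0) {W : WeierstrassCurve (RatFunc F)}
    {T : TM l W} {N : F[X]} {a : kk F → ℕ → ℤ} (hT : T.Good N a) {s : Gam F}
    (hs : Fr s (Fintype.card F)) {c : Gam F → ℕ → Pt W} (hc : Coc l c)
    (h : Null l (subOne s (subOne s c))) {x : kk F} (hx : aeval x N ≠ 0)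
    {O : ValuationSubring (Om F)} (hO : Over O (some x)) {g : Gam F} (hg : g ∈ Ine O) :
    c g = 0 := by
  have hy : ∀ g, ∃ y, g ∈ Geo F → T.ev y = c g := fun g => by
    by_cases hg : g ∈ Geo F
    · exact (T.surj _ (hc.mem g hg)).imp fun y hy _ => hy
    · exact ⟨0, fun h => (hg h).elim⟩
  choose y hy using hy
  have h1 : EwCy T y := ⟨fun g hg k hk => ew_inj T (by
    rw [map_add, T.equiv, hy _ (mul_mem hg hk), hy g hg, hy k hk, hc.mul g hg k hk]),
    fun n => (hc.near n).mono fun g e hg => by rw [hy g hg, e hg]⟩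
  have h2 : ∀ (b : Gam F → Fin 2 → ℤ_[l]) (d : Gam F → ℕ → Pt W), (∀ g ∈ Geo F, T.ev (b g) = d g) →
      ∀ g ∈ Geo F, T.ev ((ewTw T s b - b) g) = subOne s d g := fun b d e g hg => by
    rw [Pi.sub_apply, map_sub, ewTw, T.equiv, e _ (geo_conj hg s), e g hg, subOne]
  obtain ⟨j, m, hm, h3⟩ := h
  obtain ⟨m, rfl⟩ := T.surj m hm
  rw [← hy g hg.1, ew_key hl hT hs h1 (ew_key hl hT hs (h1.sub s) fun x hx O hO g hg => ?_) x hx O
    hO g hg, map_zero]
  have h4 := h3 g hg.1
  rw [← h2 _ _ (h2 y c hy) g hg.1, ← T.equiv, hT.unr x hx O hO g hg, Module.End.one_apply, sub_self,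
    ← map_nsmul, map_eq_zero_iff _ (ew_inj T), ← Nat.cast_smul_eq_nsmul ℤ_[l]] at h4
  exact (smul_eq_zero.1 h4).resolve_left
    (Nat.cast_ne_zero.2 (pow_ne_zero _ (Fact.out : l.Prime).ne_zero))

end

end Pool.Agent.Lib.MP_16ef92_ag.AL
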