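import Mathlib
import Pool.Agent.Lib.MP_16ef92_ag.AL.ESep
import Pool.Agent.Lib.MP_16ef92_ag.AL.EW
import Pool.Agent.Lib.MP_16ef92_ag.AL.E5
import Pool.Agent.Lib.MP_16ef92_ag.AL.E6a
import Pool.Agent.Lib.MP_16ef92_ag.AL.E6b

set_option autoImplicit false
set_option linter.unusedSectionVars false
set_option linter.unusedVariables false

namespace Pool.Agent.Lib.MP_16ef92_ag.AL

open Polynomial EC

noncomputable section

variable {F : Type} [Field F] [Fintype F] [Clos F] [hq : Fact (Odd (Fintype.card F))]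

theorem cast_kk {m : ℕ} (hm : (m : F) ≠ 0) : (m : kk F) ≠ 0 := by
  simpa using (map_ne_zero (algebraMap F (kk F))).2 hm

theorem sub_dvd_card {G : Type} [AddCommGroup G] {H : Type} [AddCommGroup H] (π : G →+ H)
    (b : ℤ) (φ : H →+ H) {n : ℕ} (h1 : ∀ P, n • P = 0 → π P = 0 → P = 0)
    (h2 : ∀ P, n • P = 0 → b • π P + φ (π P) = 0) :
    Nat.card {P : G // n • P = 0} ∣ Nat.card {P // b • P + φ P = 0} :=
  AddSubgroup.card_dvd_of_injective (α := (nsmulAddMonoidHom n : G →+ G).ker)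
    (H := (b • AddMonoidHom.id H + φ).ker)
    ((π.comp (AddSubgroup.subtype _)).codRestrict _ fun P => h2 P.1 P.2)
    ((injective_iff_map_eq_zero _).2 fun P h => Subtype.ext (h1 P.1 P.2 (congrArg Subtype.val h)))

/-- Coordinates on the Tate modules, with traces that do not depend on the prime. -/
theorem exists_TM {A B D : F[X]} (h0 : A * B * (A - B) * D ≠ 0) :
    ∃ a : kk F → ℕ → ℤ, ∀ (l : ℕ) [Fact l.Prime], (l : F) ≠ 0 →
      ∃ T : TM l (curve A B D), T.Good (A * B * (A - B) * D) a := by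
  classical
  obtain ⟨p, hp⟩ := CharP.exists F
  obtain ⟨⟨n, hn0⟩, hpp, hn⟩ := FiniteField.card F p
  replace hn : Fintype.card F = p ^ n := hn
  have := Fact.mk hpp
  have : CharP (kk F) p := charP_of_injective_algebraMap (algebraMap F _).injective p
  have hQ : ∀ r, Fintype.card F ^ r = p ^ (n * r) := fun r => by rw [hn, pow_mul]
  have key : ∀ (c : kk F) (r : ℕ), ∃ t : ℤ, aeval c (A * B * (A - B) * D) ≠ 0 → 0 < r →
      c ^ Fintype.card F ^ r = c → ∃ φ : (fib A B D c).Point →+ (fib A B D c).Point,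
        IsMap (iterateFrobenius (kk F) p (n * r)) φ ∧
        (∀ P, φ (φ P) - t • φ P + ((p ^ (n * r) : ℕ) : ℤ) • P = 0) ∧
        ∀ a : ℤ, (a : kk F) ≠ 0 → 0 < Nat.card {P // a • P + φ P = 0} ∧
          (Nat.card {P // a • P + φ P = 0} : ℤ) = a ^ 2 + t * a + (p ^ (n * r) : ℕ) := by
    intro c r
    by_cases h : aeval c (A * B * (A - B) * D) ≠ 0 ∧ 0 < r ∧ c ^ Fintype.card F ^ r = c
    · have e := fib_frob (A := A) (B := B) (D := D) h.2.2
        (σ := iterateFrobenius (kk F) p (n * r)) fun z => by rw [hQ]; rfl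
      obtain ⟨φ, hφ⟩ := exists_isMap (sh_fib h.1) _ e
      obtain ⟨t, ht⟩ := frob_char (sh_fib h.1) (Nat.mul_pos hn0 h.2.1) (fun _ => rfl) e hφ
      exact ⟨t, fun _ _ _ => ⟨φ, hφ, ht⟩⟩
    · exact ⟨0, fun a b c => (h ⟨a, b, c⟩).elim⟩
  choose a ha using key
  refine ⟨a, fun l _ hl => ?_⟩
  have hlj : ∀ j, ((l ^ j : ℕ) : F) ≠ 0 := fun j => by push_cast; exact pow_ne_zero j hl
  have hc : ∀ j, Nat.card {P : Pt (curve A B D) // l ^ j • P = 0} = l ^ (2 * j) := fun j => by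
    rw [card_tors h0 (hlj j), ← pow_mul, mul_comm]
  obtain ⟨ev, hev⟩ := exists_TA hc
  obtain ⟨ro, hro⟩ := hev.exists_rep (fun g : Gam F => pm g) pm_one pm_mul
  have h1 : ∀ c : kk F, aeval c (A * B * (A - B) * D) ≠ 0 → ∀ O, Over O (some c) → ∀ f ∈ St O,
      ∀ r, 0 < r → Fr f (Fintype.card F ^ r) →
      (∀ (j : ℕ) (P : Pt (curve A B D)), l ^ j • P = 0 →
        pm f (pm f P) - a c r • pm f P + ((p ^ (n * r) : ℕ) : ℤ) • P = 0) ∧
      (∀ (b : ℤ) (j : ℕ), ¬ (p : ℤ) ∣ b →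
        (∀ P : Pt (curve A B D), l ^ j • P = 0 → b • P + pm f P = 0) →
        (l : ℤ) ^ (2 * j) ∣ b ^ 2 + a c r * b + (p ^ (n * r) : ℕ)) ∧
      1 - a c r + (p ^ (n * r) : ℕ) ≠ 0 := by
    intro c hc' O hO f hf r hr hF
    obtain ⟨φ, p1, p2, p3⟩ := ha c r hc' hr (fix_of_st hO hf hF)
    obtain ⟨π, S, -, hS⟩ := exists_spec hc' hO
    have h2 := hS f hf _ hF _ φ (fun z => by rw [hQ]; rfl) p1
    have h3 : ∀ j P, l ^ j • P = 0 → S.hom P = 0 → P = 0 := fun j P =>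
      S.tors_inj (sh_om h0) (cast_kk (hlj j))
    refine ⟨fun j P hP => h3 j _ ?_ ?_, fun b j hb h4 => ?_, ?_⟩
    · rw [smul_add, smul_sub, smul_comm, smul_comm _ (_ : ℤ), ← map_nsmul, ← map_nsmul, hP]
      simp
    · rw [map_add, map_sub, map_zsmul, map_zsmul, h2, h2, p2]
    · rw [← (p3 b fun e => hb ((CharP.intCast_eq_zero_iff _ p b).1 e)).2, ← Nat.cast_pow, ← hc]
      exact Int.natCast_dvd_natCast.2 (sub_dvd_card S.hom b φ (h3 j) fun P hP => by
        rw [← h2, ← map_zsmul, ← map_add, h4 P hP, map_zero])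
    · obtain ⟨h5, h6⟩ := p3 (-1) (by simp)
      omega
  refine ⟨⟨ro, ev, hev.mem, hev.surj, hev.lvl, hev.zero, fun g x => funext (hro g x)⟩,
    fun c hc' O hO g hg => ?_, fun c hc' O hO f hf r hr hF => ?_,
    fun c hc' O hO f hf r hr hF x hx => ?_⟩
  · obtain ⟨π, S, hS, -⟩ := exists_spec hc' hO
    refine LinearMap.ext fun x => hev.inj (funext fun j => ?_)
    change ev (ro g x) j = ev x j
    rw [hro, ← sub_eq_zero]
    refine S.tors_inj (sh_om h0) (cast_kk (hlj j)) ?_ (by rw [map_sub, hS g hg, sub_self])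
    rw [smul_sub, ← map_nsmul, hev.tors, map_zero, sub_self]
  · obtain ⟨h2, h3, -⟩ := h1 c hc' O hO f hf r hr hF
    exact hev.trace (hro f) h2 hpp (fun e => hl (e ▸ CharP.cast_eq_zero F p)) h3
  · obtain ⟨h2, -, h3⟩ := h1 c hc' O hO f hf r hr hF
    refine hev.wt (hro f) h2 (by exact_mod_cast pow_ne_zero _ hpp.ne_zero) h3 x ?_
    rwa [← hQ, Int.cast_natCast, Nat.cast_pow]

end

end Pool.Agent.Lib.MP_16ef92_ag.AL
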