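import Mathlib

set_option autoImplicit false
set_option linter.unusedSectionVars false
set_option linter.unusedVariables false

namespace Pool.Agent.Lib.MP_16ef92_ag.AL

open Module

noncomputable section

/-- A directed family of normal subgroups of finite index. -/
structure Fam (Γ : Type) [Group Γ] where
  S : Set (Subgroup Γ)
  ne : S.Nonempty
  normal : ∀ N ∈ S, N.Normal
  fin : ∀ N ∈ S, N.FiniteIndex
  inf : ∀ N ∈ S, ∀ N' ∈ S, N ⊓ N' ∈ S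

variable {Γ : Type} [Group Γ] (Ω : Fam Γ)

/-- `P` holds on a member of the family. -/
def Fam.Ev (P : Γ → Prop) : Prop := ∃ N ∈ Ω.S, ∀ g ∈ N, P g

/-- `σ` preserves every member. -/
def Fam.Inv (σ : Γ ≃* Γ) : Prop := ∀ N ∈ Ω.S, ∀ g, σ g ∈ N ↔ g ∈ N

variable {Ω} {P Q : Γ → Prop} {σ : Γ ≃* Γ}

theorem Fam.Ev.mono (h : Ω.Ev P) (hpq : ∀ g, P g → Q g) : Ω.Ev Q :=
  h.imp fun N hN => ⟨hN.1, fun g hg => hpq g (hN.2 g hg)⟩

theorem Fam.Ev.and (h : Ω.Ev P) (h' : Ω.Ev Q) : Ω.Ev fun g => P g ∧ Q g := by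
  obtain ⟨N, hN, h⟩ := h
  obtain ⟨N', hN', h'⟩ := h'
  exact ⟨_, Ω.inf N hN N' hN', fun g hg => ⟨h g hg.1, h' g hg.2⟩⟩

theorem Fam.Ev.of_forall (h : ∀ g, P g) : Ω.Ev P := Ω.ne.imp fun N hN => ⟨hN, fun g _ => h g⟩

theorem Fam.ev_mem {N : Subgroup Γ} (h : N ∈ Ω.S) : Ω.Ev (· ∈ N) := ⟨N, h, fun _ hg => hg⟩

theorem Fam.Ev.forall {ι : Type} [Finite ι] {P : ι → Γ → Prop} (h : ∀ i, Ω.Ev (P i)) :
    Ω.Ev fun g => ∀ i, P i g := by
  classical
  have := Fintype.ofFinite ι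
  have key : ∀ s : Finset ι, Ω.Ev fun g => ∀ i ∈ s, P i g := fun s => by
    induction s using Finset.induction_on with
    | empty => exact .of_forall (by simp)
    | insert a s _ ih => exact ((h a).and ih).mono fun g hg => by simpa using hg
  exact (key Finset.univ).mono fun g hg i => hg i (Finset.mem_univ i)

theorem Fam.Ev.conj (h : Ω.Ev P) : Ω.Ev fun g => ∀ x, P (x⁻¹ * g * x) := by
  obtain ⟨N, hN, h⟩ := h
  exact ⟨N, hN, fun g hg x => h _ ((Ω.normal N hN).conj_mem' g hg x)⟩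

theorem Fam.Ev.comp (h : Ω.Ev P) (hσ : Ω.Inv σ) : Ω.Ev fun g => P (σ g) := by
  obtain ⟨N, hN, h⟩ := h
  exact ⟨N, hN, fun g hg => h _ ((hσ N hN g).2 hg)⟩

variable {R M : Type} [CommRing R] [AddCommGroup M] [Module R M]

variable (Ω) in
/-- Cocycles that vanish on a member of the family. -/
def Zc (ρ : Γ →* End R M) : Submodule R (Γ → M) where
  carrier := {c | (∀ g h, c (g * h) = c g + ρ g (c h)) ∧ Ω.Ev fun g => c g = 0}
  add_mem' := fun {a b} ha hb => ⟨fun g h => by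
    simp only [Pi.add_apply, ha.1, hb.1, map_add]; abel,
    (ha.2.and hb.2).mono fun g hg => by simp [hg.1, hg.2]⟩
  zero_mem' := ⟨by simp, .of_forall fun _ => rfl⟩
  smul_mem' := fun r a ha => ⟨fun g h => by simp [ha.1], ha.2.mono fun g hg => by simp [hg]⟩

/-- The action of a Frobenius on cocycles. -/
def Psi {ρ : Γ →* End R M} (hσ : Ω.Inv σ) {ψ : End R M} (hψ : ∀ g, ψ * ρ (σ g) = ρ g * ψ) :
    End R (Zc Ω ρ) where
  toFun c := ⟨fun g => ψ (c.1 (σ g)), fun g h => by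
    beta_reduce
    rw [map_mul, c.2.1, map_add, ← End.mul_apply ψ (ρ _), hψ, End.mul_apply],
    (c.2.2.comp hσ).mono fun g hg => (congrArg ψ hg).trans (map_zero ψ)⟩
  map_add' a b := Subtype.ext (funext fun g => by simp)
  map_smul' r a := Subtype.ext (funext fun g => by simp)

@[simp] theorem Psi_apply {ρ : Γ →* End R M} (hσ : Ω.Inv σ) {ψ : End R M}
    (hψ : ∀ g, ψ * ρ (σ g) = ρ g * ψ) (c : Zc Ω ρ) (g : Γ) :
    (Psi hσ hψ c).1 g = ψ (c.1 (σ g)) := rfl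

variable (Ω) in
/-- Vanishing of the second cohomology of all open subgroups. -/
def H2 (l : ℕ) : Prop :=
  ∀ P : Subgroup Γ, Ω.Ev (· ∈ P) → ∀ β : Γ → Γ → ZMod l,
    (∀ g ∈ P, ∀ h ∈ P, ∀ k ∈ P, β g h + β (g * h) k = β h k + β g (h * k)) →
    (Ω.Ev fun m => ∀ g ∈ P, ∀ h ∈ P, β (g * m) h = β g h ∧ β g (h * m) = β g h) →
    ∃ b : Γ → ZMod l, (∀ g ∈ P, ∀ h ∈ P, β g h + b (g * h) = b g + b h) ∧
      Ω.Ev fun m => ∀ g ∈ P, b (g * m) = b g

variable (N₀ : Subgroup Γ) [hN : N₀.Normal]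

variable (Ω R) in
/-- Characters of `N₀`. -/
def Ac : Submodule R (N₀ → R) where
  carrier := {χ | (∀ g h, χ (g * h) = χ g + χ h) ∧ Ω.Ev fun g => ∀ hg : g ∈ N₀, χ ⟨g, hg⟩ = 0}
  add_mem' := fun {a b} ha hb => ⟨fun g h => by
    simp only [Pi.add_apply, ha.1, hb.1]; abel,
    (ha.2.and hb.2).mono fun g hg h => by simp [hg.1 h, hg.2 h]⟩
  zero_mem' := ⟨by simp, .of_forall fun _ _ => rfl⟩
  smul_mem' := fun r a ha => ⟨fun g h => by simp [ha.1, mul_add],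
    ha.2.mono fun g hg h => by simp [hg h]⟩

variable (Ω R) in
/-- Cocycles with values in the regular representation of `Γ ⧸ N₀`, evaluated at `1`. -/
def Yc : Submodule R (Γ → R) where
  carrier := {F | (∀ h ∈ N₀, ∀ g, F (h * g) = F h + F g) ∧ Ω.Ev fun g => F g = 0}
  add_mem' := fun {a b} ha hb => ⟨fun h hh g => by
    simp only [Pi.add_apply, ha.1 h hh, hb.1 h hh]; abel,
    (ha.2.and hb.2).mono fun g hg => by simp [hg.1, hg.2]⟩
  zero_mem' := ⟨by simp, .of_forall fun _ => rfl⟩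
  smul_mem' := fun r a ha => ⟨fun h hh g => by simp [ha.1 h hh, mul_add],
    ha.2.mono fun g hg => by simp [hg]⟩

variable {N₀}

variable (R) in
/-- The twisted conjugation action on characters. -/
def twA (hσ : Ω.Inv σ) (h0 : N₀ ∈ Ω.S) (δ : Γ) : End R (Ac Ω R N₀) where
  toFun χ := ⟨fun h => χ.1 ⟨σ (δ⁻¹ * h * δ), (hσ _ h0 _).2 (hN.conj_mem' _ h.2 δ)⟩, fun g h => by
    refine Eq.trans (congrArg χ.1 (Subtype.ext ?_)) (χ.2.1 _ _)
    simp only [Subgroup.coe_mul, ← map_mul]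
    congr 1
    group,
    (χ.2.2.comp hσ).conj.mono fun g hg _ => hg δ _⟩
  map_add' a b := rfl
  map_smul' r a := rfl

@[simp] theorem twA_apply (hσ : Ω.Inv σ) (h0 : N₀ ∈ Ω.S) (δ : Γ) (χ : Ac Ω R N₀) (h : N₀) :
    (twA R hσ h0 δ χ).1 h =
      χ.1 ⟨σ (δ⁻¹ * h * δ), (hσ _ h0 _).2 (hN.conj_mem' _ h.2 δ)⟩ := rfl

theorem Yc.one (F : Yc Ω R N₀) : F.1 1 = 0 := by simpa using F.2.1 1 N₀.one_mem 1

theorem Yc.diff (F : Yc Ω R N₀) {h : Γ} (hh : h ∈ N₀) (y g : Γ) :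
    F.1 (y * h * g) - F.1 (y * h) = F.1 (y * g) - F.1 y := by
  have h1 := hN.conj_mem h hh y
  have h2 := F.2.1 _ h1 (y * g)
  have h3 := F.2.1 _ h1 y
  rw [show y * h * y⁻¹ * (y * g) = y * h * g by group] at h2
  rw [inv_mul_cancel_right] at h3
  rw [h2, h3, add_sub_add_left_eq_sub]

theorem Yc.ev (h0 : N₀ ∈ Ω.S) (F : Yc Ω R N₀) : Ω.Ev fun m => ∀ g, F.1 (g * m) = F.1 g :=
  (F.2.2.conj.and (Fam.ev_mem h0)).mono fun m hm g => by
    have := F.2.1 _ (hN.conj_mem m hm.2 g) g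
    have h1 := hm.1 g⁻¹
    rw [inv_inv] at h1
    rwa [inv_mul_cancel_right, h1, zero_add] at this

variable (R) in
/-- Left translation. -/
def lY (h0 : N₀ ∈ Ω.S) (γ : Γ) : End R (Yc Ω R N₀) where
  toFun F := ⟨fun g => F.1 (γ⁻¹ * g) - F.1 γ⁻¹, fun h hh g => by
    have := Yc.diff F hh γ⁻¹ g
    beta_reduce
    rw [← mul_assoc]
    linear_combination this,
    (Yc.ev h0 F).mono fun m hm => sub_eq_zero.2 (hm _)⟩
  map_add' a b := Subtype.ext (funext fun g => by simp; ring)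
  map_smul' r a := Subtype.ext (funext fun g => by simp; ring)

@[simp] theorem lY_apply (h0 : N₀ ∈ Ω.S) (γ : Γ) (F : Yc Ω R N₀) (g : Γ) :
    (lY R h0 γ F).1 g = F.1 (γ⁻¹ * g) - F.1 γ⁻¹ := rfl

variable (R) in
/-- The Frobenius on `Yc`. -/
def phiY (hσ : Ω.Inv σ) (h0 : N₀ ∈ Ω.S) : End R (Yc Ω R N₀) where
  toFun F := ⟨fun g => F.1 (σ g), fun h hh g =>
    (congrArg F.1 (map_mul σ h g)).trans (F.2.1 _ ((hσ _ h0 _).2 hh) _), F.2.2.comp hσ⟩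
  map_add' a b := rfl
  map_smul' r a := rfl

@[simp] theorem phiY_apply (hσ : Ω.Inv σ) (h0 : N₀ ∈ Ω.S) (F : Yc Ω R N₀) (g : Γ) :
    (phiY R hσ h0 F).1 g = F.1 (σ g) := rfl

/-- The value at `x` of the cocycle attached to `F`. -/
def dd (F : Yc Ω R N₀) (x : Γ ⧸ N₀) (g : Γ) : R := F.1 (x.out * g) - F.1 x.out

theorem dd_mk (F : Yc Ω R N₀) (y g : Γ) : dd F (y : Γ ⧸ N₀) g = F.1 (y * g) - F.1 y := by
  obtain ⟨h, hh⟩ := QuotientGroup.mk_out_eq_mul N₀ y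
  rw [dd, hh, Yc.diff F h.2]

theorem dd_mul (F : Yc Ω R N₀) (x : Γ ⧸ N₀) (g h : Γ) :
    dd F x (g * h) = dd F x g + dd F (x * g) h := by
  induction x using QuotientGroup.induction_on with
  | H y => rw [← QuotientGroup.mk_mul, dd_mk, dd_mk, dd_mk, mul_assoc]; ring

theorem dd_ev (h0 : N₀ ∈ Ω.S) (F : Yc Ω R N₀) : Ω.Ev fun m => ∀ x, dd F x m = 0 :=
  (Yc.ev h0 F).mono fun m hm x => by rw [dd, hm, sub_self]

variable [Fintype (Γ ⧸ N₀)] {J : Type} [Fintype J]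

/-- A dual basis for `Yc` over the group ring. -/
def Proj (γ : J → Γ) (A : J → Yc Ω R N₀) : Prop :=
  ∀ (F : Yc Ω R N₀) (g : Γ), F.1 g = ∑ x : Γ ⧸ N₀, ∑ j, dd F x (γ j) * dd (A j) x⁻¹ g

/-- The trace with values in functions on the group. -/
def tau (σ : Γ ≃* Γ) (γ : J → Γ) (A : J → Yc Ω R N₀) (x : Γ ⧸ N₀) : R :=
  ∑ j, dd (A j) x⁻¹ (σ (γ j))

end

end Pool.Agent.Lib.MP_16ef92_ag.AL
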