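import Mathlib

set_option autoImplicit false
set_option linter.unusedSectionVars false
set_option linter.unusedVariables false

namespace Pool.Agent.Lib.MP_16ef92_ag.AL

open Module LinearMap Function

noncomputable section

variable {R S A : Type} [CommRing R] [CommRing S] [AddCommGroup A] [Module R A]

theorem trace_red {D : Type} [AddCommGroup D] [Module S D] [Module.Free R A] [Module.Finite R A]
    {φ : R →+* S} {π : R} (hφ : Surjective φ) (hπ : φ π = 0) (p : A →+ D) (hp : Surjective p)
    (hs : ∀ a v, p (a • v) = φ a • p v) (hk : ∀ v, p v = 0 → ∃ w, v = π • w)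
    {f : End R A} {f' : End S D} (hf : ∀ v, p (f v) = f' (p v)) :
    trace S D f' = φ (trace R A f) := by
  classical
  let b := Module.Free.chooseBasis R A
  have h1 : ∀ c : _ → R, p (∑ i, c i • b i) = ∑ i, φ (c i) • p (b i) := fun c => by
    simp only [map_sum, hs]
  have hl : LinearIndependent S fun i => p (b i) := Fintype.linearIndependent_iff.2 fun g hg i => by
    choose c hc using fun i => hφ (g i)
    obtain ⟨w, hw⟩ := hk _ ((h1 c).trans (by simpa only [hc] using hg))
    have h2 := congrArg (b.repr · i) hw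
    simp only [b.repr_sum_self, map_smul, Finsupp.smul_apply, smul_eq_mul] at h2
    rw [← hc, h2, map_mul, hπ, zero_mul]
  let b' := Basis.mk hl fun y _ => by
    obtain ⟨v, rfl⟩ := hp y
    rw [← b.sum_repr v, h1]
    exact Submodule.sum_mem _ fun i _ => Submodule.smul_mem _ _ (Submodule.subset_span ⟨i, rfl⟩)
  have h3 : ∀ i, p (b i) = b' i := fun i => (Basis.mk_apply hl _ i).symm
  rw [trace_eq_matrix_trace S b', trace_eq_matrix_trace R b, Matrix.trace, Matrix.trace, map_sum]
  refine Finset.sum_congr rfl fun i _ => ?_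
  rw [Matrix.diag, Matrix.diag, toMatrix_apply, toMatrix_apply, ← h3, ← hf,
    ← b.sum_repr (f (b i)), h1]
  simp only [h3, b'.repr_sum_self, b.repr_sum_self]

/-- Reduction of endomorphisms along a ring homomorphism. -/
def redE (φ : R →+* S) (d : ℕ) : End R (Fin d → R) →* End S (Fin d → S) where
  toFun f := Matrix.toLin' ((LinearMap.toMatrix' f).map φ)
  map_one' := by
    rw [LinearMap.toMatrix'_one, Matrix.map_one _ φ.map_zero φ.map_one, Matrix.toLin'_one]
    rfl
  map_mul' f g := by
    rw [LinearMap.toMatrix'_mul, Matrix.map_mul, Matrix.toLin'_mul]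
    rfl

theorem redE_apply (φ : R →+* S) {d : ℕ} (f : End R (Fin d → R)) (x : Fin d → R) :
    redE φ d f (fun i => φ (x i)) = fun i => φ (f x i) := by
  funext i
  rw [← LinearMap.toMatrix'_mulVec f x, RingHom.map_mulVec]
  rfl

theorem trace_redE (φ : R →+* S) {d : ℕ} (f : End R (Fin d → R)) :
    trace S _ (redE φ d f) = φ (trace R _ f) := by
  conv_rhs => rw [← Matrix.toLin'_toMatrix' f]
  rw [Matrix.trace_toLin'_eq, AddMonoidHom.map_trace]
  exact Matrix.trace_toLin'_eq _

theorem redE_eq_one (φ : R →+* S) {d : ℕ} {f : End R (Fin d → R)}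
    (h : ∀ i j, φ ((f (Pi.single j 1) - Pi.single j 1 : Fin d → R) i) = 0) : redE φ d f = 1 := by
  rw [← map_one (redE φ d)]
  refine congrArg Matrix.toLin' (Matrix.ext fun i j => ?_)
  have := h i j
  rw [Pi.sub_apply, map_sub, sub_eq_zero] at this
  exact this

theorem exists_zemb {l n a : ℕ} [Fact l.Prime] (h : n ≤ a) :
    ∃ e : ZMod (l ^ n) →+ ZMod (l ^ a), Injective e ∧
      ∀ u v, e (ZMod.castHom (pow_dvd_pow l h) (ZMod (l ^ n)) u * v) = u * e v := by
  have hl := (Fact.out : l.Prime).ne_zero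
  let e : ZMod (l ^ n) →+ ZMod (l ^ a) := ZMod.lift _
    ⟨(AddMonoidHom.mulLeft ((l ^ (a - n) : ℕ) : ZMod (l ^ a))).comp (Int.castAddHom _), by
      simp only [AddMonoidHom.comp_apply, AddMonoidHom.coe_mulLeft, Int.coe_castAddHom,
        Int.cast_natCast]
      rw [← Nat.cast_mul, ← pow_add, Nat.sub_add_cancel h, ZMod.natCast_self]⟩
  have he : ∀ m : ℤ, e m = ((l ^ (a - n) : ℕ) : ZMod (l ^ a)) * m := fun m => ZMod.lift_coe _ _ m
  refine ⟨e, (injective_iff_map_eq_zero e).2 fun v hv => ?_, fun u v => ?_⟩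
  · obtain ⟨m, rfl⟩ := ZMod.intCast_surjective v
    rw [he, ← Int.cast_natCast, ← Int.cast_mul, ZMod.intCast_zmod_eq_zero_iff_dvd,
      ← Nat.sub_add_cancel h, pow_add, Nat.add_sub_cancel, Nat.cast_mul,
      mul_dvd_mul_iff_left (by simpa using fun h => absurd h hl)] at hv
    exact (ZMod.intCast_zmod_eq_zero_iff_dvd _ _).2 hv
  · obtain ⟨m, rfl⟩ := ZMod.intCast_surjective u
    obtain ⟨k, rfl⟩ := ZMod.intCast_surjective v
    rw [map_intCast, ← Int.cast_mul, he, he, Int.cast_mul, mul_left_comm]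

theorem cancel_card {l n m : ℕ} [Fact l.Prime] (hm : m ≠ 0) {x : ZMod (l ^ (n + m.factorization l))}
    (hx : (m : ZMod (l ^ (n + m.factorization l))) * x = 0) :
    ZMod.castHom (pow_dvd_pow l (Nat.le_add_right _ _)) (ZMod (l ^ n)) x = 0 := by
  have hl : l.Prime := Fact.out
  obtain ⟨k, rfl⟩ := ZMod.natCast_zmod_surjective x
  rw [← Nat.cast_mul, ZMod.natCast_eq_zero_iff] at hx
  rw [map_natCast, ZMod.natCast_eq_zero_iff]
  rcases eq_or_ne k 0 with rfl | hk
  · exact dvd_zero _
  rw [hl.pow_dvd_iff_le_factorization (mul_ne_zero hm hk), Nat.factorization_mul hm hk,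
    Finsupp.add_apply] at hx
  exact (hl.pow_dvd_iff_le_factorization hk).2 (by omega)

end

end Pool.Agent.Lib.MP_16ef92_ag.AL
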