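import Mathlib
import Pool.Agent.Lib.MP_16ef92_ag.AL.PA0
import Pool.Agent.Lib.MP_16ef92_ag.AL.PT2

set_option autoImplicit false
set_option linter.unusedSectionVars false
set_option linter.unusedVariables false

namespace Pool.Agent.Lib.MP_16ef92_ag.AL

open Module LinearMap

noncomputable section

variable {Γ : Type} [Group Γ] {Ω : Fam Γ} {σ : Γ ≃* Γ} {l d : ℕ} [Fact l.Prime]

variable (Ω) in
/-- Continuous cocycles with `l`-adic values. -/
def Zi (ρ : Γ →* End ℤ_[l] (Fin d → ℤ_[l])) : Submodule ℤ_[l] (Γ → Fin d → ℤ_[l]) where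
  carrier := {c | (∀ g h, c (g * h) = c g + ρ g (c h)) ∧
    ∀ n, Ω.Ev fun g => ∀ i, (l : ℤ_[l]) ^ n ∣ c g i}
  add_mem' := fun {a b} ha hb => ⟨fun g h => by
    simp only [Pi.add_apply, ha.1, hb.1, map_add]; abel,
    fun n => ((ha.2 n).and (hb.2 n)).mono fun g hg i => dvd_add (hg.1 i) (hg.2 i)⟩
  zero_mem' := ⟨by simp, fun n => .of_forall fun _ _ => dvd_zero _⟩
  smul_mem' := fun r a ha => ⟨fun g h => by simp [ha.1],
    fun n => (ha.2 n).mono fun g hg i => (hg i).mul_left r⟩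

variable {ρ : Γ →* End ℤ_[l] (Fin d → ℤ_[l])} {ψ : End ℤ_[l] (Fin d → ℤ_[l])}

theorem dvd_end {a : ℤ_[l]} (f : End ℤ_[l] (Fin d → ℤ_[l])) {x : Fin d → ℤ_[l]} (h : ∀ i, a ∣ x i)
    (i : Fin d) : a ∣ f x i := by
  choose y hy using h
  rw [show x = a • y from funext hy, map_smul]
  exact dvd_mul_right _ _

/-- The action of a Frobenius. -/
def PsiI (hσ : Ω.Inv σ) (hψ : ∀ g, ψ * ρ (σ g) = ρ g * ψ) : End ℤ_[l] (Zi Ω ρ) where
  toFun c := ⟨fun g => ψ (c.1 (σ g)), fun g h => by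
    beta_reduce
    rw [map_mul, c.2.1, map_add, ← End.mul_apply ψ (ρ _), hψ, End.mul_apply],
    fun n => ((c.2.2 n).comp hσ).mono fun g hg => dvd_end ψ hg⟩
  map_add' a b := Subtype.ext (funext fun g => by simp)
  map_smul' r a := Subtype.ext (funext fun g => by simp)

@[simp] theorem PsiI_apply (hσ : Ω.Inv σ) (hψ : ∀ g, ψ * ρ (σ g) = ρ g * ψ) (c : Zi Ω ρ) (g : Γ) :
    (PsiI hσ hψ c).1 g = ψ (c.1 (σ g)) := rfl

variable (Ω) in
/-- Continuity of the representation. -/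
def Cr (ρ : Γ →* End ℤ_[l] (Fin d → ℤ_[l])) : Prop :=
  ∀ n, Ω.Ev fun g => ∀ x i, (l : ℤ_[l]) ^ n ∣ (ρ g x - x) i

/-- Coboundaries. -/
def cob (h : Cr Ω ρ) : (Fin d → ℤ_[l]) →ₗ[ℤ_[l]] Zi Ω ρ where
  toFun x := ⟨fun g => ρ g x - x, fun g h => by simp, fun n => (h n).mono fun g hg => hg x⟩
  map_add' a b := Subtype.ext (funext fun g => by simp; abel)
  map_smul' r a := Subtype.ext (funext fun g => by simp [smul_sub])

@[simp] theorem cob_apply (h : Cr Ω ρ) (x : Fin d → ℤ_[l]) (g : Γ) :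
    (cob h x).1 g = ρ g x - x := rfl

/-- The reduction of the representation. -/
def rn (ρ : Γ →* End ℤ_[l] (Fin d → ℤ_[l])) (n : ℕ) :
    Γ →* End (ZMod (l ^ n)) (Fin d → ZMod (l ^ n)) :=
  (redE (PadicInt.toZModPow n) d).comp ρ

theorem rn_psi (hψ : ∀ g, ψ * ρ (σ g) = ρ g * ψ) (n : ℕ) (g : Γ) :
    redE (PadicInt.toZModPow n) d ψ * rn ρ n (σ g) = rn ρ n g * redE (PadicInt.toZModPow n) d ψ := by
  simp only [rn, MonoidHom.comp_apply, ← map_mul, hψ]

theorem zp_zero {n : ℕ} {x : ℤ_[l]} : PadicInt.toZModPow n x = 0 ↔ (l : ℤ_[l]) ^ n ∣ x := by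
  rw [← RingHom.mem_ker, PadicInt.ker_toZModPow, Ideal.mem_span_singleton]

theorem Cr.rn (h : Cr Ω ρ) (n : ℕ) : Ω.Ev fun g => rn ρ n g = 1 :=
  (h n).mono fun g hg => redE_eq_one _ fun i j => zp_zero.2 (hg _ i)

theorem rn_apply (n : ℕ) (g : Γ) (x : Fin d → ℤ_[l]) :
    rn ρ n g (fun i => PadicInt.toZModPow n (x i)) = fun i => PadicInt.toZModPow n (ρ g x i) :=
  redE_apply _ _ _

/-- Reduction of cocycles. -/
def zr (n : ℕ) : Zi Ω ρ →+ Zc Ω (rn ρ n) where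
  toFun c := ⟨fun g i => PadicInt.toZModPow n (c.1 g i), fun g h => by
    beta_reduce
    rw [rn_apply, c.2.1]
    exact funext fun i => map_add _ _ _,
    (c.2.2 n).mono fun g hg => funext fun i => zp_zero.2 (hg i)⟩
  map_zero' := Subtype.ext (funext fun g => funext fun i => map_zero _)
  map_add' a b := Subtype.ext (funext fun g => funext fun i => map_add _ _ _)

theorem zr_apply (n : ℕ) (c : Zi Ω ρ) (g : Γ) (i : Fin d) :
    (zr n c).1 g i = PadicInt.toZModPow n (c.1 g i) := rfl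

end

end Pool.Agent.Lib.MP_16ef92_ag.AL
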