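import Mathlib

set_option autoImplicit false
set_option linter.unusedSectionVars false
set_option linter.unusedVariables false

namespace Pool.Agent.Lib.MP_16ef92_ag.AL

open Module

noncomputable section

variable {Γ M : Type} [Group Γ] [AddCommGroup M] [Finite M] [DistribMulAction Γ M] {l : ℕ}
  [Fact l.Prime]

theorem pa1f_vec {V : Type} [AddCommGroup V] [Module (ZMod l) V] {x : V} (hx : x ≠ 0) :
    ∃ f : V →+ ZMod l, f x ≠ 0 :=
  have ⟨φ, hφ⟩ := Module.Projective.exists_dual_ne_zero (ZMod l) hx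
  ⟨φ.toAddMonoidHom, hφ⟩

theorem pa1f_hom {K : Type} [AddCommGroup K] [Nontrivial K] {a : ℕ} (hl : ∀ m : K, l ^ a • m = 0) :
    ∃ f : K →+ ZMod l, f ≠ 0 := by
  let H : AddSubgroup K := (nsmulAddMonoidHom l).range
  obtain ⟨x, hx⟩ : ∃ x, x ∉ H := by
    by_contra h
    push Not at h
    have key : ∀ (b : ℕ) (m : K), ∃ y : K, l ^ b • y = m := fun b => by
      induction b with
      | zero => exact fun m => ⟨m, by simp⟩
      | succ b ih =>
        intro m
        obtain ⟨y, rfl⟩ := ih m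
        obtain ⟨z, rfl⟩ := h y
        exact ⟨z, by rw [pow_succ, mul_smul]; rfl⟩
    obtain ⟨m, hm⟩ := exists_ne (0 : K)
    obtain ⟨y, rfl⟩ := key a m
    exact hm (hl y)
  let : Module (ZMod l) (K ⧸ H) := QuotientAddGroup.zmodModule fun x => ⟨x, rfl⟩
  obtain ⟨φ, hφ⟩ := pa1f_vec (l := l) (x := (x : K ⧸ H))
    (by rwa [Ne, QuotientAddGroup.eq_zero_iff])
  exact ⟨φ.comp (QuotientAddGroup.mk' H), fun h => hφ (DFunLike.congr_fun h x)⟩

/-- An `l`-group that acts on `K →+ ZMod l` has a fixed point besides `0`. -/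
theorem exists_func (P : Subgroup Γ) (hp : ∀ g ∈ P, ∃ k, ∀ m : M, g ^ l ^ k • m = m)
    (hl : ∃ a, ∀ m : M, l ^ a • m = 0) (K : AddSubgroup M) (h0 : K ≠ ⊥)
    (hK : ∀ g ∈ P, ∀ m ∈ K, g • m ∈ K) :
    ∃ f : M → ZMod l, (∀ a ∈ K, ∀ b ∈ K, f (a + b) = f a + f b) ∧ (∃ k ∈ K, f k = 1) ∧
      ∀ g ∈ P, ∀ m ∈ K, f (g • m) = f m := by
  classical
  obtain ⟨a, ha⟩ := hl
  have := (AddSubgroup.nontrivial_iff_ne_bot K).2 h0
  obtain ⟨f₀, hf₀⟩ := pa1f_hom (l := l) (K := K) (a := a) fun m => Subtype.ext (ha m)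
  have : Finite (K →+ ZMod l) := DFunLike.finite _
  let r : P → K →+ K := fun g => AddMonoidHom.mk' (fun m => ⟨g.1 • m.1, hK _ g.2 _ m.2⟩)
    fun a b => Subtype.ext (smul_add _ _ _)
  let : MulAction P (K →+ ZMod l) :=
    { smul := fun g f => f.comp (r g⁻¹)
      one_smul := fun f => AddMonoidHom.ext fun m =>
        congrArg f (Subtype.ext (by simp [r]))
      mul_smul := fun g h f => AddMonoidHom.ext fun m =>
        congrArg f (Subtype.ext (by simp [r, mul_smul])) }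
  have hQ : IsPGroup l (MulAction.toPermHom P (K →+ ZMod l)).range := by
    rintro ⟨_, g, rfl⟩
    obtain ⟨k, hk⟩ := hp _ (P.inv_mem g.2)
    refine ⟨k, Subtype.ext ?_⟩
    rw [Subgroup.coe_pow, ← map_pow]
    refine Equiv.ext fun f => AddMonoidHom.ext fun m => congrArg f (Subtype.ext ?_)
    simpa [r] using hk m
  have hd : l ∣ Nat.card (K →+ ZMod l) := by
    have h1 := addOrderOf_dvd_natCard f₀
    rwa [addOrderOf_eq_prime (x := f₀) (p := l) (AddMonoidHom.ext fun m => by simp) hf₀] at h1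
  obtain ⟨b, hb, hb0⟩ := hQ.exists_fixed_point_of_prime_dvd_card_of_fixed_point (K →+ ZMod l) hd
    (a := 0) (by rintro ⟨_, g, rfl⟩; rfl)
  obtain ⟨k, hk⟩ : ∃ k, b k ≠ 0 := by
    by_contra h
    push Not at h
    exact hb0 (AddMonoidHom.ext h).symm
  refine ⟨fun m => if h : m ∈ K then (b k)⁻¹ * b ⟨m, h⟩ else 0, fun x hx y hy => ?_,
    ⟨k, k.2, ?_⟩, fun g hg m hm => ?_⟩ <;> beta_reduce
  · rw [dif_pos hx, dif_pos hy, dif_pos (add_mem hx hy), ← mul_add, ← map_add]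
    rfl
  · rw [dif_pos k.2]
    exact inv_mul_cancel₀ hk
  · rw [dif_pos hm, dif_pos (hK g hg m hm)]
    have h1 := DFunLike.congr_fun (hb ⟨_, (⟨g, hg⟩ : P)⁻¹, rfl⟩) ⟨m, hm⟩
    exact congrArg _ ((congrArg b (Subtype.ext (by simp [r]))).trans h1)

end

end Pool.Agent.Lib.MP_16ef92_ag.AL
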