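import Mathlib
import Pool.Agent.Lib.MP_16ef92_ag.AL.PA0
import Pool.Agent.Lib.MP_16ef92_ag.AL.PA1f

set_option autoImplicit false
set_option linter.unusedSectionVars false
set_option linter.unusedVariables false

namespace Pool.Agent.Lib.MP_16ef92_ag.AL

open Module

noncomputable section

variable {Γ M : Type} [Group Γ] [AddCommGroup M] [Finite M] [DistribMulAction Γ M] {l : ℕ}
  [Fact l.Prime]

variable {Ω : Fam Γ}

/-- Induction on `K`, one invariant functional at a time. -/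
theorem lift_sylow (h2 : H2 Ω l) (P : Subgroup Γ) (hP : Ω.Ev (· ∈ P))
    (ht : Ω.Ev fun g => ∀ m : M, g • m = m) (hp : ∀ g ∈ P, ∃ k, ∀ m : M, g ^ l ^ k • m = m)
    (hl : ∃ a, ∀ m : M, l ^ a • m = 0) (K : AddSubgroup M) (hK : ∀ g ∈ P, ∀ m ∈ K, g • m ∈ K)
    (c : Γ → M) (hc : ∀ g ∈ P, ∀ h ∈ P, c g + g • c h - c (g * h) ∈ K)
    (hn : Ω.Ev fun m => ∀ g ∈ P, c (g * m) = c g) :
    ∃ c₁ : Γ → M, (∀ g ∈ P, ∀ h ∈ P, c₁ (g * h) = c₁ g + g • c₁ h) ∧ (∀ g ∈ P, c₁ g - c g ∈ K) ∧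
      Ω.Ev fun m => c₁ m = 0 := by
  induction K using WellFoundedLT.induction generalizing c with
  | ind K ih =>
  by_cases h0 : K = ⊥
  · subst h0
    have h1 : ∀ g ∈ P, ∀ h ∈ P, c (g * h) = c g + g • c h := fun g hg h hh =>
      (sub_eq_zero.1 (AddSubgroup.mem_bot.1 (hc g hg h hh))).symm
    have h3 : c 1 = 0 := by simpa using h1 1 P.one_mem 1 P.one_mem
    exact ⟨c, h1, fun g _ => by rw [sub_self]; exact zero_mem _,
      hn.mono fun m hm => by rw [← h3, ← hm 1 P.one_mem, one_mul]⟩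
  obtain ⟨f, f1, ⟨k, hk, f2⟩, f3⟩ := exists_func P hp hl K h0 hK
  let F : K →+ ZMod l := AddMonoidHom.mk' (fun x => f x) fun a b => f1 _ a.2 _ b.2
  have f4 : ∀ a ∈ K, ∀ b ∈ K, f (a - b) = f a - f b := fun a ha b hb => F.map_sub ⟨a, ha⟩ ⟨b, hb⟩
  have f5 : ∀ a ∈ K, f a = 1 → ∀ t : ZMod l, f (t.val • a) = t := fun a ha h t =>
    (F.map_nsmul t.val ⟨a, ha⟩).trans (by
      change t.val • f a = t
      rw [h, nsmul_eq_mul, mul_one, ZMod.natCast_zmod_val])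
  obtain ⟨b, b1, b2⟩ := h2 P hP (fun g h => f (c g + g • c h - c (g * h)))
    (fun g hg h hh u hu => by
      rw [← f1 _ (hc g hg h hh) _ (hc _ (mul_mem hg hh) u hu), ← f3 g hg _ (hc h hh u hu),
        ← f1 _ (hK g hg _ (hc h hh u hu)) _ (hc g hg _ (mul_mem hh hu))]
      congr 1
      simp only [smul_sub, smul_add, mul_smul, mul_assoc]
      abel)
    (((hn.and hn.conj).and ht).mono fun m hm g hg h hh => ⟨by
      rw [hm.1.1 g hg, mul_smul, hm.2, show g * m * h = g * h * (h⁻¹ * m * h) by group,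
        hm.1.2 h _ (mul_mem hg hh)], by
      rw [hm.1.1 h hh, ← mul_assoc, hm.1.1 _ (mul_mem hg hh)]⟩)
  let K' : AddSubgroup M := F.ker.map K.subtype
  have hK' : ∀ m, m ∈ K' ↔ m ∈ K ∧ f m = 0 := fun m =>
    ⟨fun ⟨x, h, e⟩ => e ▸ ⟨x.2, h⟩, fun h => ⟨⟨m, h.1⟩, h.2, rfl⟩⟩
  obtain ⟨c₁, c1, c2, c3⟩ := ih K' (lt_of_le_of_ne (fun m hm => ((hK' m).1 hm).1) fun e =>
      one_ne_zero (f2.symm.trans ((hK' k).1 (e ▸ hk)).2))
    (fun g hg m hm => (hK' _).2 ⟨hK g hg m ((hK' m).1 hm).1,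
      (f3 g hg m ((hK' m).1 hm).1).trans ((hK' m).1 hm).2⟩)
    (fun g => c g - (b g).val • k) (fun g hg h hh => by
      have e : c g - (b g).val • k + g • (c h - (b h).val • k) - (c (g * h) - (b (g * h)).val • k) =
          (c g + g • c h - c (g * h) + (b (g * h)).val • k) -
            ((b g).val • k + (b h).val • g • k) := by
        rw [smul_sub, smul_comm g]
        abel
      have a1 := hc g hg h hh
      have a2 := fun t : ZMod l => K.nsmul_mem hk t.val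
      have a3 := K.nsmul_mem (hK g hg k hk) (b h).val
      rw [e, hK']
      refine ⟨sub_mem (add_mem a1 (a2 _)) (add_mem (a2 _) a3), ?_⟩
      rw [f4 _ (add_mem a1 (a2 _)) _ (add_mem (a2 _) a3), f1 _ a1 _ (a2 _), f1 _ (a2 _) _ a3,
        f5 k hk f2, f5 k hk f2, f5 _ (hK g hg k hk) ((f3 g hg k hk).trans f2), b1 g hg h hh,
        sub_self])
    ((hn.and b2).mono fun m hm g hg => by rw [hm.1 g hg, hm.2 g hg])
  refine ⟨c₁, c1, fun g hg => ?_, c3⟩
  have h4 := sub_mem ((hK' _).1 (c2 g hg)).1 (K.nsmul_mem hk (b g).val)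
  rwa [sub_sub, sub_add_cancel] at h4

end

end Pool.Agent.Lib.MP_16ef92_ag.AL
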