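import Mathlib
import Pool.Agent.Lib.MP_16ef92_ag.AL.PA0

set_option autoImplicit false
set_option linter.unusedSectionVars false
set_option linter.unusedVariables false

namespace Pool.Agent.Lib.MP_16ef92_ag.AL

open Module

noncomputable section

variable {Γ : Type} [Group Γ] {Ω : Fam Γ} {l : ℕ} [Fact l.Prime]

theorem pa1c_mem {P : Subgroup Γ} {g : Γ} {q q' : Γ ⧸ P} :
    q'.out⁻¹ * g * q.out ∈ P ↔ q' = g • q := by
  rw [mul_assoc, ← QuotientGroup.eq, QuotientGroup.out_eq', ← smul_eq_mul,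
    MulAction.Quotient.mk_smul_out]

/-- Corestriction, corrected by a coboundary. -/
theorem cores {M : Type} [AddCommGroup M] [DistribMulAction Γ M] (P : Subgroup Γ)
    (hP : Ω.Ev (· ∈ P)) (ht : Ω.Ev fun g => ∀ m : M, g • m = m) (K : AddSubgroup M)
    (hK : ∀ g : Γ, ∀ m ∈ K, g • m ∈ K) (c : Γ → M) (hc : ∀ g h, c g + g • c h - c (g * h) ∈ K)
    (c₁ : Γ → M) (h1 : ∀ g ∈ P, ∀ h ∈ P, c₁ (g * h) = c₁ g + g • c₁ h)
    (h3 : ∀ g ∈ P, c₁ g - c g ∈ K) (h4 : Ω.Ev fun m => c₁ m = 0) :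
    ∃ c₂ : Γ → M, (∀ g h, c₂ (g * h) = c₂ g + g • c₂ h) ∧ (∀ g, c₂ g - P.index • c g ∈ K) ∧
      Ω.Ev fun m => c₂ m = 0 := by
  have : P.FiniteIndex := by
    obtain ⟨N, hN, h⟩ := hP
    have := Ω.fin N hN
    exact Subgroup.finiteIndex_of_le (H := N) h
  have := Fintype.ofFinite (Γ ⧸ P)
  let u : Γ → Γ ⧸ P → Γ := fun g q => (g • q).out⁻¹ * g * q.out
  have hu : ∀ g q, u g q ∈ P := fun g q => pa1c_mem.2 rfl
  have e1 : ∀ g q, (g • q).out * u g q = g * q.out := fun g q => by simp [u, mul_assoc]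
  have e2 : ∀ g h q, u (g * h) q = u g (h • q) * u h q := fun g h q => by
    simp [u, mul_assoc, mul_smul]
  have re : ∀ (g : Γ) (f : Γ ⧸ P → M), ∑ q, f (g • q) = ∑ q, f q := fun g f =>
    Equiv.sum_comp (MulAction.toPerm g) f
  refine ⟨fun g => ∑ q, (g • q).out • c₁ (u g q) -
    (g • ∑ q : Γ ⧸ P, c q.out - ∑ q : Γ ⧸ P, c q.out), fun g h => ?_, fun g => ?_,
    ((hP.and h4).conj.and ht).mono fun g hg => ?_⟩
  · have : ∑ q, ((g * h) • q).out • c₁ (u (g * h) q) =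
        ∑ q, (g • q).out • c₁ (u g q) + g • ∑ q, (h • q).out • c₁ (u h q) := by
      rw [← re h fun q => (g • q).out • c₁ (u g q), Finset.smul_sum, ← Finset.sum_add_distrib]
      refine Finset.sum_congr rfl fun q _ => ?_
      rw [e2, h1 _ (hu _ _) _ (hu _ _), smul_add, mul_smul g h q, smul_smul _ (u _ _), e1,
        mul_smul]
    simp only [this, smul_sub, mul_smul g h (∑ q : Γ ⧸ P, c q.out)]
    abel
  · beta_reduce
    rw [Finset.smul_sum, ← re g fun q => c q.out, Subgroup.index_eq_card, Nat.card_eq_fintype_card,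
      ← Finset.card_univ, ← Finset.sum_const, ← Finset.sum_sub_distrib, ← Finset.sum_sub_distrib,
      ← Finset.sum_sub_distrib]
    refine sum_mem fun q _ => ?_
    have := sub_mem (add_mem (hK (g • q).out _ (h3 _ (hu g q))) (hc (g • q).out (u g q)))
      (hc g q.out)
    rw [e1, smul_sub] at this
    exact Set.mem_of_eq_of_mem (by abel) this
  · have h5 : ∀ q : Γ ⧸ P, g • q = q := fun q => (pa1c_mem.1 (hg.1 _).1).symm
    simp [u, h5, hg.2, (hg.1 _).2]

end

end Pool.Agent.Lib.MP_16ef92_ag.AL
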