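import Mathlib
import Pool.Agent.Lib.MP_16ef92_ag.AL.PA1a
import Pool.Agent.Lib.MP_16ef92_ag.AL.PA1c

set_option autoImplicit false
set_option linter.unusedSectionVars false
set_option linter.unusedVariables false

namespace Pool.Agent.Lib.MP_16ef92_ag.AL

open Module

noncomputable section

variable {Γ : Type} [Group Γ] {Ω : Fam Γ} {l : ℕ} [Fact l.Prime]

/-- Lift to the preimage of a Sylow subgroup, then apply the corestriction. -/
theorem lift (h2 : H2 Ω l) {R R' M M' : Type} [CommRing R] [CommRing R'] [AddCommGroup M]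
    [AddCommGroup M'] [Module R M] [Module R' M'] [Finite M] {ρ : Γ →* End R M}
    {ρ' : Γ →* End R' M'} (p : M →+ M') (he : ∀ g m, p (ρ g m) = ρ' g (p m))
    (hl : ∃ a, ∀ m : M, l ^ a • m = 0) (h0 : Ω.Ev fun g => ρ g = 1) (c' : Zc Ω ρ')
    (hr : ∀ g, ∃ m, p m = c'.1 g) : ∃ c : Zc Ω ρ, ∀ g, p (c.1 g) = c'.1 g := by
  obtain ⟨N, hN, h1⟩ := h0
  have := Ω.normal N hN
  have := Ω.fin N hN
  obtain ⟨S⟩ : Nonempty (Sylow l (Γ ⧸ N)) := inferInstance
  let _ : DistribMulAction Γ M := .compHom M ρ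
  have e : ∀ (g : Γ) (m : M), g • m = ρ g m := fun _ _ => rfl
  have hP : Ω.Ev (· ∈ S.1.comap (QuotientGroup.mk' N)) := ⟨N, hN, fun g hg =>
    Subgroup.mem_comap.2 (by
      rw [QuotientGroup.mk'_apply, (QuotientGroup.eq_one_iff g).2 hg]
      exact one_mem _)⟩
  have ht : Ω.Ev fun g => ∀ m : M, g • m = m := ⟨N, hN, fun g hg m => by rw [e, h1 g hg]; rfl⟩
  have hK : ∀ g : Γ, ∀ m ∈ p.ker, g • m ∈ p.ker := fun g m hm => by
    rw [AddMonoidHom.mem_ker] at hm ⊢
    rw [e, he, hm, map_zero]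
  have hc : ∀ g, p (Function.invFun p (c'.1 g)) = c'.1 g := fun g => Function.invFun_eq (hr g)
  have h3 : ∀ g h, Function.invFun p (c'.1 g) + g • Function.invFun p (c'.1 h) -
      Function.invFun p (c'.1 (g * h)) ∈ p.ker := fun g h => by
    rw [AddMonoidHom.mem_ker, map_sub, map_add, e, he, hc, hc, hc, c'.2.1, sub_self]
  obtain ⟨c₁, k1, k2, k3⟩ := lift_sylow h2 _ hP ht (fun g hg => (S.isPGroup' ⟨_, hg⟩).imp
    fun k hk m => by
      have h4 := congrArg Subtype.val hk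
      rw [e, h1 _ ((QuotientGroup.eq_one_iff _).1 h4)]
      rfl) hl p.ker (fun g _ => hK g) (fun g => Function.invFun p (c'.1 g))
    (fun g _ h _ => h3 g h) (c'.2.2.mono fun m hm g _ => by rw [c'.2.1, hm, map_zero, add_zero])
  obtain ⟨c₂, j1, j2, j3⟩ := cores _ hP ht p.ker hK _ h3 c₁ k1 k2 k3
  rw [Subgroup.index_comap_of_surjective _ (QuotientGroup.mk'_surjective N)] at j2
  obtain ⟨a, ha⟩ := hl
  obtain ⟨u, v, huv⟩ := Nat.isCoprime_iff_coprime.2
    (((Fact.out : l.Prime).coprime_iff_not_dvd.2 S.not_dvd_index).pow_left a)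
  refine ⟨⟨fun g => v • c₂ g, fun g h => ?_, j3.mono fun g hg => ?_⟩, fun g => ?_⟩ <;> beta_reduce
  · rw [j1, smul_add, e, map_zsmul]
  · rw [hg, smul_zero]
  · have h5 := j2 g
    rw [AddMonoidHom.mem_ker, map_sub, sub_eq_zero] at h5
    change p (v • c₂ g) = _
    rw [map_zsmul, h5, ← map_zsmul, ← natCast_zsmul, ← mul_smul, eq_sub_of_add_eq' huv, sub_smul,
      mul_smul, natCast_zsmul, ha, smul_zero, sub_zero, one_smul, hc]

end

end Pool.Agent.Lib.MP_16ef92_ag.AL
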