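import Mathlib
import Pool.Agent.Lib.MP_16ef92_ag.AL.NA0
import Pool.Agent.Lib.MP_16ef92_ag.AL.PA1

set_option autoImplicit false
set_option linter.unusedSectionVars false
set_option linter.unusedVariables false

namespace Pool.Agent.Lib.MP_16ef92_ag.AL

open Module LinearMap

noncomputable section

variable {Γ : Type} [Group Γ] {Ω : Fam Γ} {σ : Γ ≃* Γ} {l d : ℕ} [Fact l.Prime]
  {ρ : Γ →* End ℤ_[l] (Fin d → ℤ_[l])} {ψ : End ℤ_[l] (Fin d → ℤ_[l])}

theorem na1a_surj (m : ℕ) : Function.Surjective (PadicInt.toZModPow (p := l) m) :=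
  ZMod.ringHom_surjective _

theorem na1a_step (h2 : H2 Ω l) (h : Cr Ω ρ) (m : ℕ) (c' : Zc Ω (rn ρ m)) :
    ∃ c : Zc Ω (rn ρ (m + 1)), ∀ g i, (ZMod.cast (c.1 g i) : ZMod (l ^ m)) = c'.1 g i := by
  have hd : l ^ m ∣ l ^ (m + 1) := pow_dvd_pow l m.le_succ
  let p : (Fin d → ZMod (l ^ (m + 1))) →+ (Fin d → ZMod (l ^ m)) :=
    (ZMod.castHom hd (ZMod (l ^ m))).toAddMonoidHom.compLeft (Fin d)
  have hp : ∀ x : Fin d → ℤ_[l], p (fun i => PadicInt.toZModPow (m + 1) (x i)) =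
      fun i => PadicInt.toZModPow m (x i) := fun x =>
    funext fun i => PadicInt.cast_toZModPow m (m + 1) m.le_succ (x i)
  obtain ⟨c, hc⟩ := lift h2 (ρ := rn ρ (m + 1)) (ρ' := rn ρ m) p (fun g y => by
      choose x hx using fun i => na1a_surj (m + 1) (y i)
      rw [← funext hx, rn_apply, hp, hp, rn_apply])
    ⟨m + 1, fun y => funext fun i => by
      rw [Pi.smul_apply, nsmul_eq_mul, ZMod.natCast_self, zero_mul, Pi.zero_apply]⟩
    (h.rn _) c' fun g => by
      choose x hx using fun i => na1a_surj m (c'.1 g i)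
      exact ⟨_, (hp x).trans (funext hx)⟩
  exact ⟨c, fun g i => congrFun (hc g) i⟩

theorem na1a_lim (n : ℕ) (a : ∀ k, ZMod (l ^ (n + k)))
    (ha : ∀ k, (ZMod.cast (a (k + 1)) : ZMod (l ^ (n + k))) = a k) :
    ∃ x : ℤ_[l], ∀ k, PadicInt.toZModPow (n + k) x = a k := by
  have hi : ∀ j, (l : ℤ) ^ j ∣ ((a (j + 1 - n)).val : ℤ) - (a (j - n)).val := fun j => by
    rcases lt_or_ge j n with hj | hj
    · rw [show j + 1 - n = j - n by omega, sub_self]
      exact dvd_zero _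
    · obtain ⟨k, rfl⟩ := Nat.exists_eq_add_of_le hj
      rw [show n + k + 1 - n = k + 1 by omega, Nat.add_sub_cancel_left, ← Nat.cast_pow,
        ← ZMod.intCast_eq_intCast_iff_dvd_sub, Int.cast_natCast, Int.cast_natCast,
        ZMod.natCast_zmod_val, ZMod.natCast_val, ha]
  refine ⟨_, fun k => (PadicInt.toZModPow_ofIntSeq_of_pow_dvd_sub
    (fun j => ((a (j - n)).val : ℤ)) l hi (n + k)).trans ?_⟩
  rw [Nat.add_sub_cancel_left, Int.cast_natCast, ZMod.natCast_zmod_val]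

theorem na1a_ext (n : ℕ) {x y : ℤ_[l]}
    (h : ∀ k, PadicInt.toZModPow (n + k) x = PadicInt.toZModPow (n + k) y) : x = y :=
  PadicInt.ext_of_toZModPow.1 fun k => by
    rw [← PadicInt.cast_toZModPow k (n + k) (Nat.le_add_left k n), h,
      PadicInt.cast_toZModPow k (n + k) (Nat.le_add_left k n)]

/-- Cocycles modulo a power of `l` lift to `l`-adic cocycles. -/
theorem zr_surj (h2 : H2 Ω l) (h : Cr Ω ρ) (n : ℕ) :
    Function.Surjective (zr (Ω := Ω) (ρ := ρ) n) := fun c₀ => by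
  choose st hst using na1a_step h2 h
  let c : ∀ k, Zc Ω (rn ρ (n + k)) := fun k => Nat.rec c₀ (fun k c => st (n + k) c) k
  choose x hx using fun g i => na1a_lim n (fun k => (c k).1 g i) fun k => hst (n + k) (c k) g i
  refine ⟨⟨x, fun g g' => funext fun i => na1a_ext n fun k => ?_, fun m => (c m).2.2.mono
    fun g hg i => (pow_dvd_pow _ (Nat.le_add_left m n)).trans (zp_zero.1 ?_)⟩,
    Subtype.ext (funext fun g => funext fun i => hx g i 0)⟩
  · rw [Pi.add_apply, map_add, hx, hx, (c k).2.1, Pi.add_apply, ← congrFun (rn_apply _ g (x g')) i,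
      funext fun i => hx g' i k]
  · rw [hx, hg, Pi.zero_apply]

end

end Pool.Agent.Lib.MP_16ef92_ag.AL
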