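import Mathlib
import Pool.Agent.Lib.MP_16ef92_ag.AL.NA1a

set_option autoImplicit false
set_option linter.unusedSectionVars false
set_option linter.unusedVariables false

namespace Pool.Agent.Lib.MP_16ef92_ag.AL

open Module LinearMap

noncomputable section

variable {Γ : Type} [Group Γ] {Ω : Fam Γ} {σ : Γ ≃* Γ} {l d : ℕ} [Fact l.Prime]
  {ρ : Γ →* End ℤ_[l] (Fin d → ℤ_[l])} {ψ : End ℤ_[l] (Fin d → ℤ_[l])}

/-- Divide pointwise by `l ^ n`. -/
theorem zr_ker {n : ℕ} {c : Zi Ω ρ} (h : zr n c = 0) : ∃ w, c = (l : ℤ_[l]) ^ n • w := by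
  have h0 : (l : ℤ_[l]) ^ n ≠ 0 := pow_ne_zero _ (Nat.cast_ne_zero.2 (Fact.out : l.Prime).ne_zero)
  choose w hw using fun g i => (zp_zero (n := n) (x := c.1 g i)).1
    (congrFun (congrFun (congrArg Subtype.val h) g) i)
  have e : ∀ g, c.1 g = (l : ℤ_[l]) ^ n • w g := fun g => funext (hw g)
  refine ⟨⟨w, fun g k => smul_right_injective _ h0 ?_, fun m => (c.2.2 (n + m)).mono fun g hg i =>
    (mul_dvd_mul_iff_left h0).1 ?_⟩, Subtype.ext (funext e)⟩
  · simp only [smul_add, ← map_smul, ← e, c.2.1]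
  · rw [← pow_add, ← hw]
    exact hg i

theorem na1_finite (h2 : H2 Ω l) (h : Cr Ω ρ) (hf : Finite (Zc Ω (rn ρ 1))) :
    Module.Finite ℤ_[l] (Zi Ω ρ) := by
  have := Fintype.ofFinite (Zc Ω (rn ρ 1))
  choose z hz using zr_surj h2 h 1
  classical
  refine Module.Finite.of_surjective (Fintype.linearCombination ℤ_[l] z) fun y => ?_
  have key : ∀ n : ℕ, ∃ a w, Fintype.linearCombination ℤ_[l] z a - y = (l : ℤ_[l]) ^ n • w :=
    fun n => by
    induction n with
    | zero => exact ⟨0, -y, by simp⟩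
    | succ n ih =>
      obtain ⟨a, w, e⟩ := ih
      obtain ⟨v, hv⟩ := zr_ker (n := 1) (c := w - z (zr 1 w)) (by rw [map_sub, hz, sub_self])
      refine ⟨a - (l : ℤ_[l]) ^ n • Pi.single (zr 1 w) 1, v, ?_⟩
      rw [map_sub, map_smul, Fintype.linearCombination_apply_single, one_smul, sub_right_comm, e,
        pow_add (l : ℤ_[l]), mul_smul, ← hv]
      exact (smul_sub _ w _).symm
  let A : ℕ → Set (Zc Ω (rn ρ 1) → ℤ_[l]) := fun n =>
    {a | ∀ g i, (l : ℤ_[l]) ^ n ∣ (Fintype.linearCombination ℤ_[l] z a - y).1 g i}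
  have hc : ∀ n, IsClosed (A n) := fun n => by
    simp only [A, Set.ofPred_forall, ← Ideal.mem_span_singleton,
      ← PadicInt.norm_le_pow_iff_mem_span_pow]
    refine isClosed_iInter fun g => isClosed_iInter fun i => isClosed_le ?_ continuous_const
    simp only [Fintype.linearCombination_apply, Submodule.coe_sub, Submodule.coe_sum,
      Submodule.coe_smul, Pi.sub_apply, Finset.sum_apply, Pi.smul_apply, smul_eq_mul]
    fun_prop
  obtain ⟨a, ha⟩ := IsCompact.nonempty_iInter_of_sequence_nonempty_isCompact_isClosed A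
    (fun n a ha g i => (pow_dvd_pow _ n.le_succ).trans (ha g i)) (fun n => by
      obtain ⟨a, w, e⟩ := key n
      exact ⟨a, fun g i => e ▸ dvd_mul_right _ _⟩) (hc 0).isCompact hc
  refine ⟨a, sub_eq_zero.1 (Subtype.ext (funext fun g => funext fun i =>
    PadicInt.ext_of_toZModPow.1 fun n => ?_))⟩
  exact (zp_zero.2 (Set.mem_iInter.1 ha n g i)).trans (map_zero _).symm

/-- Finite by compactness, torsion free over a principal ideal domain gives free. -/
theorem limit (h2 : H2 Ω l) (h : Cr Ω ρ) (hσ : Ω.Inv σ) (hψ : ∀ g, ψ * ρ (σ g) = ρ g * ψ)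
    (hf : Finite (Zc Ω (rn ρ 1))) :
    Module.Free ℤ_[l] (Zi Ω ρ) ∧ Module.Finite ℤ_[l] (Zi Ω ρ) ∧ ∀ n,
      trace _ _ (Psi hσ (rn_psi hψ n)) = PadicInt.toZModPow n (trace _ _ (PsiI hσ hψ)) := by
  have := na1_finite h2 h hf
  have hF : Module.Free ℤ_[l] (Zi Ω ρ) := inferInstance
  refine ⟨hF, this, fun n => trace_red (π := (l : ℤ_[l]) ^ n) (ZMod.ringHom_surjective _)
    (zp_zero.2 dvd_rfl) (zr n) (zr_surj h2 h n) (fun a v => ?_) (fun v => zr_ker) fun v => ?_⟩
  · exact Subtype.ext (funext fun g => funext fun i => map_mul _ _ _)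
  · exact Subtype.ext (funext fun g => (redE_apply _ _ _).symm)

end

end Pool.Agent.Lib.MP_16ef92_ag.AL
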