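import Mathlib
import Pool.Agent.Lib.MP_16ef92_ag.AL.NA2a
import Pool.Agent.Lib.MP_16ef92_ag.AL.NA2b

set_option autoImplicit false
set_option linter.unusedSectionVars false
set_option linter.unusedVariables false

namespace Pool.Agent.Lib.MP_16ef92_ag.AL

open Module LinearMap Polynomial

noncomputable section

variable {R Z T : Type} [CommRing R] [IsDomain R] [IsPrincipalIdealRing R] [AddCommGroup Z]
  [Module R Z] [Module.Free R Z] [Module.Finite R Z] [AddCommGroup T] [Module R T]
  [Module.Free R T] [Module.Finite R T]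

theorem na2_trace (g : End R Z) (Q : R[X]) (j : ℕ) : trace R Z (aeval g (X ^ j * Q)) =
    ∑ i ∈ Q.support, Q.coeff i * trace R Z (g ^ (i + j)) := by
  rw [map_mul, map_pow, aeval_X, aeval_def, eval₂_eq_sum, Polynomial.sum, Finset.mul_sum, map_sum]
  refine Finset.sum_congr rfl fun i _ => ?_
  rw [← Algebra.smul_def, mul_smul_comm, map_smul, smul_eq_mul, ← pow_add, add_comm]

theorem na2_bot {g : End R Z} (h : ∀ x, g x = x → x = 0) : g.maxGenEigenspace 1 = ⊥ := by
  refine eq_bot_iff.2 fun x hx => ?_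
  obtain ⟨k, hk⟩ := (End.mem_maxGenEigenspace _ _ _).1 hx
  clear hx
  induction k with
  | zero => simpa using hk
  | succ k ih =>
    rw [pow_succ', End.mul_apply, one_smul, LinearMap.sub_apply, End.one_apply, sub_eq_zero] at hk
    exact ih (by rw [one_smul]; exact h _ hk)

theorem na2_rat {K : Type} [Field K] [CharZero K] (Q : K[X]) (h1 : Q.eval 1 ≠ 0) (u : ℕ → ℚ)
    (h : ∀ j, 0 < j → ∑ i ∈ Q.support, Q.coeff i * (u (i + j) : K) = 0) :
    ∃ h : ℚ[X], h.eval 1 ≠ 0 ∧ ∀ j, 0 < j → (h.sum fun i c => c * u (i + j)) = 0 := by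
  obtain ⟨φ, hφ⟩ : ∃ φ : Dual ℚ K, φ (Q.eval 1) ≠ 0 := by
    by_contra e
    push Not at e
    exact h1 ((Module.forall_dual_apply_eq_zero_iff ℚ _).1 e)
  refine ⟨∑ i ∈ Q.support, monomial i (φ (Q.coeff i)), ?_, fun j hj => ?_⟩
  · rw [eval_eq_sum, Polynomial.sum, map_sum] at hφ
    simpa [eval_finsetSum] using hφ
  · have e := congrArg φ (h j hj)
    rw [map_sum, map_zero] at e
    refine (map_sum (Polynomial.lsum (R := ℚ) fun i => (LinearMap.mul ℚ ℚ).flip (u (i + j)))
      (fun i => monomial i (φ (Q.coeff i))) Q.support).trans ?_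
    rw [← e]
    refine Finset.sum_congr rfl fun i _ => ?_
    rw [mul_comm (Q.coeff i), ← Rat.smul_def, map_smul, smul_eq_mul, mul_comm]
    exact sum_monomial_index _ (fun i c => c * u (i + j)) (zero_mul _)

/-- `m` is the rank of the generalised eigenspace of one on the torsion free quotient. -/
theorem exists_mult (K : Type) [Field K] [CharZero K] [Algebra R K] [FaithfulSMul R K]
    {ι : T →ₗ[R] Z} {g : End R Z} {t : End R T} (hc : ∀ x, ι (t x) = g (ι x))
    (h0 : ∀ x, ι x = 0 → t x = x → x = 0) (r : ℕ → ℚ)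
    (hr : ∀ j, 0 < j → algebraMap R K (trace R Z (g ^ j) - trace R T (t ^ j)) = r j) :
    ∃ m, Mult r m ∧ (Sim ι g ↔ m ≤ 1) := by
  obtain ⟨W, _, _, _, _, p, w, t₀, hp, hn, hw, ht, htr⟩ := exists_quot hc
  refine ⟨finrank R (w.maxGenEigenspace 1), ?_, ?_⟩
  · obtain ⟨P, hP, h1⟩ := exists_kill w
    obtain ⟨P₀, hP₀, h2⟩ := exists_kill t₀
    have hb : t₀.maxGenEigenspace 1 = ⊥ := na2_bot fun x hx =>
      Subtype.ext (h0 x x.2 (by rw [← ht, hx]))
    have hi := FaithfulSMul.algebraMap_injective R K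
    refine na2_rat ((P * P₀).map (algebraMap R K)) ?_
      (fun i => r i - finrank R (w.maxGenEigenspace 1)) fun j hj => ?_
    · rw [eval_one_map, eval_mul]
      exact (map_ne_zero_iff _ hi).2 (mul_ne_zero hP hP₀)
    · have e1 := h1 (X ^ j * P₀)
      have e2 := h2 (X ^ j * P)
      rw [mul_assoc, mul_comm P₀, na2_trace, eval_mul, eval_pow, eval_X, one_pow, one_mul,
        eval_eq_sum, Polynomial.sum, Finset.sum_mul] at e1
      rw [mul_assoc, na2_trace, hb, finrank_bot, Nat.cast_zero, mul_zero] at e2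
      have e3 := congrArg (algebraMap R K)
        (sub_eq_zero.2 (((congrArg (_ - ·) e2).trans (sub_zero _)).trans e1))
      rw [map_zero, ← Finset.sum_sub_distrib, ← Finset.sum_sub_distrib, map_sum] at e3
      rw [support_map_of_injective _ hi, ← e3]
      refine Finset.sum_congr rfl fun i _ => ?_
      rw [Rat.cast_sub, ← hr _ (Nat.add_pos_right i hj), htr, coeff_map]
      simp only [map_sub, map_mul, one_pow, mul_one, map_natCast, Rat.cast_natCast]
      ring
  · have hs : ∀ z, p ((g - 1) z) = (w - 1) (p z) := fun z => by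
      simp only [LinearMap.sub_apply, End.one_apply, map_sub, hw]
    rw [rank_le_one_iff]
    constructor
    · rintro ⟨z₀, hz, h⟩
      refine ⟨p z₀, ?_, fun y hy => ?_⟩
      · have := (hn _).2 hz
        rwa [hs, LinearMap.sub_apply, End.one_apply, sub_eq_zero] at this
      · obtain ⟨z, rfl⟩ := hp y
        obtain ⟨a, b, ha, e⟩ := h z ((hn _).1 (by rw [hs, hs, hy]))
        exact ⟨a, b, ha, by simpa using (hn _).2 e⟩
    · rintro ⟨w₀, hz, h⟩
      obtain ⟨z₀, rfl⟩ := hp w₀
      refine ⟨z₀, (hn _).1 (by rw [hs, LinearMap.sub_apply, End.one_apply, hz, sub_self]),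
        fun z hz => ?_⟩
      obtain ⟨a, b, ha, e⟩ := h (p z) (by rw [← hs, ← hs]; exact (hn _).2 hz)
      exact ⟨a, b, ha, (hn _).1 (by simpa using e)⟩

end

end Pool.Agent.Lib.MP_16ef92_ag.AL
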