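import Mathlib
import Pool.Agent.Lib.MP_6adaea_nt.V.North

set_option autoImplicit false
set_option linter.unusedSectionVars false
set_option linter.unusedVariables false

namespace Pool.Agent.Lib.MP_16ef92_ag.AL

open Pool.Agent.Lib.MP_6adaea_nt

noncomputable section

/-- positive characteristic -/
class PosChar (k : Type) [Field k] : Prop where
  ex : ∃ p : ℕ, p.Prime ∧ CharP k p

variable (k K : Type) [Field k] [Field K] [Algebra k K]

/-- divisors -/
abbrev Dv : Type := Place k K →₀ ℤ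

variable {k K}

/-- degree -/
abbrev deg : Dv k K →+ ℤ := Finsupp.degree

theorem deg_single (v : Place k K) (m : ℤ) : deg (Finsupp.single v m) = m :=
  Finsupp.degree_single v m

theorem deg_eq_sum (D : Dv k K) {s : Finset (Place k K)} (hs : D.support ⊆ s) :
    deg D = ∑ v ∈ s, D v :=
  Finset.sum_subset hs fun _ _ h => Finsupp.notMem_support_iff.mp h

theorem deg_nonneg {D : Dv k K} (h : 0 ≤ D) : 0 ≤ deg D := Finset.sum_nonneg fun v _ => h v

theorem deg_mono {D D' : Dv k K} (h : D ≤ D') : deg D ≤ deg D' := by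
  have := deg_nonneg (sub_nonneg.mpr h)
  rw [map_sub] at this
  omega

theorem eq_zero_of_deg_le {D : Dv k K} (h : 0 ≤ D) (h0 : deg D ≤ 0) : D = 0 := by
  ext v
  by_contra hv
  have := Finset.single_le_sum (f := D) (fun v _ => h v) (Finsupp.mem_support_iff.2 hv)
  have h1 : deg D = ∑ v ∈ D.support, D v := rfl
  have h2 : (0 : ℤ) ≤ D v := h v
  exact hv (by change D v = 0; omega)

/-- the Riemann-Roch space -/
def LL (D : Dv k K) : Submodule k K where
  carrier := {f | ∀ v : Place k K, v.Ge f (-D v)}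
  add_mem' ha hb v := (ha v).add (hb v)
  zero_mem' v := v.ge_zero _
  smul_mem' c _ h v := (h v).smul c

theorem mem_LL {D : Dv k K} {f : K} : f ∈ LL D ↔ ∀ v : Place k K, v.Ge f (-D v) := Iff.rfl

/-- its dimension -/
def ell (D : Dv k K) : ℕ := Module.finrank k (LL D)

variable (k K) in
/-- automorphisms of the pair `k ⊆ K` -/
structure SA where
  γ : K ≃+* K
  a : k ≃+* k
  h : ∀ c, γ (algebraMap k K c) = algebraMap k K (a c)

namespace SA

variable (s : SA k K)

/-- the inverse -/
def symm : SA k K := ⟨s.γ.symm, s.a.symm, fun c => by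
  rw [RingEquiv.symm_apply_eq, s.h, RingEquiv.apply_symm_apply]⟩

/-- the action on places -/
def pl : Place k K ≃ Place k K where
  toFun := under_pull s.symm.γ s.symm.a s.symm.h
  invFun := under_pull s.γ s.a s.h
  left_inv v := Place.ext (funext fun x => congrArg v.ord (s.γ.symm_apply_apply x))
  right_inv v := Place.ext (funext fun x => congrArg v.ord (s.γ.apply_symm_apply x))

theorem pl_ord' (v : Place k K) (x : K) : (s.pl v).ord x = v.ord (s.γ.symm x) := rfl

@[simp] theorem pl_ord (v : Place k K) (x : K) : (s.pl v).ord (s.γ x) = v.ord x := by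
  rw [pl_ord', RingEquiv.symm_apply_apply]

theorem pl_symm_ord (v : Place k K) (x : K) : (s.pl.symm v).ord x = v.ord (s.γ x) := rfl

theorem pl_ge (v : Place k K) (x : K) (m : ℤ) : (s.pl v).Ge (s.γ x) m ↔ v.Ge x m := by
  simp [Place.Ge]

/-- the action on divisors -/
def dm : Dv k K ≃+ Dv k K := Finsupp.domCongr s.pl

theorem dm_apply (D : Dv k K) (v : Place k K) : s.dm D v = D (s.pl.symm v) := rfl

@[simp] theorem dm_pl (D : Dv k K) (v : Place k K) : s.dm D (s.pl v) = D v := by
  rw [dm_apply, Equiv.symm_apply_apply]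

@[simp] theorem dm_single (v : Place k K) (m : ℤ) :
    s.dm (Finsupp.single v m) = Finsupp.single (s.pl v) m := by
  simp [dm, Finsupp.domCongr_apply, Finsupp.equivMapDomain_single]

@[simp] theorem deg_dm (D : Dv k K) : deg (s.dm D) = deg D := by
  induction D using Finsupp.induction_linear with
  | zero => simp
  | add a b ha hb => rw [map_add, map_add, map_add, ha, hb]
  | single v m => rw [dm_single, deg_single, deg_single]

theorem dm_nonneg {D : Dv k K} : 0 ≤ s.dm D ↔ 0 ≤ D :=
  ⟨fun h v => by simpa using h (s.pl v), fun h v => h _⟩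

end SA

variable [IsAlgClosed k] [IsFF k K] [PosChar k]

theorem ord_fin (x : K) : (Function.support fun v : Place k K => v.ord x).Finite := by
  obtain ⟨p, hp, _⟩ := PosChar.ex (k := k)
  have := Fact.mk hp
  exact IsFF.fin p x

variable (k) in
/-- the divisor of a function (junk value `0` at `0`) -/
def dv (f : K) : Dv k K := Finsupp.ofSupportFinite _ (ord_fin f)

@[simp] theorem dv_apply (f : K) (v : Place k K) : dv k f v = v.ord f := rfl

theorem deg_dv (f : K) : deg (dv k f) = 0 := by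
  obtain ⟨p, hp, _⟩ := PosChar.ex (k := k)
  have := Fact.mk hp
  exact IsFF.prod p f _ fun v hv => Finsupp.mem_support_iff.2 hv

theorem const_of_ge {f : K} (h : ∀ v : Place k K, v.Ge f 0) : ∃ c, f = algebraMap k K c := by
  obtain ⟨p, hp, _⟩ := PosChar.ex (k := k)
  have := Fact.mk hp
  exact IsFF.pole p h

theorem const_of_dv {f : K} (h : dv k f = 0) : ∃ c, f = algebraMap k K c :=
  const_of_ge fun v => Or.inr (DFunLike.congr_fun h v).ge

theorem dv_mul {f g : K} (hf : f ≠ 0) (hg : g ≠ 0) : dv k (f * g) = dv k f + dv k g :=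
  Finsupp.ext fun v => v.ord_mul hf hg

theorem dv_inv (f : K) : dv k f⁻¹ = -dv k f := Finsupp.ext fun v => v.ord_inv f

theorem dv_div {f g : K} (hf : f ≠ 0) (hg : g ≠ 0) : dv k (f / g) = dv k f - dv k g :=
  Finsupp.ext fun v => v.ord_div hf hg

theorem dv_pow (f : K) (m : ℕ) : dv k (f ^ m) = m • dv k f := Finsupp.ext fun v => by simp

theorem dv_zpow (f : K) (m : ℤ) : dv k (f ^ m) = m • dv k f := Finsupp.ext fun v => by simp

theorem dv_const (c : k) : dv k (algebraMap k K c) = 0 := Finsupp.ext fun v => by simp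

theorem dv_one : dv k (1 : K) = 0 := Finsupp.ext fun v => by simp

theorem mem_LL_iff {D : Dv k K} {f : K} (hf : f ≠ 0) : f ∈ LL D ↔ 0 ≤ D + dv k f := by
  simp only [mem_LL, Place.ge_iff hf, Finsupp.le_def, Finsupp.add_apply, dv_apply,
    Finsupp.zero_apply]
  exact forall_congr' fun v => by omega

theorem SA.dm_dv (s : SA k K) (f : K) : s.dm (dv k f) = dv k (s.γ f) := Finsupp.ext fun v => rfl

variable (k K) in
/-- principal divisors -/
def Prin : AddSubgroup (Dv k K) where
  carrier := {D | ∃ f : K, f ≠ 0 ∧ dv k f = D}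
  zero_mem' := ⟨1, one_ne_zero, dv_one⟩
  add_mem' := by
    rintro _ _ ⟨f, hf, rfl⟩ ⟨g, hg, rfl⟩
    exact ⟨f * g, mul_ne_zero hf hg, dv_mul hf hg⟩
  neg_mem' := by
    rintro _ ⟨f, hf, rfl⟩
    exact ⟨f⁻¹, inv_ne_zero hf, dv_inv f⟩

variable (k K) in
/-- divisor classes -/
abbrev Pic : Type := Dv k K ⧸ Prin k K

/-- the class of a divisor -/
abbrev cl : Dv k K →+ Pic k K := QuotientAddGroup.mk' _

theorem cl_eq_zero {D : Dv k K} : cl D = 0 ↔ ∃ f : K, f ≠ 0 ∧ dv k f = D :=
  QuotientAddGroup.eq_zero_iff D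

theorem cl_eq {D D' : Dv k K} : cl D = cl D' ↔ ∃ f : K, f ≠ 0 ∧ dv k f = D - D' := by
  rw [← cl_eq_zero, map_sub, sub_eq_zero]

theorem cl_dv {f : K} (hf : f ≠ 0) : cl (dv k f) = 0 := cl_eq_zero.2 ⟨f, hf, rfl⟩

theorem cl_surj (c : Pic k K) : ∃ D, cl D = c := QuotientAddGroup.mk'_surjective _ c

theorem deg_eq_of_cl {D D' : Dv k K} (h : cl D = cl D') : deg D = deg D' := by
  obtain ⟨f, -, hf⟩ := cl_eq.1 h
  rw [← sub_eq_zero, ← map_sub, ← hf, deg_dv]

variable (k K) in
/-- the classes killed by `n` -/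
def Tor (n : ℕ) : AddSubgroup (Pic k K) := (nsmulAddMonoidHom n).ker

theorem mem_Tor {n : ℕ} {c : Pic k K} : c ∈ Tor k K n ↔ n • c = 0 := Iff.rfl

instance torModule (n : ℕ) : Module (ZMod n) (Tor k K n) :=
  AddCommGroup.zmodModule fun x => Subtype.ext x.2

/-- the action on classes -/
def SA.pic (s : SA k K) : Pic k K →+ Pic k K :=
  QuotientAddGroup.map _ _ s.dm.toAddMonoidHom (by
    rintro _ ⟨f, hf, rfl⟩
    exact ⟨s.γ f, by simpa using hf, (s.dm_dv f).symm⟩)

@[simp] theorem SA.pic_cl (s : SA k K) (D : Dv k K) : s.pic (cl D) = cl (s.dm D) := rfl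

/-- the action on torsion classes -/
def SA.tor (s : SA k K) (n : ℕ) : Tor k K n →ₗ[ZMod n] Tor k K n :=
  ((s.pic.comp (Tor k K n).subtype).codRestrict _ fun c => by
    rw [mem_Tor, AddMonoidHom.comp_apply, ← map_nsmul]
    exact (congrArg s.pic c.2).trans (map_zero _)).toZModLinearMap n

@[simp] theorem SA.tor_val (s : SA k K) (n : ℕ) (c : Tor k K n) :
    (s.tor n c : Pic k K) = s.pic c := rfl

end

end Pool.Agent.Lib.MP_16ef92_ag.AL
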