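import Mathlib
import Pool.Agent.Lib.MP_16ef92_ag.AL.PUni
import Pool.Agent.Lib.MP_16ef92_ag.AL.WDef

set_option autoImplicit false
set_option linter.unusedSectionVars false
set_option linter.unusedVariables false

namespace Pool.Agent.Lib.MP_16ef92_ag.AL

open Pool.Agent.Lib.MP_6adaea_nt

noncomputable section

/-- Open subgroups of the geometric Galois group. -/
structure OS (F : Type) [Field F] [Clos F] where
  H : Subgroup (Gam F)
  le : H ≤ Geo F
  near : Near fun g => g ∈ Geo F → g ∈ H

variable {F : Type} [Field F] [Clos F] [Fintype F] [hq : Fact (Odd (Fintype.card F))]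
  (U : OS F)

/-- The fixed field. -/
def OS.K : IntermediateField (kk F) (Om F) where
  carrier := {z | ∀ g ∈ U.H, g z = z}
  mul_mem' := fun ha hb g hg => by rw [map_mul, ha g hg, hb g hg]
  add_mem' := fun ha hb g hg => by rw [map_add, ha g hg, hb g hg]
  one_mem' := fun g _ => map_one g
  zero_mem' := fun g _ => map_zero g
  algebraMap_mem' := fun c g hg => geo_fix (U.le hg) c
  inv_mem' := fun z hz g hg => by rw [map_inv₀, hz g hg]

theorem OS.mem_K {z : Om F} : z ∈ U.K ↔ ∀ g ∈ U.H, g z = z := Iff.rfl

theorem OS.fix (z : U.K) {g : Gam F} (hg : g ∈ U.H) : g z = z := z.2 g hg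

/-- The uniformiser of a place of the projective line as an element of the fixed field. -/
def OS.pl (x : Option (kk F)) : U.K := ⟨MP_16ef92_ag.pl x, fun g hg => geo_pl (U.le hg) x⟩

@[simp] theorem OS.pl_val (x : Option (kk F)) : (U.pl x : Om F) = MP_16ef92_ag.pl x := rfl

theorem pfld_nhds (g : Gam F) (z : Om F) : ∀ᶠ h in nhds g, h z = g z := by
  have h1 : (fun h => g⁻¹ * h) ⁻¹' (MulAction.stabilizer (Gam F) z : Set (Gam F)) ∈ nhds g :=
    ((stabilizer_isOpen_of_isIntegral z).preimage (continuous_const_mul _)).mem_nhds (by simp)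
  filter_upwards [h1] with h hh
  exact (self_apply_inv g (h z)).symm.trans (congrArg g hh)

/-- `U.H` is closed in the Krull topology. -/
theorem OS.cld : Cld U.H := by
  obtain ⟨S, hS⟩ := U.near
  have hc : IsClosed (U.H : Set (Gam F)) := by
    rw [← isOpen_compl_iff, isOpen_iff_mem_nhds]
    intro g hg
    by_cases h1 : g ∈ Geo F
    · filter_upwards [(Filter.eventually_all_finset S).2 fun z _ => pfld_nhds g z] with h hh h2
      refine hg ((U.H.mul_mem_cancel_left (U.H.inv_mem h2)).1 (hS _ (fun s hs => ?_)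
        ((Geo F).mul_mem ((Geo F).inv_mem (U.le h2)) h1)))
      rw [AlgEquiv.mul_apply, ← hh s hs, inv_apply_self]
    · obtain ⟨c, hc⟩ := not_forall.1 fun h => h1 (mem_geo h)
      filter_upwards [pfld_nhds g c] with h hh h2
      exact hc (hh.symm.trans (geo_fix (U.le h2) c))
  intro g hg
  rw [← show _ = U.H from InfiniteGalois.fixingSubgroup_fixedField ⟨U.H, hc⟩,
    IntermediateField.mem_fixingSubgroup_iff]
  exact fun z hz => hg z ((IntermediateField.mem_fixedField_iff _ _).1 hz)

theorem OS.trans {O₁ O₂ : ValuationSubring (Om F)}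
    (h : ∀ z : U.K, (z : Om F) ∈ O₁ ↔ (z : Om F) ∈ O₂) :
    ∃ g ∈ U.H, ∀ z, z ∈ O₁ ↔ g z ∈ O₂ := by
  obtain ⟨g, hg⟩ := trans_val (M := IntermediateField.fixedField U.H) O₁ O₂ fun a =>
    h ⟨a, (IntermediateField.mem_fixedField_iff _ _).1 a.2⟩
  exact ⟨g.restrictScalars (RatFunc F), U.cld _ fun z hz =>
    g.commutes ⟨z, (IntermediateField.mem_fixedField_iff _ _).2 hz⟩, hg⟩

theorem pfld_ff {k L : Type} [Field k] [Field L] [Algebra k L] {t : L} (ht : Transcendental k t) :
    IsFF k (IntermediateField.adjoin k {t}) := by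
  refine ⟨IntermediateField.AdjoinSimple.gen k t,
    (transcendental_algebraMap_iff (A := L) Subtype.val_injective).1 ht, ?_⟩
  have h : IntermediateField.adjoin k {IntermediateField.AdjoinSimple.gen k t} = ⊤ :=
    IntermediateField.lift_injective _ (by
      rw [IntermediateField.lift_adjoin_simple, IntermediateField.lift_top]
      rfl)
  rw [h]
  exact .of_surjective (Algebra.linearMap _ _) fun x => ⟨⟨x, trivial⟩, rfl⟩

/-- The fixed field lies in a finite extension of `k(t)`. -/
instance OS.isFF : IsFF (kk F) U.K := by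
  obtain ⟨S, hS⟩ := U.near
  have h0 := pfld_ff (tt_trans (F := F))
  have hL : IntermediateField.adjoin (kk F) {tt F} ≤ U.K :=
    IntermediateField.adjoin_simple_le_iff.2 fun g _ => gam_tt g
  have hb : ∀ a : RatFunc F, algebraMap _ (Om F) a ∈ IntermediateField.adjoin (kk F) {tt F} :=
    fun a => fix_kf (IntermediateField.mem_adjoin_simple_self _ _) fun g _ _ => g.commutes a
  generalize IntermediateField.adjoin (kk F) {tt F} = L at h0 hL hb
  have h1 : FiniteDimensional L (IntermediateField.adjoin L (S : Set (Om F))) :=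
    IntermediateField.finiteDimensional_adjoin fun z _ =>
      ((Algebra.IsAlgebraic.isAlgebraic (R := RatFunc F) z).ringHom_of_comp_eq
        ((algebraMap _ (Om F)).codRestrict L hb) (RingHom.id _) (RingHom.injective _) rfl).isIntegral
  have h2 : IntermediateField.extendScalars hL ≤ IntermediateField.adjoin L (S : Set (Om F)) := by
    intro z hz
    have h3 : ∀ a ∈ L, a ∈ IntermediateField.adjoin L (S : Set (Om F)) := fun a ha =>
      IntermediateField.algebraMap_mem _ (⟨a, ha⟩ : L)
    change z ∈ (IntermediateField.adjoin L (S : Set (Om F))).toSubfield.toIntermediateField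
      fun a => h3 _ (hb a)
    rw [← InfiniteGalois.fixedField_fixingSubgroup (Subfield.toIntermediateField _ _),
      IntermediateField.mem_fixedField_iff]
    intro g hg
    rw [IntermediateField.mem_fixingSubgroup_iff] at hg
    exact hz g (hS g (fun s hs => hg s (IntermediateField.subset_adjoin L _ hs))
      (mem_geo fun c => hg _ (h3 _ (L.algebraMap_mem c))))
  have h3 : FiniteDimensional L (IntermediateField.extendScalars hL) :=
    Module.Finite.of_injective (IntermediateField.inclusion h2).toLinearMap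
      (IntermediateField.inclusion_injective h2)
  let _ : Algebra L U.K := (IntermediateField.extendScalars hL).algebra
  exact @IsFF.of_finite _ _ L _ _ h0 U.K _ _ _ (.of_algebraMap_eq fun _ => rfl) h3

theorem pfld_char : ∃ p e : ℕ, p.Prime ∧ CharP (kk F) p ∧ 0 < e ∧ Fintype.card F = p ^ e := by
  obtain ⟨p, hp⟩ := CharP.exists F
  obtain ⟨e, h1, h2⟩ := FiniteField.card F p
  exact ⟨p, e, h1, charP_of_injective_algebraMap (algebraMap F (kk F)).injective p, e.2, h2⟩

instance posChar_kk : PosChar (kk F) := by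
  obtain ⟨p, -, h1, h2, -⟩ := pfld_char (F := F)
  exact ⟨p, h1, h2⟩

theorem exists_char : ∃ p e : ℕ, p.Prime ∧ CharP (kk F) p ∧ 0 < e ∧ Fintype.card F = p ^ e :=
  pfld_char

theorem cast_kk_ne {n : ℕ} (hn : (n : F) ≠ 0) : (n : kk F) ≠ 0 := by
  have := (map_ne_zero (algebraMap F (kk F))).2 hn
  rwa [map_natCast] at this

end

end Pool.Agent.Lib.MP_16ef92_ag.AL
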