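import Mathlib
import Pool.Agent.Lib.MP_16ef92_ag.AL.PFld
import Pool.Agent.Lib.MP_16ef92_ag.AL.PA0

set_option autoImplicit false
set_option linter.unusedSectionVars false
set_option linter.unusedVariables false

namespace Pool.Agent.Lib.MP_16ef92_ag.AL

open Polynomial

noncomputable section

variable {F : Type} [Field F] [Clos F] [Fintype F] [hq : Fact (Odd (Fintype.card F))]

/-- `P` holds on the inertia groups at the finite places outside the zeros of `N`. -/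
def GI (N : F[X]) (P : Gam F → Prop) : Prop :=
  ∀ c : kk F, aeval c N ≠ 0 → ∀ O, Over O (some c) → ∀ g ∈ Ine O, P g

/-- Open normal subgroups that contain the inertia groups at the good places. -/
structure AdU (N : F[X]) (U : OS F) : Prop where
  normal : U.H.Normal
  ine : GI N (· ∈ U.H)

variable {N : F[X]}

instance geo_normal : (Geo F).Normal := ⟨fun g hg s => geo_conj' hg s⟩

theorem GI.conj {P : Gam F → Prop} (h : GI N P) : GI N fun g => ∀ s, P (s⁻¹ * g * s) := by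
  intro c hc O hO g hg s
  have e : ck s (ck s⁻¹ c) = c := Subtype.ext (self_apply_inv s c)
  refine h (ck s⁻¹ c) (fun h0 => hc (Subtype.ext ?_)) (cm s O)
    (over_cm (by rwa [Option.map_some, e])) _ (conj_ine (fun _ => mem_cm) hg)
  have h1 := aeval_algHom_apply (((s.restrictScalars F : _ ≃ₐ[F] _) : Om F →ₐ[F] Om F).comp
    (kk F).val) (ck s⁻¹ c) N
  rw [h0, map_zero] at h1
  exact (aeval_algHom_apply (kk F).val c N).symm.trans
    ((congrArg (aeval · N) (self_apply_inv s c).symm).trans h1)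

theorem padm_near {P : Gam F → Prop} (h : Near P) : Near fun h => ∀ g, P (g⁻¹ * h * g) := by
  classical
  obtain ⟨S, hS⟩ := h
  refine ⟨S.biUnion fun s => ((minpoly (RatFunc F) s).aroots (Om F)).toFinset,
    fun h hh g => hS _ fun s hs => ?_⟩
  rw [AlgEquiv.mul_apply, AlgEquiv.mul_apply, hh _ (Finset.mem_biUnion.2 ⟨s, hs, ?_⟩),
    inv_apply_self]
  rw [Multiset.mem_toFinset, mem_aroots]
  exact ⟨minpoly.ne_zero (Algebra.IsIntegral.isIntegral _),
    by rw [aeval_algHom_apply, minpoly.aeval, map_zero]⟩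

/-- The normal core of `H ⊓ Geo F`. -/
theorem exists_adU (H : Subgroup (Gam F)) (hn : Near fun g => g ∈ Geo F → g ∈ H)
    (hi : GI N (· ∈ H)) : ∃ U : OS F, AdU N U ∧ U.H ≤ H :=
  ⟨⟨(H ⊓ Geo F).normalCore, (Subgroup.normalCore_le _).trans inf_le_right,
    (padm_near hn).mono fun g hg h s =>
      ⟨by simpa using hg s⁻¹ (geo_conj h _), geo_conj' h s⟩⟩,
    ⟨Subgroup.normalCore_normal _, fun c hc O hO g hg s =>
      ⟨by simpa using hi.conj c hc O hO g hg s⁻¹, geo_conj' hg.1 s⟩⟩,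
    (Subgroup.normalCore_le _).trans inf_le_left⟩

theorem OS.finiteIndex (U : OS F) : (U.H.subgroupOf (Geo F)).FiniteIndex := by
  obtain ⟨S, hS⟩ := U.near
  have : (⨅ s ∈ S, MulAction.stabilizer (Gam F) s).FiniteIndex :=
    Subgroup.finiteIndex_iInf' _ fun s _ => ⟨by
      rw [MulAction.index_stabilizer]
      refine Set.ncard_ne_zero_of_mem (MulAction.mem_orbit_self s)
        (((minpoly (RatFunc F) s).rootSet_finite (Om F)).subset ?_)
      rintro _ ⟨g, rfl⟩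
      rw [mem_rootSet]
      refine ⟨minpoly.ne_zero (Algebra.IsIntegral.isIntegral _), ?_⟩
      change aeval (g s) _ = 0
      rw [aeval_algHom_apply, minpoly.aeval, map_zero]⟩
  exact Subgroup.finiteIndex_of_le
    (H := (⨅ s ∈ S, MulAction.stabilizer (Gam F) s).subgroupOf (Geo F)) fun g hg =>
      hS g (fun s hs => Subgroup.mem_iInf.1 (Subgroup.mem_iInf.1 hg s) hs) g.2

/-- The family of admissible subgroups. -/
def fam (N : F[X]) : Fam (Geo F) where
  S := {M | ∃ U : OS F, AdU N U ∧ M = U.H.subgroupOf (Geo F)}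
  ne := ⟨_, ⟨Geo F, le_rfl, .of_forall fun _ h => h⟩, ⟨geo_normal, fun c _ O _ g hg => hg.1⟩, rfl⟩
  normal := by
    rintro _ ⟨U, hU, rfl⟩
    exact hU.normal.subgroupOf _
  fin := by
    rintro _ ⟨U, hU, rfl⟩
    exact U.finiteIndex
  inf := by
    rintro _ ⟨U, hU, rfl⟩ _ ⟨V, hV, rfl⟩
    have := hU.normal
    have := hV.normal
    exact ⟨⟨U.H ⊓ V.H, inf_le_left.trans U.le,
      (U.near.and V.near).mono fun g hg h => ⟨hg.1 h, hg.2 h⟩⟩,
      ⟨Subgroup.normal_inf_normal _ _,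
        fun c hc O hO g hg => ⟨hU.ine c hc O hO g hg, hV.ine c hc O hO g hg⟩⟩, rfl⟩

theorem AdU.mem {U : OS F} (h : AdU N U) : U.H.subgroupOf (Geo F) ∈ (fam N).S := ⟨U, h, rfl⟩

/-- Conjugation by `s⁻¹`. -/
def sgm (s : Gam F) : Geo F ≃* Geo F := MulAut.conjNormal s⁻¹

@[simp] theorem sgm_val (s : Gam F) (g : Geo F) : (sgm s g : Gam F) = s⁻¹ * g * s := by
  simp [sgm]

theorem fam_inv (s : Gam F) : (fam N).Inv (sgm s) := by
  rintro _ ⟨U, hU, rfl⟩ g
  rw [Subgroup.mem_subgroupOf, Subgroup.mem_subgroupOf, sgm_val]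
  exact ⟨fun h => by simpa [mul_assoc] using hU.normal.conj_mem _ h s,
    fun h => hU.normal.conj_mem' _ h s⟩

theorem ev_near {P : Geo F → Prop} (h : (fam N).Ev P) :
    Near fun g => ∀ hg : g ∈ Geo F, P ⟨g, hg⟩ := by
  obtain ⟨_, ⟨U, hU, rfl⟩, h⟩ := h
  exact U.near.mono fun g hg hg' => h _ (hg hg')

theorem ev_ine {P : Geo F → Prop} (h : (fam N).Ev P) :
    GI N fun g => ∀ hg : g ∈ Geo F, P ⟨g, hg⟩ := by
  obtain ⟨_, ⟨U, hU, rfl⟩, h⟩ := h
  exact fun c hc O hO g hg hg' => h _ (hU.ine c hc O hO g hg)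

theorem ev_of (H : Subgroup (Gam F)) (hn : Near fun g => g ∈ Geo F → g ∈ H) (hi : GI N (· ∈ H)) :
    (fam N).Ev fun g => (g : Gam F) ∈ H := by
  obtain ⟨U, hU, h⟩ := exists_adU H hn hi
  exact ⟨_, hU.mem, fun g hg => h hg⟩

theorem ev_of' (P : Subgroup (Geo F)) (hn : Near fun g => ∀ hg : g ∈ Geo F, ⟨g, hg⟩ ∈ P)
    (hi : GI N fun g => ∀ hg : g ∈ Geo F, ⟨g, hg⟩ ∈ P) : (fam N).Ev (· ∈ P) :=
  (ev_of (P.map (Geo F).subtype) (hn.mono fun g hg h => ⟨_, hg h, rfl⟩)
    fun c hc O hO g hg => ⟨_, hi c hc O hO g hg hg.1, rfl⟩).mono fun g ⟨h, hh, e⟩ =>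
      (Subtype.ext e : h = g) ▸ hh

end

end Pool.Agent.Lib.MP_16ef92_ag.AL
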