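import Mathlib
import Pool.Agent.Lib.MP_16ef92_ag.AL.PFld

set_option autoImplicit false
set_option linter.unusedSectionVars false
set_option linter.unusedVariables false

namespace Pool.Agent.Lib.MP_16ef92_ag.AL

open Pool.Agent.Lib.MP_6adaea_nt

noncomputable section

variable {F : Type} [Field F] [Clos F] [Fintype F] [hq : Fact (Odd (Fintype.card F))]
  (U : OS F)

/-- Places of the fixed field. -/
abbrev OS.Pl : Type := Place (kk F) U.K

/-- The valuation subring `O` lies over the place `v`. -/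
def OS.Rel (O : ValuationSubring (Om F)) (v : U.Pl) : Prop :=
  ∀ z : U.K, v.Ge z 0 ↔ (z : Om F) ∈ O

variable {U} {O O' : ValuationSubring (Om F)} {v w : U.Pl} {x : Option (kk F)}

theorem OS.Rel.lt_iff (h : U.Rel O v) (z : U.K) : O.valuation (z : Om F) < 1 ↔ v.Ge z 1 := by
  by_cases h0 : z = 0
  · simp [h0]
  rw [val_lt_one_iff, ← IntermediateField.coe_inv, ← h, Place.ge_iff h0,
    Place.ge_iff (inv_ne_zero h0), Place.ord_inv, or_iff_right (by simpa using h0)]
  omega

theorem pplc_ne {π : U.K} (hπ : v.ord π = 1) : π ≠ 0 := fun e => by simp [e] at hπ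

theorem OS.Rel.val (h : U.Rel O v) {π z : U.K} (hπ : v.ord π = 1) (hz : z ≠ 0) :
    O.valuation (z : Om F) = O.valuation (π : Om F) ^ v.ord z := by
  have h0 := zpow_ne_zero (v.ord z) (pplc_ne hπ)
  have h1 : v.ord (z / π ^ v.ord z) = 0 := by simp [v.ord_div hz h0, hπ]
  have h2 := (O.valuation_le_one_iff _).2 ((h _).1 (Place.Ge.of_le h1.ge))
  have h3 := h2.eq_of_not_lt fun e => by
    have := ((h.lt_iff _).1 e).le (div_ne_zero hz h0)
    omega
  have h4 : O.valuation (π : Om F) ^ v.ord z ≠ 0 :=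
    zpow_ne_zero _ (by simpa using pplc_ne hπ)
  change O.valuation (U.K.val (z / π ^ v.ord z)) = 1 at h3
  rw [map_div₀, map_zpow₀, map_div₀, map_zpow₀] at h3
  exact (div_eq_one_iff_eq h4).1 h3

theorem OS.Rel.unique (h : U.Rel O v) (h' : U.Rel O w) : v = w :=
  Place.eq_of_ge (fun z hz => (h' z).2 ((h z).1 hz)) fun z hz => (h'.lt_iff z).1 ((h.lt_iff z).2 hz)

theorem OS.Rel.conj (h : U.Rel O v) (h' : U.Rel O' v) : ∃ g ∈ U.H, ∀ z, z ∈ O ↔ g z ∈ O' :=
  U.trans fun z => (h z).symm.trans (h' z)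

open Polynomial in
theorem pplc_over (O : ValuationSubring (Om F)) (hO : O ≠ ⊤) : ∃ x, Over O x := by
  classical
  by_contra h
  push Not at h
  have h0 : O.valuation (tt F) ≤ 1 := by
    rw [O.valuation_le_one_iff]
    by_contra e
    exact h none ((val_lt_one_iff O _).2 (Or.inr (by rwa [pl, inv_inv])))
  have h1 : ∀ P : (kk F)[X], P ≠ 0 → O.valuation (aeval (tt F) P) = 1 := fun P hP => by
    rw [(IsAlgClosed.splits P).eq_prod_roots, map_mul, map_mul, aeval_C, map_multiset_prod,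
      map_multiset_prod, Multiset.prod_eq_one, mul_one]
    · exact val_const O (leadingCoeff_ne_zero.2 hP)
    · simp only [Multiset.map_map, Multiset.mem_map, Function.comp]
      rintro _ ⟨c, -, rfl⟩
      rw [map_sub, aeval_X, aeval_C]
      exact le_antisymm (Valuation.map_sub_le _ h0 (val_const_le O c)) (not_lt.1 (h (some c)))
  have h2 : ∀ p : F[X], p ≠ 0 → O.valuation (aeval (tt F) p) = 1 := fun p hp => by
    rw [← aeval_map_algebraMap (kk F)]
    exact h1 _ (Polynomial.map_ne_zero hp)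
  have h3 : ∀ y : RatFunc F, algebraMap _ (Om F) y ≠ 0 →
      O.valuation (algebraMap _ (Om F) y) = 1 := fun y hy => by
    rw [← RatFunc.num_div_denom y, map_div₀, map_div₀, rf_eq, rf_eq, h2 _ y.denom_ne_zero,
      h2 _ (RatFunc.num_ne_zero fun e => hy (by rw [e, map_zero])), div_one]
  refine hO (eq_top_iff.2 fun z _ => ?_)
  by_cases e0 : z = 0
  · exact e0 ▸ zero_mem O
  obtain ⟨p, hp0, hp⟩ := Algebra.IsAlgebraic.isAlgebraic (R := RatFunc F) z
  obtain ⟨i, m, hm, a, b, e⟩ := two_terms O.valuation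
    ((Polynomial.map_ne_zero_iff (algebraMap (RatFunc F) (Om F)).injective).2 hp0) e0
    (by rw [eval_map_algebraMap, hp])
  rw [coeff_map] at a b e
  rw [coeff_map, h3 _ a, h3 _ b, one_mul] at e
  exact (O.valuation_le_one_iff z).1 ((pow_le_one_iff_of_nonneg zero_le hm.ne').1 e.ge)

theorem OS.exists_val (v : U.Pl) : ∃ O x, Over O x ∧ U.Rel O v := by
  obtain ⟨B, h1, h2⟩ := ext_exists_sub (E := Om F) v.toQ
  have h3 : ∀ z : U.K, v.ord z < 0 → (z : Om F) ∉ B := fun z hz => by
    have h4 := h2 z⁻¹ (QVal.Gt.of_lt (by rw [Place.toQ_ord, v.ord_inv]; exact_mod_cast neg_pos.2 hz))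
    rw [map_inv₀, val_lt_one_iff, inv_inv, inv_eq_zero, map_eq_zero] at h4
    exact h4.resolve_left fun e => by simp [e] at hz
  obtain ⟨t, -, ht⟩ := v.exists_ord_eq (-1)
  obtain ⟨x, hx⟩ := pplc_over B fun e => h3 t (by omega) (e ▸ ValuationSubring.mem_top _)
  refine ⟨B, x, hx, fun z => ⟨fun hz => (B.valuation_le_one_iff _).1 (h1 z ?_), fun hz => ?_⟩⟩
  · exact hz.imp id fun e => by rw [Place.toQ_ord]; exact_mod_cast e
  · exact .of_le (not_lt.1 fun e => h3 z e hz)

open Polynomial in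
theorem pplc_bdd (U : OS F) (hO : Over O x) : ∃ M : ℕ, 0 < M ∧ ∀ z : U.K, z ≠ 0 →
    ∃ j : ℤ, O.valuation (z : Om F) ^ M = O.valuation (pl x) ^ j := by
  let E := IntermediateField.adjoin (kk F) {U.pl x}
  have : FiniteDimensional E U.K := IsFF.finite_adjoin
    ((transcendental_algebraMap_iff (algebraMap U.K (Om F)).injective).1 (pl_trans x))
  let φ : E →+* Om F := (algebraMap U.K (Om F)).comp (algebraMap E U.K)
  have hφ : ∀ y : E, φ y ∈ IntermediateField.adjoin (kk F) {pl x} := fun y =>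
    (IntermediateField.adjoin_le_iff (T := (IntermediateField.adjoin (kk F) {pl x}).comap U.K.val)).2
      (Set.singleton_subset_iff.2 (IntermediateField.mem_adjoin_simple_self _ (pl x))) y.2
  refine ⟨_, Nat.factorial_pos (Module.finrank E U.K), fun z hz => ?_⟩
  obtain ⟨i, m, hm, a, b, e⟩ := two_terms O.valuation (P := (minpoly E z).map φ) (z := z)
    (Polynomial.map_ne_zero (minpoly.ne_zero_of_finite E z)) (fun e => hz (Subtype.ext e))
    (by rw [eval_map]; exact (hom_eval₂ _ _ _ z).symm.trans (by rw [← aeval_def, minpoly.aeval, map_zero]))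
  obtain ⟨c, hc⟩ := Nat.dvd_factorial hm ((Nat.le_add_left m i).trans
    ((le_natDegree_of_ne_zero b).trans (natDegree_map_le.trans (minpoly.natDegree_le z))))
  rw [coeff_map] at a b e
  rw [coeff_map] at e
  obtain ⟨j₁, e1⟩ := hO.kf (hφ _) a
  obtain ⟨j₂, e2⟩ := hO.kf (hφ _) b
  refine ⟨(j₁ - j₂) * c, ?_⟩
  rw [hc, pow_mul, zpow_mul, zpow_natCast, zpow_sub₀ hO.val_ne, ← e1, e, e2,
    mul_div_cancel_left₀ _ (zpow_ne_zero _ hO.val_ne)]

theorem OS.exists_rel (U : OS F) (hO : Over O x) : ∃ v, U.Rel O v := by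
  obtain ⟨M, hM, h⟩ := pplc_bdd U hO
  have h' : ∀ z : U.K, ∃ j : ℤ, (z = 0 → j = 0) ∧
      (z ≠ 0 → O.valuation (z : Om F) ^ M = O.valuation (MP_16ef92_ag.pl x) ^ j) := fun z => by
    by_cases hz : z = 0
    · exact ⟨0, fun _ => rfl, fun e => (e hz).elim⟩
    · exact (h z hz).imp fun j hj => ⟨fun e => (hz e).elim, fun _ => hj⟩
  choose f f0 hf using h'
  have ha := zero_lt_iff.2 hO.val_ne
  have inj := zpow_right_injective₀ ha (ne_of_lt hO)
  have mono : ∀ {y z : U.K}, y ≠ 0 → z ≠ 0 → O.valuation (y : Om F) ≤ O.valuation (z : Om F) →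
      (f z : ℚ) ≤ f y := fun {y z} hy hz e => by
    have := pow_le_pow_left₀ zero_le e M
    rw [hf y hy, hf z hz, zpow_le_zpow_iff_right_of_lt_one₀ ha hO] at this
    exact_mod_cast this
  let Q : QVal U.K := ⟨fun z => f z, by simp [f0 0 rfl], fun {y z} hy hz => by
    have : f (y * z) = f y + f z := inj (by
      beta_reduce
      rw [zpow_add₀ hO.val_ne, ← hf y hy, ← hf z hz, ← hf _ (mul_ne_zero hy hz), ← mul_pow,
        ← map_mul]
      rfl)
    exact_mod_cast this, fun {y z} hy hz hs => by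
    rcases le_max_iff.1 (O.valuation.map_add (y : Om F) z) with e | e
    · exact (min_le_left _ _).trans (mono hs hy e)
    · exact (min_le_right _ _).trans (mono hs hz e)⟩
  obtain ⟨w, d, hd, hw⟩ := under_norm (k := kk F) Q (fun c => by
      by_cases hc : c = 0
      · rw [hc, map_zero, Q.ord_zero]
      have : f (algebraMap _ _ c) = 0 := inj (by
        beta_reduce
        rw [← hf _ ((_root_.map_ne_zero _).2 hc), zpow_zero]
        exact (congrArg (· ^ M) (val_const O hc)).trans (one_pow M))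
      exact Int.cast_eq_zero.2 this) one_pos (fun z => ⟨f z, by simp [Q]⟩) ⟨U.pl x, by
      have : f (U.pl x) = M := inj (by
        beta_reduce
        rw [← hf _ fun e => pl_ne x (congrArg Subtype.val e), zpow_natCast]
        rfl)
      exact Int.cast_ne_zero.2 (by omega)⟩
  refine ⟨w, fun z => ?_⟩
  by_cases hz : z = 0
  · simp [hz]
  have h1 : f z = d * w.ord z := by
    have := hw z
    rw [Nat.cast_one, one_mul] at this
    exact_mod_cast show (f z : ℚ) = d * w.ord z from this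
  rw [Place.ge_iff hz, ← O.valuation_le_one_iff, ← pow_le_one_iff_of_nonneg zero_le hM.ne', hf z hz,
    zpow_le_one_iff' hO.val_ne hO, h1, mul_nonneg_iff_of_pos_left (by exact_mod_cast hd)]

theorem OS.Rel.unif (h : U.Rel O v) (hO : Over O x) {π : U.K} (hπ : v.ord π = 1) :
    Unif U.H O π :=
  ⟨U.le, U.cld, ⟨x, hO⟩, fun e => pplc_ne hπ (Subtype.ext e), fun g hg => U.fix π hg,
    (h.lt_iff π).2 (.of_le hπ.ge),
    fun z h0 hz => ⟨_, h.val (z := ⟨z, hz⟩) hπ fun e => h0 (congrArg Subtype.val e)⟩⟩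

/-- The place of the projective line below `v`. -/
def OS.bel (v : U.Pl) : Option (kk F) := (U.exists_val v).choose_spec.choose

theorem OS.exists_bel (v : U.Pl) : ∃ O, Over O (OS.bel v) ∧ U.Rel O v :=
  ⟨_, (U.exists_val v).choose_spec.choose_spec⟩

theorem OS.Rel.over_iff (h : U.Rel O v) : Over O x ↔ OS.bel v = x := by
  obtain ⟨O', hO', h'⟩ := OS.exists_bel v
  have e : Over O x ↔ Over O' x := (h.lt_iff (U.pl x)).trans (h'.lt_iff (U.pl x)).symm
  exact e.trans ⟨over_unique hO', fun e => e ▸ hO'⟩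

theorem OS.finite_bel (U : OS F) {s : Set (Option (kk F))} (hs : s.Finite) :
    {v : U.Pl | OS.bel v ∈ s}.Finite := by
  refine (hs.biUnion fun x _ => ord_fin (k := kk F) (U.pl x)).subset fun v hv => ?_
  obtain ⟨O, hO, h⟩ := OS.exists_bel v
  have := ((h.lt_iff (U.pl _)).1 hO).le fun e => pl_ne _ (congrArg Subtype.val e)
  exact Set.mem_biUnion hv (Function.mem_support.2 (by omega))

theorem OS.bel_surj (U : OS F) (x : Option (kk F)) : ∃ v : U.Pl, OS.bel v = x := by
  obtain ⟨O, hO⟩ := exists_over x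
  obtain ⟨v, hv⟩ := U.exists_rel hO
  exact ⟨v, hv.over_iff.1 hO⟩

end

end Pool.Agent.Lib.MP_16ef92_ag.AL
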