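import Mathlib
import Pool.Agent.Lib.MP_16ef92_ag.AL.WDef
import Pool.Agent.Lib.MP_6adaea_nt.V.Res

set_option autoImplicit false
set_option linter.unusedSectionVars false
set_option linter.unusedVariables false

namespace Pool.Agent.Lib.MP_16ef92_ag.AL

open Pool.Agent.Lib.MP_6adaea_nt 
open scoped Classical

noncomputable section

variable (k Ω : Type) [Field k] [Field Ω] [Algebra k Ω]

/-- a valuation ring of `Ω` that contains `k` and has residue field `k` -/
structure KV where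
  O : ValuationSubring Ω
  const : ∀ c : k, algebraMap k Ω c ∈ O
  res : ∀ z ∈ O, ∃ c : k, O.valuation (z - algebraMap k Ω c) < 1

section
variable {k Ω} (O : ValuationSubring Ω)

theorem wkv_const (hO : ∀ c : k, algebraMap k Ω c ∈ O) {c : k} (h : c ≠ 0) :
    O.valuation (algebraMap k Ω c) = 1 := by
  refine le_antisymm ((O.valuation_le_one_iff _).2 (hO c)) (not_lt.1 fun e => ?_)
  rcases O.mem_nonunits_iff_or.1 (O.mem_nonunits_iff.2 e) with e | e
  · exact h ((map_eq_zero _).1 e)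
  · exact e (map_inv₀ (algebraMap k Ω) c ▸ hO _)

theorem wkv_mul {a b x y : Ω} (ha : a ∈ O) (hy : y ∈ O) (h1 : O.valuation (x - a) < 1)
    (h2 : O.valuation (y - b) < 1) : O.valuation (x * y - a * b) < 1 := by
  rw [show x * y - a * b = (x - a) * y + a * (y - b) by ring]
  refine O.valuation.map_add_lt ?_ ?_ <;> rw [map_mul]
  · exact (mul_le_of_le_one_right' ((O.valuation_le_one_iff _).2 hy)).trans_lt h1
  · exact (mul_le_of_le_one_left' ((O.valuation_le_one_iff _).2 ha)).trans_lt h2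

open Polynomial in
theorem wkv_smaller [IsAlgClosed k] (hO : ∀ c : k, algebraMap k Ω c ∈ O) {z : Ω} (hz : z ∈ O)
    (hn : ∀ c : k, 1 ≤ O.valuation (z - algebraMap k Ω c)) : ∃ B : ValuationSubring Ω,
      (∀ c : k, algebraMap k Ω c ∈ B) ∧ B ≤ O ∧ z ∈ B.nonunits := by
  have hp : ∀ p : k[X], aeval z p ∈ O := fun p => by
    induction p using Polynomial.induction_on' with
    | add p q a b => rw [map_add]; exact add_mem a b
    | monomial n c => rw [aeval_monomial]; exact mul_mem (hO c) (pow_mem hz n)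
  have hm : ∀ {x : Ω} {p : k[X]}, O.valuation (x - aeval z p) < 1 → x ∈ O := fun {x p} h => by
    have := O.add_mem _ _ (O.mem_of_valuation_le_one _ h.le) (hp p)
    rwa [sub_add_cancel] at this
  have hu : ∀ p : k[X], p ≠ 0 → 1 ≤ O.valuation (aeval z p) := fun p h0 => by
    rw [(IsAlgClosed.splits p).eq_prod_roots, map_mul, map_mul, aeval_C,
      wkv_const O hO (leadingCoeff_ne_zero.2 h0), one_mul, map_multiset_prod, map_multiset_prod]
    refine Multiset.one_le_prod_of_one_le fun x hx => ?_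
    simp only [Multiset.map_map, Multiset.mem_map] at hx
    obtain ⟨c, -, rfl⟩ := hx
    simpa using hn c
  let A : Subring Ω :=
    { carrier := {x | ∃ p : k[X], O.valuation (x - aeval z p) < 1}
      mul_mem' := fun ⟨p, a⟩ ⟨q, b⟩ => ⟨p * q, by rw [map_mul]; exact wkv_mul O (hp p) (hm b) a b⟩
      one_mem' := ⟨1, by simp⟩
      add_mem' := fun ⟨p, a⟩ ⟨q, b⟩ =>
        ⟨p + q, by rw [map_add, add_sub_add_comm]; exact O.valuation.map_add_lt a b⟩
      zero_mem' := ⟨0, by simp⟩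
      neg_mem' := fun ⟨p, a⟩ => ⟨-p, by rwa [map_neg, neg_sub_neg, Valuation.map_sub_swap]⟩ }
  let I : Ideal A :=
    { carrier := {x | ∃ p : k[X], O.valuation (x.1 - aeval z (X * p)) < 1}
      add_mem' := fun ⟨p, a⟩ ⟨q, b⟩ => ⟨p + q, by
        rw [mul_add, map_add, Subring.coe_add, add_sub_add_comm]
        exact O.valuation.map_add_lt a b⟩
      zero_mem' := ⟨0, by simp⟩
      smul_mem' := fun ⟨_, p, a⟩ _ ⟨q, b⟩ => ⟨p * q, by
        rw [mul_left_comm, map_mul]
        exact wkv_mul O (hp p) (hm b) a b⟩ }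
  have hI : I ≠ ⊤ := fun e => by
    obtain ⟨p, a⟩ : (1 : A) ∈ I := e ▸ Submodule.mem_top
    have h0 : (1 - X * p : k[X]) ≠ 0 := fun e => by simpa using congrArg (eval 0) e
    have := hu _ h0
    rw [map_sub, map_one] at this
    exact absurd a (not_lt.2 this)
  obtain ⟨B, h1, h2⟩ := Ideal.image_subset_nonunits_valuationSubring I hI
  refine ⟨B, fun c => h1 ⟨C c, by simp⟩, ValuationSubring.nonunits_le_nonunits.1 fun x hx => ?_,
    h2 ⟨⟨z, X, by simp⟩, ⟨1, by simp⟩, rfl⟩⟩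
  have hx' := O.mem_nonunits_iff.1 hx
  exact h2 ⟨⟨x, 0, by simpa using hx'⟩, ⟨0, by simpa using hx'⟩, rfl⟩

end

/-- A minimal valuation subring that contains `k`. -/
theorem exists_kv [IsAlgClosed k] : Nonempty (KV k Ω) := by
  obtain ⟨O, hO, hmin⟩ : ∃ O : ValuationSubring Ω, (∀ c : k, algebraMap k Ω c ∈ O) ∧
      ∀ B : ValuationSubring Ω, (∀ c : k, algebraMap k Ω c ∈ B) → B ≤ O → O ≤ B := by
    obtain ⟨O, -, hO⟩ := zorn_le_nonempty₀ (α := (ValuationSubring Ω)ᵒᵈ)
      {B | ∀ c : k, algebraMap k Ω c ∈ OrderDual.ofDual B} (fun S hS hc y hy => by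
        refine ⟨OrderDual.toDual (ValuationSubring.ofSubring
          (⨅ B : S, (OrderDual.ofDual B.1).toSubring) fun x => ?_), fun c => ?_, fun B hB x hx => ?_⟩
        · rw [Subring.mem_iInf, Subring.mem_iInf]
          by_contra hn
          push Not at hn
          obtain ⟨⟨B, hB⟩, B', hB'⟩ := hn
          rcases hc.total B.2 B'.2 with h | h
          · exact hB (h (((OrderDual.ofDual B'.1).mem_or_inv_mem x).resolve_right hB'))
          · exact hB' (h (((OrderDual.ofDual B.1).mem_or_inv_mem x).resolve_left hB))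
        · exact Subring.mem_iInf.2 fun B => hS B.2 c
        · exact Subring.mem_iInf.1 hx ⟨B, hB⟩)
      (OrderDual.toDual ⊤) fun c => ValuationSubring.mem_top _
    exact ⟨OrderDual.ofDual O, hO.1, fun B hB h => hO.2 (y := OrderDual.toDual B) hB h⟩
  refine ⟨O, hO, fun z hz => ?_⟩
  by_contra hn
  push Not at hn
  obtain ⟨B, h1, h2, h3⟩ := wkv_smaller O hO hz hn
  have h4 := ValuationSubring.nonunits_le_nonunits.2 (hmin B h1 h2) h3
  have h5 := hn 0
  rw [map_zero, sub_zero] at h5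
  exact absurd (O.mem_nonunits_iff.1 h4) (not_lt.2 h5)

theorem posChar_of [PosChar k] : PosChar Ω := by
  obtain ⟨p, hp, _⟩ := PosChar.ex (k := k)
  exact ⟨p, hp, charP_of_injective_algebraMap (algebraMap k Ω).injective p⟩

variable {k Ω}

namespace KV

variable (U : KV k Ω) {z w : Ω}

/-- the residue (junk value `0`) -/
def rs (z : Ω) : k := if h : z ∈ U.O then (U.res z h).choose else 0

/-- the valuation ring as a subalgebra -/
def sub : Subalgebra k Ω where
  carrier := U.O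
  mul_mem' := mul_mem
  add_mem' := add_mem
  algebraMap_mem' := U.const

theorem mem_sub : z ∈ U.sub ↔ z ∈ U.O := Iff.rfl

theorem rs_spec (h : z ∈ U.O) : U.O.valuation (z - algebraMap k Ω (U.rs z)) < 1 := by
  rw [rs, dif_pos h]
  exact (U.res z h).choose_spec

theorem rs_eq {c : k} (h : U.O.valuation (z - algebraMap k Ω c) < 1) : U.rs z = c := by
  have hz : z ∈ U.O := by
    have := U.O.add_mem _ _ (U.O.mem_of_valuation_le_one _ h.le) (U.const c)
    rwa [sub_add_cancel] at this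
  have h1 := U.O.valuation.map_sub_lt h (U.rs_spec hz)
  rw [sub_sub_sub_cancel_left, ← map_sub] at h1
  by_contra hne
  exact absurd h1 (not_lt.2 (wkv_const U.O U.const (sub_ne_zero.2 hne)).ge)

theorem rs_const (c : k) : U.rs (algebraMap k Ω c) = c := by
  exact U.rs_eq (by simp)

theorem rs_zero : U.rs 0 = 0 := by
  exact U.rs_eq (by simp)

theorem rs_one : U.rs 1 = 1 := by
  exact U.rs_eq (by simp)

theorem rs_add (hz : z ∈ U.O) (hw : w ∈ U.O) : U.rs (z + w) = U.rs z + U.rs w := by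
  refine U.rs_eq ?_
  rw [map_add, add_sub_add_comm]
  exact U.O.valuation.map_add_lt (U.rs_spec hz) (U.rs_spec hw)

theorem rs_sub (hz : z ∈ U.O) (hw : w ∈ U.O) : U.rs (z - w) = U.rs z - U.rs w := by
  refine U.rs_eq ?_
  rw [map_sub (algebraMap k Ω), sub_sub_sub_comm]
  exact U.O.valuation.map_sub_lt (U.rs_spec hz) (U.rs_spec hw)

theorem rs_mul (hz : z ∈ U.O) (hw : w ∈ U.O) : U.rs (z * w) = U.rs z * U.rs w := by
  refine U.rs_eq ?_
  rw [map_mul]
  exact wkv_mul U.O (U.const _) hw (U.rs_spec hz) (U.rs_spec hw)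

theorem rs_eq_zero_iff (hz : z ∈ U.O) : U.rs z = 0 ↔ U.O.valuation z < 1 := by
  exact ⟨fun h => by simpa [h] using U.rs_spec hz, fun h => U.rs_eq (by simpa using h)⟩

theorem inv_mem (h : U.rs z ≠ 0) : z ∈ U.O ∧ z ≠ 0 ∧ z⁻¹ ∈ U.O ∧ U.rs z⁻¹ = (U.rs z)⁻¹ := by
  have hz : z ∈ U.O := by
    by_contra hn
    exact h (dif_neg hn)
  have h0 : z ≠ 0 := fun e => h (e ▸ U.rs_zero)
  have hz' : z⁻¹ ∈ U.O := by
    by_contra hn
    exact h ((U.rs_eq_zero_iff hz).2
      (U.O.mem_nonunits_iff.1 (U.O.mem_nonunits_iff_or.2 (Or.inr hn))))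
  refine ⟨hz, h0, hz', eq_inv_of_mul_eq_one_right ?_⟩
  rw [← U.rs_mul hz hz', mul_inv_cancel₀ h0, U.rs_one]

theorem rs_ne_zero (h0 : z ≠ 0) (hz : z ∈ U.O) (hz' : z⁻¹ ∈ U.O) : U.rs z ≠ 0 := by
  intro h
  have := U.rs_mul hz hz'
  rw [mul_inv_cancel₀ h0, U.rs_one, h, zero_mul] at this
  exact one_ne_zero this

theorem inv_of_notMem (h : z ∉ U.O) : z ≠ 0 ∧ z⁻¹ ∈ U.O ∧ U.rs z⁻¹ = 0 := by
  have hz' : z⁻¹ ∈ U.O := (U.O.mem_or_inv_mem z).resolve_left h
  exact ⟨fun e => h (e ▸ U.O.zero_mem), hz', (U.rs_eq_zero_iff hz').2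
    (U.O.mem_nonunits_iff.1 (U.O.inv_mem_nonunits_iff.2 (Or.inr h)))⟩

/-- the residue map as a homomorphism -/
def rsH : U.sub →ₐ[k] k where
  toFun z := U.rs z
  map_one' := U.rs_one
  map_zero' := U.rs_zero
  map_mul' a b := U.rs_mul a.2 b.2
  map_add' a b := U.rs_add a.2 b.2
  commutes' := U.rs_const

/-- a term of largest valuation -/
theorem exists_max {ι : Type} (s : Finset ι) (c : ι → Ω) (h : ∃ i ∈ s, c i ≠ 0) :
    ∃ j ∈ s, c j ≠ 0 ∧ ∀ i ∈ s, c i / c j ∈ U.O := by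
  obtain ⟨i, hi, h0⟩ := h
  obtain ⟨j, hj, hm⟩ := s.exists_max_image (fun i => U.O.valuation (c i)) ⟨i, hi⟩
  have hp : 0 < U.O.valuation (c j) := ((Valuation.pos_iff _).2 h0).trans_le (hm i hi)
  refine ⟨j, hj, (Valuation.pos_iff _).1 hp, fun l hl => U.O.mem_of_valuation_le_one _ ?_⟩
  rw [map_div₀]
  exact (div_le_one₀ hp).2 (hm l hl)

end KV

/-- the valuation ring of a rational valuation with residue field `k` -/
theorem exists_kv_of_qval {V : QVal Ω} (h : V.HasRes k) : ∃ U : KV k Ω,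
    (∀ z, z ∈ U.O ↔ V.Ge z 0) ∧ ∀ z, V.Ge z 0 → V.Gt (z - algebraMap k Ω (U.rs z)) 0 := by
  let O : ValuationSubring Ω :=
    { carrier := {z | V.Ge z 0}
      mul_mem' := fun a b => QVal.Ge.mul₀ a b
      one_mem' := V.ge_one
      add_mem' := fun a b => QVal.Ge.add a b
      zero_mem' := V.ge_zero 0
      neg_mem' := fun a => QVal.Ge.neg a
      mem_or_inv_mem' := fun x => (le_total 0 (V.ord x)).imp QVal.Ge.of_le fun e =>
        QVal.Ge.of_le (by rw [QVal.ord_inv]; linarith) }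
  have hO : ∀ x, O.valuation x < 1 ↔ V.Gt x 0 := fun x => by
    rw [← O.mem_nonunits_iff, O.mem_nonunits_iff_or]
    by_cases h0 : x = 0
    · simp [h0]
    · have e : x⁻¹ ∈ O ↔ V.Ge x⁻¹ 0 := Iff.rfl
      rw [e, QVal.ge_iff (inv_ne_zero h0), QVal.gt_iff h0, QVal.ord_inv]
      simp [h0]
  refine ⟨⟨O, h.ge_const, fun z hz => (h.res z hz).imp fun c hc => (hO _).2 hc⟩,
    fun _ => Iff.rfl, fun z hz => (hO _).1 ?_⟩
  exact KV.rs_spec ⟨O, h.ge_const, fun z hz => (h.res z hz).imp fun c hc => (hO _).2 hc⟩ hz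

end

end Pool.Agent.Lib.MP_16ef92_ag.AL
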