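import Mathlib
import Pool.Agent.Lib.MP_16ef92_ag.AL.WDef

set_option autoImplicit false
set_option linter.unusedSectionVars false
set_option linter.unusedVariables false

namespace Pool.Agent.Lib.MP_16ef92_ag.AL

open Pool.Agent.Lib.MP_6adaea_nt Cardinal
open scoped Classical

noncomputable section

variable {k Ω : Type} [Field k] [Field Ω] [Algebra k Ω] [IsAlgClosed Ω] {κ : Cardinal.{0}}

theorem wext_card (h0 : ℵ₀ ≤ κ) {E A ι : Type} [Field E] [Field A] [Algebra E A] [IsAlgClosed A]
    (hE : Cardinal.mk E ≤ κ) (hA : κ < Cardinal.mk A) {v : ι → A} (hv : IsTranscendenceBasis E v) :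
    Cardinal.mk ι = Cardinal.mk A := by
  refine le_antisymm (Cardinal.mk_le_of_injective hv.1.injective) ?_
  have h := IsAlgClosed.cardinal_le_max_transcendence_basis' v hv
  rcases le_max_iff.1 h with h | h
  · rcases le_max_iff.1 h with h | h
    · exact absurd (h.trans hE) hA.not_ge
    · exact h
  · exact absurd (h.trans h0) hA.not_ge

theorem wext_iso (h0 : ℵ₀ ≤ κ) {E A B : Type} [Field E] [Field A] [Field B] [Algebra E A]
    [Algebra E B] [IsAlgClosed A] [IsAlgClosed B] (hE : Cardinal.mk E ≤ κ) (hA : κ < Cardinal.mk A)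
    (hB : Cardinal.mk A = Cardinal.mk B) :
    ∃ σ : A ≃+* B, ∀ x, σ (algebraMap E A x) = algebraMap E B x := by
  obtain ⟨s, hs⟩ := exists_isTranscendenceBasis E A
  obtain ⟨t, ht⟩ := exists_isTranscendenceBasis E B
  obtain ⟨e⟩ := Cardinal.eq.1
    ((wext_card h0 hE hA hs).trans (hB.trans (wext_card h0 hE (hB ▸ hA) ht).symm))
  have := IsAlgClosed.isAlgClosure_of_transcendence_basis _ hs
  have := IsAlgClosed.isAlgClosure_of_transcendence_basis _ ht
  let φ := (hs.1.aevalEquiv.symm.trans (MvPolynomial.renameEquiv E e)).trans ht.1.aevalEquiv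
  refine ⟨IsAlgClosure.equivOfEquiv A B φ.toRingEquiv, fun x => ?_⟩
  rw [IsScalarTower.algebraMap_apply E (Algebra.adjoin E (Set.range ((↑) : s → A))) A,
    IsAlgClosure.equivOfEquiv_algebraMap,
    IsScalarTower.algebraMap_apply E (Algebra.adjoin E (Set.range ((↑) : t → B))) B]
  exact congrArg _ (φ.commutes x)

/-- two embeddings of a small field differ by an automorphism -/
theorem ext_aut (h0 : ℵ₀ ≤ κ) (hΩ : κ < Cardinal.mk Ω) {E : Type} [Field E]
    (hE : Cardinal.mk E ≤ κ) (i j : E →+* Ω) : ∃ σ : Ω ≃+* Ω, ∀ x, σ (i x) = j x := by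
  exact @wext_iso κ h0 E Ω Ω _ _ _ i.toAlgebra j.toAlgebra _ _ hE hΩ rfl

theorem wext_trans (h0 : ℵ₀ ≤ κ) (hΩ : κ < Cardinal.mk Ω) {L : Type} [Field L] [Algebra L Ω]
    (hL : Cardinal.mk L ≤ κ) : κ < Cardinal.mk {z : Ω | Transcendental L z} := by
  by_contra h
  have h1 : Cardinal.mk (algebraicClosure L Ω) ≤ κ :=
    (Algebra.IsAlgebraic.cardinalMk_le_max L _).trans (max_le hL h0)
  have h2 : (Set.univ : Set Ω) = {z : Ω | Transcendental L z} ∪ (algebraicClosure L Ω : Set Ω) := by
    ext z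
    simp only [Set.mem_univ, Set.mem_union, Set.mem_ofPred_eq, SetLike.mem_coe,
      mem_algebraicClosure_iff, Transcendental, true_iff]
    exact (em _).symm
  have h3 := Cardinal.mk_union_le {z : Ω | Transcendental L z} (algebraicClosure L Ω : Set Ω)
  rw [← h2, Cardinal.mk_univ] at h3
  exact hΩ.not_ge (h3.trans (Cardinal.add_le_of_le h0 (not_lt.1 h) h1))

/-- `Algebra.IsAlgebraic.cardinalMk_le_max` for the algebraic closure of `L` in `Ω` -/
theorem card_trans (h0 : ℵ₀ ≤ κ) (hΩ : κ < Cardinal.mk Ω) (L : IntermediateField k Ω)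
    (hL : Cardinal.mk L ≤ κ) : κ < Cardinal.mk {z : Ω | Transcendental L z} := by
  exact wext_trans h0 hΩ hL

/-- two embeddings of `RatFunc L` -/
theorem move_trans (h0 : ℵ₀ ≤ κ) (hΩ : κ < Cardinal.mk Ω) (L : IntermediateField k Ω)
    (hL : Cardinal.mk L ≤ κ) {z z' : Ω} (hz : Transcendental L z) (hz' : Transcendental L z') :
    ∃ σ : Ω ≃ₐ[k] Ω, (∀ y ∈ L, σ y = y) ∧ σ z = z' := by
  have hE : Cardinal.mk (FractionRing (Polynomial L)) ≤ κ := by
    rw [Cardinal.mk_fractionRing]
    exact Polynomial.cardinalMk_le_max.trans (max_le hL h0)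
  obtain ⟨σ, hσ⟩ := ext_aut h0 hΩ hE
    (IsFractionRing.lift (g := (Polynomial.aeval z : Polynomial L →ₐ[L] Ω).toRingHom)
      (transcendental_iff_injective.1 hz))
    (IsFractionRing.lift (g := (Polynomial.aeval z' : Polynomial L →ₐ[L] Ω).toRingHom)
      (transcendental_iff_injective.1 hz'))
  have key : ∀ p : Polynomial L, σ (Polynomial.aeval z p) = Polynomial.aeval z' p := fun p => by
    have := hσ (algebraMap _ _ p)
    rwa [IsFractionRing.lift_algebraMap, IsFractionRing.lift_algebraMap] at this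
  have fix : ∀ y ∈ L, σ y = y := fun y hy => by simpa using key (Polynomial.C ⟨y, hy⟩)
  exact ⟨{ σ with commutes' := fun c => fix _ (L.algebraMap_mem c) }, fix, by
    simpa using key Polynomial.X⟩

theorem card_le_of_alg {g : ℕ} {z : Fin g → Ω} (hz : AlgebraicIndependent k z) (Z : Finset Ω)
    (h : ∀ i, IsAlgebraic (IntermediateField.adjoin k (Z : Set Ω)) (z i)) : g ≤ Z.card := by
  have h1 := Matroid.Indep.cardinalMk_le_cRk_of_subset (M := AlgebraicIndependent.matroid k Ω)
    (X := (AlgebraicIndependent.matroid k Ω).closure Z) hz.to_subtype_range (by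
      rintro _ ⟨i, rfl⟩
      rw [AlgebraicIndependent.matroid_closure_eq]
      exact IntermediateField.isAlgebraic_adjoin_iff.1 (h i))
  rw [Matroid.cRk_closure, Cardinal.mk_range_eq _ hz.injective] at h1
  simpa using h1.trans (Matroid.cRk_le_cardinalMk _ _)

theorem exists_big (k : Type) [Field k] (κ : Cardinal.{0}) : ∃ (Ω : Type) (_ : Field Ω)
    (_ : Algebra k Ω), IsAlgClosed Ω ∧ κ < Cardinal.mk Ω := by
  refine ⟨AlgebraicClosure (FractionRing (MvPolynomial (Order.succ κ).out k)), inferInstance,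
    inferInstance, inferInstance, ?_⟩
  refine (Order.lt_succ κ).trans_le ?_
  refine (Cardinal.mk_out (Order.succ κ)).symm.trans_le ((Cardinal.mk_le_of_injective
    (MvPolynomial.X_injective (R := k))).trans ((Cardinal.mk_le_of_injective
    (IsFractionRing.injective _ (FractionRing (MvPolynomial (Order.succ κ).out k)))).trans
    (Cardinal.mk_le_of_injective (algebraMap _ _).injective)))

variable {K : Type} [Field K] [Algebra k K] [IsFF k K]

/-- `k⟮t⟯ ≃ RatFunc k ≃ k⟮z⟯`, `IsAlgClosed.lift` -/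
theorem exists_emb {t : K} (ht : Transcendental k t) {z : Ω} (hz : Transcendental k z) :
    ∃ ξ : K →ₐ[k] Ω, ξ t = z := by
  have := IsFF.finite_adjoin ht
  obtain ⟨ξ, hξ⟩ := IsAlgClosed.surjective_domRestrict_of_isAlgebraic (K := k)
    (L := IntermediateField.adjoin k {t}) (M := Ω) (E := K) ((IntermediateField.val _).comp
      ((RatFunc.algEquivOfTranscendental t ht).symm.trans
        (RatFunc.algEquivOfTranscendental z hz)).toAlgHom)
  refine ⟨ξ, (DFunLike.congr_fun hξ (IntermediateField.AdjoinSimple.gen k t)).trans ?_⟩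
  simp

theorem wext_alg {E M : Type} [Field E] [Field M] [Algebra E M] (L : IntermediateField k Ω)
    (φ : M →+* Ω) (h : ∀ e : E, IsAlgebraic L (φ (algebraMap E M e))) {a : M}
    (ha : IsAlgebraic E a) : IsAlgebraic L (φ a) := by
  let f : E →+* algebraicClosure L Ω := (φ.comp (algebraMap E M)).codRestrict _
    fun e => mem_algebraicClosure_iff.2 (h e)
  exact (ha.ringHom_of_comp_eq f φ f.injective rfl).restrictScalars L

theorem emb_alg {t : K} (ht : Transcendental k t) (ξ : K →ₐ[k] Ω) (L : IntermediateField k Ω)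
    (h : IsAlgebraic L (ξ t)) (a : K) : IsAlgebraic L (ξ a) := by
  have := IsFF.finite_adjoin ht
  have h1 : IntermediateField.adjoin k {t} ≤
      ((algebraicClosure L Ω).restrictScalars k).comap ξ :=
    IntermediateField.adjoin_simple_le_iff.2 (mem_algebraicClosure_iff.2 h)
  exact wext_alg L ξ.toRingHom (fun e : IntermediateField.adjoin k {t} =>
    mem_algebraicClosure_iff.1 (h1 e.2)) (Algebra.IsAlgebraic.isAlgebraic a)

/-- the field generated by finitely many embeddings -/
theorem exists_fld (h0 : ℵ₀ ≤ κ) (hK : Cardinal.mk K ≤ κ) {t : K} (ht : Transcendental k t)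
    (S : Finset (K →ₐ[k] Ω)) : ∃ L : IntermediateField k Ω, Cardinal.mk L ≤ κ ∧
      (∀ ξ ∈ S, ∀ a, ξ a ∈ L) ∧ ∀ z : Ω, IsAlgebraic L z →
        IsAlgebraic (IntermediateField.adjoin k ((S.image fun ξ => ξ t : Finset Ω) : Set Ω)) z := by
  refine ⟨IntermediateField.adjoin k (Set.range fun p : S × K => p.1.1 p.2),
    (IntermediateField.cardinalMk_adjoin_le _ _).trans (sup_le (sup_le
      ((mk_le_of_injective (algebraMap k K).injective).trans hK) (mk_range_le.trans ?_)) h0),
    fun ξ h a => IntermediateField.subset_adjoin _ _ ⟨(⟨ξ, h⟩, a), rfl⟩, fun z hz => ?_⟩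
  · rw [mk_prod, lift_id, lift_id]
    exact (mul_le_max _ _).trans (max_le (max_le ((mk_le_aleph0).trans h0) hK) h0)
  · refine wext_alg _ (RingHom.id Ω) (fun e => mem_algebraicClosure_iff.1
      (IntermediateField.adjoin_le_iff (T := (algebraicClosure _ Ω).restrictScalars k).2 ?_ e.2)) hz
    rintro _ ⟨⟨ξ, a⟩, rfl⟩
    refine mem_algebraicClosure_iff.2 (emb_alg ht ξ.1 _ (isAlgebraic_algebraMap
      (⟨_, IntermediateField.subset_adjoin _ _ ?_⟩ : IntermediateField.adjoin k _)) a)
    exact Finset.mem_coe.2 (Finset.mem_image_of_mem _ ξ.2)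

end

end Pool.Agent.Lib.MP_16ef92_ag.AL
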