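import Mathlib
import Pool.Agent.Lib.MP_16ef92_ag.AL.WG1

set_option autoImplicit false
set_option linter.unusedSectionVars false
set_option linter.unusedVariables false

namespace Pool.Agent.Lib.MP_16ef92_ag.AL

open Pool.Agent.Lib.MP_6adaea_nt 
open scoped Classical

noncomputable section

variable {k K Ω F : Type} [Field k] [Field K] [Field Ω] [Field F] [Algebra k K]
  [Algebra k Ω] [Algebra k F] [Algebra K F] [Algebra Ω F] [IsScalarTower k K F]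
  [IsScalarTower k Ω F] [BC k K Ω F] [IsAlgClosed k] [IsFF k K] [PosChar k] [IsAlgClosed Ω]
  [IsFF Ω F] [PosChar Ω]

theorem wg2_top {U : KV k Ω} {B : Subalgebra k K} {y : F} (h : y ∈ TT F U.sub B) :
    y ∈ TT F U.sub (⊤ : Subalgebra k K) := TT_mono le_rfl le_top h

theorem wg2_one (U : KV k Ω) (x : Place k K) : val x (rho K U (1 : F)) ≠ 0 := by
  rw [← map_one (algebraMap K F), rho_K, val_one]
  exact one_ne_zero

theorem wg2_mul {U : KV k Ω} {x : Place k K} {y z : F} (hy : y ∈ TT F U.sub (Ox x))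
    (hz : z ∈ TT F U.sub (Ox x)) (h1 : val x (rho K U y) ≠ 0) (h2 : val x (rho K U z) ≠ 0) :
    val x (rho K U (y * z)) ≠ 0 := by
  rw [rho_mul (wg2_top hy) (wg2_top hz), val_mul (rho_mem hy) (rho_mem hz)]
  exact mul_ne_zero h1 h2

/-- the local ring of the model at `x` -/
def Bx (U : KV k Ω) (x : Place k K) : Subring F where
  carrier := {f | ∃ y ∈ TT F U.sub (Ox x), ∃ z ∈ TT F U.sub (Ox x),
    val x (rho K U z) ≠ 0 ∧ f * z = y}
  zero_mem' := ⟨0, zero_mem _, 1, one_mem _, wg2_one U x, zero_mul _⟩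
  one_mem' := ⟨1, one_mem _, 1, one_mem _, wg2_one U x, one_mul _⟩
  add_mem' := by
    rintro a b ⟨y, hy, z, hz, h, rfl⟩ ⟨y', hy', z', hz', h', rfl⟩
    exact ⟨_, add_mem (mul_mem hy hz') (mul_mem hy' hz), _, mul_mem hz hz', wg2_mul hz hz' h h',
      by ring⟩
  neg_mem' := by
    rintro a ⟨y, hy, z, hz, h, rfl⟩
    exact ⟨_, neg_mem hy, z, hz, h, neg_mul _ _⟩
  mul_mem' := by
    rintro a b ⟨y, hy, z, hz, h, rfl⟩ ⟨y', hy', z', hz', h', rfl⟩
    exact ⟨_, mul_mem hy hy', _, mul_mem hz hz', wg2_mul hz hz' h h', by ring⟩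

variable {U : KV k Ω} {x : Place k K} {f g : F} {Q : Place Ω F}

theorem Bx_le (h : f ∈ Bx U x) : f ∈ Gs K U := by
  obtain ⟨y, hy, z, hz, h0, e⟩ := h
  exact (red_eq (wg2_top hy) (wg2_top hz) (ord_of_val_ne h0).1 e).1

theorem red_ge (h : f ∈ Bx U x) : x.Ge (red K U f) 0 := by
  obtain ⟨y, hy, z, hz, h0, e⟩ := h
  rw [(red_eq (wg2_top hy) (wg2_top hz) (ord_of_val_ne h0).1 e).2, div_eq_mul_inv]
  exact ge_mul_zero (rho_mem hy) (Or.inr (by simp [(ord_of_val_ne h0).2]))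

theorem TT_le_Bx (h : f ∈ TT F U.sub (Ox x)) : f ∈ Bx U x :=
  ⟨f, h, 1, one_mem _, wg2_one U x, mul_one _⟩

theorem K_mem_Bx {a : K} (h : x.Ge a 0) : algebraMap K F a ∈ Bx U x :=
  TT_le_Bx (right_mem_TT _ h)

theorem Ω_mem_Bx {c : Ω} (h : c ∈ U.O) : algebraMap Ω F c ∈ Bx U x :=
  TT_le_Bx (left_mem_TT _ h)

theorem inv_mem_Bx (h : f ∈ Bx U x) (h0 : val x (red K U f) ≠ 0) : f⁻¹ ∈ Bx U x := by
  have h1 := ne_zero_of_red (ord_of_val_ne h0).1
  obtain ⟨y, hy, z, hz, h2, e⟩ := h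
  rw [(red_eq (wg2_top hy) (wg2_top hz) (ord_of_val_ne h2).1 e).2,
    val_div (rho_mem hy) (ord_of_val_ne h2).2] at h0
  exact ⟨z, hz, y, hy, (div_ne_zero_iff.1 h0).1, by rw [← e, inv_mul_cancel_left₀ h1]⟩

theorem wg2_ne {z : F} (hz : z ∈ TT F U.sub (Ox x)) (h : val x (rho K U z) ≠ 0) : z ≠ 0 :=
  ne_zero_of_red ((red_rho (wg2_top hz)).2 ▸ (ord_of_val_ne h).1)

/-- saturation -/
theorem sat_Bx (h : f ∈ Bx U x) {c : Ω} (hg : f / algebraMap Ω F c ∈ Gs K U) :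
    f / algebraMap Ω F c ∈ Bx U x := by
  by_cases h0 : f / algebraMap Ω F c = 0
  · exact h0 ▸ zero_mem _
  obtain ⟨h1, h2⟩ := div_ne_zero_iff.1 h0
  obtain ⟨y, hy, z, hz, h3, rfl⟩ := h
  obtain ⟨d, hd, h4, h5⟩ := exists_prim (U := U) (TT_mono le_top le_rfl hy)
    (mul_ne_zero h1 (wg2_ne hz h3))
  have hd' : algebraMap Ω F d ≠ 0 := by simpa using hd
  by_cases h6 : d / c ∈ U.O
  · exact ⟨_, mul_mem (left_mem_TT _ h6) h4, z, hz, h3, by rw [map_div₀]; field_simp⟩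
  · obtain ⟨-, h7, h8⟩ := U.inv_of_notMem h6
    refine absurd ?_ h5
    rw [← (red_rho (wg2_top h4)).2, show f * z / algebraMap Ω F d = f / algebraMap Ω F c *
      (algebraMap Ω F (d / c)⁻¹ * z) by rw [map_inv₀, map_div₀]; field_simp,
      red_mul hg (mul_mem (Ω_mem_Gs h7) (red_rho (wg2_top hz)).1),
      red_mul (Ω_mem_Gs h7) (red_rho (wg2_top hz)).1, red_Ω h7, h8, map_zero, zero_mul, mul_zero]

theorem wg2_den (x : Place k K) {y : F}
    (h : y ∈ TT F (⊤ : Subalgebra k Ω) (⊤ : Subalgebra k K)) : ∃ s : K, s ≠ 0 ∧ x.Ge s 0 ∧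
      y * algebraMap K F s ∈ TT F (⊤ : Subalgebra k Ω) (Ox x) := by
  obtain ⟨n, c, a, -, -, rfl⟩ := mem_TT.1 h
  obtain ⟨m, hm⟩ := (Set.finite_range fun i => (-x.ord (a i)).toNat).bddAbove
  obtain ⟨s, h0, hs⟩ := x.exists_ord_eq m
  refine ⟨s, h0, Or.inr (by omega), ?_⟩
  rw [Finset.sum_mul]
  refine sum_mem fun i _ => ?_
  rw [mul_assoc, ← map_mul]
  refine mul_mem (left_mem_TT _ trivial) (right_mem_TT _ ((Place.ge_mul_iff h0).2 (Or.inr ?_)))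
  have : (-x.ord (a i)).toNat ≤ m := hm ⟨i, rfl⟩
  omega

/-- numerator and denominator in the local ring -/
theorem exists_frac (U : KV k Ω) (x : Place k K) (h : f ≠ 0) : ∃ (c : Ω) (g₁ g₂ : F), c ≠ 0 ∧
    g₁ ∈ Bx U x ∧ g₂ ∈ Bx U x ∧ red K U g₁ ≠ 0 ∧ red K U g₂ ≠ 0 ∧
      f = algebraMap Ω F c * g₁ / g₂ := by
  obtain ⟨y, hy, z, hz, h0, rfl⟩ := BC.frac (k := k) (K := K) (Ω := Ω) f
  obtain ⟨s, s0, s1, hs⟩ := wg2_den x hy
  obtain ⟨t, t0, t1, ht⟩ := wg2_den x hz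
  have s2 : algebraMap K F s ≠ 0 := by simpa using s0
  have t2 : algebraMap K F t ≠ 0 := by simpa using t0
  obtain ⟨c, c0, c1, c2⟩ := exists_prim (U := U) (mul_mem hs (right_mem_TT _ t1))
    (mul_ne_zero (mul_ne_zero (div_ne_zero_iff.1 h).1 s2) t2)
  obtain ⟨d, d0, d1, d2⟩ := exists_prim (U := U) (mul_mem ht (right_mem_TT _ s1))
    (mul_ne_zero (mul_ne_zero h0 t2) s2)
  have c3 : algebraMap Ω F c ≠ 0 := by simpa using c0
  have d3 : algebraMap Ω F d ≠ 0 := by simpa using d0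
  exact ⟨c / d, _, _, div_ne_zero c0 d0, TT_le_Bx c1, TT_le_Bx d1, (red_rho (wg2_top c1)).2 ▸ c2,
    (red_rho (wg2_top d1)).2 ▸ d2, by rw [map_div₀]; field_simp⟩

theorem Bx_induction {R : Subring F} (h1 : ∀ c ∈ U.O, algebraMap Ω F c ∈ R)
    (h2 : ∀ a, x.Ge a 0 → algebraMap K F a ∈ R)
    (h3 : ∀ z ∈ R, z ∈ Bx U x → val x (red K U z) ≠ 0 → z⁻¹ ∈ R) (h : f ∈ Bx U x) : f ∈ R := by
  obtain ⟨y, hy, z, hz, h0, e⟩ := h
  rw [← mul_inv_cancel_right₀ (wg2_ne hz h0) f, e]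
  exact mul_mem (TT_le h1 h2 hy)
    (h3 z (TT_le h1 h2 hz) (TT_le_Bx hz) ((red_rho (wg2_top hz)).2 ▸ h0))

/-- `Q` specialises to `x` -/
def Sp (U : KV k Ω) (Q : Place Ω F) (x : Place k K) : Prop :=
  ∀ a, x.Ge a 0 → Q.Ge (algebraMap K F a) 0 ∧ val Q (algebraMap K F a) ∈ U.O ∧
    U.rs (val Q (algebraMap K F a)) = val x a

theorem wg2_ord (h0 : f ≠ 0) (h1 : Q.Ge f 0) (h2 : Q.Ge f⁻¹ 0) : Q.ord f = 0 := by
  have := h1.le h0
  have := h2.le (inv_ne_zero h0)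
  rw [Place.ord_inv] at this
  omega

theorem wg2_unit (h0 : f ≠ 0) (h1 : Q.Ge f 0 ∧ val Q f ∈ U.O)
    (h2 : Q.Ge f⁻¹ 0 ∧ val Q f⁻¹ ∈ U.O) : U.rs (val Q f) ≠ 0 :=
  have h := wg2_ord h0 h1.1 h2.1
  U.rs_ne_zero (val_ne_zero h0 h) h1.2 (val_inv h ▸ h2.2)

theorem wg2_inv (h : U.rs (val Q f) ≠ 0) : Q.Ge f⁻¹ 0 ∧ val Q f⁻¹ ∈ U.O ∧
    U.rs (val Q f⁻¹) = (U.rs (val Q f))⁻¹ := by
  obtain ⟨-, h1, h2, h3⟩ := U.inv_mem h
  have h4 := (ord_of_val_ne h1).2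
  rw [val_inv h4]
  exact ⟨Or.inr (by simp [h4]), h2, h3⟩

theorem Sp.eval (h : Sp U Q x) (hf : f ∈ Bx U x) :
    Q.Ge f 0 ∧ val Q f ∈ U.O ∧ U.rs (val Q f) = val x (red K U f) := by
  let P : F → Prop := fun f =>
    f ∈ Bx U x ∧ Q.Ge f 0 ∧ val Q f ∈ U.O ∧ U.rs (val Q f) = val x (red K U f)
  have hc : ∀ c ∈ U.O, P (algebraMap Ω F c) := fun c hc =>
    ⟨Ω_mem_Bx hc, Q.ge_const c, by rwa [val_const], by rw [val_const, red_Ω hc, val_const]⟩
  have hm : ∀ {f g}, P f → P g → P (f * g) := fun ⟨a, b, c, d⟩ ⟨a', b', c', d'⟩ =>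
    ⟨mul_mem a a', ge_mul_zero b b', by rw [val_mul b b']; exact mul_mem c c', by
      rw [val_mul b b', U.rs_mul c c', red_mul (Bx_le a) (Bx_le a'),
        val_mul (red_ge a) (red_ge a'), d, d']⟩
  let R : Subring F :=
    { carrier := {f | P f}
      zero_mem' := map_zero (algebraMap Ω F) ▸ hc 0 (zero_mem _)
      one_mem' := map_one (algebraMap Ω F) ▸ hc 1 (one_mem _)
      add_mem' := fun ⟨a, b, c, d⟩ ⟨a', b', c', d'⟩ =>
        ⟨add_mem a a', b.add b', by rw [val_add b b']; exact add_mem c c', by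
          rw [val_add b b', U.rs_add c c', red_add (Bx_le a) (Bx_le a'),
            val_add (red_ge a) (red_ge a'), d, d']⟩
      neg_mem' := fun a => by
        have := hm (hc (-1) (neg_mem (one_mem _))) a
        rwa [map_neg, map_one, neg_one_mul] at this
      mul_mem' := hm }
  refine (Bx_induction (R := R) hc (fun a ha => ⟨K_mem_Bx ha, ?_⟩)
    (fun z ⟨a, b, c, d⟩ _ h0 => ?_) hf).2
  · rw [red_K]
    exact h a ha
  · obtain ⟨h1, h2, h3⟩ := wg2_inv (d ▸ h0)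
    obtain ⟨h4, h5⟩ := ord_of_val_ne h0
    exact ⟨inv_mem_Bx a h0, h1, h2, by rw [h3, red_inv h4, val_inv h5, d]⟩

theorem Sp.unit (h : Sp U Q x) (hf : f ∈ Bx U x) (h0 : val x (red K U f) ≠ 0) :
    val Q f ≠ 0 ∧ Q.ord f = 0 := by
  have h1 := (U.inv_mem ((h.eval hf).2.2 ▸ h0)).2.1
  exact ⟨h1, (ord_of_val_ne h1).2⟩

theorem sp_of_le (h : ∀ f ∈ Bx U x, Q.Ge f 0) : Sp U Q x := by
  have key : ∀ g ∈ Bx U x, val Q g = 0 → val x (red K U g) = 0 := fun g hg h0 => by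
    by_contra h1
    have h2 := ne_zero_of_red (ord_of_val_ne h1).1
    exact val_ne_zero h2 (wg2_ord h2 (h g hg) (h _ (inv_mem_Bx hg h1))) h0
  intro a ha
  have h1 := K_mem_Bx (U := U) (F := F) ha
  have h2 := h _ h1
  have h3 : val Q (algebraMap K F a) ∈ U.O := by
    by_contra hn
    obtain ⟨c0, c1, c2⟩ := U.inv_of_notMem hn
    have h4 := Ω_mem_Bx (x := x) (F := F) c1
    have := key _ (sub_mem (one_mem _) (mul_mem h4 h1)) (by
      rw [val_sub Q.ge_one (ge_mul_zero (Q.ge_const _) h2), val_one, val_mul (Q.ge_const _) h2,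
        val_const, inv_mul_cancel₀ c0, sub_self])
    rw [red_sub (one_mem _) (Bx_le (mul_mem h4 h1)), red_one, red_mul (Bx_le h4) (Bx_le h1),
      red_Ω c1, c2, map_zero, zero_mul, sub_zero, val_one] at this
    exact one_ne_zero this
  have := key _ (sub_mem h1 (Ω_mem_Bx h3)) (by rw [val_sub h2 (Q.ge_const _), val_const, sub_self])
  rw [red_sub (Bx_le h1) (Ω_mem_Gs h3), red_K, red_Ω h3, val_sub ha (x.ge_const _),
    val_const] at this
  exact ⟨h2, h3, (sub_eq_zero.1 this).symm⟩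

/-- the composite of `Q` and `U` -/
def wg2_V (U : KV k Ω) (Q : Place Ω F) : ValuationSubring F where
  carrier := {f | Q.Ge f 0 ∧ val Q f ∈ U.O}
  zero_mem' := ⟨Q.ge_zero 0, by rw [val_zero]; exact zero_mem _⟩
  one_mem' := ⟨Q.ge_one, by rw [val_one]; exact one_mem _⟩
  add_mem' := fun ⟨b, c⟩ ⟨b', c'⟩ => ⟨b.add b', by rw [val_add b b']; exact add_mem c c'⟩
  neg_mem' := fun ⟨b, c⟩ => ⟨b.neg, by rw [val_neg b]; exact neg_mem c⟩
  mul_mem' := fun ⟨b, c⟩ ⟨b', c'⟩ => ⟨ge_mul_zero b b', by rw [val_mul b b']; exact mul_mem c c'⟩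
  mem_or_inv_mem' f := by
    have h : ∀ g, 1 ≤ Q.ord g → Q.Ge g 0 ∧ val Q g ∈ U.O := fun g hg =>
      have h1 : Q.Ge g 0 := Or.inr (zero_le_one.trans hg)
      ⟨h1, by rw [(val_eq_zero_iff h1).2 (Or.inr hg)]; exact zero_mem _⟩
    rcases lt_trichotomy (Q.ord f) 0 with e | e | e
    · exact Or.inr (h _ (by rw [Place.ord_inv]; omega))
    · exact (U.O.mem_or_inv_mem (val Q f)).imp (fun a => ⟨Or.inr e.ge, a⟩) fun a =>
        ⟨Or.inr (by simp [e]), by rwa [val_inv e]⟩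
    · exact Or.inl (h _ e)

theorem exists_sp (K : Type) [Field K] [Algebra k K] [Algebra K F] [IsScalarTower k K F]
    [IsFF k K] (U : KV k Ω) (Q : Place Ω F) : ∃ x : Place k K, Sp U Q x := by
  have e : ∀ c : k, algebraMap K F (algebraMap k K c) = algebraMap Ω F (algebraMap k Ω c) :=
    fun c => by rw [← IsScalarTower.algebraMap_apply, ← IsScalarTower.algebraMap_apply]
  have hV : ∀ a, a ∈ (wg2_V U Q).comap (algebraMap K F) ↔
      Q.Ge (algebraMap K F a) 0 ∧ val Q (algebraMap K F a) ∈ U.O := fun _ => Iff.rfl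
  have hs : ∀ a ∈ (wg2_V U Q).comap (algebraMap K F), ∀ c : k,
      U.rs (val Q (algebraMap K F (a - algebraMap k K c))) =
        U.rs (val Q (algebraMap K F a)) - c := fun a ha c => by
    rw [map_sub, e, val_sub ha.1 (Q.ge_const _), val_const, U.rs_sub ha.2 (U.const c), U.rs_const]
  obtain ⟨x, hx⟩ := exists_place_of_vs (k := k) ((wg2_V U Q).comap (algebraMap K F))
    (fun c => by rw [hV, e, val_const]; exact ⟨Q.ge_const _, U.const c⟩) fun h => by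
      obtain ⟨t, ht, -⟩ := IsFF.ex (k := k) (K := K)
      have h1 := fun a => (hV a).1 (h ▸ ValuationSubring.mem_top a)
      refine wg2_unit ?_ (h1 _) (map_inv₀ (algebraMap K F) _ ▸ h1 _)
        ((hs t (h1 t) _).trans (sub_self _))
      exact (map_ne_zero _).2 (sub_ne_zero.2 fun z => ht (z ▸ isAlgebraic_algebraMap _))
  refine ⟨x, fun a ha => ?_⟩
  have h1 := (hx a).2 ha
  refine ⟨h1.1, h1.2, sub_eq_zero.1 ((hs a h1 _).symm.trans (by_contra fun h => ?_))⟩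
  obtain ⟨h2, h3, -⟩ := wg2_inv h
  have h4 := (map_ne_zero _).1 (ord_of_val_ne (U.inv_mem h).2.1).1
  rw [← map_inv₀] at h2 h3
  have h5 := ((hx _).1 ((hV _).2 ⟨h2, h3⟩)).le (inv_ne_zero h4)
  have h6 := (val_spec ha).le h4
  rw [Place.ord_inv] at h5
  omega

theorem Sp.unique {x' : Place k K} (h : Sp U Q x) (h' : Sp U Q x') : x = x' := by
  have h0 : ∀ a, x.Ge a 0 → x'.Ge a 0 := fun a ha => by_contra fun hn => by
    obtain ⟨a0, a1⟩ := Place.not_ge_iff.1 hn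
    have h1 : x'.Ge a⁻¹ 1 := Or.inr (by rw [Place.ord_inv]; omega)
    obtain ⟨h2, h3, h4⟩ := h' _ (h1.mono zero_le_one)
    refine wg2_unit ((map_ne_zero _).2 (inv_ne_zero a0)) ⟨h2, h3⟩ ?_
      (h4.trans ((val_eq_zero_iff (h1.mono zero_le_one)).2 h1))
    rw [← map_inv₀, inv_inv]
    exact ⟨(h a ha).1, (h a ha).2.1⟩
  refine Place.eq_of_ge h0 fun a ha => ?_
  have h1 := ha.mono zero_le_one
  exact (val_eq_zero_iff (h0 a h1)).1
    ((h' a (h0 a h1)).2.2.symm.trans ((h a h1).2.2.trans ((val_eq_zero_iff h1).2 ha)))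

variable (K) in
/-- the specialisation of a place -/
def sp (U : KV k Ω) (Q : Place Ω F) : Place k K := (exists_sp K U Q).choose

theorem sp_spec (U : KV k Ω) (Q : Place Ω F) : Sp U Q (sp K U Q) := (exists_sp K U Q).choose_spec

theorem sp_eq_iff : sp K U Q = x ↔ Sp U Q x := ⟨fun h => h ▸ sp_spec U Q, (sp_spec U Q).unique⟩

end

end Pool.Agent.Lib.MP_16ef92_ag.AL
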