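import Mathlib
import Pool.Agent.Lib.MP_16ef92_ag.AL.WG3

set_option autoImplicit false
set_option linter.unusedSectionVars false
set_option linter.unusedVariables false

namespace Pool.Agent.Lib.MP_16ef92_ag.AL

open Pool.Agent.Lib.MP_6adaea_nt 
open scoped Classical

noncomputable section

variable {k K Ω F : Type} [Field k] [Field K] [Field Ω] [Field F] [Algebra k K]
  [Algebra k Ω] [Algebra k F] [Algebra K F] [Algebra Ω F] [IsScalarTower k K F]
  [IsScalarTower k Ω F] [BC k K Ω F] [IsAlgClosed k] [IsFF k K] [PosChar k] [IsAlgClosed Ω]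
  [IsFF Ω F] [PosChar Ω]

variable {U : KV k Ω} {x : Place k K} {f g : F} {Q Q' : Place Ω F} {t : K} {D D' : Dv Ω F}

theorem wg4_ge (h : Sp U Q x) (ht : x.ord t = 1) : Q.Ge (algebraMap K F t) 0 :=
  (h t (Or.inr (by omega))).1

theorem wg4_t (ht : x.ord t = 1) : t ≠ 0 := by
  rintro rfl
  simp at ht

theorem wg4_red (h : Sp U Q x) (ht : x.ord t = 1) : red K U (lin Q t) ≠ 0 := by
  rw [red_lin h ht]
  exact wg4_t ht

theorem wg4_ne (h : Sp U Q x) (ht : x.ord t = 1) : lin Q t ≠ 0 := ne_zero_of_red (wg4_red h ht)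

theorem wg4_list (ht : x.ord t = 1) (l : List (Place Ω F)) (hl : ∀ Q ∈ l, Sp U Q x) :
    (l.map fun Q => lin Q t).prod ≠ 0 ∧ ∃ m : Ω → ℤ, ∀ Q : Place Ω F, Sp U Q x →
      Q.ord (l.map fun Q => lin Q t).prod = m (val Q (algebraMap K F t)) * Q.ord (lin Q t) := by
  induction l with
  | nil => exact ⟨by simp, 0, fun Q _ => by simp⟩
  | cons P l ih =>
    obtain ⟨h0, m, hm⟩ := ih fun Q hQ => hl Q (List.mem_cons_of_mem _ hQ)
    have h1 := wg4_ne (hl P List.mem_cons_self) ht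
    rw [List.map_cons, List.prod_cons]
    refine ⟨mul_ne_zero h1 h0, fun c => (if c = val P (algebraMap K F t) then 1 else 0) + m c,
      fun Q hQ => ?_⟩
    rw [Q.ord_mul h1 h0, hm Q hQ, add_mul]
    congr 1
    split_ifs with e
    · rw [one_mul, lin, lin, e]
    · rw [zero_mul]
      exact (ord_of_val_ne (by rw [val_lin (wg4_ge hQ ht)]; exact sub_ne_zero.2 e)).2

theorem wg4_Bx (ht : x.ord t = 1) (hg : g ∈ Bx U x) (h0 : red K U g ≠ 0) :
    ∃ m : Ω → ℤ, ∀ Q : Place Ω F, Sp U Q x →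
      Q.ord g = m (val Q (algebraMap K F t)) * Q.ord (lin Q t) := by
  obtain ⟨u, l, hu, h1, hl, rfl⟩ := factor ht hg h0
  obtain ⟨h2, m, hm⟩ := wg4_list ht l hl
  refine ⟨m, fun Q hQ => ?_⟩
  have h3 := hQ.unit hu h1
  rw [Q.ord_mul (ord_of_val_ne h3.1).1 h2, h3.2, zero_add, hm Q hQ]

theorem wg4_key (U : KV k Ω) (ht : x.ord t = 1) (h : f ≠ 0) :
    ∃ m : Ω → ℤ, ∀ Q : Place Ω F, Sp U Q x →
      Q.ord f = m (val Q (algebraMap K F t)) * Q.ord (lin Q t) := by
  obtain ⟨c, g₁, g₂, hc, h1, h2, h3, h4, rfl⟩ := exists_frac U x h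
  obtain ⟨m₁, e₁⟩ := wg4_Bx ht h1 h3
  obtain ⟨m₂, e₂⟩ := wg4_Bx ht h2 h4
  have h5 := (map_ne_zero (algebraMap Ω F)).2 hc
  refine ⟨fun c => m₁ c - m₂ c, fun Q hQ => ?_⟩
  rw [Q.ord_div (mul_ne_zero h5 (ne_zero_of_red h3)) (ne_zero_of_red h4),
    Q.ord_mul h5 (ne_zero_of_red h3), Q.ord_const, zero_add, e₁ Q hQ, e₂ Q hQ, sub_mul]

/-- By `exists_frac` and `factor` every `f ≠ 0` has `Q.ord f = m f * Q.ord (lin Q t)` with an
integer `m f` that only depends on `val Q t` (the factors `lin Q'' t` with another value of `t` are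
units at `Q`). Apply this to a uniformiser of `Q`. -/
theorem Sp.ord_lin (h : Sp U Q x) (ht : x.ord t = 1) : Q.ord (lin Q t) = 1 := by
  obtain ⟨p, hp, h1⟩ := Q.surj
  obtain ⟨m, hm⟩ := wg4_key U ht hp
  have h2 : 1 ≤ Q.ord (lin Q t) := (val_spec (wg4_ge h ht)).le (wg4_ne h ht)
  exact Int.eq_one_of_mul_eq_one_left (by omega) ((hm Q h).symm.trans h1)

theorem Sp.eq_of_val (h : Sp U Q x) (h' : Sp U Q' x) (ht : x.ord t = 1)
    (e : val Q (algebraMap K F t) = val Q' (algebraMap K F t)) : Q = Q' := by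
  ext f
  by_cases h0 : f = 0
  · simp [h0]
  obtain ⟨m, hm⟩ := wg4_key U ht h0
  rw [hm Q h, hm Q' h', h.ord_lin ht, h'.ord_lin ht, e]

theorem Sp.ord_lin_ne (h : Sp U Q x) (h' : Sp U Q' x) (ht : x.ord t = 1) (e : Q ≠ Q') :
    val Q' (lin Q t) ≠ 0 ∧ Q'.ord (lin Q t) = 0 := by
  have h1 : val Q' (lin Q t) ≠ 0 := by
    rw [val_lin (wg4_ge h' ht)]
    exact sub_ne_zero.2 fun e' => e (h.eq_of_val h' ht e'.symm)
  exact ⟨h1, (ord_of_val_ne h1).2⟩

variable (K) in
/-- specialisation of divisors -/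
def spD (U : KV k Ω) : Dv Ω F →+ Dv k K := Finsupp.mapDomain.addMonoidHom (sp K U)

theorem spD_single (Q : Place Ω F) (m : ℤ) :
    spD K U (Finsupp.single Q m) = Finsupp.single (sp K U Q) m := Finsupp.mapDomain_single

theorem deg_spD (D : Dv Ω F) : deg (spD K U D) = deg D := by
  induction D using Finsupp.induction_linear with
  | zero => simp
  | add a b ha hb => rw [map_add, map_add, map_add, ha, hb]
  | single Q m => rw [spD_single, deg_single, deg_single]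

theorem wg4_app (D : Dv Ω F) (x : Place k K) :
    spD K U D x = ∑ Q ∈ D.support, if sp K U Q = x then D Q else 0 := by
  change Finsupp.mapDomain _ D x = _
  rw [Finsupp.mapDomain, Finsupp.sum, Finsupp.finsetSum_apply]
  exact Finset.sum_congr rfl fun Q _ => Finsupp.single_apply

theorem spD_nonneg (h : 0 ≤ D) : 0 ≤ spD K U D := by
  intro x
  rw [wg4_app]
  exact Finset.sum_nonneg fun Q _ => by split_ifs; exacts [h Q, le_rfl]

theorem le_spD (h : 0 ≤ D) (Q : Place Ω F) : D Q ≤ spD K U D (sp K U Q) := by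
  by_cases h0 : D Q = 0
  · exact h0 ▸ spD_nonneg h _
  rw [wg4_app]
  refine le_trans (by rw [if_pos rfl]) (Finset.single_le_sum
    (f := fun Q' => if sp K U Q' = sp K U Q then D Q' else 0) (fun Q' _ => ?_)
    (Finsupp.mem_support_iff.2 h0))
  split_ifs
  exacts [h Q', le_rfl]

/-- the local equation of a divisor at `x` -/
def lp (U : KV k Ω) (x : Place k K) (t : K) (D : Dv Ω F) : F :=
  D.prod fun Q m => if sp K U Q = x then lin Q t ^ m else 1

theorem lp_add (ht : x.ord t = 1) (D D' : Dv Ω F) :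
    lp U x t (D + D') = lp U x t D * lp U x t D' := by
  refine Finsupp.prod_add_index' (fun Q => by simp) fun Q m m' => ?_
  split_ifs with e
  exacts [zpow_add₀ (wg4_ne (sp_eq_iff.1 e) ht) _ _, (one_mul _).symm]

theorem red_lp (ht : x.ord t = 1) (D : Dv Ω F) : red K U (lp U x t D) = t ^ spD K U D x := by
  have h1 : ∀ Q : Place Ω F, red K U (if sp K U Q = x then lin Q t ^ D Q else 1) =
      t ^ (if sp K U Q = x then D Q else 0) := fun Q => by
    split_ifs with e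
    · rw [red_zpow (wg4_red (sp_eq_iff.1 e) ht), red_lin (sp_eq_iff.1 e) ht]
    · rw [red_one, zpow_zero]
  rw [lp, Finsupp.prod, red_prod fun Q _ => mem_Gs_of_red (by
    rw [h1]; exact zpow_ne_zero _ (wg4_t ht)), wg4_app, Finset.prod_congr rfl fun Q _ => h1 Q]
  induction D.support using Finset.induction_on with
  | empty => simp
  | insert Q s hQ ih => rw [Finset.prod_insert hQ, Finset.sum_insert hQ, ih, zpow_add₀ (wg4_t ht)]

theorem ord_lp (ht : x.ord t = 1) (h : Sp U Q x) (D : Dv Ω F) : Q.ord (lp U x t D) = D Q := by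
  rw [lp, Finsupp.prod, Q.ord_prod _ _ fun P _ => by
    split_ifs with e
    exacts [zpow_ne_zero _ (wg4_ne (sp_eq_iff.1 e) ht), one_ne_zero], Finset.sum_eq_single Q]
  · rw [if_pos (sp_eq_iff.2 h), Q.ord_zpow, h.ord_lin ht, mul_one]
  · intro P _ hP
    split_ifs with e
    · rw [Q.ord_zpow, ((sp_eq_iff.1 e).ord_lin_ne h ht hP).2, mul_zero]
    · exact Q.ord_one
  · intro h0
    simp [Finsupp.notMem_support_iff.1 h0]

theorem val_lp (ht : x.ord t = 1) (h : Sp U Q x) (h0 : D Q = 0) : val Q (lp U x t D) =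
    D.prod fun Q' m => if sp K U Q' = x then
      (val Q (algebraMap K F t) - val Q' (algebraMap K F t)) ^ m else 1 := by
  have h1 : ∀ P ∈ D.support, sp K U P = x → Q.ord (lin P t) = 0 := fun P hP e =>
    ((sp_eq_iff.1 e).ord_lin_ne h ht fun e' => Finsupp.mem_support_iff.1 hP (e' ▸ h0)).2
  rw [lp, Finsupp.prod, Finsupp.prod, val_prod fun P hP => by
    split_ifs with e
    exacts [Or.inr (by rw [Q.ord_zpow, h1 P hP e, mul_zero]), Q.ge_one]]
  refine Finset.prod_congr rfl fun P hP => ?_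
  split_ifs with e
  · rw [val_zpow (h1 P hP e), val_lin (wg4_ge h ht)]
  · exact val_one Q

theorem wg4_t0 (ht : x.ord t = 1) : t ≠ 0 := fun h => by simp [h] at ht

theorem wg4b_red (ht : x.ord t = 1) (D : Dv Ω F) : red K U (lp U x t D) ≠ 0 :=
  red_lp (U := U) ht D ▸ zpow_ne_zero _ (wg4_t0 ht)

theorem wg4b_list (ht : x.ord t = 1) (l : List (Place Ω F)) (h : ∀ Q ∈ l, Sp U Q x) :
    ∃ D, (l.map fun Q => lin Q t).prod = lp U x t D := by
  induction l with
  | nil => exact ⟨0, Finsupp.prod_zero_index.symm⟩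
  | cons Q l ih =>
    obtain ⟨D, e⟩ := ih fun Q hQ => h Q (List.mem_cons_of_mem _ hQ)
    refine ⟨Finsupp.single Q 1 + D, ?_⟩
    rw [lp_add ht, List.map_cons, List.prod_cons, e, lp, lp, Finsupp.prod_single_index (by simp),
      if_pos (sp_eq_iff.2 (h Q List.mem_cons_self)), zpow_one]

theorem wg4_congr (h : ∀ Q, Sp U Q x → D Q = D' Q) : lp U x t D = lp U x t D' := by
  rw [lp, lp, Finsupp.prod_of_support_subset _ (Finset.subset_union_left (s₂ := D'.support)) _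
    (by simp), Finsupp.prod_of_support_subset _ Finset.subset_union_right _ (by simp)]
  refine Finset.prod_congr rfl fun Q _ => ?_
  split_ifs with e
  · rw [h Q (sp_eq_iff.1 e)]
  · rfl

/-- The local form. -/
theorem local_form (ht : x.ord t = 1) (h : red K U f ≠ 0) :
    ∃ u ∈ Bx U x, val x (red K U u) ≠ 0 ∧ f = u * lp U x t (dv Ω f) := by
  obtain ⟨c, g₁, g₂, c0, b1, b2, r1, r2, e⟩ := exists_frac U x (ne_zero_of_red h)
  obtain ⟨u₁, l₁, m1, v1, s1, e1⟩ := factor ht b1 r1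
  obtain ⟨u₂, l₂, m2, v2, s2, e2⟩ := factor ht b2 r2
  obtain ⟨D₁, d1⟩ := wg4b_list ht l₁ s1
  obtain ⟨D₂, d2⟩ := wg4b_list ht l₂ s2
  have n1 := ne_zero_of_red r1
  have n2 := ne_zero_of_red r2
  have i1 : g₁⁻¹ ∈ Gs K U := mem_Gs_of_red (by rw [red_inv r1]; exact inv_ne_zero r1)
  have ec : algebraMap Ω F c = f * g₂ * g₁⁻¹ := by rw [e]; field_simp
  have fg := mul_mem (mem_Gs_of_red h) (Bx_le b2)
  have cO : c ∈ U.O := mem_of_Gs (K := K) (F := F) (ec ▸ mul_mem fg i1)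
  have rc : red K U (algebraMap Ω F c) ≠ 0 := by
    rw [ec, red_mul fg i1, red_mul (mem_Gs_of_red h) (Bx_le b2), red_inv r1]
    exact mul_ne_zero (mul_ne_zero h r2) (inv_ne_zero r1)
  obtain ⟨p1, q1⟩ := ord_of_val_ne v1
  obtain ⟨p2, q2⟩ := ord_of_val_ne v2
  have i2 := inv_mem_Bx m2 v2
  have cB : algebraMap Ω F c ∈ Bx U x := Ω_mem_Bx cO
  have uB := mul_mem (mul_mem cB m1) i2
  have uv : val x (red K U (algebraMap Ω F c * u₁ * u₂⁻¹)) ≠ 0 := by
    rw [red_mul (Bx_le (mul_mem cB m1)) (Bx_le i2), red_mul (Bx_le cB) (Bx_le m1), red_inv p2]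
    refine val_ne_zero (mul_ne_zero (mul_ne_zero rc p1) (inv_ne_zero p2)) ?_
    rw [x.ord_mul (mul_ne_zero rc p1) (inv_ne_zero p2), x.ord_mul rc p1, red_Ω cO]
    simp [q1, q2]
  have n3 := ne_zero_of_red (wg4b_red (U := U) ht D₂)
  have ef : f = algebraMap Ω F c * u₁ * u₂⁻¹ * lp U x t (D₁ - D₂) := by
    rw [e, e1, e2, d1, d2, ← sub_add_cancel D₁ D₂, lp_add ht, add_sub_cancel_right]
    have := ne_zero_of_red p2
    field_simp
  refine ⟨_, uB, uv, ef.trans (congrArg _ (wg4_congr fun Q hQ => ?_))⟩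
  obtain ⟨a1, a2⟩ := hQ.unit uB uv
  rw [dv_apply, ef, Q.ord_mul (ord_of_val_ne a1).1 (ne_zero_of_red (wg4b_red ht _)), a2,
    ord_lp ht hQ, zero_add]

theorem spD_dv (h : red K U f ≠ 0) : spD K U (dv Ω f) = dv k (red K U f) := by
  ext x
  obtain ⟨t, t0, ht⟩ := x.surj
  obtain ⟨u, uB, uv, e⟩ := local_form ht h
  obtain ⟨p, q⟩ := ord_of_val_ne uv
  have := congrArg (fun f => x.ord (red K U f)) e
  simp only [red_mul (Bx_le uB) (mem_Gs_of_red (wg4b_red ht _)), red_lp ht,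
    x.ord_mul p (zpow_ne_zero _ t0), q, Place.ord_zpow, ht, mul_one, zero_add] at this
  exact this.symm

theorem spD_prin (U : KV k Ω) (h : f ≠ 0) : ∃ a : K, a ≠ 0 ∧ spD K U (dv Ω f) = dv k a := by
  obtain ⟨c, c0, r⟩ := exists_norm K U h
  refine ⟨_, r, ?_⟩
  rw [← spD_dv r, dv_div h ((map_ne_zero _).2 c0), dv_const, sub_zero]

theorem cl_spD (U : KV k Ω) (h : cl D = cl D') : cl (spD K U D) = cl (spD K U D') := by
  obtain ⟨f, f0, e⟩ := cl_eq.1 h
  obtain ⟨a, a0, e'⟩ := spD_prin (K := K) U f0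
  exact cl_eq.2 ⟨a, a0, by rw [← map_sub, ← e, e']⟩

end

end Pool.Agent.Lib.MP_16ef92_ag.AL
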