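import Mathlib
import Pool.Agent.Lib.MP_16ef92_ag.AL.WDef

set_option autoImplicit false
set_option linter.unusedSectionVars false
set_option linter.unusedVariables false

namespace Pool.Agent.Lib.MP_16ef92_ag.AL

open Pool.Agent.Lib.MP_6adaea_nt Module Polynomial
open scoped Classical

noncomputable section

variable {k K : Type} [Field k] [Field K] [Algebra k K] [IsAlgClosed k] [IsFF k K] [PosChar k]

/-- the degree of the pole divisor of a separating element, computed in a Galois closure -/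
theorem wrie0b_pole [Algebra (RatFunc k) K] [IsScalarTower k (RatFunc k) K]
    [FiniteDimensional (RatFunc k) K] [Algebra.IsSeparable (RatFunc k) K] (T : Finset (Place k K))
    (hT : ∀ v ∈ T, v.ord (algebraMap (RatFunc k) K RatFunc.X) < 0) :
    ∑ v ∈ T, -v.ord (algebraMap (RatFunc k) K RatFunc.X) ≤ finrank (RatFunc k) K := by
  obtain ⟨p, hp, _⟩ := PosChar.ex (k := k)
  have := Fact.mk hp
  obtain ⟨N, _, _, _, _, h5, h6, h7, h8, h9⟩ := ff2_closure k (RatFunc k) K
  have h10 : IsFF k (RatFunc k) := (IsFF.of_sub (k := k) (K := K) (RatFunc k)).1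
  have h11 : FiniteDimensional K N := Module.Finite.of_restrictScalars_finite (RatFunc k) K N
  have h12 : IsGalois K N := IsGalois.tower_top_of_isGalois (RatFunc k) K N
  obtain ⟨u, hu, hu'⟩ := rat_place_inf (k := k)
  have hu0 : u.ord RatFunc.X = -1 := by simpa using hu 0
  obtain ⟨S₁, a1, a2⟩ := ff2_sum N p T
  obtain ⟨S₂, b1, b2⟩ := ff2_sum N p ({u} : Finset (Place k (RatFunc k)))
  have c1 : S₁ ⊆ S₂ := fun w hw => by
    obtain ⟨v, hv, e, he⟩ := (a1 w).mp hw
    obtain ⟨v', e', he'⟩ := Place.exists_under (L := RatFunc k) w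
    refine (b1 w).mpr ⟨v', Finset.mem_singleton.mpr (hu' v' ?_), e', he'⟩
    have k1 := he.2 (algebraMap (RatFunc k) K RatFunc.X)
    rw [← IsScalarTower.algebraMap_apply, he'.2] at k1
    have k2 := mul_neg_of_pos_of_neg (Int.natCast_pos.mpr he.1) (hT v hv)
    rw [← k1] at k2
    exact neg_of_mul_neg_right k2 (Int.natCast_nonneg _)
  have c2 : ∑ w ∈ S₁, -w.ord (algebraMap (RatFunc k) N RatFunc.X) ≤
      ∑ w ∈ S₂, -w.ord (algebraMap (RatFunc k) N RatFunc.X) :=
    Finset.sum_le_sum_of_subset_of_nonneg c1 fun w hw _ => by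
      obtain ⟨v, hv, e, he⟩ := (b1 w).mp hw
      rw [he.2, Finset.mem_singleton.mp hv, hu0]
      omega
  rw [Finset.sum_neg_distrib, Finset.sum_neg_distrib, b2, Finset.sum_singleton,
    Algebra.norm_algebraMap, Place.ord_pow, hu0, IsScalarTower.algebraMap_apply (RatFunc k) K N,
    a2, Algebra.norm_algebraMap, ← finrank_mul_finrank (RatFunc k) K N] at c2
  simp only [Place.ord_pow, ← Finset.mul_sum] at c2
  have c3 : (0 : ℤ) < finrank K N := by exact_mod_cast finrank_pos
  rw [Finset.sum_neg_distrib]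
  refine le_of_mul_le_mul_left ?_ c3
  push_cast at c2
  linarith

theorem wrie0b_li (e : ℕ) :
    LinearIndependent k fun i : Fin e => (RatFunc.X : RatFunc k) ^ (i : ℕ) := by
  have h1 := ((basisMonomials k).linearIndependent.map'
    (IsScalarTower.toAlgHom k k[X] (RatFunc k)).toLinearMap
    (LinearMap.ker_eq_bot.mpr (IsFractionRing.injective k[X] (RatFunc k)))).comp
    (fun i : Fin e => (i : ℕ)) Fin.val_injective
  simpa [Function.comp_def, ← X_pow_eq_monomial] using h1

/-- every divisor is bounded, up to a principal divisor, by a multiple of the poles of `t` -/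
theorem wrie0b_den {t : K} (ht : Transcendental k t) {B : Dv k K}
    (hB : ∀ v, B v = max (-v.ord t) 0) (D : Dv k K) :
    ∃ s : K, s ≠ 0 ∧ ∃ m : ℕ, D ≤ dv k s + m • B := by
  have h1 : ∀ a : k, t - algebraMap k K a ≠ 0 := fun a h =>
    ht (sub_eq_zero.1 h ▸ isAlgebraic_algebraMap a)
  induction D using Finsupp.induction_linear with
  | zero => exact ⟨1, one_ne_zero, 0, by simp [dv_one]⟩
  | add a b ha hb =>
    obtain ⟨s, hs, m, h⟩ := ha
    obtain ⟨s', hs', m', h'⟩ := hb
    exact ⟨s * s', mul_ne_zero hs hs', m + m', by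
      rw [dv_mul hs hs', add_nsmul, add_add_add_comm]; exact add_le_add h h'⟩
  | single v a =>
    obtain ⟨s, hs, h⟩ : ∃ s : K, s ≠ 0 ∧ ∀ w, (if v = w then 1 else 0) ≤ w.ord s + B w := by
      by_cases hv : 0 ≤ v.ord t
      · obtain ⟨c, hc⟩ := v.exists_res (Place.Ge.of_le hv)
        refine ⟨_, h1 c, fun w => ?_⟩
        have h2 := hc.le (h1 c)
        have h3 := (((Place.Ge.of_le (v := w) (le_refl (w.ord t))).mono (min_le_left _ 0)).sub
          ((w.ge_const c).mono (min_le_right _ _))).le (h1 c)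
        rw [hB]
        split_ifs with h4
        · subst h4; omega
        · omega
      · refine ⟨1, one_ne_zero, fun w => ?_⟩
        rw [hB, w.ord_one]
        split_ifs with h4
        · subst h4; omega
        · omega
    refine ⟨s ^ a.toNat, pow_ne_zero _ hs, a.toNat, fun w => ?_⟩
    have h2 := mul_le_mul_of_nonneg_left (h w) (Int.natCast_nonneg a.toNat)
    rw [dv_pow, ← nsmul_add, Finsupp.single_apply, Finsupp.smul_apply, nsmul_eq_mul]
    refine le_trans ?_ h2
    split_ifs <;> omega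

/-- with `B` the poles of a separating `t` and `β` a bound for the poles of a basis `b` over `k(t)`,
the `t ^ i * b l` are independent sections of `β + m • B` -/
theorem wrie0b_main : ∃ β B : Dv k K, 0 ≤ β ∧
    (∀ D : Dv k K, ∃ s : K, s ≠ 0 ∧ ∃ m : ℕ, D ≤ dv k s + m • B) ∧ ∀ m : ℕ,
      FiniteDimensional k (LL (β + m • B)) → m * deg B ≤ ell (β + m • B) := by
  obtain ⟨t, ht, hs⟩ := ff1_sep k K
  obtain ⟨_, h1, h2, hX, h3⟩ := ff2_alg ht
  have h4 := h3 hs
  let b := finBasis (RatFunc k) K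
  have hp : ∀ (x : K) v, (-dv k x ⊔ 0 : Dv k K) v = max (-v.ord x) 0 := fun x v => by
    simp [Finsupp.sup_apply]
  have ht0 : t ≠ 0 := fun h => ht (h ▸ isAlgebraic_zero)
  have h5 : deg (-dv k t ⊔ 0) ≤ finrank (RatFunc k) K := by
    have h6 : ∀ v ∈ (-dv k t ⊔ 0 : Dv k K).support, v.ord t < 0 := fun v hv => by
      rw [Finsupp.mem_support_iff, hp] at hv
      omega
    rw [deg_eq_sum _ subset_rfl, Finset.sum_congr rfl fun v hv =>
      (hp t v).trans (max_eq_left (neg_nonneg.2 (h6 v hv).le))]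
    subst hX
    exact wrie0b_pole _ h6
  refine ⟨∑ l, -dv k (b l) ⊔ 0, -dv k t ⊔ 0, Finset.sum_nonneg fun _ _ => le_sup_right,
    wrie0b_den ht (hp t), fun m hm => ?_⟩
  have hmem : ∀ x : Fin m × Fin (finrank (RatFunc k) K),
      t ^ (x.1 : ℕ) * b x.2 ∈ LL (∑ l, -dv k (b l) ⊔ 0 + m • (-dv k t ⊔ 0)) := fun ⟨i, l⟩ => by
    rw [mem_LL_iff (mul_ne_zero (pow_ne_zero _ ht0) (b.ne_zero l)),
      dv_mul (pow_ne_zero _ ht0) (b.ne_zero l), dv_pow, add_comm (_ • dv k t), add_add_add_comm]
    refine add_nonneg (neg_le_iff_add_nonneg.1 (le_sup_left.trans (Finset.single_le_sum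
      (f := fun l => -dv k (b l) ⊔ 0) (fun _ _ => le_sup_right) (Finset.mem_univ l))))
      (neg_le_iff_add_nonneg.1 ?_)
    rw [← smul_neg]
    exact (nsmul_le_nsmul_right le_sup_left _).trans (nsmul_le_nsmul_left le_sup_right i.2.le)
  have hli : LinearIndependent k fun x => (⟨_, hmem x⟩ : LL _) :=
    LinearIndependent.of_comp (Submodule.subtype _) (by
      simpa [Function.comp_def, Algebra.smul_def, hX] using
        linearIndependent_smul (wrie0b_li (k := k) m) b.linearIndependent)
  have h8 := hli.fintype_card_le_finrank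
  rw [Fintype.card_prod, Fintype.card_fin, Fintype.card_fin] at h8
  exact (mul_le_mul_of_nonneg_left h5 (Int.natCast_nonneg m)).trans (by exact_mod_cast h8)

end

end Pool.Agent.Lib.MP_16ef92_ag.AL
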