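import Mathlib
import Pool.Agent.Lib.MP_16ef92_ag.AL.WG4
import Pool.Agent.Lib.MP_16ef92_ag.AL.WBCa
import Pool.Agent.Lib.MP_16ef92_ag.AL.WRie

set_option autoImplicit false
set_option linter.unusedSectionVars false
set_option linter.unusedVariables false

namespace Pool.Agent.Lib.MP_16ef92_ag.AL

open Pool.Agent.Lib.MP_6adaea_nt 
open scoped Classical

noncomputable section

variable {k K Ω F : Type} [Field k] [Field K] [Field Ω] [Field F] [Algebra k K]
  [Algebra k Ω] [Algebra k F] [Algebra K F] [Algebra Ω F] [IsScalarTower k K F]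
  [IsScalarTower k Ω F] [BC k K Ω F] [IsAlgClosed k] [IsFF k K] [PosChar k] [IsAlgClosed Ω]
  [IsFF Ω F] [PosChar Ω]

variable (F) in
/-- `bil` with `α = id`, `β = ψ` gives a ring map `φ` on `A = TT F ⊤ B` to `Ω`; its kernel is a
proper ideal, nonzero as it contains `a - ψ a` (`const_of_eq`); `exists_place_of_ideal`. -/
theorem exists_pt {B : Subalgebra k K} (ψ : B →ₐ[k] Ω) (hB : ∃ a ∈ B, Transcendental k a) :
    ∃ Q : Place Ω F, ∀ a : B, Q.Ge (algebraMap K F a) 0 ∧ val Q (algebraMap K F a) = ψ a := by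
  obtain ⟨φ, h1, h2, h3⟩ := bil F (A := ⊤) (Subalgebra.val _) ψ
  have l : ∀ c : Ω, algebraMap Ω F c ∈ TT F ⊤ B := fun c => left_mem_TT B trivial
  have h4 : ∀ c : Ω, φ (algebraMap Ω F c) = c := fun c => h2 ⟨c, trivial⟩
  let φ' : (TT F (⊤ : Subalgebra k Ω) B).toSubring →+* Ω :=
    { toFun := fun y => φ y
      map_one' := by simpa using h4 1
      map_zero' := by simpa using h4 0
      map_mul' := fun y z => (h1 _ y.2 _ z.2).2
      map_add' := fun y z => (h1 _ y.2 _ z.2).1 }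
  have h5 : ∀ a : B, (⟨_, right_mem_TT ⊤ a.2⟩ - ⟨_, l (ψ a)⟩) ∈ RingHom.ker φ' := fun a => by
    rw [RingHom.mem_ker, map_sub]
    exact sub_eq_zero.2 ((h3 a).trans (h4 _).symm)
  obtain ⟨Q, hQ, hI⟩ := exists_place_of_ideal (k := Ω) _ l _ (RingHom.ker_ne_top φ')
    fun e => by
      obtain ⟨a, ha, ht⟩ := hB
      have h6 := h5 ⟨a, ha⟩
      rw [e, Ideal.mem_bot, sub_eq_zero] at h6
      obtain ⟨d, rfl⟩ := const_of_eq (k := k) (congrArg Subtype.val h6)
      exact ht (isAlgebraic_algebraMap d)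
  exact ⟨Q, fun a => ⟨hQ _ (right_mem_TT ⊤ a.2), val_eq (hI _ (h5 a))⟩⟩

theorem wpt_sp (U : KV k Ω) {Q : Place Ω F} {x : Place k K} (h : ∀ a, x.Ge a 0 →
    Q.Ge (algebraMap K F a) 0 ∧ val Q (algebraMap K F a) = algebraMap k Ω (val x a)) :
    Sp U Q x := fun a ha => ⟨(h a ha).1, by rw [(h a ha).2]; exact ⟨U.const _, U.rs_const _⟩⟩

theorem wpt_eq {U : KV k Ω} {Q Q' : Place Ω F} {x : Place k K} (s : Sp U Q x)
    (h : ∀ a, x.Ge a 0 → Q'.Ge (algebraMap K F a) 0 ∧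
      val Q (algebraMap K F a) = val Q' (algebraMap K F a)) : Q = Q' := by
  obtain ⟨t, -, ht⟩ := x.surj
  exact s.eq_of_val (fun a ha => ⟨(h a ha).1, (h a ha).2 ▸ (s a ha).2⟩) ht
    (h t (.of_le (by omega))).2

/-- take any `U` (`exists_kv`); both places specialise to the same `x`; `Sp.eq_of_val` -/
theorem pt_unique {Q Q' : Place Ω F} {x : Place k K}
    (h : ∀ a, x.Ge a 0 → Q.Ge (algebraMap K F a) 0 ∧ Q'.Ge (algebraMap K F a) 0 ∧
      val Q (algebraMap K F a) = val Q' (algebraMap K F a))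
    (h' : (∀ a, x.Ge a 0 → val Q (algebraMap K F a) = algebraMap k Ω (val x a)) ∨
      ∀ a, Q.Ge (algebraMap K F a) 0 ∧ Q'.Ge (algebraMap K F a) 0 ∧
        val Q (algebraMap K F a) = val Q' (algebraMap K F a)) : Q = Q' := by
  obtain ⟨U⟩ := exists_kv k Ω
  exact h'.elim (fun e => wpt_eq (wpt_sp U fun a ha => ⟨(h a ha).1, e a ha⟩) fun a ha => (h a ha).2)
    fun e => wpt_eq (sp_spec (K := K) U Q) fun a _ => (e a).2

variable (Ω F) in
theorem exists_cst (x : Place k K) : ∃ Q : Place Ω F, ∀ a, x.Ge a 0 →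
    Q.Ge (algebraMap K F a) 0 ∧ val Q (algebraMap K F a) = algebraMap k Ω (val x a) := by
  obtain ⟨t, -, ht⟩ := x.surj
  obtain ⟨Q, hQ⟩ := exists_pt F ((Algebra.ofId k Ω).comp (valH x))
    ⟨t, .of_le (by omega), x.transcendental (by omega)⟩
  exact ⟨Q, fun a ha => hQ ⟨a, ha⟩⟩

variable (F) in
theorem exists_genpt (ξ : K →ₐ[k] Ω) : ∃ Q : Place Ω F, ∀ a,
    Q.Ge (algebraMap K F a) 0 ∧ val Q (algebraMap K F a) = ξ a := by
  obtain ⟨t, ht, -⟩ := IsFF.ex (k := k) (K := K)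
  obtain ⟨Q, hQ⟩ := exists_pt F (ξ.comp (Subalgebra.val ⊤)) ⟨t, trivial, ht⟩
  exact ⟨Q, fun a => hQ ⟨a, trivial⟩⟩

variable (Ω F) in
/-- the place above a place of `K` -/
def cst (x : Place k K) : Place Ω F := (exists_cst Ω F x).choose

variable (F) in
/-- the place of an embedding -/
def gen (ξ : K →ₐ[k] Ω) : Place Ω F := (exists_genpt F ξ).choose

variable {x : Place k K} {ξ : K →ₐ[k] Ω} {Q : Place Ω F} {a : K} {A : Dv k K}

theorem val_cst (h : x.Ge a 0) : val (cst Ω F x) (algebraMap K F a) = algebraMap k Ω (val x a) :=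
  ((exists_cst Ω F x).choose_spec a h).2

theorem val_gen (ξ : K →ₐ[k] Ω) (a : K) : val (gen F ξ) (algebraMap K F a) = ξ a :=
  ((exists_genpt F ξ).choose_spec a).2

theorem eq_cst (h : ∀ a, x.Ge a 0 →
    Q.Ge (algebraMap K F a) 0 ∧ val Q (algebraMap K F a) = algebraMap k Ω (val x a)) :
    Q = cst Ω F x := by
  obtain ⟨U⟩ := exists_kv k Ω
  exact wpt_eq (wpt_sp U h) fun a ha =>
    ⟨((exists_cst Ω F x).choose_spec a ha).1, (h a ha).2.trans (val_cst ha).symm⟩

theorem eq_gen (h : ∀ a, Q.Ge (algebraMap K F a) 0 ∧ val Q (algebraMap K F a) = ξ a) :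
    Q = gen F ξ := by
  obtain ⟨U⟩ := exists_kv k Ω
  exact wpt_eq (sp_spec (K := K) U Q) fun a _ =>
    ⟨((exists_genpt F ξ).choose_spec a).1, (h a).2.trans (val_gen ξ a).symm⟩

theorem sp_cst (U : KV k Ω) (x : Place k K) : sp K U (cst Ω F x) = x := by
  exact sp_eq_iff.2 (wpt_sp U (exists_cst Ω F x).choose_spec)

/-- `a = u t ^ m`; `Sp.ord_lin` with `lin (cst x) t = t` -/
theorem cst_ord (x : Place k K) (a : K) : (cst Ω F x).ord (algebraMap K F a) = x.ord a := by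
  by_cases h0 : a = 0
  · rw [h0, map_zero, Place.ord_zero', Place.ord_zero']
  obtain ⟨U⟩ := exists_kv k Ω
  obtain ⟨t, t0, ht⟩ := x.surj
  have h1 := (sp_eq_iff.1 (sp_cst (F := F) U x)).ord_lin ht
  rw [lin, val_cst (.of_le (by omega)), (val_eq_zero_iff (.of_le (by omega))).2 (.of_le ht.ge),
    map_zero, map_zero, sub_zero] at h1
  have t1 := zpow_ne_zero (x.ord a) t0
  have h2 : x.ord (a / t ^ x.ord a) = 0 := by
    rw [x.ord_div h0 t1, Place.ord_zpow, ht, mul_one, sub_self]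
  have h3 := (ord_of_val_ne (v := cst Ω F x) (by
    rw [val_cst (.of_le h2.ge)]
    exact (map_ne_zero _).2 (val_ne_zero (div_ne_zero h0 t1) h2))).2
  rwa [map_div₀, Place.ord_div _ ((map_ne_zero _).2 h0) ((map_ne_zero _).2 t1), map_zpow₀,
    Place.ord_zpow, h1, mul_one, sub_eq_zero] at h3

theorem gen_ord (ξ : K →ₐ[k] Ω) (a : K) : (gen F ξ).ord (algebraMap K F a) = 0 := by
  by_cases h0 : a = 0
  · rw [h0, map_zero, Place.ord_zero']
  exact (ord_of_val_ne (by rw [val_gen]; exact (map_ne_zero ξ).2 h0)).2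

variable (K) in
/-- the elements of `K` that are regular at `Q` form a valuation subring; `exists_place_of_vs` -/
theorem pt_cases (Q : Place Ω F) :
    (∃ x : Place k K, Q = cst Ω F x) ∨ ∃ ξ : K →ₐ[k] Ω, Q = gen F ξ := by
  have c1 : ∀ c : k, algebraMap K F (algebraMap k K c) = algebraMap Ω F (algebraMap k Ω c) :=
    fun c => by rw [← IsScalarTower.algebraMap_apply, ← IsScalarTower.algebraMap_apply]
  have m : ∀ a, a ∈ Q.O.comap (algebraMap K F) ↔ Q.Ge (algebraMap K F a) 0 := fun a => Q.mem_O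
  by_cases h : Q.O.comap (algebraMap K F) = ⊤
  · have g : ∀ a, Q.Ge (algebraMap K F a) 0 := fun a =>
      (m a).1 (by rw [h]; exact ValuationSubring.mem_top a)
    exact .inr ⟨{ toFun := fun a => val Q (algebraMap K F a)
                  map_one' := by rw [map_one, val_one]
                  map_zero' := by rw [map_zero, val_zero]
                  map_mul' := fun a b => by rw [map_mul, val_mul (g a) (g b)]
                  map_add' := fun a b => by rw [map_add, val_add (g a) (g b)]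
                  commutes' := fun c => by rw [c1, val_const] }, eq_gen fun a => ⟨g a, rfl⟩⟩
  obtain ⟨x, hx⟩ := exists_place_of_vs (k := k) _
    (fun c => (m _).2 (by rw [c1]; exact Q.ge_const _)) h
  refine .inl ⟨x, eq_cst fun a ha => ⟨(m a).1 ((hx a).2 ha), val_eq ?_⟩⟩
  rw [← c1, ← map_sub]
  have s := val_spec ha
  generalize a - algebraMap k K (val x a) = b at s
  by_contra e
  obtain ⟨e0, e1⟩ := Place.not_ge_iff.1 e
  have b0 : b ≠ 0 := (map_ne_zero _).1 e0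
  have e2 := ((hx b⁻¹).1 ((m _).2 (.of_le (by rw [map_inv₀, Place.ord_inv]; omega)))).le
    (inv_ne_zero b0)
  have e3 := s.le b0
  rw [Place.ord_inv] at e2
  omega

theorem cst_inj : Function.Injective (cst Ω F : Place k K → Place Ω F) := by
  intro x y h
  exact Place.ext (funext fun a => by rw [← cst_ord (Ω := Ω) (F := F), h, cst_ord])

theorem gen_inj : Function.Injective (gen F : (K →ₐ[k] Ω) → Place Ω F) := by
  intro ξ η h
  exact AlgHom.ext fun a => by rw [← val_gen (F := F), h, val_gen]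

theorem gen_ne_cst (ξ : K →ₐ[k] Ω) (x : Place k K) : gen F ξ ≠ cst Ω F x := by
  intro h
  obtain ⟨t, -, ht⟩ := x.surj
  have e := gen_ord (F := F) ξ t
  rw [h, cst_ord, ht] at e
  exact one_ne_zero e

/-- a place over `x` at which the uniformiser vanishes -/
theorem Sp.eq_cst {U : KV k Ω} (h : Sp U Q x) {t : K} (ht : x.ord t = 1)
    (h0 : val Q (algebraMap K F t) = 0) : Q = cst Ω F x :=
  h.eq_of_val (sp_eq_iff.1 (sp_cst U x)) ht (by
    have h1 : x.Ge t 1 := Or.inr ht.ge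
    rw [h0, val_cst (h1.mono zero_le_one), (val_eq_zero_iff (h1.mono zero_le_one)).2 h1, map_zero])

theorem wpt_ge (σ : Ω ≃ₐ[k] Ω) (Q : Place Ω F) (a : K) :
    ((ext K F σ).pl Q).Ge (algebraMap K F a) 0 ↔ Q.Ge (algebraMap K F a) 0 := by
  rw [← (ext K F σ).pl_ge Q, ext_K]

theorem wpt_val (σ : Ω ≃ₐ[k] Ω) (Q : Place Ω F) (a : K) :
    val ((ext K F σ).pl Q) (algebraMap K F a) = σ (val Q (algebraMap K F a)) := by
  rw [← ext_a (K := K) (F := F), ← SA.val_pl, ext_K]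

theorem ext_cst (σ : Ω ≃ₐ[k] Ω) (x : Place k K) : (ext K F σ).pl (cst Ω F x) = cst Ω F x :=
  eq_cst fun a h => ⟨(wpt_ge σ _ a).2 ((exists_cst Ω F x).choose_spec a h).1, by
    rw [wpt_val, val_cst h, σ.commutes]⟩

theorem ext_gen (σ : Ω ≃ₐ[k] Ω) (ξ : K →ₐ[k] Ω) :
    (ext K F σ).pl (gen F ξ) = gen F ((σ : Ω →ₐ[k] Ω).comp ξ) :=
  eq_gen fun a => ⟨(wpt_ge σ _ a).2 ((exists_genpt F ξ).choose_spec a).1, by
    rw [wpt_val, val_gen]; rfl⟩

theorem val_ext (σ : Ω ≃ₐ[k] Ω) (Q : Place Ω F) (a : K) :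
    val ((ext K F σ).pl Q) (algebraMap K F a) = σ (val Q (algebraMap K F a)) := wpt_val σ Q a

theorem sp_ext {U : KV k Ω} {σ : Ω ≃ₐ[k] Ω} (h : ∀ z ∈ U.O, σ z ∈ U.O ∧ U.rs (σ z) = U.rs z)
    (Q : Place Ω F) : sp K U ((ext K F σ).pl Q) = sp K U Q :=
  sp_eq_iff.2 fun a ha => by
    obtain ⟨h1, h2, h3⟩ := sp_spec (K := K) U Q a ha
    rw [wpt_ge, wpt_val, (h _ h2).2]
    exact ⟨h1, (h _ h2).1, h3⟩

variable (Ω F) in
/-- base change of divisors -/
def bc : Dv k K →+ Dv Ω F := Finsupp.mapDomain.addMonoidHom (cst Ω F)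

theorem bc_single (x : Place k K) (m : ℤ) :
    bc Ω F (Finsupp.single x m) = Finsupp.single (cst Ω F x) m := Finsupp.mapDomain_single

theorem bc_cst (A : Dv k K) (x : Place k K) : bc Ω F A (cst Ω F x) = A x :=
  Finsupp.mapDomain_apply cst_inj A x

theorem bc_gen (A : Dv k K) (ξ : K →ₐ[k] Ω) : bc Ω F A (gen F ξ) = 0 :=
  Finsupp.mapDomain_of_notMem_range A _ fun ⟨x, h⟩ => gen_ne_cst ξ x h.symm

theorem dv_alg (a : K) : dv Ω (algebraMap K F a) = bc Ω F (dv k a) := by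
  ext Q
  obtain ⟨x, rfl⟩ | ⟨ξ, rfl⟩ := pt_cases (k := k) K Q
  · rw [bc_cst, dv_apply, dv_apply, cst_ord]
  · rw [bc_gen, dv_apply, gen_ord]

theorem spD_bc (U : KV k Ω) (A : Dv k K) : spD K U (bc Ω F A) = A := by
  induction A using Finsupp.induction_linear with
  | zero => simp
  | add a b ha hb => rw [map_add, map_add, ha, hb]
  | single v m => rw [bc_single, spD_single, sp_cst]

theorem deg_bc (A : Dv k K) : deg (bc Ω F A) = deg A := by
  obtain ⟨U⟩ := exists_kv k Ω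
  rw [← deg_spD (K := K) (U := U), spD_bc]

theorem bc_nonneg (h : 0 ≤ A) : 0 ≤ bc Ω F A := fun Q => by
  obtain ⟨x, rfl⟩ | ⟨ξ, rfl⟩ := pt_cases (k := k) K Q
  · rw [bc_cst]; exact h x
  · rw [bc_gen]; rfl

theorem ext_bc (σ : Ω ≃ₐ[k] Ω) (A : Dv k K) : (ext K F σ).dm (bc Ω F A) = bc Ω F A := by
  induction A using Finsupp.induction_linear with
  | zero => simp
  | add a b ha hb => rw [map_add, map_add, ha, hb]
  | single v m => rw [bc_single, SA.dm_single, ext_cst]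

variable (Ω F) in
theorem ell_bc (A : Dv k K) : ell A ≤ ell (bc Ω F A) := by
  have b := Module.finBasis k (LL A)
  have h1 : ∀ f ∈ LL A, algebraMap K F f ∈ LL (bc Ω F A) := fun f hf => by
    by_cases h0 : f = 0
    · simp [h0]
    rw [mem_LL_iff (by simpa using h0), dv_alg (k := k), ← map_add]
    exact bc_nonneg ((mem_LL_iff h0).1 hf)
  have h2 := BC.li (k := k) (Ω := Ω) (F := F) _ (b.linearIndependent.map' (LL A).subtype (by simp))
  simpa [ell] using (LinearIndependent.of_comp (LL (bc Ω F A)).subtype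
    (v := fun i => ⟨_, h1 _ (b i).2⟩) h2).fintype_card_le_finrank

variable (Ω F) in
theorem evD_bc (h : Dj a A) : Dj (algebraMap K F a) (bc Ω F A) ∧
    evD (algebraMap K F a) (bc Ω F A) = algebraMap k Ω (evD a A) := by
  refine ⟨⟨by simpa using h.1, fun Q hQ => ?_⟩, ?_⟩
  · obtain ⟨x, rfl⟩ | ⟨ξ, rfl⟩ := pt_cases (k := k) K Q
    · rw [cst_ord, h.2 x (by rwa [bc_cst] at hQ)]
    · exact gen_ord ξ a
  · rw [evD, evD, map_finsuppProd]
    refine (Finsupp.prod_mapDomain_index_inj cst_inj).trans (Finsupp.prod_congr fun x hx => ?_)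
    rw [val_cst (Or.inr (h.2 x (Finsupp.mem_support_iff.1 hx)).ge), map_zpow₀]

theorem cl_bc {A' : Dv k K} : cl (bc Ω F A) = cl (bc Ω F A') ↔ cl A = cl A' := by
  obtain ⟨U⟩ := exists_kv k Ω
  refine ⟨fun h => by simpa only [spD_bc] using cl_spD (K := K) U h, fun h => ?_⟩
  obtain ⟨f, h0, hf⟩ := cl_eq.1 h
  exact cl_eq.2 ⟨algebraMap K F f, by simpa using h0, by rw [dv_alg (k := k), hf, map_sub]⟩

theorem IsGen.bc_le {g g' : ℕ} (h : IsGen k K g) (h' : IsGen Ω F g') : g' ≤ g := by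
  obtain ⟨N, hN⟩ := h'.eq
  obtain ⟨x⟩ : Nonempty (Place k K) := inferInstance
  have h1 := hN (bc Ω F (Finsupp.single x N)) (by rw [deg_bc, deg_single])
  have h2 := h.le (Finsupp.single x N)
  have h3 := ell_bc Ω F (Finsupp.single x N)
  rw [deg_bc] at h1
  omega

end

end Pool.Agent.Lib.MP_16ef92_ag.AL
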