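import Mathlib
import Pool.Agent.Lib.MP_16ef92_ag.AL.WPt

set_option autoImplicit false
set_option linter.unusedSectionVars false
set_option linter.unusedVariables false

namespace Pool.Agent.Lib.MP_16ef92_ag.AL

open Pool.Agent.Lib.MP_6adaea_nt Polynomial
open scoped Classical

noncomputable section

variable {k K Ω F : Type} [Field k] [Field K] [Field Ω] [Field F] [Algebra k K]
  [Algebra k Ω] [Algebra k F] [Algebra K F] [Algebra Ω F] [IsScalarTower k K F]
  [IsScalarTower k Ω F] [BC k K Ω F] [IsAlgClosed k] [IsFF k K] [PosChar k] [IsAlgClosed Ω]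
  [IsFF Ω F] [PosChar Ω]

/-- constant term one, the other coefficients in the maximal ideal -/
def wrigb_gd (U : KV k Ω) (P : Polynomial Ω) : Prop :=
  P.coeff 0 = 1 ∧ ∀ i, 0 < i → U.O.valuation (P.coeff i) < 1

theorem wrigb_mul {U : KV k Ω} {P R : Polynomial Ω} (h : wrigb_gd U P) (h' : wrigb_gd U R) :
    wrigb_gd U (P * R) := by
  have le : ∀ {P : Polynomial Ω}, wrigb_gd U P → ∀ i, U.O.valuation (P.coeff i) ≤ 1 := fun h i => by
    rcases i.eq_zero_or_pos with rfl | hi
    · rw [h.1, map_one]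
    · exact (h.2 i hi).le
  refine ⟨by rw [mul_coeff_zero, h.1, h'.1, one_mul], fun i hi => ?_⟩
  rw [coeff_mul]
  refine U.O.valuation.map_sum_lt one_ne_zero fun a ha => ?_
  rw [map_mul]
  rcases a.1.eq_zero_or_pos with e | e
  · exact (mul_le_of_le_one_left' (le h _)).trans_lt
      (h'.2 _ (by have := Finset.HasAntidiagonal.mem_antidiagonal.1 ha; omega))
  · exact (mul_le_of_le_one_right' (le h' _)).trans_lt (h.2 _ e)

theorem wrigb_one (U : KV k Ω) : wrigb_gd U 1 :=
  ⟨coeff_one_zero, fun i hi => by rw [coeff_one, if_neg hi.ne', map_zero]; exact zero_lt_one⟩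

theorem wrigb_single (U : KV k Ω) (x : Place k K) (t : K) (Q : Place Ω F) (m : ℤ) :
    lp U x t (Finsupp.single Q m) = if sp K U Q = x then lin Q t ^ m else 1 :=
  Finsupp.prod_single_index (by simp)

theorem wrigb_ne {x : Place k K} {t : K} (ht : x.ord t = 1) : algebraMap K F t ≠ 0 := fun e => by
  rw [(map_eq_zero _).1 e, x.ord_zero] at ht
  omega

theorem wrigb_bc (U : KV k Ω) {x : Place k K} {t : K} (ht : x.ord t = 1) (A : Dv k K) :
    lp U x t (bc Ω F A) = algebraMap K F t ^ A x := by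
  induction A using Finsupp.induction_linear with
  | zero => simp [lp]
  | add a b ha hb => rw [map_add, lp_add ht, ha, hb, Finsupp.add_apply, zpow_add₀ (wrigb_ne ht)]
  | single y m =>
    rw [bc_single, wrigb_single, sp_cst, Finsupp.single_apply]
    split_ifs with e
    · rw [e, lin, val_cst (Or.inr (by omega)), (val_eq_zero_iff (Or.inr (by omega))).2 (Or.inr ht.ge),
        map_zero, map_zero, sub_zero]
    · rw [zpow_zero]

theorem wrigb_main {U : KV k Ω} {x : Place k K} {t : K} (ht : x.ord t = 1) (E : Dv Ω F) : 0 ≤ E →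
    ∃ P : Polynomial Ω, wrigb_gd U P ∧ (P.natDegree : ℤ) ≤ spD K U E x ∧
      lp U x t E = aeval (algebraMap K F t)⁻¹ P * algebraMap K F t ^ spD K U E x := by
  induction E using Finsupp.induction with
  | zero => exact fun _ => ⟨1, wrigb_one U, by simp, by simp [lp]⟩
  | single_add Q m f hQ _ ih =>
    intro hE
    have h0 : f Q = 0 := Finsupp.notMem_support_iff.1 hQ
    obtain ⟨P, g, d, e⟩ := ih fun Q' => by
      by_cases r : Q = Q'
      · exact (r ▸ h0).ge
      · simpa [Finsupp.single_apply, r] using hE Q'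
    obtain ⟨n, rfl⟩ := Int.eq_ofNat_of_zero_le (show 0 ≤ m by simpa [h0] using hE Q)
    rw [lp_add ht, map_add, spD_single, wrigb_single, Finsupp.add_apply, Finsupp.single_apply, e]
    split_ifs with r
    swap
    · exact ⟨P, g, by omega, by rw [one_mul, zero_add]⟩
    obtain ⟨-, a, b⟩ := sp_eq_iff.1 r t (Or.inr (by omega))
    rw [(val_eq_zero_iff (Or.inr (by omega))).2 (Or.inr ht.ge), U.rs_eq_zero_iff a] at b
    have g1 : wrigb_gd U (1 - monomial 1 (val Q (algebraMap K F t))) := ⟨by simp [coeff_monomial],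
      fun i hi => by
        rw [coeff_sub, coeff_one, if_neg hi.ne', zero_sub, Valuation.map_neg, coeff_monomial]
        split_ifs
        · exact b
        · rw [map_zero]; exact zero_lt_one⟩
    have d1 : (1 - monomial 1 (val Q (algebraMap K F t))).natDegree ≤ 1 :=
      (natDegree_sub_le _ _).trans (max_le (by simp) (natDegree_monomial_le _))
    refine ⟨(1 - monomial 1 (val Q (algebraMap K F t))) ^ n * P,
      wrigb_mul (pow_mem (S := Submonoid.mk ⟨{P | wrigb_gd U P}, wrigb_mul⟩ (wrigb_one U)) g1 n) g,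
      ?_, ?_⟩
    · have := natDegree_mul_le (p := (1 - monomial 1 (val Q (algebraMap K F t))) ^ n) (q := P)
      have := natDegree_pow_le_of_le n d1
      omega
    · have : lin Q t = aeval (algebraMap K F t)⁻¹ (1 - monomial 1 (val Q (algebraMap K F t))) *
          algebraMap K F t := by
        rw [map_sub, map_one, aeval_monomial, pow_one, sub_mul, one_mul,
          inv_mul_cancel_right₀ (wrigb_ne ht), lin]
      rw [this, zpow_add₀ (wrigb_ne ht), zpow_natCast, zpow_natCast, map_mul, map_pow]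
      ring

/-- The local computation. -/
theorem rig_poly {U : KV k Ω} {x : Place k K} {t : K} (ht : x.ord t = 1) {E : Dv Ω F} (hE : 0 ≤ E) :
    ∃ P : Polynomial Ω, P.coeff 0 = 1 ∧ (P.natDegree : ℤ) ≤ spD K U E x ∧
      (∀ i, 0 < i → P.coeff i ∈ U.O ∧ U.rs (P.coeff i) = 0) ∧
      lp U x t (E - bc Ω F (spD K U E)) = aeval (algebraMap K F t)⁻¹ P := by
  obtain ⟨P, g, d, e⟩ := wrigb_main (U := U) ht E hE
  refine ⟨P, g.1, d, fun i hi => ?_, ?_⟩
  · have := U.O.mem_of_valuation_le_one _ (g.2 i hi).le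
    exact ⟨this, (U.rs_eq_zero_iff this).2 (g.2 i hi)⟩
  · refine mul_right_cancel₀ (zpow_ne_zero (spD K U E x) (wrigb_ne (F := F) ht)) ?_
    rw [← e, ← wrigb_bc (Ω := Ω) U ht, ← lp_add ht, sub_add_cancel]

theorem wrig_ge {x : Place k K} {t : K} (ht : x.ord t = 1) (a : ℕ → k) (d : ℕ) :
    x.Ge (∑ i ∈ Finset.range d, algebraMap k K (a i) * t⁻¹ ^ (i + 1)) (-d) :=
  Place.Ge.sum fun i hi => ((x.ge_const _).mul (x.ge_ord _)).mono (by
    have := Finset.mem_range.1 hi
    simp only [Place.ord_pow, Place.ord_inv, ht]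
    omega)

theorem wrig_pole {x : Place k K} {t : K} (ht : x.ord t = 1) (a : ℕ → k) (d : ℕ)
    (h : x.Ge (∑ i ∈ Finset.range d, algebraMap k K (a i) * t⁻¹ ^ (i + 1)) 0) :
    ∀ i < d, a i = 0 := by
  have h0 : t ≠ 0 := fun e => by simp [e] at ht
  induction d with
  | zero => simp
  | succ d ih =>
    rw [Finset.sum_range_succ] at h
    have h1 : a d = 0 := by
      have := (h.mono (show -(d : ℤ) ≤ 0 by omega)).sub (wrig_ge ht a d)
      rw [add_sub_cancel_left, Place.ge_mul_iff (pow_ne_zero _ (inv_ne_zero h0))] at this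
      refine Place.const_eq_zero_of_ge (this.mono ?_)
      simp only [Place.ord_pow, Place.ord_inv, ht]
      omega
    rw [h1, map_zero, zero_mul, add_zero] at h
    exact fun i hi => (Nat.lt_succ_iff_lt_or_eq.1 hi).elim (ih h i) fun e => e ▸ h1

theorem wrig_loc {U : KV k Ω} {x : Place k K} (t : K) {P : Polynomial Ω} {w : Ω} (hw : w ≠ 0)
    (hw1 : w ∈ U.O) (hw2 : U.rs w = 0) (h0 : P.coeff 0 = 1)
    (hP : ∀ i, P.coeff (i + 1) / w ∈ U.O) {u : F} (hu : u ∈ Bx U x) (n : ℕ)
    (hb : (u * aeval (algebraMap K F t)⁻¹ P ^ n - 1) / algebraMap Ω F w ∈ Gs K U) :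
    x.Ge (red K U ((u * aeval (algebraMap K F t)⁻¹ P ^ n - 1) / algebraMap Ω F w) -
      n * ∑ i ∈ Finset.range P.natDegree,
        algebraMap k K (U.rs (P.coeff (i + 1) / w)) * t⁻¹ ^ (i + 1)) 0 := by
  have hw' : algebraMap Ω F w ≠ 0 := by simpa using hw
  set σ : F := ∑ i ∈ Finset.range P.natDegree,
    algebraMap Ω F (P.coeff (i + 1) / w) * algebraMap K F (t⁻¹ ^ (i + 1)) with hσ
  have h1 : ∀ i ∈ Finset.range P.natDegree, algebraMap Ω F (P.coeff (i + 1) / w) *
      algebraMap K F (t⁻¹ ^ (i + 1)) ∈ Gs K U := fun i _ => mul_mem (Ω_mem_Gs (hP i)) (K_mem_Gs _)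
  have h2 : σ ∈ Gs K U := sum_mem h1
  have h3 : red K U σ = ∑ i ∈ Finset.range P.natDegree,
      algebraMap k K (U.rs (P.coeff (i + 1) / w)) * t⁻¹ ^ (i + 1) := by
    rw [red_sum h1]
    exact Finset.sum_congr rfl fun i _ => by
      rw [red_mul (Ω_mem_Gs (hP i)) (K_mem_Gs _), red_Ω (hP i), red_K]
  have h4 : aeval (algebraMap K F t)⁻¹ P = algebraMap Ω F w * σ + 1 := by
    rw [aeval_eq_sum_range, Finset.sum_range_succ', h0, pow_zero, one_smul, Finset.mul_sum]
    refine congrArg (· + 1) (Finset.sum_congr rfl fun i _ => ?_)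
    rw [map_div₀, map_pow, map_inv₀, ← mul_assoc, mul_div_cancel₀ _ hw', Algebra.smul_def]
  generalize aeval (algebraMap K F t)⁻¹ P = s at h4 hb ⊢
  have h5 : s ∈ Gs K U := h4 ▸ add_mem (mul_mem (Ω_mem_Gs hw1) h2) (one_mem _)
  have h6 : red K U s = 1 := by
    rw [h4, red_add (mul_mem (Ω_mem_Gs hw1) h2) (one_mem _), red_mul (Ω_mem_Gs hw1) h2, red_Ω hw1,
      hw2, map_zero, zero_mul, zero_add, red_one]
  have h7 : red K U (s ^ n) = 1 := by rw [red_pow h5, h6, one_pow]
  have h8 : red K U (s ^ n)⁻¹ = 1 := by rw [red_inv (h7 ▸ one_ne_zero), h7, inv_one]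
  have h9 : ∑ j ∈ Finset.range n, s ^ j ∈ Gs K U := sum_mem fun j _ => pow_mem h5 j
  have h10 : red K U (∑ j ∈ Finset.range n, s ^ j) = n := by
    rw [red_sum fun j _ => pow_mem h5 j]
    simp [red_pow h5, h6]
  have h11 : (u - 1) / algebraMap Ω F w = ((u * s ^ n - 1) / algebraMap Ω F w -
      (∑ j ∈ Finset.range n, s ^ j) * σ) * (s ^ n)⁻¹ := by
    have e := geom_sum_mul s n
    have e' := ne_zero_of_red (h7 ▸ one_ne_zero : red K U (s ^ n) ≠ 0)
    rw [h4, add_sub_cancel_right, ← h4] at e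
    field_simp
    linear_combination e
  have h12 := mem_Gs_of_red (h8 ▸ one_ne_zero : red K U (s ^ n)⁻¹ ≠ 0)
  have h13 := sub_mem hb (mul_mem h9 h2)
  have := red_ge (sat_Bx (sub_mem hu (one_mem _)) (h11 ▸ mul_mem h13 h12))
  rwa [h11, red_mul h13 h12, h8, mul_one, red_sub hb (mul_mem h9 h2), red_mul h9 h2, h10,
    h3] at this

theorem wrig_form {n : ℕ} {U : KV k Ω} {D : Dv Ω F} {h : F} (h0 : red K U h ≠ 0)
    (hh : dv Ω h = n • D) {x : Place k K} {t : K} (ht : x.ord t = 1) :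
    ∃ u ∈ Bx U x, h = u * lp U x t D ^ n := by
  obtain ⟨u, hu, -, e⟩ := local_form ht h0
  refine ⟨u, hu, e.trans (congrArg _ ?_)⟩
  rw [hh]
  clear hh
  induction n with
  | zero => simp [lp]
  | succ n ih => rw [succ_nsmul, lp_add ht, ih, pow_succ]

theorem wrig_one {n : ℕ} (hn : (n : k) ≠ 0) {U : KV k Ω} {E : Dv Ω F} (hE : 0 ≤ E)
    (h1 : ell (spD K U E) = 1) {h : F} (h0 : red K U h = 1) {o : Place k K}
    (hb : h ∈ Bx U o) (ho : val (cst Ω F o) h = 1)
    (hh : dv Ω h = n • (E - bc Ω F (spD K U E))) : h = 1 := by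
  by_contra h2
  choose t _ ht using fun x : Place k K => x.surj
  choose P P0 P1 P2 P3 using fun x => rig_poly (U := U) (ht x) hE
  choose u hu he using fun x => wrig_form (h0 ▸ one_ne_zero) hh (ht x)
  simp only [P3] at he
  obtain ⟨c, c0, hc⟩ := exists_norm K U (sub_ne_zero.2 h2)
  have h3 := sub_mem (Bx_le hb) (one_mem _)
  have c1 : c⁻¹ ∉ U.O := fun c1 => hc (by
    rw [div_eq_mul_inv, ← map_inv₀, red_mul h3 (Ω_mem_Gs c1), red_sub (Bx_le hb) (one_mem _), h0,
      red_one, sub_self, zero_mul])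
  obtain ⟨w, hw, w0, hm⟩ := U.exists_max (insert c ((spD K U E).support.biUnion fun x =>
    (Finset.range (P x).natDegree).image fun i => (P x).coeff (i + 1))) id
    ⟨c, Finset.mem_insert_self _ _, c0⟩
  simp only [id, Finset.mem_insert, Finset.mem_biUnion, Finset.mem_image, Finset.mem_range,
    forall_eq_or_imp] at hw w0 hm
  have w1 : w ∈ U.O ∧ U.rs w = 0 := by
    rcases hw with rfl | ⟨x, -, i, -, rfl⟩
    · simpa using (U.inv_of_notMem c1).2
    · exact P2 x _ i.succ_pos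
  have w2 : ∀ x i, (P x).coeff (i + 1) / w ∈ U.O := fun x i => by
    by_cases hi : i < (P x).natDegree
    · refine hm.2 _ ⟨x, Finsupp.mem_support_iff.2 fun e => ?_, i, hi, rfl⟩
      have := P1 x
      omega
    · rw [coeff_eq_zero_of_natDegree_lt (by omega), zero_div]
      exact zero_mem _
  have w3 : algebraMap Ω F w ≠ 0 := by simpa using w0
  have h4 : (h - 1) / algebraMap Ω F w ∈ Gs K U := by
    have c2 : algebraMap Ω F c ≠ 0 := by simpa using c0
    rw [show (h - 1) / algebraMap Ω F w = (h - 1) / algebraMap Ω F c * algebraMap Ω F (c / w) by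
      rw [map_div₀]; field_simp]
    exact mul_mem (mem_Gs_of_red hc) (Ω_mem_Gs hm.1)
  have h5 := fun x => wrig_loc (t x) w0 w1.1 w1.2 (P0 x) (w2 x) (hu x) n (he x ▸ h4)
  simp only [← he] at h5
  have hn' : ∀ x : Place k K, x.Ge (n : K) 0 := fun x => by simpa using x.ge_const n
  obtain ⟨a, ha⟩ := const_of_ell (spD_nonneg hE) h1 (f := red K U ((h - 1) / algebraMap Ω F w))
    fun x => by
      have := P1 x
      have := ((h5 x).mono (show -((P x).natDegree : ℤ) ≤ 0 by omega)).add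
        (((hn' x).mul (wrig_ge (ht x) (fun i => U.rs ((P x).coeff (i + 1) / w)) _)).mono
          (zero_add _).ge)
      rw [sub_add_cancel] at this
      exact this.mono (by omega)
  have hs : Sp U (cst Ω F o) o := sp_eq_iff.1 (sp_cst U o)
  have h6 := (hs.eval (sat_Bx (sub_mem hb (one_mem _)) h4)).2.2
  rw [val_div (hs.eval (sub_mem hb (one_mem _))).1 (Place.ord_const _ _),
    val_sub (hs.eval hb).1 (Place.ge_one _), ho, val_one, sub_self, zero_div, U.rs_zero, ha,
    val_const] at h6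
  rw [← h6, map_zero] at ha
  rcases hw with rfl | ⟨x, -, i, hi, rfl⟩
  · exact hc ha
  · have h7 := (x.ge_const (-(n : k)⁻¹)).mul (h5 x)
    rw [ha, zero_sub, map_neg, neg_mul_neg, ← mul_assoc, ← map_natCast (algebraMap k K), ← map_mul,
      inv_mul_cancel₀ hn, map_one, one_mul] at h7
    have h8 := wrig_pole (ht x) _ _ h7 i hi
    rw [div_self w0, U.rs_one] at h8
    exact one_ne_zero h8

/-- multiplication by `n` is unramified -/
theorem rig_eq {n : ℕ} (hn : (n : k) ≠ 0) {U : KV k Ω} {E : Dv Ω F} (hE : 0 ≤ E)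
    (h1 : ell (spD K U E) = 1) {h : F} (h0 : h ≠ 0)
    (hh : dv Ω h = n • (E - bc Ω F (spD K U E))) : E = bc Ω F (spD K U E) := by
  obtain ⟨c, c0, hc⟩ := exists_norm K U h0
  have e1 : dv Ω (h / algebraMap Ω F c) = n • (E - bc Ω F (spD K U E)) := by
    rw [dv_div h0 (by simpa using c0), dv_const, sub_zero, hh]
  generalize h / algebraMap Ω F c = g at hc e1
  obtain ⟨a, ha⟩ := const_of_dv (k := k) (f := red K U g) (by
    rw [← spD_dv hc, e1, map_nsmul, map_sub, spD_bc, sub_self, nsmul_zero])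
  have a0 : a ≠ 0 := fun e => hc (by rw [ha, e, map_zero])
  obtain ⟨o, ho⟩ := Infinite.exists_notMem_finset (spD K U E).support
  obtain ⟨t, -, ht⟩ := o.surj
  obtain ⟨P, P0, P1, -, P3⟩ := rig_poly (U := U) ht hE
  obtain ⟨u, hu, e2⟩ := wrig_form hc e1 ht
  rw [Finsupp.notMem_support_iff.1 ho] at P1
  rw [P3, eq_C_of_natDegree_eq_zero (show P.natDegree = 0 by omega), P0, map_one, map_one, one_pow,
    mul_one] at e2
  subst e2
  have hs : Sp U (cst Ω F o) o := sp_eq_iff.1 (sp_cst U o)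
  obtain ⟨v1, v2, v3⟩ := hs.eval hu
  rw [ha, val_const] at v3
  obtain ⟨-, d0, d1, d2⟩ := U.inv_mem (v3 ▸ a0 : U.rs (val (cst Ω F o) g) ≠ 0)
  have e3 : dv Ω (g * algebraMap Ω F (val (cst Ω F o) g)⁻¹) = n • (E - bc Ω F (spD K U E)) := by
    rw [dv_mul (ne_zero_of_red hc) (by simpa using d0), dv_const, add_zero, e1]
  have e4 := wrig_one hn hE h1 (by
    rw [red_mul (Bx_le hu) (Ω_mem_Gs d1), red_Ω d1, d2, v3, ha, ← map_mul, mul_inv_cancel₀ a0,
      map_one]) (mul_mem hu (Ω_mem_Bx d1))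
    (by rw [val_mul v1 (Place.ge_const _ _), val_const, mul_inv_cancel₀ d0]) e3
  rw [e4, dv_one, eq_comm, smul_eq_zero, sub_eq_zero] at e3
  exact e3.resolve_left fun e => hn (by rw [e, Nat.cast_zero])

/-- specialisation is injective on torsion classes -/
theorem rig_inj {n : ℕ} (hn : (n : k) ≠ 0) (U : KV k Ω) {D : Dv Ω F} (h : n • cl D = 0)
    (h0 : cl (spD K U D) = 0) : cl D = 0 := by
  obtain ⟨g, hg⟩ := exists_gen k K
  obtain ⟨g', hg'⟩ := exists_gen Ω F
  obtain ⟨E₀, e0, e1, e2⟩ := hg.nonspecial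
  have d0 : deg D = 0 := by
    rw [← deg_spD (K := K) (U := U), deg_eq_of_cl (h0.trans (map_zero cl).symm), map_zero]
  obtain ⟨y, y0, hE⟩ := hg'.eff (D := D + bc Ω F E₀) (by
    rw [map_add, d0, deg_bc, e1, zero_add]; exact_mod_cast hg.bc_le hg')
  have c1 : cl (D + bc Ω F E₀ + dv Ω y) = cl (D + bc Ω F E₀) := by
    rw [map_add, cl_dv y0, add_zero]
  have s : spD K U (D + bc Ω F E₀ + dv Ω y) = E₀ := eq_of_ell e0 e2 (spD_nonneg hE) (by
    rw [cl_spD U c1, map_add, map_add, h0, zero_add, spD_bc])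
  have c2 : cl (D + bc Ω F E₀ + dv Ω y - bc Ω F E₀) = cl D := by
    rw [map_sub, c1, map_add, add_sub_cancel_right]
  obtain ⟨f, f0, hf⟩ := cl_eq_zero.1 (show cl (n • (D + bc Ω F E₀ + dv Ω y - bc Ω F E₀)) = 0 by
    rw [map_nsmul, c2, h])
  have := rig_eq hn hE (by rw [s, e2]) f0 (by rw [s, hf])
  rw [s] at this
  rw [← c2, this, sub_self, map_zero]

variable (k K) in
/-- torsion classes are defined over `k` -/
theorem rigid {n : ℕ} (hn : (n : k) ≠ 0) {D : Dv Ω F} (h : n • cl D = 0) :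
    ∃ A : Dv k K, n • cl A = 0 ∧ cl (bc Ω F A) = cl D := by
  obtain ⟨U⟩ := exists_kv k Ω
  have h1 : n • cl (spD K U D) = 0 := by
    rw [← map_nsmul, ← map_nsmul, cl_spD U (D' := 0) (by rw [map_nsmul, h, map_zero]), map_zero,
      map_zero]
  have h2 : n • cl (bc Ω F (spD K U D)) = 0 := by
    rw [← map_nsmul, ← map_nsmul, (cl_bc (A' := 0)).2 (by rw [map_nsmul, h1, map_zero]), map_zero,
      map_zero]
  refine ⟨_, h1, sub_eq_zero.1 ?_⟩
  rw [← map_sub]
  exact rig_inj (K := K) hn U (by rw [map_sub, nsmul_sub, h, h2, sub_zero])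
    (by rw [map_sub, spD_bc, sub_self, map_zero])

end

end Pool.Agent.Lib.MP_16ef92_ag.AL
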