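import Mathlib
import Pool.Agent.Lib.MP_16ef92_ag.AL.WHom
import Pool.Agent.Lib.MP_16ef92_ag.AL.WRig

set_option autoImplicit false
set_option linter.unusedSectionVars false
set_option linter.unusedVariables false

namespace Pool.Agent.Lib.MP_16ef92_ag.AL

open Pool.Agent.Lib.MP_6adaea_nt Cardinal
open scoped Classical

noncomputable section

variable {k K Ω F : Type} [Field k] [Field K] [Field Ω] [Field F] [Algebra k K]
  [Algebra k Ω] [Algebra k F] [Algebra K F] [Algebra Ω F] [IsScalarTower k K F]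
  [IsScalarTower k Ω F] [BC k K Ω F] [IsAlgClosed k] [IsFF k K] [PosChar k] [IsAlgClosed Ω]
  [IsFF Ω F] [PosChar Ω]
  {κ : Cardinal.{0}} {n : ℕ}

variable (Ω F) in
/-- the divisors whose class is divisible by `n` -/
def Hn (n : ℕ) : AddSubgroup (Dv Ω F) := (nsmulAddMonoidHom n).range.comap cl

theorem mem_Hn {D : Dv Ω F} : D ∈ Hn Ω F n ↔ ∃ D' : Dv Ω F, n • cl D' = cl D :=
  ⟨fun ⟨c, h⟩ => let ⟨D', e⟩ := cl_surj c; ⟨D', e ▸ h⟩, fun ⟨_, h⟩ => ⟨_, h⟩⟩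

theorem Hn_dm (s : SA Ω F) {D : Dv Ω F} (h : D ∈ Hn Ω F n) : s.dm D ∈ Hn Ω F n := by
  obtain ⟨D', h⟩ := mem_Hn.1 h
  exact mem_Hn.2 ⟨s.dm D', by rw [← SA.pic_cl, ← SA.pic_cl, ← h, map_nsmul]⟩

theorem wdiv1_fix {σ : Ω ≃ₐ[k] Ω} {D : Dv Ω F}
    (h : ∀ ζ : K →ₐ[k] Ω, D (gen F ζ) ≠ 0 → ∀ a, σ (ζ a) = ζ a) : (ext K F σ).dm D = D := by
  conv_lhs => rw [← Finsupp.sum_single D, map_finsuppSum]
  refine (Finsupp.sum_congr fun Q hQ => ?_).trans (Finsupp.sum_single D)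
  rw [SA.dm_single]
  obtain ⟨x, rfl⟩ | ⟨ζ, rfl⟩ := pt_cases (k := k) K Q
  · rw [ext_cst]
  · rw [ext_gen, show (σ : Ω →ₐ[k] Ω).comp ζ = ζ from
      AlgHom.ext (h ζ (Finsupp.mem_support_iff.1 hQ))]

theorem wdiv1_alg {L M : IntermediateField k Ω} (h : ∀ y ∈ M, IsAlgebraic L y) {z : Ω}
    (hz : IsAlgebraic M z) : IsAlgebraic L z := by
  have h1 : IsAlgebraic (algebraicClosure L Ω) z :=
    IsAlgebraic.tower_top_of_subalgebra_le (A := M.toSubalgebra)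
      (B := ((algebraicClosure L Ω).restrictScalars k).toSubalgebra)
      (fun y hy => mem_algebraicClosure_iff.2 (h y hy)) hz
  exact h1.restrictScalars L

/-- the difference of two general points is divisible by `n` -/
theorem div_one (hn : (n : k) ≠ 0) (h0 : ℵ₀ ≤ κ) (hΩ : κ < Cardinal.mk Ω)
    (hK : Cardinal.mk K ≤ κ) (hP : Cardinal.mk (Pic k K) ≤ κ) {t : K} (ht : Transcendental k t)
    {g : ℕ} (hg : IsGen Ω F g) (hg0 : 0 < g) : ∃ (ξ : K →ₐ[k] Ω) (L : IntermediateField k Ω),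
      Cardinal.mk L ≤ κ ∧ ∀ ξ' : K →ₐ[k] Ω, Transcendental L (ξ' t) →
        Finsupp.single (gen F ξ') 1 - Finsupp.single (gen F ξ) 1 ∈ Hn Ω F n := by
  obtain ⟨ξ, h1, h2⟩ := exists_generic h0 hΩ hK ht hg
  obtain ⟨o⟩ : Nonempty (Place k K) := inferInstance
  have a1 := wrie_deg_sum Finset.univ fun i => gen F (ξ i)
  have a2 := wrie_sum_nonneg Finset.univ fun i => gen F (ξ i)
  have a3 : ∀ i, (∑ i, Finsupp.single (gen F (ξ i)) (1 : ℤ) : Dv Ω F) (gen F (ξ i)) ≠ 0 := fun i => by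
    have := Finset.single_le_sum (f := fun i => (Finsupp.single (gen F (ξ i)) (1 : ℤ) : Dv Ω F))
      (fun _ _ => Finsupp.single_nonneg.2 zero_le_one) (Finset.mem_univ i) (gen F (ξ i))
    rw [Finsupp.single_eq_same] at this
    omega
  generalize (∑ i, Finsupp.single (gen F (ξ i)) (1 : ℤ) : Dv Ω F) = E at h2 a1 a2 a3
  rw [Finset.card_univ, Fintype.card_fin] at a1
  have a4 : deg (n • (E - bc Ω F (Finsupp.single o g)) + bc Ω F (Finsupp.single o g)) = g := by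
    rw [map_add, map_nsmul, map_sub, deg_bc, deg_single, a1, sub_self, smul_zero, zero_add]
  obtain ⟨f, f0, b1⟩ := hg.eff a4.ge
  have b2 : ∀ σ : Ω ≃ₐ[k] Ω, ∀ E', E' = n • (E - bc Ω F (Finsupp.single o g)) +
      bc Ω F (Finsupp.single o g) + dv Ω f →
      n • cl ((ext K F σ).dm E - E) = cl ((ext K F σ).dm E' - E') := fun σ E' e => by
    simp only [e, map_add, map_sub, map_nsmul, ext_bc, SA.dm_dv, cl_dv f0,
      cl_dv ((map_ne_zero (ext K F σ).γ).2 f0), nsmul_sub]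
    abel
  have b3 := (map_add deg _ (dv Ω f)).trans (by rw [a4, deg_dv, add_zero] : _ = (g : ℤ))
  replace b2 := fun σ => b2 σ _ rfl
  generalize n • (E - bc Ω F (Finsupp.single o g)) + bc Ω F (Finsupp.single o g) + dv Ω f = E'
    at b1 b2 b3
  let S : Finset (K →ₐ[k] Ω) := E'.support.preimage (gen F) gen_inj.injOn
  have m : ∀ ζ, ζ ∈ S ↔ E' (gen F ζ) ≠ 0 := fun ζ =>
    Finset.mem_preimage.trans Finsupp.mem_support_iff
  obtain ⟨L, l1, l2, l3⟩ := exists_fld h0 hK ht S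
  have c1 := fun i => l3 _ (alg_of_orbit h0 hΩ hP L l1 a2 h2 (fun σ hσ => by
    obtain ⟨A, -, e⟩ := rigid k K hn ((b2 σ).trans (by
      rw [wdiv1_fix fun ζ h a => hσ _ (l2 ζ ((m ζ).2 h) a), sub_self, map_zero]))
    exact ⟨A, e⟩) (a3 i) t)
  have c2 := (card_le_of_alg h1 _ c1).trans Finset.card_image_le
  have c3 : ∑ ζ ∈ S, E' (gen F ζ) ≤ g := by
    rw [← b3, deg_eq_sum _ subset_rfl, ← Finset.sum_image (f := E') gen_inj.injOn]
    exact Finset.sum_le_sum_of_subset_of_nonneg (Finset.image_subset_iff.2 fun ζ h =>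
      Finset.mem_preimage.1 h) fun Q _ _ => b1 Q
  have c4 : ∀ ζ ∈ S, 1 ≤ E' (gen F ζ) := fun ζ h => ((m ζ).1 h).symm.lt_of_le (b1 _)
  have c5 := (Finset.sum_le_sum c4).trans c3
  obtain ⟨ζ, z1, z2⟩ := Finset.exists_le_of_sum_le (f := fun ζ => E' (gen F ζ)) (g := fun _ => 1)
    (Finset.card_pos.1 (hg0.trans_le c2)) (c3.trans (by simpa using c2))
  obtain ⟨L', d1, d2, d3⟩ := exists_fld h0 hK ht (S.erase ζ)
  have d4 : Transcendental L' (ζ t) := fun h => by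
    have := (card_le_of_alg h1 ((S.erase ζ).image fun ξ => ξ t) fun i => wdiv1_alg (fun y hy =>
      mem_algebraicClosure_iff.1 ((IntermediateField.adjoin_le_iff (T := (algebraicClosure
        _ Ω).restrictScalars k)).2 (fun y hy => ?_) hy)) (c1 i)).trans Finset.card_image_le
    · rw [Finset.card_erase_of_mem z1] at this
      simp only [Finset.sum_const, nsmul_eq_mul, mul_one, Nat.cast_le] at c5
      omega
    obtain ⟨η, e1, rfl⟩ := Finset.mem_image.1 hy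
    refine mem_algebraicClosure_iff.2 (d3 _ ?_)
    by_cases e : η = ζ
    · exact e ▸ h
    · exact isAlgebraic_algebraMap (⟨_, d2 η (Finset.mem_erase.2 ⟨e, e1⟩) t⟩ : L')
  refine ⟨ζ, L', d1, fun ξ' h => ?_⟩
  obtain ⟨σ, s1, s2⟩ := hom_emb F h0 hΩ hK L' d1 d4 h
  have s3 := wdiv1_fix (K := K) (σ := σ) (D := E' - Finsupp.single (gen F ζ) 1) fun η h a => by
    refine s1 _ (d2 η (Finset.mem_erase.2 ?_) a)
    by_cases e : η = ζ
    · exact absurd (by rw [e, Finsupp.sub_apply, Finsupp.single_eq_same, z2.antisymm (c4 ζ z1),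
        sub_self]) h
    · rw [Finsupp.sub_apply, Finsupp.single_eq_of_ne (gen_inj.ne e), sub_zero] at h
      exact ⟨e, (m η).2 h⟩
  rw [map_sub, SA.dm_single, ext_gen, show (σ : Ω →ₐ[k] Ω).comp ζ = ξ' from AlgHom.ext s2,
    sub_eq_sub_iff_sub_eq_sub] at s3
  exact mem_Hn.2 ⟨_, s3 ▸ b2 σ⟩

theorem wdiv1_prin {f : F} (hf : f ≠ 0) : dv Ω f ∈ Hn Ω F n :=
  mem_Hn.2 ⟨0, by rw [map_zero, smul_zero, cl_dv hf]⟩

theorem wdiv1_two (h0 : ℵ₀ ≤ κ) {L A : Type} [Field L] [Field A] [Algebra L A]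
    (hA : κ < Cardinal.mk A) (hL : Cardinal.mk L ≤ κ) {a b : A → A} (ha : Function.Injective a)
    (hb : Function.Injective b) : ∃ z, Transcendental L (a z) ∧ Transcendental L (b z) := by
  by_contra h
  have h1 : Cardinal.mk (algebraicClosure L A) ≤ κ :=
    (Algebra.IsAlgebraic.cardinalMk_le_max L _).trans (max_le hL h0)
  have h2 : (Set.univ : Set A) ⊆ a ⁻¹' (algebraicClosure L A) ∪ b ⁻¹' (algebraicClosure L A) :=
    fun z _ => by_contra fun hz => h ⟨z, fun e => hz (Or.inl (mem_algebraicClosure_iff.2 e)),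
      fun e => hz (Or.inr (mem_algebraicClosure_iff.2 e))⟩
  refine hA.not_ge (Cardinal.mk_univ.symm.trans_le ((Cardinal.mk_le_mk_of_subset h2).trans
    ((Cardinal.mk_union_le _ _).trans (Cardinal.add_le_of_le h0 ?_ ?_))))
  · exact (Cardinal.mk_preimage_of_injective _ _ ha).trans h1
  · exact (Cardinal.mk_preimage_of_injective _ _ hb).trans h1

theorem wdiv1_sum {D : Dv Ω F} (hD : deg D = 0) (Q₀ : Place Ω F) :
    D = ∑ Q ∈ D.support, D Q • (Finsupp.single Q 1 - Finsupp.single Q₀ 1 : Dv Ω F) := by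
  simp only [smul_sub, Finset.sum_sub_distrib, ← Finset.sum_smul]
  rw [← deg_eq_sum D subset_rfl, hD, zero_smul, sub_zero]
  simp only [Finsupp.smul_single, smul_eq_mul, mul_one]
  exact (Finsupp.sum_single D).symm

/-- Transport `div_one` along `τ` with `τ ∘ ξ = ξ₁` (`ext_aut` with `E = K`); choose `ξ'` generic
over the compositum of two small fields. Genus zero: `IsGen.eff`. -/
theorem div_gen (hn : (n : k) ≠ 0) (h0 : ℵ₀ ≤ κ) (hΩ : κ < Cardinal.mk Ω)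
    (hK : Cardinal.mk K ≤ κ) (hP : Cardinal.mk (Pic k K) ≤ κ) (ξ₁ ξ₂ : K →ₐ[k] Ω) :
    Finsupp.single (gen F ξ₁) 1 - Finsupp.single (gen F ξ₂) 1 ∈ Hn Ω F n := by
  obtain ⟨g, hg⟩ := exists_gen Ω F
  rcases g.eq_zero_or_pos with rfl | hg0
  · obtain ⟨f, hf, h⟩ := hg.eff (D := Finsupp.single (gen F ξ₂) 1 - Finsupp.single (gen F ξ₁) 1)
      (by rw [map_sub, deg_single, deg_single]; simp)
    have e := eq_zero_of_deg_le h (by rw [map_add, map_sub, deg_single, deg_single, deg_dv]; simp)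
    rw [← neg_sub, neg_eq_of_add_eq_zero_right e]
    exact wdiv1_prin hf
  obtain ⟨t, ht, -⟩ := IsFF.ex (k := k) (K := K)
  obtain ⟨ξ, L, hL, H⟩ := div_one hn h0 hΩ hK hP ht hg hg0
  have key : ∀ η : K →ₐ[k] Ω, ∃ τ : Ω ≃ₐ[k] Ω, ∀ a, τ (ξ a) = η a := fun η => by
    obtain ⟨σ, hσ⟩ := ext_aut h0 hΩ hK ξ.toRingHom η.toRingHom
    exact ⟨{ σ with commutes' := fun c => by simpa using hσ (algebraMap k K c) }, hσ⟩
  obtain ⟨τ₁, h1⟩ := key ξ₁
  obtain ⟨τ₂, h2⟩ := key ξ₂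
  obtain ⟨z, hz1, hz2⟩ := wdiv1_two h0 hΩ hL τ₁.symm.injective τ₂.symm.injective
  obtain ⟨η, rfl⟩ := exists_emb ht (z := z) fun e =>
    hz1 ((e.algHom (τ₁.symm : Ω →ₐ[k] Ω)).tower_top L)
  have tr : ∀ (τ : Ω ≃ₐ[k] Ω) (ζ : K →ₐ[k] Ω), (∀ a, τ (ξ a) = ζ a) →
      Transcendental L (τ.symm (η t)) →
      Finsupp.single (gen F η) 1 - Finsupp.single (gen F ζ) 1 ∈ Hn Ω F n := fun τ ζ h h' => by
    have := Hn_dm (ext K F τ) (H ((τ.symm : Ω →ₐ[k] Ω).comp η) h')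
    rwa [map_sub, SA.dm_single, SA.dm_single, ext_gen, ext_gen,
      show (τ : Ω →ₐ[k] Ω).comp ((τ.symm : Ω →ₐ[k] Ω).comp η) = η from
        AlgHom.ext fun a => τ.apply_symm_apply _,
      show (τ : Ω →ₐ[k] Ω).comp ξ = ζ from AlgHom.ext h] at this
  have := sub_mem (tr τ₂ ξ₂ h2 hz2) (tr τ₁ ξ₁ h1 hz1)
  rwa [sub_sub_sub_cancel_left] at this

/-- For `y` from `exists_pole` and `z ∈ Ω` not in `k`, the zeros of `y - z` are places `gen ξ` and
the only pole is `cst x` of order `N`. So `N (cst x - gen ξ₀) ∈ Hn` for `N = N₀, N₀ + 1`. -/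
theorem div_big (hn : (n : k) ≠ 0) (h0 : ℵ₀ ≤ κ) (hΩ : κ < Cardinal.mk Ω)
    (hK : Cardinal.mk K ≤ κ) (hP : Cardinal.mk (Pic k K) ≤ κ) {D : Dv Ω F} (hD : deg D = 0) :
    D ∈ Hn Ω F n := by
  obtain ⟨t, ht, -⟩ := IsFF.ex (k := k) (K := K)
  obtain ⟨z, hz, -⟩ := wdiv1_two h0 hΩ
    ((Cardinal.mk_le_of_injective (algebraMap k K).injective).trans hK)
    Function.injective_id Function.injective_id
  obtain ⟨ξ₀, -⟩ := exists_emb ht hz
  rw [wdiv1_sum hD (gen F ξ₀)]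
  refine sum_mem fun Q _ => zsmul_mem ?_ _
  rcases pt_cases (k := k) K Q with ⟨x, rfl⟩ | ⟨ξ, rfl⟩
  swap
  · exact div_gen hn h0 hΩ hK hP ξ ξ₀
  obtain ⟨N₀, hN⟩ := exists_pole x
  have H : ∀ N : ℕ, N₀ < N → (-N : ℤ) • (Finsupp.single (cst Ω F x) 1 -
      Finsupp.single (gen F ξ₀) 1 : Dv Ω F) ∈ Hn Ω F n := fun N h => by
    obtain ⟨y, y0, y1, y2⟩ := hN N h.le
    obtain ⟨f0, f1⟩ := Place.ord_add_of_ge (v := cst Ω F x) ((map_ne_zero (algebraMap K F)).2 y0)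
      (((cst Ω F x).ge_const (-z)).mono (by rw [cst_ord, y1]; omega))
    rw [cst_ord, y1] at f1
    have h1 := wdiv1_prin (Ω := Ω) (n := n) f0
    rw [wdiv1_sum (deg_dv (k := Ω) _) (gen F ξ₀), ← Finset.add_sum_erase _ _ (a := cst Ω F x)
      (Finsupp.mem_support_iff.2 (by rw [dv_apply, f1]; omega)), dv_apply, f1] at h1
    refine (add_mem_cancel_right (sum_mem fun Q hQ => zsmul_mem ?_ _)).1 h1
    rcases pt_cases (k := k) K Q with ⟨v, rfl⟩ | ⟨ξ, rfl⟩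
    · have hv := y2 v fun e => (Finset.mem_erase.1 hQ).1 (congrArg _ e)
      refine absurd (ord_of_val_ne fun e => ?_).2
        (Finsupp.mem_support_iff.1 (Finset.mem_erase.1 hQ).2)
      rw [val_add (Or.inr (by rw [cst_ord]; exact hv.le y0)) (Place.ge_const _ _), val_cst hv,
        val_const, add_neg_eq_zero] at e
      exact hz (e ▸ isAlgebraic_algebraMap _)
    · exact div_gen hn h0 hΩ hK hP ξ ξ₀
  have := sub_mem (H (N₀ + 1) (by omega)) (H (N₀ + 2) (by omega))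
  rwa [← sub_smul, show (-((N₀ + 1 : ℕ) : ℤ) - -((N₀ + 2 : ℕ) : ℤ)) = 1 by omega, one_smul] at this

end

end Pool.Agent.Lib.MP_16ef92_ag.AL
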