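import Mathlib
import Pool.Agent.Lib.MP_16ef92_ag.AL.WDiv1
import Pool.Agent.Lib.MP_16ef92_ag.AL.WBCx

set_option autoImplicit false
set_option linter.unusedSectionVars false
set_option linter.unusedVariables false

namespace Pool.Agent.Lib.MP_16ef92_ag.AL

open Pool.Agent.Lib.MP_6adaea_nt Cardinal
open scoped Classical

noncomputable section

variable {k K : Type} [Field k] [Field K] [Algebra k K] [IsAlgClosed k] [IsFF k K] [PosChar k]

/-- Classes of degree zero are divisible. -/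
theorem pic_div {n : ℕ} (hn : (n : k) ≠ 0) {D : Dv k K} (hD : deg D = 0) :
    ∃ (D' : Dv k K) (f : K), f ≠ 0 ∧ D = n • D' + dv k f := by
  obtain ⟨Ω, _, _, _, hΩ⟩ := exists_big k (max (max ℵ₀ (Cardinal.mk K)) (Cardinal.mk (Pic k K)))
  obtain ⟨F, _, _, _, _, _, _, _⟩ := exists_bc k K Ω
  have := bc_isFF k K Ω F
  have := posChar_of k Ω
  obtain ⟨U⟩ := exists_kv k Ω
  obtain ⟨D', h⟩ := mem_Hn.1 (div_big (F := F) hn (le_max_of_le_left (le_max_left _ _)) hΩ
    (le_max_of_le_left (le_max_right _ _)) (le_max_right _ _) ((deg_bc D).trans hD))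
  rw [← map_nsmul] at h
  obtain ⟨f, h0, hf⟩ := cl_eq.1 (cl_spD (K := K) U h).symm
  exact ⟨spD K U D', f, h0, by rw [hf, spD_bc, map_nsmul, add_sub_cancel]⟩

end

end Pool.Agent.Lib.MP_16ef92_ag.AL
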