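import Mathlib
import Pool.Agent.Lib.MP_16ef92_ag.AL.PPlc
import Pool.Agent.Lib.MP_16ef92_ag.AL.PAdm
import Pool.Agent.Lib.MP_16ef92_ag.AL.WDiv

set_option autoImplicit false
set_option linter.unusedSectionVars false
set_option linter.unusedVariables false

namespace Pool.Agent.Lib.MP_16ef92_ag.AL

open Polynomial Pool.Agent.Lib.MP_6adaea_nt

noncomputable section

variable {F : Type} [Field F] [Clos F] [Fintype F] [hq : Fact (Odd (Fintype.card F))]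

/-- Good places of the projective line. -/
def Gd (N : F[X]) (x : Option (kk F)) : Prop := ∃ c, x = some c ∧ aeval c N ≠ 0

variable {N : F[X]} {U : OS F} {O : ValuationSubring (Om F)} {v : U.Pl} {l a : ℕ} [Fact l.Prime]
  {r : Om F}

theorem not_gd_none : ¬ Gd N none := fun ⟨_, h, _⟩ => by cases h

theorem gd_some {c : kk F} : Gd N (some c) ↔ aeval c N ≠ 0 :=
  ⟨fun ⟨_, h, h'⟩ => by cases h; exact h', fun h => ⟨c, rfl, h⟩⟩

theorem GI.gd {P : Gam F → Prop} (h : GI N P) {x : Option (kk F)} (hx : Gd N x) (hO : Over O x)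
    {g : Gam F} (hg : g ∈ Ine O) : P g := by
  obtain ⟨c, rfl, hc⟩ := hx
  exact h c hc O hO g hg

theorem gd_map (φ : Gam F) (x : Option (kk F)) : Gd N (x.map (ck φ)) ↔ Gd N x := by
  rcases x with _ | c
  · rfl
  have h : ∀ d : kk F, aeval d N = 0 ↔ aeval (d : Om F) N = 0 := fun d =>
    (map_eq_zero (algebraMap (kk F) (Om F))).symm.trans
      (by rw [← aeval_algebraMap_apply]; rfl)
  rw [Option.map_some, gd_some, gd_some, Ne, Ne, h, h, ck_val]
  exact not_congr (aeval_algHom_apply (φ.restrictScalars F) (c : Om F) N ▸ map_eq_zero _)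

theorem finite_bad (hN : N ≠ 0) : {x | ¬ Gd N x}.Finite := by
  refine (((N.rootSet_finite (kk F)).image some).insert none).subset ?_
  rintro (_ | c) h
  · exact Or.inl rfl
  · exact Or.inr ⟨c, mem_rootSet'.2 ⟨Polynomial.map_ne_zero hN, not_not.1 (mt gd_some.2 h)⟩, rfl⟩

theorem exists_good (hN : N ≠ 0) : ∃ c : kk F, aeval c N ≠ 0 := by
  obtain ⟨c, hc⟩ := (N.rootSet_finite (kk F)).exists_notMem
  exact ⟨c, fun e => hc (mem_rootSet'.2 ⟨Polynomial.map_ne_zero hN, e⟩)⟩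

variable (hr : IsPrimitiveRoot r (l ^ a))
include hr

theorem kp_hom {f : U.K} (hf : f ≠ 0) {g h : Gam F} (hg : g ∈ U.H) (hh : h ∈ U.H) :
    kp r (l ^ a) f (g * h) = kp r (l ^ a) f g + kp r (l ^ a) f h :=
  kp_mul hr (geo_prm hr (U.le hg)) (geo_prm hr (U.le hh)) (U.fix f hg) (U.fix f hh)
    (by simpa using hf)

theorem kp_mul_fn {f f' : U.K} (hf : f ≠ 0) (hf' : f' ≠ 0) {g : Gam F} (hg : g ∈ U.H) :
    kp r (l ^ a) (f * f' : U.K) g = kp r (l ^ a) f g + kp r (l ^ a) f' g :=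
  kp_mul_left hr (geo_prm hr (U.le hg)) (U.fix f hg) (by simpa using hf) (U.fix f' hg)
    (by simpa using hf')

theorem kp_ord (h : U.Rel O v) {π f : U.K} (hπ : v.ord π = 1) (hf : f ≠ 0) {g : Gam F}
    (hg : g ∈ U.H ⊓ Ine O) : kp r (l ^ a) f g = v.ord f * kp r (l ^ a) π g :=
  (h.unif (h.over_iff.2 rfl) hπ).kp_val hr hg (U.fix f hg.1) (h.val hπ hf)

theorem kp_ine_iff (hl : (l : F) ≠ 0) (h : U.Rel O v) {f : U.K} (hf : f ≠ 0) :
    (∀ g ∈ U.H ⊓ Ine O, kp r (l ^ a) f g = 0) ↔ (v.ord f : ZMod (l ^ a)) = 0 := by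
  obtain ⟨π, -, hπ⟩ := v.exists_ord_eq 1
  refine ⟨fun e => ?_, fun e g hg => by rw [kp_ord hr h hπ hf hg, e, zero_mul]⟩
  obtain ⟨g, hg, hu⟩ := (h.unif (h.over_iff.2 rfl) hπ).exists_unit hr hl
  exact hu.mul_left_eq_zero.1 ((kp_ord hr h hπ hf hg).symm.trans (e g hg))

theorem exists_rad (U : OS F) (χ : Gam F → ZMod (l ^ a))
    (hm : ∀ g ∈ U.H, ∀ h ∈ U.H, χ (g * h) = χ g + χ h) (hn : Near fun g => g ∈ U.H → χ g = 0) :
    ∃ f : U.K, f ≠ 0 ∧ ∀ g ∈ U.H, χ g = kp r (l ^ a) f g := by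
  obtain ⟨b, h0, hb⟩ := h90_addn hr U.H U.le χ hm hn
  exact ⟨⟨b ^ l ^ a, fun g hg => by rw [map_pow, hb g hg, mul_pow, chn_pow_one hr, one_mul]⟩,
    fun e => pow_ne_zero _ h0 (congrArg Subtype.val e), fun g hg =>
    (kp_eq hr (geo_prm hr (U.le hg)) (pow_ne_zero _ h0) rfl (hb g hg)).symm⟩

theorem kp_eq_iff {f f' : U.K} (hf : f ≠ 0) (hf' : f' ≠ 0) :
    (∀ g ∈ U.H, kp r (l ^ a) f g = kp r (l ^ a) f' g) ↔ ∃ b : U.K, f = f' * b ^ l ^ a := by
  have h0 : (f : Om F) ≠ 0 := by simpa using hf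
  have h1 : (f' : Om F) ≠ 0 := by simpa using hf'
  constructor
  · intro h
    obtain ⟨b, hb⟩ := exists_rtn hr ((f : Om F) / f')
    refine ⟨⟨b, fun g hg => ?_⟩, Subtype.ext ?_⟩
    · have e := geo_prm hr (U.le hg)
      rw [kp_spec hr e (by rw [map_div₀, U.fix f hg, U.fix f' hg]) (div_ne_zero h0 h1) hb,
        kp_div hr e (U.fix f hg) h0 (U.fix f' hg) h1, h g hg, sub_self, chn_zero, one_mul]
    · change (f : Om F) = f' * b ^ l ^ a
      rw [hb, mul_div_cancel₀ _ h1]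
  · rintro ⟨b, rfl⟩ g hg
    have h2 := right_ne_zero_of_mul hf
    rw [kp_mul_fn hr hf' h2 hg, kp_of_fix hr (geo_prm hr (U.le hg)) (z := (b ^ l ^ a : U.K))
      (by simpa using h2) (w := b) rfl (U.fix b hg), add_zero]

omit hr

theorem exists_div (hl : (l : F) ≠ 0) (D : Dv (kk F) U.K) (hD : (deg D : ZMod (l ^ a)) = 0) :
    ∃ f : U.K, f ≠ 0 ∧ ∀ v : U.Pl, (v.ord f : ZMod (l ^ a)) = D v := by
  obtain ⟨w, -⟩ := U.bel_surj none
  obtain ⟨m, hm⟩ := (ZMod.intCast_zmod_eq_zero_iff_dvd _ _).1 hD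
  obtain ⟨D', f, h0, e⟩ := pic_div (n := l ^ a) (D := D - l ^ a • Finsupp.single w m)
    (cast_kk_ne (by push_cast; exact pow_ne_zero _ hl))
    (by rw [map_sub, map_nsmul, deg_single, hm, nsmul_eq_mul, sub_self])
  refine ⟨f, h0, fun v => ?_⟩
  have h := congrArg (fun E : Dv (kk F) U.K => ((E v : ℤ) : ZMod (l ^ a))) e
  simp only [Finsupp.sub_apply, Finsupp.add_apply, Finsupp.smul_apply, nsmul_eq_mul, dv_apply,
    Int.cast_sub, Int.cast_add, Int.cast_mul, Int.cast_natCast, ZMod.natCast_self, zero_mul,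
    sub_zero, zero_add] at h
  exact h.symm

end

end Pool.Agent.Lib.MP_16ef92_ag.AL
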