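import Mathlib
import Pool.Agent.Lib.MP_16ef92_ag.AL.PRes
import Pool.Agent.Lib.MP_16ef92_ag.AL.NA0
import Pool.Agent.Lib.MP_16ef92_ag.AL.NA2b
import Pool.Agent.Lib.MP_16ef92_ag.AL.EMain

set_option autoImplicit false
set_option linter.unusedSectionVars false
set_option linter.unusedVariables false

namespace Pool.Agent.Lib.MP_16ef92_ag.AL

open Polynomial Module

noncomputable section

variable {F : Type} [Field F] [Clos F] [Fintype F] [hq : Fact (Odd (Fintype.card F))]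
  {N : F[X]} {l : ℕ} [hl : Fact l.Prime] {W : WeierstrassCurve (RatFunc F)} (T : TM l W)
  {a : kk F → ℕ → ℤ} {s : Gam F}

/-- The representation of the geometric Galois group. -/
abbrev TM.rg : Geo F →* End ℤ_[l] (Fin 2 → ℤ_[l]) := T.ro.comp (Geo F).subtype

theorem TM.psi (s : Gam F) (g : Geo F) : T.ro s * T.rg (sgm s g) = T.rg g * T.ro s := by
  simp [← map_mul, mul_assoc]

theorem TM.inj {x y : Fin 2 → ℤ_[l]} (h : T.ev x = T.ev y) : x = y := by
  rw [← sub_eq_zero, ← map_sub] at h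
  refine sub_eq_zero.1 (funext fun i => PadicInt.ext_of_toZModPow.1 fun n => ?_)
  rw [Pi.zero_apply, map_zero, zp_zero]
  exact (T.zero n _).1 (congrFun h n) i

theorem TM.smul (b : ℤ_[l]) (x : Fin 2 → ℤ_[l]) (n : ℕ) :
    T.ev (b • x) n = (PadicInt.toZModPow n b).val • T.ev x n := by
  rw [← Pi.smul_apply, ← map_nsmul, ← sub_eq_zero, ← Pi.sub_apply, ← map_sub, T.zero,
    ← Nat.cast_smul_eq_nsmul ℤ_[l], ← sub_smul]
  exact fun i => (zp_zero.1 (by simp)).mul_right _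

variable {T}

theorem TM.Good.cr (hT : T.Good N a) : Cr (fam N) T.rg := fun n => by
  have key : ∀ g : Gam F, (∀ j, pm g (T.ev (Pi.single j 1) n) = T.ev (Pi.single j 1) n) →
      ∀ x i, (l : ℤ_[l]) ^ n ∣ (T.ro g x - x) i := fun g hg x i => by
    have h : ∀ j, (l : ℤ_[l]) ^ n ∣ ((T.ro g - 1) (Pi.single j 1)) i := fun j =>
      (T.zero n _).1 (by
        rw [LinearMap.sub_apply, map_sub, Pi.sub_apply, T.equiv, act_apply, hg]
        exact sub_self _) i
    change _ ∣ (T.ro g - 1) x i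
    rw [pi_eq_sum_univ' x, map_sum, Finset.sum_apply]
    exact Finset.dvd_sum fun j _ => by rw [map_smul]; exact (h j).mul_left _
  let H : Subgroup (Gam F) := ⨅ j : Fin 2,
    { carrier := {g | pm g (T.ev (Pi.single j 1) n) = T.ev (Pi.single j 1) n}
      mul_mem' := fun {g h} hg hh => (pm_mul g h _).trans ((congrArg (pm g) hh).trans hg)
      one_mem' := pm_one _
      inv_mem' := fun {g} hg => (congrArg (pm g⁻¹) hg).symm.trans (by
        rw [← pm_mul, inv_mul_cancel, pm_one]) }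
  refine (ev_of H ?_ fun c hc O hO g hg => Subgroup.mem_iInf.2 fun j => ?_).mono
    fun g hg => key g (Subgroup.mem_iInf.1 hg)
  · exact ((near_pm _).and (near_pm _)).mono fun g hg _ =>
      Subgroup.mem_iInf.2 (Fin.forall_fin_two.2 hg)
  · change pm g _ = _
    rw [← act_apply, ← T.equiv, hT.unr c hc O hO g hg, End.one_apply]

variable (T) in
/-- The cochain `c` has coordinates `z`. -/
def TM.Rz (c : Gam F → ℕ → Pt W) (z : Zi (fam N) T.rg) : Prop := ∀ g : Geo F, c g = T.ev (z.1 g)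

variable {c c' : Gam F → ℕ → Pt W} {z z' : Zi (fam N) T.rg}

theorem exists_coc (z : Zi (fam N) T.rg) : ∃ c, Coc l c ∧ T.Rz c z := by
  classical
  let c : Gam F → ℕ → Pt W := fun g => if h : g ∈ Geo F then T.ev (z.1 ⟨g, h⟩) else 0
  have hc : ∀ g (h : g ∈ Geo F), c g = T.ev (z.1 ⟨g, h⟩) := fun g h => dif_pos h
  refine ⟨c, ⟨fun g hg => hc g hg ▸ T.mem _, fun g hg h hh => ?_, fun n => ?_⟩, fun g => hc g g.2⟩
  · rw [hc g hg, hc h hh, hc _ (mul_mem hg hh), ← T.equiv, ← map_add]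
    exact congrArg T.ev (z.2.1 ⟨g, hg⟩ ⟨h, hh⟩)
  · exact (ev_near (z.2.2 n)).mono fun g hg h => by rw [hc g h, T.zero]; exact hg h

theorem Coc.one (hc : Coc l c) : c 1 = 0 := by
  simpa [act_one] using hc.mul 1 (one_mem _) 1 (one_mem _)

theorem Coc.exists_rz (hc : Coc l c) (hi : GI N fun g => c g = 0) :
    ∃ z : Zi (fam N) T.rg, T.Rz c z := by
  choose z hz using fun g : Geo F => T.surj _ (hc.mem g g.2)
  refine ⟨⟨z, fun g h => T.inj ?_, fun n => ?_⟩, fun g => (hz g).symm⟩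
  · rw [map_add, hz, hz, Subgroup.coe_mul, hc.mul _ g.2 _ h.2, ← hz h, ← T.equiv]
    rfl
  let H : Subgroup (Gam F) :=
    { carrier := {g | g ∈ Geo F ∧ c g n = 0}
      mul_mem' := fun {g h} hg hh => ⟨mul_mem hg.1 hh.1, by
        rw [hc.mul g hg.1 h hh.1, Pi.add_apply, act_apply, hg.2, hh.2, map_zero, add_zero]⟩
      one_mem' := ⟨one_mem _, congrFun hc.one n⟩
      inv_mem' := fun {g} hg => ⟨inv_mem hg.1, by
        have := congrFun (hc.mul _ (inv_mem hg.1) g hg.1) n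
        rwa [inv_mul_cancel, hc.one, Pi.add_apply, act_apply, hg.2, map_zero, add_zero,
          eq_comm] at this⟩ }
  exact (ev_of H ((hc.near n).mono fun g hg h => ⟨h, hg h⟩) fun d hd O hO g hg =>
    ⟨hg.1, congrFun (hi d hd O hO g hg) n⟩).mono fun g hg => (T.zero n _).1 (by rw [hz, hg.2])

theorem TM.Rz.add (h : T.Rz c z) (h' : T.Rz c' z') : T.Rz (c + c') (z + z') := fun g => by
  rw [Pi.add_apply, h, h', ← map_add]
  rfl

theorem TM.Rz.zs (h : T.Rz c z) (b : ℤ_[l]) : T.Rz (zs b c) (b • z) := fun g => funext fun n => by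
  rw [AL.zs, h, ← T.smul]
  rfl

theorem TM.Rz.sub (h : T.Rz c z) (s : Gam F) :
    T.Rz (subOne s c) ((PsiI (fam_inv s) (T.psi s) - 1) z) := fun g => by
  rw [subOne, ← sgm_val, h, h, ← T.equiv, ← map_sub]
  rfl

theorem TM.Rz.null (h : T.Rz c z) (hC : Cr (fam N) T.rg) : Null l c ↔ Nul (cob hC) z := by
  have key : ∀ (j : ℕ) x, (∀ g ∈ Geo F, l ^ j • c g = act g (T.ev x) - T.ev x) ↔
      (l : ℤ_[l]) ^ j • z = cob hC x := fun j x => by
    rw [Subtype.ext_iff, funext_iff, Subtype.forall]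
    refine forall₂_congr fun g hg => ?_
    rw [h ⟨g, hg⟩, ← T.equiv, ← map_sub, ← map_nsmul, ← Nat.cast_smul_eq_nsmul ℤ_[l], Nat.cast_pow]
    exact ⟨T.inj, congrArg _⟩
  constructor
  · rintro ⟨j, m, hm, e⟩
    obtain ⟨x, rfl⟩ := T.surj m hm
    exact ⟨_, pow_ne_zero j (Nat.cast_ne_zero.2 hl.out.ne_zero), x, (key j x).1 e⟩
  · rintro ⟨b, hb, x, e⟩
    refine ⟨b.valuation, T.ev (((PadicInt.unitCoeff hb)⁻¹ : ℤ_[l]ˣ) • x), T.mem _, (key _ _).2 ?_⟩
    rw [Units.smul_def, map_smul, ← e, smul_smul]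
    congr 1
    rw [Units.eq_inv_mul_iff_mul_eq, ← PadicInt.unitCoeff_spec hb]

theorem Null.subOne (h : Null l c) (s : Gam F) (hT : T.Good N a) : Null l (subOne s c) := by
  obtain ⟨j, m, hm, e⟩ := h
  obtain ⟨x, rfl⟩ := T.surj m hm
  refine ⟨j, T.ev (T.ro s x - x), T.mem _, fun g hg => ?_⟩
  have h1 : ∀ P : ℕ → Pt W, l ^ j • act s P = act s (l ^ j • P) := fun P =>
    funext fun n => ((pm s).map_nsmul _ _).symm
  rw [MP_16ef92_ag.subOne, smul_sub, h1, e _ (geo_conj hg s), e g hg]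
  simp only [← T.equiv, ← map_sub]
  congr 1
  simp only [map_sub, ← End.mul_apply, ← map_mul, ← mul_assoc, mul_inv_cancel, one_mul]
  abel

theorem simpleL_iff (hF : (l : F) ≠ 0) (hT : T.Good N a) (hs : Fr s (Fintype.card F)) :
    SimpleL l W s ↔ Sim (cob hT.cr) (PsiI (fam_inv s) (T.psi s)) := by
  have hw : ∀ c, Coc l c → Null l (subOne s (subOne s c)) → ∃ z : Zi (fam N) T.rg, T.Rz c z :=
    fun c hc h => hc.exists_rz fun d hd O hO g hg => weightL hF hT hs hc h hd hO hg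
  constructor
  · rintro ⟨c₀, h0, h1, h2⟩
    obtain ⟨z₀, hz₀⟩ := hw c₀ h0 (h1.subOne s hT)
    refine ⟨z₀, ((hz₀.sub s).null _).1 h1, fun z hz => ?_⟩
    obtain ⟨c, hc, h⟩ := exists_coc z
    obtain ⟨a, b, ha, e⟩ := h2 c hc ((((h.sub s).sub s).null _).2 hz)
    exact ⟨a, b, ha, (((h.zs a).add (hz₀.zs b)).null _).1 e⟩
  · rintro ⟨z₀, h1, h2⟩
    obtain ⟨c₀, h0, hz₀⟩ := exists_coc z₀
    refine ⟨c₀, h0, ((hz₀.sub s).null _).2 h1, fun c hc hn => ?_⟩
    obtain ⟨z, h⟩ := hw c hc hn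
    obtain ⟨a, b, ha, e⟩ := h2 z ((((h.sub s).sub s).null _).1 hn)
    exact ⟨a, b, ha, (((h.zs a).add (hz₀.zs b)).null _).2 e⟩

theorem TM.Good.h0 (hT : T.Good N a) (hN : N ≠ 0) (hs : Fr s (Fintype.card F)) (x : Fin 2 → ℤ_[l])
    (h1 : cob hT.cr x = 0) (h2 : T.ro s x = x) : x = 0 := by
  obtain ⟨c, hc⟩ := exists_good hN
  obtain ⟨O, hO⟩ := exists_over (some c)
  obtain ⟨d, hd, e⟩ := kk_frob c
  obtain ⟨g, hg, hst⟩ := (hs.pow d).exists_st e hO
  refine hT.wt c hc O hO _ hst d hd ((hs.pow d).geo_mul hg) x (Or.inl ?_)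
  rw [map_mul, map_pow, End.mul_apply, End.pow_apply, Function.iterate_fixed h2]
  exact sub_eq_zero.1 (congrFun (congrArg Subtype.val h1) ⟨g, hg⟩)

end

end Pool.Agent.Lib.MP_16ef92_ag.AL
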