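import Mathlib
import Pool.Agent.Lib.MP_16ef92_ag.AL.PA0
import Pool.Agent.Lib.MP_16ef92_ag.AL.PT

set_option autoImplicit false
set_option linter.unusedSectionVars false
set_option linter.unusedVariables false

namespace Pool.Agent.Lib.MP_16ef92_ag.AL

open Module LinearMap
open scoped Classical

noncomputable section

variable {Γ R : Type} [Group Γ] [CommRing R] {Ω : Fam Γ} {σ : Γ ≃* Γ} {N₀ : Subgroup Γ}
  [hN : N₀.Normal] [Fintype (Γ ⧸ N₀)]

variable (R N₀) in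
/-- Functions on the quotient that vanish at the origin. -/
abbrev pa2_C : Submodule R (Γ ⧸ N₀ → R) :=
  LinearMap.ker (LinearMap.proj (1 : Γ ⧸ N₀) : (Γ ⧸ N₀ → R) →ₗ[R] R)

variable (R) in
/-- Inflation. -/
def pa2_i (h0 : N₀ ∈ Ω.S) : pa2_C R N₀ →ₗ[R] Yc Ω R N₀ where
  toFun φ := ⟨fun g => φ.1 g, fun h hh g => by
    beta_reduce
    rw [QuotientGroup.mk_mul, (QuotientGroup.eq_one_iff h).2 hh, one_mul,
      show φ.1 1 = 0 from φ.2, zero_add],
    (Fam.ev_mem h0).mono fun g hg => by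
      beta_reduce
      rw [(QuotientGroup.eq_one_iff g).2 hg]
      exact φ.2⟩
  map_add' a b := rfl
  map_smul' r a := rfl

variable (R Ω N₀) in
/-- Restriction. -/
def pa2_p : Yc Ω R N₀ →ₗ[R] Ac Ω R N₀ where
  toFun F := ⟨fun h => F.1 h, fun g h => F.2.1 g g.2 h, F.2.2.mono fun g hg _ => hg⟩
  map_add' a b := rfl
  map_smul' r a := rfl

theorem pa2_inj (h0 : N₀ ∈ Ω.S) : Function.Injective (pa2_i R h0) := fun a b h =>
  Subtype.ext (funext fun x => by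
    induction x using QuotientGroup.induction_on with
    | H g => exact congrFun (congrArg Subtype.val h) g)

theorem pa2_mem (g : Γ) : g * (g : Γ ⧸ N₀).out⁻¹ ∈ N₀ := by
  rw [← QuotientGroup.eq_one_iff, QuotientGroup.mk_mul, QuotientGroup.mk_inv,
    QuotientGroup.out_eq', mul_inv_cancel]

theorem pa2_surj (h0 : N₀ ∈ Ω.S) : Function.Surjective (pa2_p R Ω N₀) := fun χ => by
  have h1 : ∀ (h : Γ) (hh : h ∈ N₀) (g : Γ),
      χ.1 ⟨_, pa2_mem (h * g)⟩ = χ.1 ⟨h, hh⟩ + χ.1 ⟨_, pa2_mem g⟩ := fun h hh g => by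
    refine Eq.trans (congrArg χ.1 (Subtype.ext ?_)) (χ.2.1 _ _)
    simp only [Subgroup.coe_mul]
    rw [QuotientGroup.mk_mul, (QuotientGroup.eq_one_iff h).2 hh, one_mul, mul_assoc]
  have h2 : ∀ (h : Γ) (hh : h ∈ N₀),
      χ.1 ⟨_, pa2_mem h⟩ - χ.1 ⟨_, pa2_mem 1⟩ = χ.1 ⟨h, hh⟩ := fun h hh => by
    have := h1 h hh 1
    simp only [mul_one] at this
    rw [this, add_sub_cancel_right]
  refine ⟨⟨fun g => χ.1 ⟨_, pa2_mem g⟩ - χ.1 ⟨_, pa2_mem 1⟩, fun h hh g => ?_,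
    (χ.2.2.and (Fam.ev_mem h0)).mono fun g hg => (h2 g hg.2).trans (hg.1 _)⟩,
    Subtype.ext (funext fun h => h2 h h.2)⟩
  beta_reduce
  rw [h2 h hh, h1 h hh, add_sub_assoc]

theorem pa2_exact (h0 : N₀ ∈ Ω.S) : Function.Exact (pa2_i R h0) (pa2_p R Ω N₀) := fun F => by
  constructor
  · intro h
    have h1 : ∀ g ∈ N₀, F.1 g = 0 := fun g hg => congrFun (congrArg Subtype.val h) ⟨g, hg⟩
    refine ⟨⟨fun x => F.1 x.out, h1 _ ?_⟩, Subtype.ext (funext fun g => ?_)⟩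
    · rw [← QuotientGroup.eq_one_iff, QuotientGroup.out_eq']
    · have := F.2.1 _ (pa2_mem g) (g : Γ ⧸ N₀).out
      rw [inv_mul_cancel_right, h1 _ (pa2_mem g), zero_add] at this
      exact this.symm
  · rintro ⟨φ, rfl⟩
    refine Subtype.ext (funext fun h => ?_)
    change φ.1 (h : Γ) = 0
    rw [(QuotientGroup.eq_one_iff _).2 h.2]
    exact φ.2

/-- The sequence given by inflation and restriction is exact; traces are additive. -/
theorem y_free [PF R] (hσ : Ω.Inv σ) (h0 : N₀ ∈ Ω.S) [Module.Free R (Ac Ω R N₀)]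
    [Module.Finite R (Ac Ω R N₀)] :
    Module.Free R (Yc Ω R N₀) ∧ Module.Finite R (Yc Ω R N₀) ∧ ∀ δ : Γ,
      trace R _ (lY R h0 δ * phiY R hσ h0) + 1 =
        (∑ x : Γ ⧸ N₀, if ((σ (δ⁻¹ * x.out) : Γ) : Γ ⧸ N₀) = x then 1 else 0) +
          trace R _ (twA R hσ h0 δ) := by
  have hs : Function.Surjective (LinearMap.proj (1 : Γ ⧸ N₀) : (Γ ⧸ N₀ → R) →ₗ[R] R) :=
    fun r => ⟨fun _ => r, rfl⟩
  have he := LinearMap.exact_subtype_ker_map
    (LinearMap.proj (1 : Γ ⧸ N₀) : (Γ ⧸ N₀ → R) →ₗ[R] R)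
  obtain ⟨f1, f2⟩ := free_ker (Submodule.injective_subtype _) hs he
  obtain ⟨f3, f4⟩ := free_mid (pa2_inj h0) (pa2_surj h0) (pa2_exact (R := R) h0)
  refine ⟨f3, f4, fun δ => ?_⟩
  let β : Γ ⧸ N₀ → Γ ⧸ N₀ := fun x => (σ (δ⁻¹ * x.out) : Γ)
  have hβ : ∀ g : Γ, β g = (σ (δ⁻¹ * g) : Γ) := fun g => by
    obtain ⟨h, hh⟩ := QuotientGroup.mk_out_eq_mul N₀ g
    simp only [β]
    rw [hh, ← mul_assoc, map_mul, QuotientGroup.mk_mul,
      (QuotientGroup.eq_one_iff _).2 ((hσ _ h0 _).2 h.2), mul_one]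
  let L : End R (Γ ⧸ N₀ → R) := LinearMap.funLeft R R β -
    LinearMap.smulRight (LinearMap.proj (β 1) : (Γ ⧸ N₀ → R) →ₗ[R] R) (1 : Γ ⧸ N₀ → R)
  have hL : ∀ φ x, L φ x = φ (β x) - φ (β 1) := fun φ x => by simp [L, LinearMap.funLeft_apply]
  have hm : ∀ φ, L φ ∈ pa2_C R N₀ := fun φ => (hL φ 1).trans (sub_self _)
  have t1 : trace R _ L = trace R _ (L.restrict fun φ _ => hm φ) + trace R R 0 :=
    tr3 (Submodule.injective_subtype _) hs he (fun _ => rfl) fun φ => hm φ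
  have t2 : trace R _ (lY R h0 δ * phiY R hσ h0) =
      trace R _ (L.restrict fun φ _ => hm φ) + trace R _ (twA R hσ h0 δ) := by
    refine tr3 (pa2_inj h0) (pa2_surj h0) (pa2_exact h0) (fun φ => ?_) fun F => ?_
    · refine Subtype.ext (funext fun g => ?_)
      change φ.1 (σ (δ⁻¹ * g) : Γ) - φ.1 (σ δ⁻¹ : Γ) = L φ.1 g
      rw [hL, hβ, ← QuotientGroup.mk_one, hβ, mul_one]
    · refine Subtype.ext (funext fun h => ?_)
      change F.1 (σ (δ⁻¹ * h)) - F.1 (σ δ⁻¹) = F.1 (σ (δ⁻¹ * h * δ))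
      have := F.2.1 _ ((hσ _ h0 _).2 (hN.conj_mem' _ h.2 δ)) (σ δ⁻¹)
      rw [← map_mul, mul_inv_cancel_right] at this
      rw [this, add_sub_cancel_right]
  have t3 : trace R _ L = (∑ x, if β x = x then 1 else 0) - 1 := by
    rw [map_sub, trace_fun, LinearMap.trace_smulRight]
    exact congrArg₂ (· - ·) (Finset.sum_congr rfl fun x _ => by split_ifs <;> rfl) rfl
  rw [map_zero, add_zero, t3] at t1
  rw [t2, ← t1]
  ring

end

end Pool.Agent.Lib.MP_16ef92_ag.AL
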