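import Mathlib
import Pool.Agent.Lib.MP_16ef92_ag.AL.PA1

set_option autoImplicit false
set_option linter.unusedSectionVars false
set_option linter.unusedVariables false

namespace Pool.Agent.Lib.MP_16ef92_ag.AL

open Module

noncomputable section

variable {Γ R : Type} [Group Γ] [CommRing R] {Ω : Fam Γ} {N₀ : Subgroup Γ}
  [hN : N₀.Normal] [Fintype (Γ ⧸ N₀)] {l : ℕ} [Fact l.Prime]

/-- The action on functions on `Yc`. -/
def pa3_rho' (h0 : N₀ ∈ Ω.S) : Γ →* End R (Yc Ω R N₀ → R) where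
  toFun g := LinearMap.funLeft R R (lY R h0 g⁻¹)
  map_one' := LinearMap.ext fun φ => funext fun F =>
    congrArg φ (Subtype.ext (funext fun g => by simp [Yc.one]))
  map_mul' g h := LinearMap.ext fun φ => funext fun F =>
    congrArg φ (Subtype.ext (funext fun x => by simp [mul_assoc]))

variable (R N₀) in
/-- The action on a free module over the group ring. -/
def pa3_rho (J : Type) : Γ →* End R ((Γ ⧸ N₀) × J → R) where
  toFun g := LinearMap.funLeft R R fun q => ((g : Γ ⧸ N₀)⁻¹ * q.1, q.2)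
  map_one' := LinearMap.ext fun u => funext fun q => congrArg u (by simp)
  map_mul' g h := LinearMap.ext fun u => funext fun q => congrArg u (by simp [mul_assoc])

theorem pa3_dd (h0 : N₀ ∈ Ω.S) (F : Yc Ω R N₀) (g : Γ) (x : Γ ⧸ N₀) (y : Γ) :
    dd (lY R h0 g⁻¹ F) x y = dd F (g * x) y := by
  induction x using QuotientGroup.induction_on with
  | H z => rw [← QuotientGroup.mk_mul, dd_mk, dd_mk]; simp [mul_assoc]

/-- A dual basis exists. -/
theorem exists_proj (h2 : H2 Ω l) (h0 : N₀ ∈ Ω.S) [Finite R] (hl : ∃ a, (l : R) ^ a = 0)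
    [Finite (Yc Ω R N₀)] :
    ∃ (J : Type) (_ : Fintype J) (γ : J → Γ) (A : J → Yc Ω R N₀), Proj γ A := by
  classical
  obtain ⟨N, hS, hF⟩ := Fam.Ev.forall fun F : Yc Ω R N₀ => Yc.ev h0 F
  have := Ω.fin N hS
  let _ := Fintype.ofFinite (Γ ⧸ N)
  have h1 : ∀ g ∈ N₀, pa3_rho R N₀ (Γ ⧸ N) g = 1 := fun g hg =>
    LinearMap.ext fun u => funext fun q => congrArg u (by
      simp [(QuotientGroup.eq_one_iff g).2 hg])
  obtain ⟨c, hc⟩ := lift h2 (ρ := pa3_rho R N₀ (Γ ⧸ N)) (ρ' := pa3_rho' h0)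
    (AddMonoidHom.mk' (fun u F => ∑ x : Γ ⧸ N₀, ∑ j : Γ ⧸ N, dd F x j.out * u (x, j))
      fun u v => funext fun F => by simp [mul_add, Finset.sum_add_distrib])
    (fun g u => funext fun F => by
      simp only [AddMonoidHom.mk'_apply, pa3_rho, pa3_rho', MonoidHom.coe_mk, OneHom.coe_mk,
        LinearMap.funLeft_apply, pa3_dd]
      exact (Fintype.sum_equiv (Equiv.mulLeft (g : Γ ⧸ N₀)) _ _ fun x => by simp).symm)
    (hl.imp fun a ha u => funext fun q => by simp [ha]) ⟨N₀, h0, h1⟩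
    ⟨fun g F => F.1 g, fun g h => funext fun F => by simp [pa3_rho', LinearMap.funLeft_apply],
      N, hS, fun m hm => funext fun F => by simpa [Yc.one] using hF m hm F 1⟩
    fun g => ⟨Pi.single (1, g) 1, funext fun F => by
      obtain ⟨m, hm⟩ := QuotientGroup.mk_out_eq_mul N g
      have := dd_mk F 1 (g * m)
      rw [one_mul, Yc.one, sub_zero, hF m m.2, QuotientGroup.mk_one] at this
      simp [← Fintype.sum_prod_type', Pi.single_apply, hm, this]⟩
  refine ⟨Γ ⧸ N, inferInstance, Quotient.out, fun j => ⟨fun g => c.1 g (1, j), fun h hh g => by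
    simp [c.2.1, h1 h hh], c.2.2.mono fun g hg => congrFun hg _⟩, fun F g => ?_⟩
  refine (congrFun (hc g) F).symm.trans
    (Finset.sum_congr rfl fun x _ => Finset.sum_congr rfl fun j _ => congrArg _ ?_)
  induction x using QuotientGroup.induction_on with
  | H y => rw [← QuotientGroup.mk_inv, dd_mk]; simp [c.2.1, pa3_rho, LinearMap.funLeft_apply]

end

end Pool.Agent.Lib.MP_16ef92_ag.AL
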