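import Mathlib
import Pool.Agent.Lib.MP_16ef92_ag.AL.PA0
import Pool.Agent.Lib.MP_16ef92_ag.AL.PT

set_option autoImplicit false
set_option linter.unusedSectionVars false
set_option linter.unusedVariables false

namespace Pool.Agent.Lib.MP_16ef92_ag.AL

open Module LinearMap

noncomputable section

variable {Γ R : Type} [Group Γ] [CommRing R] {Ω : Fam Γ} {σ : Γ ≃* Γ} {N₀ : Subgroup Γ}
  [hN : N₀.Normal] [Fintype (Γ ⧸ N₀)] {J : Type} [Fintype J] {γ : J → Γ} {A : J → Yc Ω R N₀}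

variable {S M : Type} [CommRing S] [AddCommGroup M] [Module S M] [Module.Free S M]
  [Module.Finite S M] {ρ : Γ →* End S M}

/-- apply `hP` to the coordinates of `c` -/
theorem zc_proj (hP : Proj γ A) (κ : R →+* S) (e : S →+ R) (he : Function.Injective e)
    (hκ : ∀ u v, e (κ u * v) = u * e v) (hρ : ∀ g ∈ N₀, ρ g = 1) (c : Zc Ω ρ) (g : Γ) :
    c.1 g = ∑ x : Γ ⧸ N₀, ∑ j, κ (dd (A j) x⁻¹ g) • ρ x.out (c.1 (γ j)) := by
  refine (Module.Free.chooseBasis S M).ext_elem fun i => he ?_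
  simp only [← Basis.coord_apply]
  generalize (Module.Free.chooseBasis S M).coord i = f
  refine (hP ⟨fun g => e (f (c.1 g)), fun h hh g => by simp [c.2.1, hρ h hh],
    c.2.2.mono fun g hg => by simp [hg]⟩ g).trans ?_
  simp only [map_sum, map_smul, smul_eq_mul, hκ]
  refine Finset.sum_congr rfl fun x _ => Finset.sum_congr rfl fun j _ => ?_
  rw [mul_comm]
  simp [dd, c.2.1]

theorem pa4_out (hρ : ∀ g ∈ N₀, ρ g = 1) (g : Γ) (y : Γ ⧸ N₀) :
    ρ ((g : Γ ⧸ N₀) * y).out = ρ g * ρ y.out := by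
  obtain ⟨h, hh⟩ := QuotientGroup.mk_out_eq_mul N₀ (g * y.out)
  rw [QuotientGroup.mk_mul, QuotientGroup.out_eq'] at hh
  rw [hh, map_mul, hρ _ h.2, mul_one, map_mul]

/-- `Zc` is a retract of `J → M` -/
theorem trace_Z [PF S] (hσ : Ω.Inv σ) (h0 : N₀ ∈ Ω.S) (hP : Proj γ A) (κ : R →+* S) (e : S →+ R)
    (he : Function.Injective e) (hκ : ∀ u v, e (κ u * v) = u * e v) (hρ : ∀ g ∈ N₀, ρ g = 1)
    {ψ : End S M} (hψ : ∀ g, ψ * ρ (σ g) = ρ g * ψ) :
    Module.Free S (Zc Ω ρ) ∧ Module.Finite S (Zc Ω ρ) ∧ trace S _ (Psi hσ hψ) =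
      ∑ x : Γ ⧸ N₀, κ (tau σ γ A x) * trace S M (ψ * ρ x.out) := by
  classical
  let r : (J → M) →ₗ[S] Γ → M :=
    LinearMap.pi fun g => ∑ x : Γ ⧸ N₀, ∑ j, κ (dd (A j) x⁻¹ g) • ρ x.out ∘ₗ proj j
  have hr : ∀ m g, r m g = ∑ x : Γ ⧸ N₀, ∑ j, κ (dd (A j) x⁻¹ g) • ρ x.out (m j) := fun m g => by
    simp [r]
  have hm : ∀ m, r m ∈ Zc Ω ρ := fun m => ⟨fun g h => by
    simp only [hr, dd_mul, map_add, add_smul, Finset.sum_add_distrib, map_sum, map_smul,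
      add_right_inj]
    refine (Equiv.sum_comp (Equiv.mulLeft (g : Γ ⧸ N₀)) _).symm.trans ?_
    simp [pa4_out hρ], (Fam.Ev.forall fun j => dd_ev h0 (A j)).mono fun g hg => by simp [hr, hg]⟩
  obtain ⟨h1, h2, h3⟩ := retract (LinearMap.pi fun j => proj (γ j) ∘ₗ (Zc Ω ρ).subtype)
    (r.codRestrict _ hm) fun c => Subtype.ext (funext fun g =>
      (hr _ g).trans (zc_proj hP κ e he hκ hρ c g).symm)
  refine ⟨h1, h2, ?_⟩
  simp only [h3, trace_pi, tau, map_sum, Finset.sum_mul]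
  rw [Finset.sum_comm]
  refine Finset.sum_congr rfl fun j _ => ?_
  simp only [← smul_eq_mul, ← map_smul, ← map_sum]
  refine congrArg _ (LinearMap.ext fun m => ?_)
  simp [hr, Pi.single_apply, apply_ite]

end

end Pool.Agent.Lib.MP_16ef92_ag.AL
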