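import Mathlib
import Pool.Agent.Lib.MP_16ef92_ag.AL.PA0
import Pool.Agent.Lib.MP_16ef92_ag.AL.PT

set_option autoImplicit false
set_option linter.unusedSectionVars false
set_option linter.unusedVariables false

namespace Pool.Agent.Lib.MP_16ef92_ag.AL

open Module LinearMap

noncomputable section

variable {Γ R : Type} [Group Γ] [CommRing R] {Ω : Fam Γ} {σ : Γ ≃* Γ} {N₀ : Subgroup Γ}
  [hN : N₀.Normal] [Fintype (Γ ⧸ N₀)] {J : Type} [Fintype J] {γ : J → Γ} {A : J → Yc Ω R N₀}

/-- `Yc` is a retract of `(Γ ⧸ N₀) × J → R`. -/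
theorem trace_Y [PF R] (hσ : Ω.Inv σ) (h0 : N₀ ∈ Ω.S) (hP : Proj γ A) (δ : Γ) :
    trace R _ (lY R h0 δ * phiY R hσ h0) =
      ∑ y : Γ ⧸ N₀, tau σ γ A ((σ (y.out⁻¹ * δ) * y.out : Γ) : Γ ⧸ N₀) := by
  classical
  let i : Yc Ω R N₀ →ₗ[R] ((Γ ⧸ N₀) × J → R) :=
    { toFun := fun F p => dd F p.1 (γ p.2)
      map_add' := fun a b => funext fun p => by simp [dd]; ring
      map_smul' := fun c a => funext fun p => by simp [dd]; ring }
  let r := Fintype.linearCombination R fun p : (Γ ⧸ N₀) × J => lY R h0 p.1.out (A p.2)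
  have h : ∀ F, r (i F) = F := fun F => Subtype.ext (funext fun g => by
    rw [hP F g, Fintype.linearCombination_apply, Submodule.coe_sum, Finset.sum_apply,
      Fintype.sum_prod_type]
    refine Finset.sum_congr rfl fun x _ => Finset.sum_congr rfl fun j _ => ?_
    rw [Submodule.coe_smul, Pi.smul_apply, smul_eq_mul, lY_apply, ← dd_mk, QuotientGroup.mk_inv,
      QuotientGroup.out_eq']
    rfl)
  rw [(retract i r h).2.2, trace_eq_matrix_trace R (Pi.basisFun R _), Matrix.trace,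
    Fintype.sum_prod_type]
  refine Finset.sum_congr rfl fun x _ => Finset.sum_congr rfl fun j _ => ?_
  have e : (σ (x.out⁻¹ * δ) * x.out)⁻¹ = x.out⁻¹ * σ (δ⁻¹ * x.out) := by simp
  rw [Matrix.diag_apply, toMatrix_apply, Pi.basisFun_apply, Pi.basisFun_repr, comp_apply,
    comp_apply, Fintype.linearCombination_apply_single, one_smul, ← QuotientGroup.mk_inv, dd_mk, e]
  simp [i, dd, mul_assoc]

end

end Pool.Agent.Lib.MP_16ef92_ag.AL
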