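import Mathlib
import Pool.Agent.Lib.MP_16ef92_ag.AL.PA2
import Pool.Agent.Lib.MP_16ef92_ag.AL.PA3
import Pool.Agent.Lib.MP_16ef92_ag.AL.PA4
import Pool.Agent.Lib.MP_16ef92_ag.AL.PA4a
import Pool.Agent.Lib.MP_16ef92_ag.AL.PT2

set_option autoImplicit false
set_option linter.unusedSectionVars false
set_option linter.unusedVariables false

namespace Pool.Agent.Lib.MP_16ef92_ag.AL

open Module LinearMap
open scoped Classical

noncomputable section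

/-- Two reindexings on a finite group with an automorphism. -/
theorem twist_sums {G R : Type} [Group G] [Fintype G] [DecidableEq G] [CommRing R] (s : G ≃* G) (t τ : G → R)
    (ht : ∀ y z, t (s y⁻¹ * z * y) = t z) :
    ∑ δ, (∑ y, τ (s (y⁻¹ * δ) * y)) * t (s δ) = Fintype.card G * ∑ x, τ x * t x ∧
    ∑ δ, (∑ x, if s (δ⁻¹ * x) = x then 1 else 0) * t (s δ) = Fintype.card G * t 1 := by
  constructor
  · simp only [Finset.sum_mul]
    rw [Finset.sum_comm, ← nsmul_eq_mul, ← Finset.card_univ, ← Finset.sum_const]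
    refine Finset.sum_congr rfl fun y _ => Fintype.sum_equiv
      ((Equiv.mulLeft y⁻¹).trans (s.toEquiv.trans (Equiv.mulRight y))) _ _ fun δ => ?_
    change _ = τ (s (y⁻¹ * δ) * y) * t (s (y⁻¹ * δ) * y)
    rw [map_mul s y⁻¹ δ, ht]
  · simp only [Finset.sum_mul]
    rw [Finset.sum_comm, ← nsmul_eq_mul, ← Finset.card_univ, ← Finset.sum_const]
    refine Finset.sum_congr rfl fun x _ => ?_
    rw [Finset.sum_eq_single (x * (s.symm x)⁻¹)]
    · rw [if_pos (by simp), one_mul, ← ht x⁻¹ 1]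
      simp
    · intro δ _ h
      rw [if_neg, zero_mul]
      intro e
      refine h ?_
      rw [(s.symm_apply_eq.2 e.symm : s.symm x = _)]
      group
    · simp

variable {Γ : Type} [Group Γ] {Ω : Fam Γ} {σ : Γ ≃* Γ} {N₀ : Subgroup Γ}
  [hN : N₀.Normal] [Fintype (Γ ⧸ N₀)] {l n : ℕ} [Fact l.Prime] {M : Type} [AddCommGroup M]
  [Module (ZMod (l ^ n)) M] [Module.Free (ZMod (l ^ n)) M] [Module.Finite (ZMod (l ^ n)) M]
  {ρ : Γ →* End (ZMod (l ^ n)) M}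

/-- The abstract trace formula. -/
theorem main_abs (h2 : H2 Ω l) (hσ : Ω.Inv σ) (h0 : N₀ ∈ Ω.S) (hρ : ∀ g ∈ N₀, ρ g = 1)
    {ψ : End (ZMod (l ^ n)) M} (hψ : ∀ g, ψ * ρ (σ g) = ρ g * ψ) (Q : ℕ) (fx : Γ → ℕ) {ι : Type}
    (B : Finset ι) (b : ι → ZMod (l ^ n))
    (hA : ∀ a, Module.Free (ZMod (l ^ a)) (Ac Ω (ZMod (l ^ a)) N₀) ∧
      Module.Finite (ZMod (l ^ a)) (Ac Ω (ZMod (l ^ a)) N₀) ∧
      ∀ δ, (Q : ZMod (l ^ a)) * trace _ _ (twA (ZMod (l ^ a)) hσ h0 δ) = Q - fx δ)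
    (hC : ∑ x : Γ ⧸ N₀, fx x.out * (trace _ M (ρ x.out * ψ)).val =
      Fintype.card (Γ ⧸ N₀) * ∑ c ∈ B, (b c).val) :
    Module.Free (ZMod (l ^ n)) (Zc Ω ρ) ∧ Module.Finite (ZMod (l ^ n)) (Zc Ω ρ) ∧
      (Q : ZMod (l ^ n)) * trace _ _ (Psi hσ hψ) = Q * trace _ M ψ - ∑ c ∈ B, b c := by
  have hl : l ≠ 0 := (Fact.out : l.Prime).ne_zero
  obtain ⟨a, hna, hc⟩ : ∃ (a : ℕ) (h : n ≤ a), ∀ x : ZMod (l ^ a),
      (Fintype.card (Γ ⧸ N₀) : ZMod (l ^ a)) * x = 0 →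
        ZMod.castHom (pow_dvd_pow l h) (ZMod (l ^ n)) x = 0 :=
    ⟨_, Nat.le_add_right _ _, fun x hx => cancel_card Fintype.card_ne_zero hx⟩
  obtain ⟨hf, hfin, hA⟩ := hA a
  obtain ⟨e, he, hκ⟩ := exists_zemb (l := l) hna
  have : NeZero (l ^ a) := ⟨pow_ne_zero _ hl⟩
  have : NeZero (l ^ n) := ⟨pow_ne_zero _ hl⟩
  obtain ⟨hf', hfin', hY⟩ := y_free (R := ZMod (l ^ a)) hσ h0
  have : Finite (Yc Ω (ZMod (l ^ a)) N₀) := Module.finite_of_finite (ZMod (l ^ a))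
  obtain ⟨J, _, γ, A, hP⟩ := exists_proj (R := ZMod (l ^ a)) h2 h0
    ⟨a, by rw [← Nat.cast_pow, ZMod.natCast_self]⟩
  obtain ⟨h3, h4, h5⟩ := trace_Z hσ h0 hP _ e he hκ hρ hψ
  refine ⟨h3, h4, ?_⟩
  let s : Γ ⧸ N₀ ≃* Γ ⧸ N₀ := QuotientGroup.congr N₀ N₀ σ (by
    ext g
    refine Subgroup.mem_map_equiv.trans ?_
    rw [← hσ _ h0, MulEquiv.apply_symm_apply])
  have hs : ∀ g : Γ, s (g : Γ ⧸ N₀) = (σ g : Γ) := fun g => rfl
  have ho : ∀ g : Γ, ρ (g : Γ ⧸ N₀).out = ρ g := fun g => by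
    obtain ⟨h, hh⟩ := QuotientGroup.mk_out_eq_mul N₀ g
    rw [hh, map_mul, hρ _ h.2, mul_one]
  let t : Γ ⧸ N₀ → ZMod (l ^ a) := fun x => ((trace _ M (ψ * ρ x.out)).val : ZMod (l ^ a))
  obtain ⟨s1, s2⟩ := twist_sums s t (tau σ γ A) fun y z => by
    induction y using QuotientGroup.induction_on with
    | H y =>
    induction z using QuotientGroup.induction_on with
    | H z =>
    simp only [t]
    rw [← QuotientGroup.mk_inv, hs, ← QuotientGroup.mk_mul, ← QuotientGroup.mk_mul, ho, ho, map_mul ρ,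
      map_mul ρ, ← mul_assoc, ← mul_assoc, hψ, mul_assoc, mul_assoc, trace_mul_comm, mul_assoc, mul_assoc,
      ← map_mul ρ, mul_inv_cancel, map_one, mul_one]
  have ht : ∀ δ : Γ ⧸ N₀, t (s δ) = ((trace _ M (ρ δ.out * ψ)).val : ZMod (l ^ a)) := fun δ => by
    conv_lhs => rw [← QuotientGroup.out_eq' δ, hs]
    simp only [t]
    rw [ho, hψ]
  have hq : ∀ x y : Γ ⧸ N₀, ((σ (x.out⁻¹ * y.out) : Γ) : Γ ⧸ N₀) = s (x⁻¹ * y) := fun x y => by
    rw [← hs, QuotientGroup.mk_mul, QuotientGroup.mk_inv, QuotientGroup.out_eq', QuotientGroup.out_eq']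
  have key : ∀ δ : Γ ⧸ N₀, (Q : ZMod (l ^ a)) * ((∑ y, tau σ γ A (s (y⁻¹ * δ) * y)) * t (s δ)) =
      Q * ((∑ x, if s (δ⁻¹ * x) = x then 1 else 0) * t (s δ)) - fx δ.out * t (s δ) := fun δ => by
    have h := hY δ.out
    rw [trace_Y hσ h0 hP] at h
    simp only [QuotientGroup.mk_mul, hq, QuotientGroup.out_eq'] at h
    linear_combination (Q * t (s δ)) * h + t (s δ) * hA δ.out
  have hC' := congrArg (Nat.cast : ℕ → ZMod (l ^ a)) hC
  push_cast at hC'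
  have h6 := Finset.sum_congr (rfl : Finset.univ = _) fun δ _ => key δ
  rw [Finset.sum_sub_distrib, ← Finset.mul_sum, ← Finset.mul_sum, s1, s2] at h6
  simp only [ht] at h6
  have h7 := hc (Q * ∑ x, tau σ γ A x * t x - Q * t 1 + ∑ c ∈ B, ((b c).val : ZMod (l ^ a)))
    (by linear_combination h6 - hC')
  simp only [t, map_add, map_sub, map_mul, map_sum, map_natCast, ZMod.natCast_zmod_val] at h7
  rw [← QuotientGroup.mk_one, ho, map_one, mul_one] at h7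
  rw [h5]
  linear_combination h7

end

end Pool.Agent.Lib.MP_16ef92_ag.AL
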