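import Mathlib
import Pool.Agent.Lib.MP_16ef92_ag.AL.PPlc

set_option autoImplicit false
set_option linter.unusedSectionVars false
set_option linter.unusedVariables false

namespace Pool.Agent.Lib.MP_16ef92_ag.AL

open Pool.Agent.Lib.MP_6adaea_nt

noncomputable section

variable {F : Type} [Field F] [Clos F] [Fintype F] [hq : Fact (Odd (Fintype.card F))]
  (U : OS F) [hn : U.H.Normal]

theorem OS.map_mem (φ : Gam F) (z : U.K) : φ z ∈ U.K := fun g hg => by
  have := U.fix z (hn.conj_mem' g hg φ)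
  rw [AlgEquiv.mul_apply, AlgEquiv.mul_apply] at this
  exact (self_apply_inv φ _).symm.trans (congrArg φ this)

/-- The automorphism of the pair of fields induced by `φ`. -/
def OS.sa (φ : Gam F) : SA (kk F) U.K where
  γ :=
    { toFun := fun z => ⟨φ z, U.map_mem φ z⟩
      invFun := fun z => ⟨φ⁻¹ z, U.map_mem φ⁻¹ z⟩
      left_inv := fun z => Subtype.ext (inv_apply_self φ z)
      right_inv := fun z => Subtype.ext (self_apply_inv φ z)
      map_mul' := fun a b => Subtype.ext (map_mul φ _ _)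
      map_add' := fun a b => Subtype.ext (map_add φ _ _) }
  a :=
    { toFun := ck φ
      invFun := ck φ⁻¹
      left_inv := fun z => Subtype.ext (inv_apply_self φ z)
      right_inv := fun z => Subtype.ext (self_apply_inv φ z)
      map_mul' := fun a b => Subtype.ext (map_mul φ _ _)
      map_add' := fun a b => Subtype.ext (map_add φ _ _) }
  h := fun c => rfl

@[simp] theorem OS.sa_γ (φ : Gam F) (z : U.K) : ((U.sa φ).γ z : Om F) = φ z := rfl

@[simp] theorem OS.sa_γ_symm (φ : Gam F) (z : U.K) : ((U.sa φ).γ.symm z : Om F) = φ⁻¹ z := rfl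

@[simp] theorem OS.sa_a (φ : Gam F) (c : kk F) : ((U.sa φ).a c : Om F) = φ c := rfl

/-- The action on places. -/
def OS.ac : Gam F →* Equiv.Perm U.Pl where
  toFun φ := (U.sa φ).pl
  map_one' := Equiv.ext fun v => Place.ext rfl
  map_mul' a b := Equiv.ext fun v => Place.ext rfl

theorem OS.ac_eq (φ : Gam F) : U.ac φ = (U.sa φ).pl := rfl

variable {U} {O : ValuationSubring (Om F)} {v w : U.Pl} {φ : Gam F}

theorem OS.Rel.ac (h : U.Rel O v) (φ : Gam F) : U.Rel (cm φ⁻¹ O) (U.ac φ v) := fun z => by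
  obtain ⟨y, rfl⟩ := (U.sa φ).γ.surjective z
  rw [OS.ac_eq, SA.pl_ge, mem_cm, OS.sa_γ, inv_apply_self]
  exact h y

theorem OS.ac_of_mem (h : φ ∈ U.H) : U.ac φ = 1 :=
  Equiv.ext fun v => Place.ext (funext fun x => congrArg v.ord (Subtype.ext (U.fix x (inv_mem h))))

theorem OS.bel_ac (φ : Gam F) (v : U.Pl) : OS.bel (U.ac φ v) = (OS.bel v).map (ck φ) := by
  obtain ⟨O, h1, h2⟩ := OS.exists_bel v
  refine (h2.ac φ).over_iff.1 (over_cm ?_)
  rwa [Option.map_map, show ck φ⁻¹ ∘ ck φ = id from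
    funext fun z => Subtype.ext (inv_apply_self φ z), Option.map_id]

theorem pact_eq {O' : ValuationSubring (Om F)} (h : U.Rel O v) (h' : U.Rel O' w)
    (e : ∀ z, z ∈ O ↔ φ z ∈ O') : U.ac φ v = w :=
  OS.Rel.unique (fun z => by rw [h.ac φ z, mem_cm, e, self_apply_inv]) h'

theorem OS.Rel.ac_eq_iff (h : U.Rel O v) : U.ac φ v = v ↔ ∃ g ∈ U.H, g * φ ∈ St O := by
  refine ⟨fun e => ?_, fun ⟨g, hg, e⟩ => ?_⟩
  · obtain ⟨g, hg, e⟩ := (e ▸ h.ac φ).conj h
    exact ⟨g, hg, fun z => by rw [AlgEquiv.mul_apply, ← e, mem_cm, inv_apply_self]⟩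
  · have := pact_eq h h fun z => (e z).symm
    rwa [map_mul, OS.ac_of_mem hg, one_mul] at this

theorem OS.ac_trans (h : OS.bel v = OS.bel w) : ∃ g ∈ Geo F, U.ac g v = w := by
  obtain ⟨O, h1, h2⟩ := OS.exists_bel v
  obtain ⟨O', h3, h4⟩ := OS.exists_bel w
  obtain ⟨g, hg, e⟩ := over_trans h1 (h ▸ h3)
  exact ⟨g, hg, pact_eq h2 h4 e⟩

end

end Pool.Agent.Lib.MP_16ef92_ag.AL
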