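import Mathlib
import Pool.Agent.Lib.MP_16ef92_ag.AL.PRes
import Pool.Agent.Lib.MP_16ef92_ag.AL.PAct

set_option autoImplicit false
set_option linter.unusedSectionVars false
set_option linter.unusedVariables false

namespace Pool.Agent.Lib.MP_16ef92_ag.AL

open Polynomial Pool.Agent.Lib.MP_6adaea_nt

noncomputable section

variable {F : Type} [Field F] [Clos F] [Fintype F] [hq : Fact (Odd (Fintype.card F))]

/-- Characters unramified at the good places. -/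
abbrev AcU (N : F[X]) (U : OS F) (n : ℕ) : Type :=
  Ac (fam N) (ZMod n) (U.H.subgroupOf (Geo F))

/-- The bad places. -/
abbrev Bad (N : F[X]) (U : OS F) : Type := {v : U.Pl // ¬ Gd N (OS.bel v)}

variable {N : F[X]} {U : OS F} {l a : ℕ} [Fact l.Prime]

theorem bad_finite (hN : N ≠ 0) : Finite (Bad N U) := U.finite_bel (finite_bad hN)

instance : Nonempty (Bad N U) :=
  (U.bel_surj none).elim fun v hv => ⟨⟨v, hv ▸ not_gd_none⟩⟩

/-- `χ` is the Kummer character of `f`. -/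
def Rad (r : Om F) (χ : AcU N U (l ^ a)) (f : U.K) : Prop :=
  f ≠ 0 ∧ ∀ h, χ.1 h = kp r (l ^ a) f ((h : Geo F) : Gam F)

variable {r : Om F} {χ χ' : AcU N U (l ^ a)} {f f' : U.K}

theorem Rad.ext (h : Rad r χ f) (h' : Rad r χ' f) : χ = χ' :=
  Subtype.ext (funext fun g => (h.2 g).trans (h'.2 g).symm)

variable (hr : IsPrimitiveRoot r (l ^ a))
include hr

/-- Extend `χ` by zero to `Gam F`; `ev_near`, `exists_rad`. -/
theorem exists_Rad (χ : AcU N U (l ^ a)) : ∃ f, Rad r χ f := by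
  classical
  obtain ⟨f, h0, h⟩ := exists_rad hr U (fun g => if h : g ∈ U.H then χ.1 ⟨⟨g, U.le h⟩, h⟩ else 0)
    (fun g hg h hh => by
      rw [dif_pos hg, dif_pos hh, dif_pos (mul_mem hg hh)]
      exact χ.2.1 ⟨⟨g, U.le hg⟩, hg⟩ ⟨⟨h, U.le hh⟩, hh⟩)
    ((ev_near χ.2.2).mono fun g hg h => (dif_pos h).trans (hg (U.le h) h))
  exact ⟨f, h0, fun g => (dif_pos g.2).symm.trans (h _ g.2)⟩

theorem Rad.add (h : Rad r χ f) (h' : Rad r χ' f') : Rad r (χ + χ') (f * f') := by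
  refine ⟨mul_ne_zero h.1 h'.1, fun g => ?_⟩
  rw [kp_mul_fn hr h.1 h'.1 (Subgroup.mem_subgroupOf.1 g.2), ← h.2, ← h'.2]
  rfl

theorem rad_one : Rad r (0 : AcU N U (l ^ a)) 1 := by
  exact ⟨one_ne_zero, fun g =>
    (kp_of_fix hr (geo_prm hr g.1.2) one_ne_zero (one_pow _) (map_one _)).symm⟩

/-- `kp_eq_iff`. -/
theorem Rad.iff (h : Rad r χ f) (hf : f' ≠ 0) : Rad r χ f' ↔ ∃ b : U.K, f' = f * b ^ l ^ a := by
  rw [← kp_eq_iff hr hf h.1]
  exact ⟨fun h' g hg => (h'.2 ⟨⟨g, U.le hg⟩, hg⟩).symm.trans (h.2 _),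
    fun e => ⟨hf, fun g => (h.2 g).trans (e _ g.2).symm⟩⟩

/-- `kp_ine_iff`, `ev_ine`, `OS.exists_bel`. -/
theorem Rad.good (hl : (l : F) ≠ 0) (h : Rad r χ f) {v : U.Pl} (hv : Gd N (OS.bel v)) :
    (v.ord f : ZMod (l ^ a)) = 0 := by
  obtain ⟨O, hO, hR⟩ := OS.exists_bel v
  exact (kp_ine_iff hr hl hR h.1).1 fun g hg => (h.2 ⟨⟨g, U.le hg.1⟩, hg.1⟩).symm.trans
    ((ev_ine χ.2.2).gd hv hO hg.2 _ _)

/-- The kernel of `kp f` in `U.H` is a subgroup to which `ev_of` applies (`near_kp`,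
`kp_ine_iff`, `OS.exists_rel`, `OS.Rel.over_iff`). -/
theorem exists_of_ord (hl : (l : F) ≠ 0) (hU : AdU N U) (hf : f ≠ 0)
    (h : ∀ v : U.Pl, Gd N (OS.bel v) → (v.ord f : ZMod (l ^ a)) = 0) :
    ∃ χ : AcU N U (l ^ a), Rad r χ f := by
  have h0 : (f : Om F) ≠ 0 := by simpa using hf
  let H : Subgroup (Gam F) :=
    { carrier := {g | g ∈ U.H ∧ kp r (l ^ a) f g = 0}
      mul_mem' := fun x y => ⟨mul_mem x.1 y.1, by rw [kp_hom hr hf x.1 y.1, x.2, y.2, add_zero]⟩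
      one_mem' := ⟨one_mem _, kp_one hr h0⟩
      inv_mem' := fun x => ⟨inv_mem x.1, by
        rw [kp_inv hr (geo_prm hr (U.le x.1)) (U.fix f x.1) h0, x.2, neg_zero]⟩ }
  refine ⟨⟨fun g => kp r (l ^ a) f ((g : Geo F) : Gam F), fun x y => kp_hom hr hf x.2 y.2,
    (ev_of H ((U.near.and (near_kp hr h0)).mono fun g hg e => ⟨hg.1 e, hg.2⟩)
      fun c hc O hO g hg => ?_).mono fun g hg _ => hg.2⟩, hf, fun _ => rfl⟩
  obtain ⟨v, hv⟩ := U.exists_rel hO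
  have e := hU.ine c hc O hO g hg
  exact ⟨e, (kp_ine_iff hr hl hv hf).2 (h v ⟨c, hv.over_iff.1 hO, hc⟩) g ⟨e, hg⟩⟩

/-- `kp_conj` for `δ * s` (`Fr.geo_mul`, `Fr.root`). -/
theorem Rad.tw [U.H.Normal] (hU : AdU N U) (h : Rad r χ f) {s : Gam F} {Q : ℕ} (hs : Fr s Q)
    (δ : Geo F) : Rad r ((Q : ZMod (l ^ a)) • twA _ (fam_inv s) hU.mem δ χ)
      ((U.sa (δ * s)).γ f) := by
  refine ⟨(_root_.map_ne_zero _).2 h.1, fun g => ?_⟩
  have e := hU.normal.conj_mem' _ (Subgroup.mem_subgroupOf.1 g.2) (δ * s)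
  have k := kp_conj hr ((hs.geo_mul δ.2).root (NeZero.pos _) hr.pow_eq_one) (U.le e) (U.fix f e)
    (by simpa using h.1)
  rw [show δ * s * ((δ * s)⁻¹ * (g : Geo F) * (δ * s)) * (δ * s : Gam F)⁻¹ = (g : Geo F) by group]
    at k
  refine Eq.trans (congrArg (HMul.hMul (Q : ZMod (l ^ a))) ((h.2 _).trans ?_)) k.symm
  simp only [sgm_val, Subgroup.coe_mul, Subgroup.coe_inv, mul_inv_rev, mul_assoc]

end

end Pool.Agent.Lib.MP_16ef92_ag.AL
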