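import Mathlib
import Pool.Agent.Lib.MP_16ef92_ag.AL.PTr1

set_option autoImplicit false
set_option linter.unusedSectionVars false
set_option linter.unusedVariables false

namespace Pool.Agent.Lib.MP_16ef92_ag.AL

open Polynomial Pool.Agent.Lib.MP_6adaea_nt

noncomputable section

variable {F : Type} [Field F] [Clos F] [Fintype F] [hq : Fact (Odd (Fintype.card F))]
  {N : F[X]} {U : OS F} [U.H.Normal]

/-- `OS.Rel.ac_eq_iff` and `hU.ine`. -/
theorem stab_good (hU : AdU N U) {v : U.Pl} (hv : Gd N (OS.bel v)) {g : Gam F} (hg : g ∈ Geo F) :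
    U.ac g v = v ↔ g ∈ U.H := by
  obtain ⟨c, e, hc⟩ := hv
  obtain ⟨O, hO, hR⟩ := OS.exists_bel v
  refine ⟨fun h => ?_, fun h => by rw [OS.ac_of_mem h, Equiv.Perm.one_apply]⟩
  obtain ⟨k, hk, h1⟩ := hR.ac_eq_iff.1 h
  exact (U.H.mul_mem_cancel_left hk).1 (hU.ine c hc O (e ▸ hO) _ ⟨mul_mem (U.le hk) hg, h1⟩)

theorem pcnt_bel {g : Gam F} {c : kk F} {v : U.Pl} (hg : g c = c) (hv : OS.bel v = some c) :
    OS.bel (U.ac g v) = some c := by
  rw [OS.bel_ac, hv, Option.map_some, show ck g c = c from Subtype.ext hg]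

theorem pcnt_uniq (hU : AdU N U) {v w : U.Pl} (hw : Gd N (OS.bel w)) (e : OS.bel w = OS.bel v) :
    ∃! x : Geo F ⧸ U.H.subgroupOf (Geo F), U.ac x.out w = v := by
  obtain ⟨g, hg, h1⟩ := OS.ac_trans e
  obtain ⟨k, hk⟩ := QuotientGroup.mk_out_eq_mul (U.H.subgroupOf (Geo F)) ⟨g, hg⟩
  refine existsUnique_of_exists_of_unique ⟨(⟨g, hg⟩ : Geo F), ?_⟩ fun x y hx hy => ?_
  · rw [hk, Subgroup.coe_mul, map_mul, OS.ac_of_mem (Subgroup.mem_subgroupOf.1 k.2), mul_one, h1]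
  · rw [← x.out_eq', ← y.out_eq', QuotientGroup.eq]
    refine (stab_good hU hw (x.out⁻¹ * y.out).2).1 ?_
    rw [Subgroup.coe_mul, Subgroup.coe_inv, map_mul, map_inv, Equiv.Perm.mul_apply, hy, ← hx]
    exact Equiv.symm_apply_apply _ _

/-- Every good place over a point of `B` is fixed by exactly one `x.out * s`, and each fibre of
`bel` over `B` is in bijection with the quotient. -/
theorem count (hU : AdU N U) [Fintype (Geo F ⧸ U.H.subgroupOf (Geo F))] {s : Gam F} {Q : ℕ}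
    (hs : Fr s Q) (B : Finset (kk F)) (hB : ∀ c, c ∈ B ↔ aeval c N ≠ 0 ∧ (c : Om F) ^ Q = c)
    (t : Gam F → ℕ) (ht : ∀ h ∈ U.H, ∀ g, t (h * g) = t g) (b : kk F → ℕ)
    (hb : ∀ c ∈ B, ∀ O, Over O (some c) → ∀ f ∈ St O, Fr f Q → t f = b c) :
    ∑ x : Geo F ⧸ U.H.subgroupOf (Geo F),
      {v : U.Pl | Gd N (OS.bel v) ∧ U.ac (x.out * s) v = v}.ncard * t (x.out * s) =
        Fintype.card (Geo F ⧸ U.H.subgroupOf (Geo F)) * ∑ c ∈ B, b c := by
  classical
  choose p hp using fun c => U.bel_surj (some c)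
  let Φ : kk F × (Geo F ⧸ U.H.subgroupOf (Geo F)) → U.Pl := fun y => U.ac y.2.out (p y.1)
  have hΦ : ∀ y, OS.bel (Φ y) = some y.1 := fun y => pcnt_bel (geo_fix y.2.out.2 _) (hp _)
  have hG : ∀ c ∈ B, ∀ v : U.Pl, OS.bel v = some c → Gd N (OS.bel v) := fun c hc v e =>
    ⟨c, e, ((hB c).1 hc).1⟩
  have h1 : ∀ x : Geo F ⧸ U.H.subgroupOf (Geo F),
      {v : U.Pl | Gd N (OS.bel v) ∧ U.ac (x.out * s) v = v} =
        (((B ×ˢ Finset.univ).filter fun y => U.ac (x.out * s) (Φ y) = Φ y).image Φ :) := by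
    intro x
    ext v
    simp only [Set.mem_ofPred_eq, Finset.coe_image, Set.mem_image, Finset.mem_coe,
      Finset.mem_filter, Finset.mem_product, Finset.mem_univ, and_true]
    refine ⟨fun ⟨⟨c, e, hc⟩, h⟩ => ?_, ?_⟩
    · have h2 := OS.bel_ac ((x.out : Gam F) * s) v
      rw [h, e, Option.map_some, Option.some.injEq] at h2
      have h3 := (hB c).2 ⟨hc, (hs.geo_mul x.out.2 c).symm.trans (congrArg Subtype.val h2).symm⟩
      obtain ⟨y, hy, -⟩ := pcnt_uniq hU (hG c h3 _ (hp c)) ((hp c).trans e.symm)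
      exact ⟨(c, y), ⟨h3, (show Φ (c, y) = v from hy).symm ▸ h⟩, hy⟩
    · rintro ⟨y, ⟨hy, h⟩, rfl⟩
      exact ⟨hG _ hy _ (hΦ y), h⟩
  have h2 : ∀ x : Geo F ⧸ U.H.subgroupOf (Geo F),
      {v : U.Pl | Gd N (OS.bel v) ∧ U.ac (x.out * s) v = v}.ncard * t (x.out * s) =
        ∑ y ∈ B ×ˢ Finset.univ, if U.ac (x.out * s) (Φ y) = Φ y then b y.1 else 0 := by
    intro x
    rw [h1, Set.ncard_coe_finset, Finset.card_image_of_injOn, ← Finset.sum_filter, ← smul_eq_mul,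
      ← Finset.sum_const]
    · refine Finset.sum_congr rfl fun y hy => ?_
      obtain ⟨hy, h⟩ := Finset.mem_filter.1 hy
      obtain ⟨O, hO, hR⟩ := OS.exists_bel (Φ y)
      obtain ⟨k, hk, h3⟩ := hR.ac_eq_iff.1 h
      rw [← ht k hk]
      exact hb _ (Finset.mem_product.1 hy).1 O (hΦ y ▸ hO) _ h3
        ((hs.geo_mul x.out.2).geo_mul (U.le hk))
    · rintro ⟨c, y⟩ hy ⟨c', y'⟩ - e
      obtain rfl : c = c' := Option.some.inj ((hΦ _).symm.trans (e ▸ hΦ (c', y')))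
      exact congrArg _ ((pcnt_uniq hU (hG c (Finset.mem_product.1 (Finset.mem_filter.1 hy).1).1 _
        (hp c)) ((hp c).trans (hΦ (c, y')).symm)).unique e rfl)
  rw [Finset.sum_congr rfl fun x _ => h2 x, Finset.sum_comm, Finset.sum_product, Finset.mul_sum]
  refine Finset.sum_congr rfl fun c hc => ?_
  rw [← Finset.card_univ, ← smul_eq_mul, ← Finset.sum_const]
  refine Finset.sum_congr rfl fun y _ => ?_
  have h3 := pcnt_bel ((hs c).trans ((hB c).1 hc).2) (hΦ (c, y))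
  obtain ⟨x, hx, hx'⟩ := pcnt_uniq hU (hG c hc _ h3) (h3.trans (hΦ (c, y)).symm)
  simp only [map_mul, Equiv.Perm.mul_apply]
  rw [Finset.sum_eq_single x (fun z _ hz => if_neg fun e => hz (hx' z e)) (by simp), if_pos hx]

end

end Pool.Agent.Lib.MP_16ef92_ag.AL
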