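import Mathlib
import Pool.Agent.Lib.MP_16ef92_ag.AL.PRes

set_option autoImplicit false
set_option linter.unusedSectionVars false
set_option linter.unusedVariables false

namespace Pool.Agent.Lib.MP_16ef92_ag.AL

open Polynomial Pool.Agent.Lib.MP_6adaea_nt

noncomputable section

variable {F : Type} [Field F] [Clos F] [Fintype F] [hq : Fact (Odd (Fintype.card F))]
  {N : F[X]} {U V : OS F} {l a : ℕ} [Fact l.Prime] {r : Om F}

theorem ph1_conj (hr : IsPrimitiveRoot r (l ^ a)) {f : U.K} (hf : f ≠ 0) {p g : Gam F}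
    (hp : p ∈ U.H) (hg : g ∈ U.H) : kp r (l ^ a) f (p⁻¹ * g * p) = kp r (l ^ a) f g := by
  rw [kp_hom hr hf (mul_mem (inv_mem hp) hg) hp, kp_hom hr hf (inv_mem hp) hg,
    kp_inv hr (geo_prm hr (U.le hp)) (U.fix f hp) (by simpa using hf)]
  ring

theorem ph1_loc (hl : (l : F) ≠ 0) (hr : IsPrimitiveRoot r (l ^ a)) (hV : AdU N V)
    (hle : V.H ≤ U.H) (χ : Gam F → ZMod (l ^ a))
    (hm : ∀ g ∈ V.H, ∀ h ∈ V.H, χ (g * h) = χ g + χ h) (hn : Near fun g => g ∈ V.H → χ g = 0)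
    (hc : ∀ p ∈ U.H, ∀ g ∈ V.H, χ (p⁻¹ * g * p) = χ g) (v : U.Pl) :
    ∃ (j : ZMod (l ^ a)) (π : U.K), v.ord π = 1 ∧
      (Gd N (OS.bel v) → ∀ O, U.Rel O v → ∀ g ∈ Ine O, χ g = j * kp r (l ^ a) π g) ∧
      (j ≠ 0 → ∃ O, Over O (OS.bel v) ∧ ∃ g ∈ Ine O, ¬ (g ∈ V.H → χ g = 0)) := by
  obtain ⟨O₀, hO, hR⟩ := OS.exists_bel v
  obtain ⟨π, π0, hπ⟩ := v.exists_ord_eq 1
  by_cases hx : Gd N (OS.bel v)
  swap
  · exact ⟨0, π, hπ, fun h => (hx h).elim, fun h => (h rfl).elim⟩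
  have hI : ∀ O, U.Rel O v → ∀ g ∈ Ine O, g ∈ V.H := fun O h g hg =>
    hV.ine.gd hx (h.over_iff.2 rfl) hg
  obtain ⟨j, hj⟩ := (hR.unif hO hπ).local_char hr hl χ
    (fun g hg h hh => hm g (hI _ hR g hg.2) h (hI _ hR h hh.2))
    (hn.mono fun g hg h => hg (hI _ hR g h.2))
  refine ⟨j, π, hπ, fun _ O h g hg => ?_, fun h0 => ?_⟩
  · obtain ⟨p, hp, e⟩ := hR.conj h
    have h1 := conj_ine e hg
    have h2 := hI O h g hg
    rw [← hc p hp g h2, hj _ ⟨hle (hI _ hR _ h1), h1⟩, ph1_conj hr π0 hp (hle h2)]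
  · obtain ⟨g, hg, hu⟩ := (hR.unif hO hπ).exists_unit hr hl
    refine ⟨O₀, hO, g, hg.2, fun e => h0 ?_⟩
    have := e (hI _ hR g hg.2)
    rwa [hj g hg, hu.mul_left_eq_zero] at this

/-- Local exponents `ph1_loc`, corrected at a place above infinity, then `exists_div`. -/
theorem exists_unram (hl : (l : F) ≠ 0) (hr : IsPrimitiveRoot r (l ^ a)) (hV : AdU N V)
    (hle : V.H ≤ U.H) (χ : Gam F → ZMod (l ^ a))
    (hm : ∀ g ∈ V.H, ∀ h ∈ V.H, χ (g * h) = χ g + χ h) (hn : Near fun g => g ∈ V.H → χ g = 0)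
    (hc : ∀ p ∈ U.H, ∀ g ∈ V.H, χ (p⁻¹ * g * p) = χ g) :
    ∃ f : U.K, f ≠ 0 ∧ GI N fun g => χ g = kp r (l ^ a) f g := by
  classical
  choose j π hπ hj hf using ph1_loc hl hr hV hle χ hm hn hc
  let D₀ : Dv (kk F) U.K := Finsupp.ofSupportFinite (fun v => ((j v).val : ℤ))
    ((U.finite_bel hn.finite_ram).subset fun v hv => hf v fun e => hv (by simp [e]))
  obtain ⟨w, hw⟩ := U.bel_surj none
  obtain ⟨f, f0, hD⟩ := exists_div (a := a) hl (D₀ - Finsupp.single w (deg D₀))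
    (by rw [map_sub, deg_single, sub_self, Int.cast_zero])
  refine ⟨f, f0, fun c hc O hO g hg => ?_⟩
  obtain ⟨v, hv⟩ := U.exists_rel hO
  have hb := hv.over_iff.1 hO
  have hne : v ≠ w := fun e => by
    rw [e, hw] at hb
    cases hb
  rw [hj v (hb ▸ gd_some.2 hc) O hv g hg, kp_ord hr hv (hπ v) f0 ⟨hle (hV.ine c hc O hO g hg), hg⟩,
    hD v, Finsupp.sub_apply, Finsupp.single_eq_of_ne hne, sub_zero]
  congr 1
  exact ((Int.cast_natCast _).trans (ZMod.natCast_zmod_val _)).symm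

end

end Pool.Agent.Lib.MP_16ef92_ag.AL
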