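import Mathlib
import Pool.Agent.Lib.MP_16ef92_ag.AL.PH1
import Pool.Agent.Lib.MP_16ef92_ag.EL.Tsen2

set_option autoImplicit false
set_option linter.unusedSectionVars false
set_option linter.unusedVariables false

namespace Pool.Agent.Lib.MP_16ef92_ag.AL

open Polynomial

noncomputable section

variable {F : Type} [Field F] [Clos F] [Fintype F] [hq : Fact (Odd (Fintype.card F))]
  {N : F[X]} {l : ℕ} [Fact l.Prime]

/-- Vanishing of `H²` for open subgroups, from `EL.h2_zero`. -/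
theorem h2_open (hl : (l : F) ≠ 0) {a : ℕ} (H : Subgroup (Gam F)) (hH : H ≤ Geo F)
    (β : Gam F → Gam F → ZMod (l ^ a))
    (hc : ∀ g ∈ H, ∀ h ∈ H, ∀ k ∈ H, β g h + β (g * h) k = β h k + β g (h * k))
    (hn : Near fun m => m ∈ H → ∀ g ∈ H, ∀ h ∈ H, β (g * m) h = β g h ∧ β g (h * m) = β g h) :
    ∃ b : Gam F → ZMod (l ^ a), (∀ g ∈ H, ∀ h ∈ H, β g h + b (g * h) = b g + b h) ∧
      Near fun m => m ∈ H → ∀ g ∈ H, b (g * m) = b g := by
  let : EL.Pl := ⟨l, Fact.out⟩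
  obtain ⟨r, hr⟩ := exists_prm (F := F) (n := l ^ a) (by push_cast; exact pow_ne_zero _ hl)
  obtain ⟨b, hb1, hb2, hb3⟩ := EL.h2_zero (cast_ne hl) H
    (fun g hg m w hw => geo_root (hH hg) (EL.lp_pos m) hw)
    (fun H₁ h₁ g₀ hg₀ => EL.nrm_geo H₁ (h₁.trans hH) g₀ (hH hg₀)) (n := a)
    (fun g h => chn r (β g h)) (fun g _ h _ => chn_pow_one hr _)
    (fun g hg h hh k hk => by rw [← chn_add hr, ← chn_add hr, hc g hg h hh k hk])
    (hn.mono fun m hm hm' g hg h hh =>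
      ⟨congrArg _ (hm hm' g hg h hh).1, congrArg _ (hm hm' g hg h hh).2⟩)
  choose! e he using fun g hg => chn_surj hr (hb1 g hg)
  refine ⟨e, fun g hg h hh => chn_inj hr ?_, Near.mono hb2 fun m hm hm' g hg => chn_inj hr ?_⟩
  · rw [chn_add hr, chn_add hr, ← he g hg, ← he h hh, ← he _ (H.mul_mem hg hh)]
    exact hb3 g hg h hh
  · rw [← he g hg, ← he _ (H.mul_mem hg hm')]
    exact hm hm' g hg

/-- Correct the cochain of `h2_open` by a Kummer character. -/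
theorem h2_adm (hl : (l : F) ≠ 0) {a : ℕ} {U V : OS F} (hV : AdU N V) (hle : V.H ≤ U.H)
    (β : Gam F → Gam F → ZMod (l ^ a))
    (hc : ∀ g ∈ U.H, ∀ h ∈ U.H, ∀ k ∈ U.H, β g h + β (g * h) k = β h k + β g (h * k))
    (hn : ∀ m ∈ V.H, ∀ g ∈ U.H, ∀ h ∈ U.H, β (g * m) h = β g h ∧ β g (h * m) = β g h) :
    ∃ b : Gam F → ZMod (l ^ a), (∀ g ∈ U.H, ∀ h ∈ U.H, β g h + b (g * h) = b g + b h) ∧
      ∃ V' : OS F, AdU N V' ∧ ∀ m ∈ V'.H, ∀ g ∈ U.H, b (g * m) = b g := by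
  obtain ⟨r, hr⟩ := exists_prm (F := F) (n := l ^ a) (by push_cast; exact pow_ne_zero _ hl)
  obtain ⟨b, hb, hb'⟩ := h2_open hl U.H U.le β hc
    (V.near.mono fun m hm hm' => hn m (hm (U.le hm')))
  have h1 := U.H.one_mem
  have e1 : ∀ g ∈ U.H, ∀ m ∈ V.H, β g m = β 1 1 := fun g hg m hm => by
    have h2 := hc g hg 1 h1 1 h1
    have h3 := (hn m hm g hg 1 h1).2
    rw [mul_one, mul_one] at h2
    rw [one_mul] at h3
    linear_combination h2 + h3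
  have e2 : ∀ g ∈ U.H, ∀ m ∈ V.H, β m g = β 1 1 := fun g hg m hm => by
    have h2 := hc 1 h1 1 h1 g hg
    have h3 := (hn m hm 1 h1 g hg).1
    rw [mul_one, one_mul] at h2
    rw [one_mul] at h3
    linear_combination h3 - h2
  have e3 : b 1 = β 1 1 := by
    have h2 := hb 1 h1 1 h1
    rw [mul_one] at h2
    linear_combination -h2
  have hm : ∀ g ∈ U.H, ∀ m ∈ V.H, b (g * m) - β 1 1 = b g - β 1 1 + (b m - β 1 1) :=
    fun g hg m hm => by linear_combination hb g hg m (hle hm) - e1 g hg m hm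
  have hz : Near fun g => g ∈ V.H → b g - β 1 1 = 0 := hb'.mono fun m h hm => by
    have h2 := h (hle hm) 1 h1
    rw [one_mul] at h2
    rw [h2, e3, sub_self]
  obtain ⟨f, hf, hf'⟩ := exists_unram hl hr hV hle (fun g => b g - β 1 1)
    (fun g hg => hm g (hle hg)) hz fun p hp g hg => by
      have h2 := hm p hp _ (hV.normal.conj_mem' g hg p)
      rw [← mul_assoc, ← mul_assoc, mul_inv_cancel, one_mul] at h2
      linear_combination hb g (hle hg) p hp - e2 p hp g hg - h2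
  have hf0 : (f : Om F) ≠ 0 := by simpa using hf
  let W : Subgroup (Gam F) :=
    { carrier := {m | m ∈ V.H ∧ b m - β 1 1 = kp r (l ^ a) f m}
      one_mem' := ⟨V.H.one_mem, by rw [e3, sub_self, kp_one hr hf0]⟩
      mul_mem' := fun {x y} hx hy => ⟨V.H.mul_mem hx.1 hy.1, by
        rw [hm x (hle hx.1) y hy.1, hx.2, hy.2, kp_hom hr hf (hle hx.1) (hle hy.1)]⟩
      inv_mem' := fun {x} hx => ⟨V.H.inv_mem hx.1, by
        have h2 := hm x (hle hx.1) _ (V.H.inv_mem hx.1)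
        rw [mul_inv_cancel, e3, sub_self, hx.2] at h2
        rw [kp_inv hr (geo_prm hr (V.le hx.1)) (U.fix f (hle hx.1)) hf0]
        linear_combination -h2⟩ }
  obtain ⟨V', hV', hW⟩ := exists_adU (N := N) W
    ((V.near.and (hz.and (near_kp hr hf0))).mono fun g hg h =>
      ⟨hg.1 h, (hg.2.1 (hg.1 h)).trans hg.2.2.symm⟩)
    fun c hc O hO g hg => ⟨hV.ine c hc O hO g hg, hf' c hc O hO g hg⟩
  refine ⟨fun g => b g - kp r (l ^ a) f g, fun g hg h hh => ?_, V', hV', fun m h g hg => ?_⟩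
  · linear_combination hb g hg h hh - kp_hom hr hf hg hh
  · linear_combination hm g hg m (hW h).1 + (hW h).2 - kp_hom hr hf hg (hle (hW h).1)

theorem ph2_one (hl : (l : F) ≠ 0) {a n : ℕ} (e : n = l ^ a) {U V : OS F} (hV : AdU N V)
    (hle : V.H ≤ U.H) (β : Gam F → Gam F → ZMod n)
    (hc : ∀ g ∈ U.H, ∀ h ∈ U.H, ∀ k ∈ U.H, β g h + β (g * h) k = β h k + β g (h * k))
    (hn : ∀ m ∈ V.H, ∀ g ∈ U.H, ∀ h ∈ U.H, β (g * m) h = β g h ∧ β g (h * m) = β g h) :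
    ∃ b : Gam F → ZMod n, (∀ g ∈ U.H, ∀ h ∈ U.H, β g h + b (g * h) = b g + b h) ∧
      ∃ V' : OS F, AdU N V' ∧ ∀ m ∈ V'.H, ∀ g ∈ U.H, b (g * m) = b g := by
  subst e
  exact h2_adm hl hV hle β hc hn

theorem h2_fam (hl : (l : F) ≠ 0) : H2 (fam N) l := by
  classical
  intro P hP β hc hn
  obtain ⟨_, ⟨V, hV, rfl⟩, h⟩ := hP.and hn
  let U : OS F := ⟨P.map (Geo F).subtype, Subgroup.map_subtype_le _,
    (ev_near hP).mono fun g hg h => ⟨_, hg h, rfl⟩⟩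
  let β' : Gam F → Gam F → ZMod l := fun g k =>
    if hg : g ∈ Geo F then if hk : k ∈ Geo F then β ⟨g, hg⟩ ⟨k, hk⟩ else 0 else 0
  have e : ∀ g k : Geo F, β' g k = β g k := fun g k => (dif_pos g.2).trans (dif_pos k.2)
  obtain ⟨b, hb, V', hV', hb'⟩ := ph2_one hl (pow_one l).symm (U := U) hV
    (fun g hg => ⟨⟨g, V.le hg⟩, (h ⟨g, V.le hg⟩ hg).1, rfl⟩) β' (by
      rintro _ ⟨g, hg, rfl⟩ _ ⟨k, hk, rfl⟩ _ ⟨m, hm, rfl⟩
      have h2 := hc g hg k hk m hm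
      rw [← e, ← e, ← e, ← e] at h2
      exact h2) (by
      rintro m hm _ ⟨g, hg, rfl⟩ _ ⟨k, hk, rfl⟩
      have h2 := (h ⟨m, V.le hm⟩ hm).2 g hg k hk
      rw [← e, ← e, ← e] at h2
      exact h2)
  refine ⟨fun g => b g, fun g hg k hk => ?_, _, hV'.mem, fun m hm g hg => hb' m hm g ⟨g, hg, rfl⟩⟩
  rw [← e]
  exact hb g ⟨g, hg, rfl⟩ k ⟨k, hk, rfl⟩

end

end Pool.Agent.Lib.MP_16ef92_ag.AL
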