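import Mathlib
import Pool.Agent.Lib.MP_16ef92_ag.AL.PTr1

set_option autoImplicit false
set_option linter.unusedSectionVars false
set_option linter.unusedVariables false

namespace Pool.Agent.Lib.MP_16ef92_ag.AL

open Polynomial Pool.Agent.Lib.MP_6adaea_nt

noncomputable section

variable {F : Type} [Field F] [Clos F] [Fintype F] [hq : Fact (Odd (Fintype.card F))]
  {N : F[X]} {U : OS F} {l a : ℕ} [Fact l.Prime] {r : Om F}

theorem ptr2_ord (hr : IsPrimitiveRoot r (l ^ a)) {χ : AcU N U (l ^ a)} {f f' : U.K}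
    (h : Rad r χ f) (h' : Rad r χ f') (v : U.Pl) : (v.ord f' : ZMod (l ^ a)) = v.ord f := by
  obtain ⟨b, e⟩ := (h.iff hr h'.1).1 h'
  rw [e, v.ord_mul h.1 (right_ne_zero_of_mul (e ▸ h'.1)), v.ord_pow, Int.cast_add, Int.cast_mul,
    Int.cast_natCast, ZMod.natCast_self, zero_mul, add_zero]

theorem ptr2_deg [Fintype (Bad N U)] {n : ℕ} (D : Dv (kk F) U.K)
    (h : ∀ v, Gd N (OS.bel v) → (D v : ZMod n) = 0) :
    (deg D : ZMod n) = ∑ v : Bad N U, (D v.1 : ZMod n) := by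
  classical
  rw [deg_eq_sum D (Finset.subset_union_left (s₂ := Finset.univ.map (.subtype _ : Bad N U ↪ _))),
    Int.cast_sum, ← Finset.sum_subset Finset.subset_union_right fun v _ hv =>
      h v (by simpa using hv), Finset.sum_map]
  rfl

/-- The residue map. -/
theorem exists_res (hl : (l : F) ≠ 0) (hr : IsPrimitiveRoot r (l ^ a)) (hU : AdU N U)
    [Fintype (Bad N U)] : ∃ res : AcU N U (l ^ a) →ₗ[ZMod (l ^ a)] Bad N U → ZMod (l ^ a),
      (∀ χ f, Rad r χ f → ∀ v, res χ v = v.1.ord f) ∧ ∀ u, (∃ χ, res χ = u) ↔ ∑ v, u v = 0 := by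
  choose g hg using exists_Rad (N := N) (U := U) hr
  refine ⟨(AddMonoidHom.mk' (fun χ (v : Bad N U) => (v.1.ord (g χ) : ZMod (l ^ a))) fun x y =>
    funext fun v => ?_).toZModLinearMap _, fun χ f h v => ptr2_ord hr h (hg χ) v.1,
    fun u => ⟨?_, fun hu => ?_⟩⟩
  · rw [ptr2_ord hr ((hg x).add hr (hg y)) (hg _), v.1.ord_mul (hg x).1 (hg y).1, Int.cast_add]
    rfl
  · rintro ⟨χ, rfl⟩
    exact (ptr2_deg (dv (kk F) (g χ)) fun v hv => (hg χ).good hr hl hv).symm.trans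
      (by rw [deg_dv, Int.cast_zero])
  · choose m hm using fun v => ZMod.intCast_surjective (u v)
    let D : Dv (kk F) U.K := Finsupp.mapDomain Subtype.val (Finsupp.equivFunOnFinite.symm m)
    have h1 : ∀ v : Bad N U, (D v.1 : ZMod (l ^ a)) = u v := fun v =>
      (congrArg _ (Finsupp.mapDomain_apply Subtype.val_injective _ v)).trans (hm v)
    have h2 : ∀ v, Gd N (OS.bel v) → (D v : ZMod (l ^ a)) = 0 := fun v hv =>
      (congrArg _ (Finsupp.mapDomain_of_notMem_range _ v (by simpa using hv))).trans Int.cast_zero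
    obtain ⟨f, hf, e⟩ := exists_div hl D (by rw [ptr2_deg D h2, ← hu]; simp only [h1])
    obtain ⟨χ, hχ⟩ := exists_of_ord hr hl hU hf fun v hv => (e v).trans (h2 v hv)
    exact ⟨χ, funext fun v => (ptr2_ord hr hχ (hg χ) _).trans ((e _).trans (h1 v))⟩

theorem ptr2_cl (hr : IsPrimitiveRoot r (l ^ a)) {χ : AcU N U (l ^ a)} {f f' : U.K}
    {D D' : Dv (kk F) U.K} (h : Rad r χ f) (e : dv (kk F) f = l ^ a • D) (hD : cl D' = cl D)
    (hf : f' ≠ 0) (e' : dv (kk F) f' = l ^ a • D') : Rad r χ f' := by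
  obtain ⟨g, hg, h1⟩ := cl_eq.1 hD
  have h2 := mul_ne_zero h.1 (pow_ne_zero (l ^ a) hg)
  obtain ⟨c, hc⟩ := const_of_dv (k := kk F) (f := f' / (f * g ^ l ^ a)) (by
    rw [dv_div hf h2, dv_mul h.1 (pow_ne_zero _ hg), dv_pow, h1, e, e', smul_sub, add_sub_cancel,
      sub_self])
  obtain ⟨d, rfl⟩ := IsAlgClosed.exists_pow_nat_eq c (pow_pos (Fact.out : l.Prime).pos a)
  exact (h.iff hr hf).2 ⟨g * algebraMap _ _ d, by
    rw [mul_pow, ← mul_assoc, ← map_pow, ← hc, mul_div_cancel₀ _ h2]⟩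

theorem ptr2_zero {f : U.K} {D : Dv (kk F) U.K} {n : ℕ} (e : dv (kk F) f = n • D) (v : U.Pl) :
    (v.ord f : ZMod n) = 0 := by
  rw [← dv_apply, e, Finsupp.smul_apply, nsmul_eq_mul, Int.cast_mul, Int.cast_natCast,
    ZMod.natCast_self, zero_mul]

/-- The characters attached to torsion classes. -/
theorem exists_inc (hl : (l : F) ≠ 0) (hr : IsPrimitiveRoot r (l ^ a)) (hU : AdU N U) :
    ∃ inc : Tor (kk F) U.K (l ^ a) →ₗ[ZMod (l ^ a)] AcU N U (l ^ a), Function.Injective inc ∧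
      (∀ c D f, cl D = c.1 → f ≠ 0 → dv (kk F) f = l ^ a • D → Rad r (inc c) f) ∧
      ∀ χ f, Rad r χ f →
        ((∃ c, inc c = χ) ↔ ∀ v : U.Pl, (v.ord f : ZMod (l ^ a)) = 0) := by
  have ex : ∀ c : Tor (kk F) U.K (l ^ a), ∃ D f, cl D = c.1 ∧ f ≠ 0 ∧ dv (kk F) f = l ^ a • D :=
    fun c => by
      obtain ⟨D, hD⟩ := cl_surj c.1
      obtain ⟨f, hf⟩ := cl_eq_zero.1 ((map_nsmul cl (l ^ a) D).trans (hD ▸ c.2))
      exact ⟨D, f, hD, hf⟩
  have : ∀ c : Tor (kk F) U.K (l ^ a), ∃ χ : AcU N U (l ^ a),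
      ∀ D f, cl D = c.1 → f ≠ 0 → dv (kk F) f = l ^ a • D → Rad r χ f := fun c => by
    obtain ⟨D, f, h1, h2, h3⟩ := ex c
    obtain ⟨χ, h⟩ := exists_of_ord hr hl hU h2 fun v _ => ptr2_zero h3 v
    exact ⟨χ, fun D' f' e => ptr2_cl hr h h3 (e.trans h1.symm)⟩
  choose g hg using this
  refine ⟨(AddMonoidHom.mk' g fun x y => ?_).toZModLinearMap _,
    (injective_iff_map_eq_zero _).2 fun c hc => ?_, hg, fun χ f h => ⟨?_, fun hv => ?_⟩⟩
  · obtain ⟨D, f, h1, h2, h3⟩ := ex x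
    obtain ⟨D', f', h4, h5, h6⟩ := ex y
    exact (hg _ (D + D') _ (by rw [map_add, h1, h4]; rfl) (mul_ne_zero h2 h5)
      (by rw [dv_mul h2 h5, h3, h6, smul_add])).ext ((hg _ _ _ h1 h2 h3).add hr (hg _ _ _ h4 h5 h6))
  · obtain ⟨D, f, h1, h2, h3⟩ := ex c
    obtain ⟨b, rfl⟩ := ((rad_one hr).iff hr h2).1 ((show g c = 0 from hc) ▸ hg _ _ _ h1 h2 h3)
    rw [one_mul] at h2 h3
    have h0 := pow_ne_zero a (Fact.out : l.Prime).ne_zero
    rw [dv_pow] at h3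
    exact Subtype.ext (h1.symm.trans ((congrArg cl (nsmul_right_injective h0 h3).symm).trans
      (cl_dv (ne_zero_pow h0 h2))))
  · rintro ⟨c, rfl⟩ v
    obtain ⟨D, f', h1, h2, h3⟩ := ex c
    exact (ptr2_ord hr (hg _ _ _ h1 h2 h3) h v).trans (ptr2_zero h3 v)
  · have e : dv (kk F) f = l ^ a • (dv (kk F) f).mapRange (· / ((l ^ a : ℕ) : ℤ)) (Int.zero_ediv _) :=
      Finsupp.ext fun v => by
        rw [Finsupp.smul_apply, Finsupp.mapRange_apply, nsmul_eq_mul]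
        exact (Int.mul_ediv_cancel' ((ZMod.intCast_zmod_eq_zero_iff_dvd _ _).1 (hv v))).symm
    exact ⟨⟨cl _, (map_nsmul cl _ _).symm.trans (e ▸ cl_dv h.1)⟩, (hg _ _ _ rfl h.1 e).ext h⟩

end

end Pool.Agent.Lib.MP_16ef92_ag.AL
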