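import Mathlib
import Pool.Agent.Lib.MP_16ef92_ag.AL.WEv

set_option autoImplicit false
set_option linter.unusedSectionVars false
set_option linter.unusedVariables false

namespace Pool.Agent.Lib.MP_16ef92_ag.AL

open Pool.Agent.Lib.MP_6adaea_nt 
open scoped Classical

noncomputable section

variable {k K L : Type} [Field k] [Field K] [Algebra k K] [IsAlgClosed k] [PosChar k] [Field L]
  [Algebra k L] [Algebra L K] [IsScalarTower k L K] [IsFF k L] [IsFF k K] [FiniteDimensional L K]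
  [Algebra.IsSeparable L K]

theorem wnrm_trans {N : Type} [Field N] [Algebra k N] [Algebra L N] [Algebra K N]
    [IsScalarTower L K N] {w : Place k N} {v : Place k K} {x : Place k L} {a b : ℕ}
    (h : w.Over v a) (h' : v.Over x b) : w.Over x (a * b) :=
  ⟨mul_pos h.1 h'.1, fun y => by
    rw [IsScalarTower.algebraMap_apply L K N, h.2, h'.2, Nat.cast_mul, mul_assoc]⟩

theorem wnrm_down {N : Type} [Field N] [Algebra k N] [Algebra L N] [Algebra K N]
    [IsScalarTower L K N] [IsScalarTower k L N] {w : Place k N} {v : Place k K} {x : Place k L}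
    {a c : ℕ} (h : w.Over v a) (h' : w.Over x c) : ∃ b, v.Over x b := by
  obtain ⟨y, b, hb⟩ := v.exists_under (L := L)
  exact ⟨b, (wnrm_trans h hb).unique_under h' ▸ hb⟩

section

variable {N : Type} [Field N] [Algebra k N] [Algebra L N] [Algebra K N] [IsScalarTower k L N]
  [IsScalarTower k K N] [IsScalarTower L K N] [FiniteDimensional L N] [IsGalois L N]

variable (K) in
/-- restriction of an automorphism -/
def wnrm_res (σ : N ≃ₐ[L] N) : K →ₐ[L] AlgebraicClosure N :=
  ((IsScalarTower.toAlgHom L N _).comp σ.toAlgHom).comp (IsScalarTower.toAlgHom L K N)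

theorem wnrm_sum (φ : (K →ₐ[L] AlgebraicClosure N) → ℤ) :
    ∑ σ : N ≃ₐ[L] N, φ (wnrm_res K σ) = Module.finrank K N * ∑ τ, φ τ := by
  have : FiniteDimensional K N := FiniteDimensional.right L K N
  have : Algebra.IsSeparable K N := Algebra.isSeparable_tower_top_of_isSeparable L K N
  let (τ : K →ₐ[L] AlgebraicClosure N) :
      Fintype (@AlgHom K N (AlgebraicClosure N) _ _ _ _ τ.toRingHom.toAlgebra) :=
    @minpoly.AlgHom.fintype K N _ _ _ _ _ _ τ.toRingHom.toAlgebra _
  rw [Fintype.sum_equiv ((Normal.algHomEquivAut L (AlgebraicClosure N) N).symm.trans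
    (algHomEquivSigma (B := K))) (fun σ => φ (wnrm_res K σ)) (fun σ => φ σ.1) fun σ => rfl,
    ← Finset.univ_sigma_univ, Finset.sum_sigma, Finset.mul_sum]
  refine Finset.sum_congr rfl fun τ _ => ?_
  let : Algebra K (AlgebraicClosure N) := τ.toRingHom.toAlgebra
  rw [Finset.sum_congr rfl (g := fun _ => φ τ) fun _ _ => rfl, Finset.sum_const, nsmul_eq_mul,
    ← AlgHom.card K N (AlgebraicClosure N)]
  rfl

theorem wnrm_surj : Function.Surjective (wnrm_res (L := L) (N := N) K) := fun τ => by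
  have : FiniteDimensional K N := FiniteDimensional.right L K N
  by_contra h
  have h1 := wnrm_sum (N := N) fun τ' => if τ' = τ then 1 else 0
  rw [Finset.sum_eq_zero fun σ _ => if_neg fun e => h ⟨σ, e⟩, Finset.sum_ite_eq',
    if_pos (Finset.mem_univ _), mul_one] at h1
  exact Module.finrank_pos.ne (by exact_mod_cast h1)

theorem wnrm_key {x : Place k L} {w : Place k N} {c : ℕ} (h : w.Over x c) :
    ∃ (s : (K →ₐ[L] AlgebraicClosure N) → N ≃ₐ[L] N) (P : _ → Place k K) (a : _ → ℕ),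
      (∀ τ, (fibre_cj w (s τ)).Over (P τ) (a τ)) ∧
      (∀ f : K, algebraMap L N (Algebra.norm L f) = ∏ τ, s τ (algebraMap K N f)) ∧
      ∀ v e, v.Over x e → (Finset.univ.filter fun τ => P τ = v).card = e := by
  obtain ⟨p, hp, _⟩ := PosChar.ex (k := k)
  have := Fact.mk hp
  have : FiniteDimensional K N := FiniteDimensional.right L K N
  have : IsGalois K N := IsGalois.tower_top_of_isGalois L K N
  choose s hs using wnrm_surj (L := L) (K := K) (N := N)
  choose P a hP using fun τ => (fibre_cj w (s τ)).exists_under (L := K)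
  refine ⟨s, P, a, hP, fun f => (algebraMap N (AlgebraicClosure N)).injective ?_, fun v e he => ?_⟩
  · rw [← IsScalarTower.algebraMap_apply, Algebra.norm_eq_prod_embeddings, map_prod]
    exact Finset.prod_congr rfl fun τ _ => (DFunLike.congr_fun (hs τ) f).symm
  obtain ⟨T, hT⟩ := Place.exists_fibre N x
  obtain ⟨U, hU⟩ := Place.exists_fibre N v
  obtain ⟨u, b, hu⟩ := exists_over N v
  have h1 := fibre_sum p hT h fun u => if u ∈ U then 1 else 0
  have h2 := Place.card_fibre p hU hu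
  obtain ⟨σ, rfl⟩ := fibre_surj h (wnrm_trans hu he)
  have h3 := (fibre_over h σ).unique (wnrm_trans hu he)
  have h4 : ∀ σ : N ≃ₐ[L] N, fibre_cj w σ ∈ U ↔ P (wnrm_res K σ) = v := fun σ => by
    have e1 : ∀ v' a', (fibre_cj w (s (wnrm_res K σ))).Over v' a' → (fibre_cj w σ).Over v' a' :=
      fun v' a' h' => ⟨h'.1, fun y => Eq.trans (congrArg w.ord
        ((algebraMap N (AlgebraicClosure N)).injective
          (DFunLike.congr_fun (hs (wnrm_res K σ)) y).symm)) (h'.2 y)⟩
    rw [hU]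
    exact ⟨fun ⟨_, h'⟩ => (e1 _ _ (hP _)).unique_under h', fun h' => ⟨_, h' ▸ e1 _ _ (hP _)⟩⟩
  simp only [h4] at h1
  rw [wnrm_sum fun τ => if P τ = v then 1 else 0, Finset.sum_boole, Finset.sum_boole,
    Finset.filter_mem_eq_inter, Finset.inter_eq_right.2 fun u hu =>
      let ⟨_, h'⟩ := (hU u).1 hu
      (hT u).2 ⟨_, wnrm_trans h' he⟩, h3] at h1
  refine Nat.eq_of_mul_eq_mul_left (Module.finrank_pos (R := K) (M := N)) ?_
  rw [← h2] at h1 ⊢
  zify
  push_cast at h1
  linear_combination h1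

end

/-- the value of a norm -/
theorem norm_val {x : Place k L} {S : Finset (Place k K)} {e : Place k K → ℕ}
    (hS : ∀ v, v ∈ S ↔ ∃ e, v.Over x e) (he : ∀ v ∈ S, v.Over x (e v)) {f : K}
    (hf : ∀ v ∈ S, v.Ge f 0) :
    x.Ge (Algebra.norm L f) 0 ∧ val x (Algebra.norm L f) = ∏ v ∈ S, val v f ^ e v := by
  obtain ⟨N, _, _, _, _, _, _, _, _, _⟩ := ff2_closure k L K
  have : IsFF k N := IsFF.of_finite L N
  obtain ⟨w, c, h⟩ := exists_over N x
  obtain ⟨s, P, a, h1, h2, h3⟩ := wnrm_key (K := K) h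
  have h4 : ∀ τ, P τ ∈ S := fun τ => (hS _).2 (wnrm_down (h1 τ) (fibre_over h _))
  have h5 : ∀ τ, (fibre_cj w (s τ)).Ge (algebraMap K N f) 0 := fun τ =>
    (h1 τ).ge_zero.2 (hf _ (h4 τ))
  have h6 : ∀ τ y m, (fibre_cj w (s τ)).Ge y m → w.Ge (s τ y) m := fun τ y m h =>
    h.imp (fun e => by rw [e, map_zero]) id
  have h7 : ∀ τ ∈ Finset.univ, w.Ge (s τ (algebraMap K N f)) 0 := fun τ _ => h6 _ _ _ (h5 τ)
  refine ⟨h.ge_zero.1 (h2 f ▸ ge_prod_zero h7), ?_⟩
  rw [← val_over h, h2, val_prod h7, ← Finset.prod_fiberwise_of_maps_to fun τ _ => h4 τ]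
  refine Finset.prod_congr rfl fun v hv => ?_
  rw [← h3 v _ (he v hv), ← Finset.prod_const]
  refine Finset.prod_congr rfl fun τ hτ => val_eq ?_
  have := h6 _ _ _ (val_spec (h5 τ))
  rwa [map_sub, val_over (h1 τ), (Finset.mem_filter.1 hτ).2, IsScalarTower.algebraMap_apply k L N,
    AlgEquiv.commutes, ← IsScalarTower.algebraMap_apply] at this

theorem norm_ord {x : Place k L} {S : Finset (Place k K)}
    (hS : ∀ v, v ∈ S ↔ ∃ e, v.Over x e) (f : K) :
    x.ord (Algebra.norm L f) = ∑ v ∈ S, v.ord f := by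
  obtain ⟨p, hp, _⟩ := PosChar.ex (k := k)
  have := Fact.mk hp
  obtain ⟨N, _, _, _, _, _, _, _, _, _⟩ := ff2_closure k L K
  have : FiniteDimensional K N := FiniteDimensional.right L K N
  have : IsGalois K N := IsGalois.tower_top_of_isGalois L K N
  obtain ⟨T, h1, h2⟩ := ff2_sum N p S
  have h3 := Place.sum_fibre p (v := x) (S := T) (fun w => by
    rw [h1]
    refine ⟨fun ⟨v, hv, _, h⟩ => let ⟨_, h'⟩ := (hS v).1 hv; ⟨_, wnrm_trans h h'⟩, fun ⟨_, h⟩ => ?_⟩
    obtain ⟨v, a, hv⟩ := w.exists_under (L := K)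
    exact ⟨v, (hS v).2 (wnrm_down hv h), a, hv⟩) (algebraMap K N f)
  rw [h2, ← Algebra.norm_norm (R := L) (S := K), Algebra.norm_algebraMap, map_pow] at h3
  simp only [Place.ord_pow, ← Finset.mul_sum] at h3
  exact (mul_left_cancel₀ (Nat.cast_ne_zero.2 Module.finrank_pos.ne') h3).symm

theorem exists_fibre (x : Place k L) : ∃ S : Finset (Place k K), ∀ v, v ∈ S ↔ ∃ e, v.Over x e := by
  obtain ⟨N, _, _, _, _, _, _, _, _, _⟩ := ff2_closure k L K
  have : FiniteDimensional K N := FiniteDimensional.right L K N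
  have : IsGalois K N := IsGalois.tower_top_of_isGalois L K N
  obtain ⟨T, hT⟩ := Place.exists_fibre N x
  choose P a hP using fun w : Place k N => w.exists_under (L := K)
  refine ⟨T.image P, fun v => Finset.mem_image.trans ⟨?_, fun ⟨e, h⟩ => ?_⟩⟩
  · rintro ⟨w, hw, rfl⟩
    obtain ⟨_, h⟩ := (hT w).1 hw
    exact wnrm_down (hP w) h
  · obtain ⟨w, b, hw⟩ := exists_over N v
    exact ⟨w, (hT w).2 ⟨_, wnrm_trans hw h⟩, (hP w).unique_under hw⟩

end

end Pool.Agent.Lib.MP_16ef92_ag.AL
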