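import Mathlib
import Pool.Agent.Lib.MP_16ef92_ag.AL.WRec
import Pool.Agent.Lib.MP_16ef92_ag.AL.WRie

set_option autoImplicit false
set_option linter.unusedSectionVars false
set_option linter.unusedVariables false

namespace Pool.Agent.Lib.MP_16ef92_ag.AL

open Pool.Agent.Lib.MP_6adaea_nt 
open scoped Classical

noncomputable section

variable {k K : Type} [Field k] [Field K] [Algebra k K] [IsAlgClosed k] [IsFF k K] [PosChar k]
  {n : ℕ}

/-- `h` has divisor `n A` -/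
def Adm (n : ℕ) (A : Dv k K) (h : K) : Prop := h ≠ 0 ∧ dv k h = n • A

/-- disjoint supports -/
def Dis (A B : Dv k K) : Prop := ∀ v, A v = 0 ∨ B v = 0

theorem Dis.symm {A B : Dv k K} (h : Dis A B) : Dis B A := fun v => (h v).symm

theorem Adm.dj {A B : Dv k K} {h : K} (hA : Adm n A h) (hd : Dis A B) : Dj h B :=
  ⟨hA.1, fun v hv => by
    rw [← dv_apply, hA.2, Finsupp.smul_apply, (hd v).resolve_right hv, smul_zero]⟩

theorem Adm.deg_eq (hn : n ≠ 0) {A : Dv k K} {h : K} (hA : Adm n A h) : deg A = 0 := by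
  have := deg_dv (k := k) h
  rw [hA.2, map_nsmul] at this
  simpa [hn] using this

theorem Adm.mem {A : Dv k K} {h : K} (hA : Adm n A h) : cl A ∈ Tor k K n := by
  rw [mem_Tor, ← map_nsmul, ← hA.2, cl_dv hA.1]

theorem exists_adm (c : Tor k K n) (S : Finset (Place k K)) :
    ∃ A h, Adm n A h ∧ cl A = c ∧ ∀ v ∈ S, A v = 0 := by
  obtain ⟨A, h1, h2⟩ := exists_rep (c : Pic k K) S
  obtain ⟨h, h3⟩ := cl_eq_zero.1 (show cl (n • A) = 0 by rw [map_nsmul, h1]; exact c.2)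
  exact ⟨A, h, h3, h1, h2⟩

/-- the Weil pairing -/
def wp (n : ℕ) (c d : Tor k K n) : k :=
  if h : ∃ q : (Dv k K × K) × Dv k K × K, Adm n q.1.1 q.1.2 ∧ Adm n q.2.1 q.2.2 ∧
      Dis q.1.1 q.2.1 ∧ cl q.1.1 = c ∧ cl q.2.1 = d then
    evD h.choose.1.2 h.choose.2.1 / evD h.choose.2.2 h.choose.1.1 else 1

theorem wpair_left {A A' B : Dv k K} {h h' g : K} (hn : n ≠ 0) (hA : Adm n A h) (hA' : Adm n A' h')
    (hB : Adm n B g) (hd : Dis A B) (hd' : Dis A' B) (e : cl A' = cl A) :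
    evD h' B / evD g A' = evD h B / evD g A := by
  obtain ⟨y, hy, ey⟩ := cl_eq.1 e
  have hyB : Dj y B := ⟨hy, fun v hv => by
    rw [← dv_apply, ey, Finsupp.sub_apply, (hd v).resolve_right hv, (hd' v).resolve_right hv,
      sub_zero]⟩
  have h1 := hA.dj hd
  have h2 := hB.dj hd.symm
  have h3 := hB.dj hd'.symm
  have h4 : evD h' B = evD (h * y ^ n) B :=
    (evD_congr hA'.1 (h1.mul (hyB.pow n)) (by
      rw [dv_mul hA.1 (pow_ne_zero _ hy), dv_pow, ey, hA.2, hA'.2, smul_sub, add_sub_cancel])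
      (hB.deg_eq hn)).2
  have h5 : Dj y (dv k g) := hB.2 ▸ hyB.nsmul n
  have h6 : evD y B ^ n = evD g A' / evD g A := by
    rw [← evD_nsmul hyB, ← hB.2, recip hB.1 h5, ey, evD_sub h3 h2]
  rw [h4, evD_mul h1 (hyB.pow n), evD_pow hyB, h6]
  have := evD_ne_zero h2
  have := evD_ne_zero h3
  field_simp

theorem wpair_right {A B B' : Dv k K} {h g g' : K} (hn : n ≠ 0) (hA : Adm n A h) (hB : Adm n B g)
    (hB' : Adm n B' g') (hd : Dis A B) (hd' : Dis A B') (e : cl B' = cl B) :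
    evD h B' / evD g' A = evD h B / evD g A := by
  rw [← inv_div, wpair_left hn hB hB' hA hd.symm hd'.symm e, inv_div]

theorem wpair_avoid (c : Tor k K n) (A A' : Dv k K) :
    ∃ B g, Adm n B g ∧ cl B = c ∧ Dis A B ∧ Dis A' B := by
  obtain ⟨B, g, h1, h2, h3⟩ := exists_adm c (A.support ∪ A'.support)
  refine ⟨B, g, h1, h2, fun v => ?_, fun v => ?_⟩ <;>
    exact or_iff_not_imp_left.2 fun hv => h3 v (by simp [hv])

theorem Adm.mul {A A' : Dv k K} {h h' : K} (hA : Adm n A h) (hA' : Adm n A' h') :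
    Adm n (A + A') (h * h') :=
  ⟨mul_ne_zero hA.1 hA'.1, by rw [dv_mul hA.1 hA'.1, hA.2, hA'.2, smul_add]⟩

theorem Dis.add {A A' B : Dv k K} (h : Dis A B) (h' : Dis A' B) : Dis (A + A') B := fun v =>
  or_iff_not_imp_right.2 fun hv => by
    rw [Finsupp.add_apply, (h v).resolve_right hv, (h' v).resolve_right hv, add_zero]

/-- independence of the choices -/
theorem wp_spec (hn : n ≠ 0) {A B : Dv k K} {h g : K} (hA : Adm n A h) (hB : Adm n B g)
    (hd : Dis A B) {c d : Tor k K n} (hc : cl A = c) (hd' : cl B = d) :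
    wp n c d = evD h B / evD g A := by
  have H : ∃ q : (Dv k K × K) × Dv k K × K, Adm n q.1.1 q.1.2 ∧ Adm n q.2.1 q.2.2 ∧
      Dis q.1.1 q.2.1 ∧ cl q.1.1 = c ∧ cl q.2.1 = d := ⟨((A, h), B, g), hA, hB, hd, hc, hd'⟩
  rw [wp, dif_pos H]
  obtain ⟨h1, h2, h3, h4, h5⟩ := H.choose_spec
  obtain ⟨C, f, hC, eC, d1, d2⟩ := wpair_avoid d A H.choose.1.1
  rw [wpair_right hn h1 hC h2 d2 h3 (h5.trans eC.symm),
    wpair_left hn hA h1 hC d1 d2 (h4.trans hc.symm), wpair_right hn hA hB hC hd d1 (eC.trans hd'.symm)]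

theorem wp_ne_zero (c d : Tor k K n) : wp n c d ≠ 0 := by
  unfold wp
  split_ifs with H
  · obtain ⟨h1, h2, h3, -⟩ := H.choose_spec
    exact div_ne_zero (evD_ne_zero (h1.dj h3)) (evD_ne_zero (h2.dj h3.symm))
  · exact one_ne_zero

theorem wp_pow (hn : n ≠ 0) (c d : Tor k K n) : wp n c d ^ n = 1 := by
  obtain ⟨A, h, hA, hc, -⟩ := exists_adm c ∅
  obtain ⟨B, g, hB, hd, h1, -⟩ := wpair_avoid d A A
  have h2 := hA.dj h1
  have h3 := hB.dj h1.symm
  rw [wp_spec hn hA hB h1 hc hd, div_pow, ← evD_nsmul h2, ← evD_nsmul h3, ← hB.2,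
    recip hB.1 (hB.2 ▸ h2.nsmul n), hA.2, div_self (evD_ne_zero (h3.nsmul n))]

theorem wp_add_left (hn : n ≠ 0) (c c' d : Tor k K n) :
    wp n (c + c') d = wp n c d * wp n c' d := by
  obtain ⟨A, h, hA, hc, -⟩ := exists_adm c ∅
  obtain ⟨A', h', hA', hc', -⟩ := exists_adm c' ∅
  obtain ⟨B, g, hB, hd, h1, h2⟩ := wpair_avoid d A A'
  rw [wp_spec hn hA hB h1 hc hd, wp_spec hn hA' hB h2 hc' hd,
    wp_spec hn (hA.mul hA') hB (h1.add h2) (by rw [map_add, hc, hc', AddSubgroup.coe_add]) hd,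
    evD_mul (hA.dj h1) (hA'.dj h2), evD_add (hB.dj h1.symm) (hB.dj h2.symm), div_mul_div_comm]

theorem wp_add_right (hn : n ≠ 0) (c d d' : Tor k K n) :
    wp n c (d + d') = wp n c d * wp n c d' := by
  obtain ⟨B, g, hB, hd, -⟩ := exists_adm d ∅
  obtain ⟨B', g', hB', hd', -⟩ := exists_adm d' ∅
  obtain ⟨A, h, hA, hc, h1, h2⟩ := wpair_avoid c B B'
  rw [wp_spec hn hA hB h1.symm hc hd, wp_spec hn hA hB' h2.symm hc hd',
    wp_spec hn hA (hB.mul hB') (h1.add h2).symm hc (by rw [map_add, hd, hd', AddSubgroup.coe_add]),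
    evD_mul (hB.dj h1) (hB'.dj h2), evD_add (hA.dj h1.symm) (hA.dj h2.symm), div_mul_div_comm]

theorem Adm.map (s : SA k K) {A : Dv k K} {h : K} (hA : Adm n A h) : Adm n (s.dm A) (s.γ h) :=
  ⟨by simpa using hA.1, by rw [← s.dm_dv, hA.2, map_nsmul]⟩

theorem wp_tor (hn : n ≠ 0) (s : SA k K) (c d : Tor k K n) :
    wp n (s.tor n c) (s.tor n d) = s.a (wp n c d) := by
  obtain ⟨A, h, hA, hc, -⟩ := exists_adm c ∅
  obtain ⟨B, g, hB, hd, h1, -⟩ := wpair_avoid d A A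
  rw [wp_spec hn hA hB h1 hc hd, wp_spec hn (hA.map s) (hB.map s) (fun v => h1 _)
    (by rw [s.tor_val, ← hc, s.pic_cl]) (by rw [s.tor_val, ← hd, s.pic_cl]), s.evD, s.evD, map_div₀]

end

end Pool.Agent.Lib.MP_16ef92_ag.AL
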