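import Mathlib
import Pool.Agent.Lib.MP_16ef92_ag.AL.WPair
import Pool.Agent.Lib.MP_16ef92_ag.AL.WRie
import Pool.Agent.Lib.MP_16ef92_ag.AL.WNrm
import Pool.Agent.Lib.MP_751085_ag.ZC.A5a

set_option autoImplicit false
set_option linter.unusedSectionVars false
set_option linter.unusedVariables false

namespace Pool.Agent.Lib.MP_16ef92_ag.AL

open Pool.Agent.Lib.MP_6adaea_nt 
open scoped Classical

noncomputable section

variable {k K L : Type} [Field k] [Field K] [Field L] [Algebra k K] [Algebra k L] [Algebra K L]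
  [IsScalarTower k K L] {n : ℕ} {ζ : k} {s : L ≃ₐ[K] L} {r : L}

/-- a cyclic Kummer extension of degree `n` -/
structure Cyc (n : ℕ) (ζ : k) (s : L ≃ₐ[K] L) (r : L) : Prop where
  pos : 0 < n
  prim : IsPrimitiveRoot ζ n
  gen : ∀ τ : L ≃ₐ[K] L, ∃ j : ℕ, τ = s ^ j
  pow : s ^ n = 1
  ne : r ≠ 0
  sr : s r = algebraMap k L ζ * r

theorem Cyc.pow_r (h : Cyc n ζ s r) (j : ℕ) : (s ^ j) r = algebraMap k L (ζ ^ j) * r := by
  induction j with
  | zero => simp
  | succ j ih =>
    rw [pow_succ', AlgEquiv.mul_apply, ih, map_mul, h.sr, pow_succ, map_mul, mul_assoc,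
      IsScalarTower.algebraMap_apply k K L (ζ ^ j), s.commutes]

theorem wela_ord (h : Cyc n ζ s r) : orderOf s = n := by
  refine Nat.dvd_antisymm (orderOf_dvd_of_pow_eq_one h.pow) (h.prim.dvd_of_pow_eq_one _ ?_)
  have := h.pow_r (orderOf s)
  rw [pow_orderOf_eq_one, AlgEquiv.one_apply, right_eq_mul₀ h.ne] at this
  exact (map_eq_one_iff _ (algebraMap k L).injective).1 this

theorem wela_zp (h : Cyc n ζ s r) (τ : L ≃ₐ[K] L) : τ ∈ Subgroup.zpowers s :=
  (h.gen τ).elim fun j e => e ▸ Subgroup.npow_mem_zpowers s j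

variable (k) in
/-- an automorphism over `K` as an automorphism of the pair -/
def sa (τ : L ≃ₐ[K] L) : SA k L := ⟨τ.toRingEquiv, RingEquiv.refl k, fun c => by
  simp only [RingEquiv.refl_apply, IsScalarTower.algebraMap_apply k K L]
  exact τ.commutes _⟩

variable [FiniteDimensional K L] [IsGalois K L]

theorem Cyc.rank (h : Cyc n ζ s r) : Module.finrank K L = n := by
  rw [← IsGalois.card_aut_eq_finrank, ← orderOf_eq_card_of_forall_mem_zpowers (wela_zp h),
    wela_ord h]

theorem Cyc.norm_eq (h : Cyc n ζ s r) (w : L) :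
    algebraMap K L (Algebra.norm K w) = ∏ l ∈ Finset.range n, (s ^ l) w := by
  rw [Algebra.norm_eq_prod_automorphisms, ← IsCyclic.image_range_orderOf (wela_zp h),
    Finset.prod_image (by simpa using pow_injOn_Iio_orderOf), wela_ord h]

variable [IsAlgClosed k] [PosChar k] [IsFF k K] [IsFF k L] {A A' : Dv k K} {h H : K}

theorem Cyc.unram (hc : Cyc n ζ s r) (hA : Adm n A h) (hr : r ^ n = algebraMap K L h)
    {v : Place k L} {x : Place k K} {e : ℕ} (hv : v.Over x e) : e = 1 := by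
  obtain ⟨p, hp, _⟩ := PosChar.ex (k := k)
  have := Fact.mk hp
  have := charP_of_injective_algebraMap (algebraMap k K).injective p
  have h1 : v.ord r = e * A x := mul_left_cancel₀ (Int.natCast_ne_zero.2 hc.pos.ne') (by
    rw [← v.ord_pow, hr, hv.2, ← dv_apply, hA.2, Finsupp.smul_apply, nsmul_eq_mul, mul_left_comm])
  rw [← card_inertia p (x.res_perfect p) hv, Subgroup.card_eq_one, Subgroup.eq_bot_iff_forall]
  intro σ hσ
  obtain ⟨j, rfl⟩ := hc.gen σ
  have h2 := Place.cst_eq_of_smul hσ hc.ne ((hc.pow_r j).trans (Algebra.smul_def _ _).symm)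
  rw [h1, zpow_mul, zpow_natCast, Place.th_algebraMap hσ hv, one_zpow,
    map_eq_one_iff _ v.cst.injective] at h2
  exact orderOf_dvd_iff_pow_eq_one.1 (wela_ord hc ▸ hc.prim.dvd_of_pow_eq_one j h2)

variable (K) in
/-- the place below -/
def un (v : Place k L) : Place k K := (Place.exists_under (L := K) v).choose

theorem wela_un (v : Place k L) : ∃ e, v.Over (un K v) e :=
  (Place.exists_under (L := K) v).choose_spec

theorem un_eq {v : Place k L} {x : Place k K} {e : ℕ} (hv : v.Over x e) : un K v = x :=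
  (wela_un v).elim fun _ h => h.unique_under hv

theorem pb_fin (A : Dv k K) : (Function.support fun v : Place k L => A (un K v)).Finite := by
  choose S hS using fun x : Place k K => exists_fibre (K := L) x
  exact (A.support.biUnion S).finite_toSet.subset fun v hv => Finset.mem_biUnion.2
    ⟨_, Finsupp.mem_support_iff.2 hv, (hS _ v).2 (wela_un v)⟩

variable (L) in
/-- the pull back of a divisor to an unramified extension -/
def pb (A : Dv k K) : Dv k L := Finsupp.ofSupportFinite _ (pb_fin (L := L) A)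

theorem pb_apply (A : Dv k K) (v : Place k L) : pb L A v = A (un K v) := rfl

theorem sa_pb (τ : L ≃ₐ[K] L) (A : Dv k K) : (sa k τ).dm (pb L A) = pb L A := by
  ext v
  obtain ⟨e, he⟩ := wela_un (K := K) v
  exact congrArg A (un_eq ⟨he.1, fun x => (congrArg v.ord (τ.commutes x)).trans (he.2 x)⟩)

theorem wela_map (A : Dv k K) : ∀ v ∈ (pb L A).support, un K v ∈ A.support := fun _ hv =>
  Finsupp.mem_support_iff.2 (Finsupp.mem_support_iff.1 hv :)

theorem wela_fib {y : Place k K} (hy : y ∈ A.support) (v : Place k L) :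
    v ∈ (pb L A).support.filter (fun v => un K v = y) ↔ ∃ e, v.Over y e := by
  rw [Finset.mem_filter, Finsupp.mem_support_iff, pb_apply]
  exact ⟨fun h => h.2 ▸ wela_un v, fun ⟨_, h⟩ =>
    ⟨un_eq h ▸ Finsupp.mem_support_iff.1 hy, un_eq h⟩⟩

section unr

variable (hu : ∀ (v : Place k L) (x : Place k K) (e : ℕ), v.Over x e → e = 1)
include hu

theorem dv_pb (a : K) : dv k (algebraMap K L a) = pb L (dv k a) := by
  ext v
  obtain ⟨e, he⟩ := wela_un (K := K) v
  rw [dv_apply, he.2, hu _ _ _ he, Nat.cast_one, one_mul, pb_apply, dv_apply]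

theorem deg_pb (A : Dv k K) : deg (pb L A) = Module.finrank K L * deg A := by
  obtain ⟨p, hp, _⟩ := PosChar.ex (k := k)
  have := Fact.mk hp
  rw [deg_eq_sum _ subset_rfl, deg_eq_sum _ subset_rfl, Finset.mul_sum,
    ← Finset.sum_fiberwise_of_maps_to (wela_map A)]
  refine Finset.sum_congr rfl fun y hy => ?_
  obtain ⟨w, e, he⟩ := exists_over L y
  rw [← Place.card_fibre p (wela_fib hy) he, hu _ _ _ he, mul_one, ← nsmul_eq_mul,
    ← Finset.sum_const]
  exact Finset.sum_congr rfl fun v hv => congrArg A (Finset.mem_filter.1 hv).2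

theorem evD_pb {f : L} (hf : Dj f (pb L A)) :
    Dj (Algebra.norm K f) A ∧ evD f (pb L A) = evD (Algebra.norm K f) A := by
  have h0 : ∀ y, ∀ v ∈ (pb L A).support.filter (fun v => un K v = y), v.ord f = 0 :=
    fun y v hv => hf.2 v (Finsupp.mem_support_iff.1 (Finset.mem_filter.1 hv).1)
  refine ⟨⟨Algebra.norm_ne_zero_iff.2 hf.1, fun y hy => by
    rw [norm_ord (wela_fib (Finsupp.mem_support_iff.2 hy)), Finset.sum_eq_zero (h0 y)]⟩, ?_⟩
  rw [evD_eq_prod _ subset_rfl, evD_eq_prod _ subset_rfl,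
    ← Finset.prod_fiberwise_of_maps_to (wela_map A)]
  refine Finset.prod_congr rfl fun y hy => ?_
  rw [(norm_val (e := fun _ => 1) (wela_fib hy) (fun v hv => ((wela_fib hy v).1 hv).elim
    fun e he => hu _ _ _ he ▸ he) fun v hv => Or.inr (h0 y v hv).ge).2, ← Finset.prod_zpow]
  refine Finset.prod_congr rfl fun v hv => ?_
  rw [pb_apply, (Finset.mem_filter.1 hv).2, pow_one]

theorem exists_desc {b : L} (hb : ∀ (τ : L ≃ₐ[K] L) (v : Place k L), (n : ℤ) ∣ v.ord (τ b) - v.ord b) :
    ∃ (B : Dv k K) (W : Dv k L), n • W = dv k b - pb L B := by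
  choose o e he using fun x : Place k K => exists_over L x
  let B : Dv k K := Finsupp.ofSupportFinite (fun x => (o x).ord b) ((ord_fin b).preimage
    (Function.LeftInverse.injective (g := un K) fun x => un_eq (he x)).injOn)
  refine ⟨B, (dv k b - pb L B).mapRange (· / n) (Int.zero_ediv _), Finsupp.ext fun v => ?_⟩
  obtain ⟨e', he'⟩ := wela_un (K := K) v
  obtain ⟨σ, hσ⟩ := exists_conj (he _) he'
  rw [Finsupp.smul_apply, nsmul_eq_mul, Finsupp.mapRange_apply]
  exact Int.mul_ediv_cancel' (dvd_sub_comm.1 (hσ b ▸ hb σ v :))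

end unr

theorem welb_dv (hu : ∀ (v : Place k L) (x : Place k K) (e : ℕ), v.Over x e → e = 1)
    (hA : Adm n A h) : dv k (algebraMap K L h) = n • pb L A := by
  rw [dv_pb hu, hA.2]
  exact Finsupp.ext fun v => by simp only [Finsupp.smul_apply, pb_apply]

theorem welb_ev (hc : Cyc n ζ s r) {W : Dv k L} (hW : Dj r W) :
    Dj r ((sa k s).dm W) ∧ evD r ((sa k s).dm W) / evD r W = ζ ^ (-deg W) := by
  have z0 : ζ ≠ 0 := hc.prim.ne_zero hc.pos.ne'
  have e : (sa k s).γ r = algebraMap k L ζ * r := hc.sr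
  have h1 := (sa k s).dj.2 hW
  have h2 : evD ((sa k s).γ r) ((sa k s).dm W) = evD r W := (sa k s).evD r W
  rw [e] at h1 h2
  have h3 : Dj r ((sa k s).dm W) := by
    have h4 := (dj_const z0 _).inv.mul h1
    rwa [inv_mul_cancel_left₀ ((map_ne_zero _).2 z0)] at h4
  rw [evD_mul (dj_const z0 _) h3, evD_const z0, SA.deg_dm] at h2
  refine ⟨h3, ?_⟩
  rw [← h2, div_mul_cancel_right₀ (evD_ne_zero h3), zpow_neg]

/-- Descend the divisor of `b` and use the reciprocity law. -/
theorem Cyc.deg_eq (hc : Cyc n ζ s r) (hA : Adm n A h) (hr : r ^ n = algebraMap K L h)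
    (hA' : Adm n A' H) (hd : Dis A A') {w b : L} (hw : Algebra.norm K w = H) (b0 : b ≠ 0)
    (hb : s b * w ^ n = b * algebraMap K L H) : ∃ B : Dv k K, ζ ^ deg B = evD h A' / evD H A ∧
      ∀ (v : Place k L) (x : Place k K) (e : ℕ), v.Over x e → (n : ℤ) ∣ v.ord b - B x := by
  have hu : ∀ (v : Place k L) (x : Place k K) (e : ℕ), v.Over x e → e = 1 :=
    fun v x e hv => hc.unram hA hr hv
  have n0 := hc.pos.ne'
  have w0 : w ≠ 0 := fun e => hA'.1 (by rw [← hw, e, Algebra.norm_zero])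
  have H0 : algebraMap K L H ≠ 0 := (map_ne_zero _).2 hA'.1
  have st : ∀ τ : L ≃ₐ[K] L, dv k (τ (s b)) - dv k (τ b) = n • (pb L A' - dv k (τ w)) := fun τ => by
    have e := congrArg (fun z => dv k (τ z)) hb
    simp only [map_mul, map_pow, AlgEquiv.commutes] at e
    rw [dv_mul (by simpa using b0) (by simp [w0]), dv_mul (by simpa using b0) H0, dv_pow,
      welb_dv hu hA'] at e
    rw [smul_sub, sub_eq_sub_iff_add_eq_add, e, add_comm]
  obtain ⟨B, W, hW⟩ := exists_desc (n := n) (b := b) hu fun τ v => by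
    obtain ⟨j, rfl⟩ := hc.gen τ
    induction j with
    | zero => simp
    | succ j ih =>
      have e := DFunLike.congr_fun (st (s ^ j)) v
      rw [Finsupp.sub_apply, Finsupp.smul_apply, nsmul_eq_mul, dv_apply, dv_apply] at e
      rw [pow_succ, AlgEquiv.mul_apply, ← sub_add_sub_cancel _ (v.ord ((s ^ j) b)), e]
      exact (dvd_mul_right _ _).add ih
  refine ⟨B, ?_, fun v x e hv => ⟨W v, ?_⟩⟩
  swap
  · have e := DFunLike.congr_fun hW v
    rw [Finsupp.sub_apply, Finsupp.smul_apply, nsmul_eq_mul, dv_apply, pb_apply, un_eq hv] at e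
    exact e.symm
  have h1 : (sa k s).dm W - W = pb L A' - dv k w := by
    refine nsmul_right_injective n0 ?_
    have e : dv k (s b) - dv k b = n • (pb L A' - dv k w) := st 1
    dsimp only
    rw [← e, smul_sub, ← map_nsmul, hW, map_sub, sa_pb, SA.dm_dv, sub_sub_sub_cancel_right]
    rfl
  have h2 : -deg W = deg B := by
    have e := congrArg deg hW
    rw [map_nsmul, map_sub, deg_dv, deg_pb hu, hc.rank, nsmul_eq_mul] at e
    exact mul_left_cancel₀ (Int.natCast_ne_zero.2 n0) (by linear_combination -e)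
  have h3 : dv k r = pb L A := nsmul_right_injective n0 (by
    dsimp only
    rw [← dv_pow, hr, welb_dv hu hA])
  obtain ⟨g, g0, hg⟩ := move W (pb L A).support
  have sg0 : s g ≠ 0 := by simpa using g0
  have d1 : Dj r (W + dv k g) := ⟨hc.ne, fun v hv => by
    rw [← dv_apply, h3]
    exact not_not.1 fun e => hv (hg v (Finsupp.mem_support_iff.2 e))⟩
  obtain ⟨d2, e2⟩ := welb_ev hc d1
  have d3 : Dj r (pb L A') := ⟨hc.ne, fun v hv => by
    rw [← dv_apply, h3]
    exact (hd _).resolve_right hv⟩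
  have w1 : w * g / s g ≠ 0 := div_ne_zero (mul_ne_zero w0 g0) sg0
  have h4 : dv k (w * g / s g) = pb L A' - ((sa k s).dm (W + dv k g) - (W + dv k g)) := by
    rw [dv_div (mul_ne_zero w0 g0) sg0, dv_mul w0 g0, map_add, SA.dm_dv, add_sub_add_comm, h1]
    change _ = _ - (_ + (dv k (s g) - _))
    abel
  have d4 : Dj r (dv k (w * g / s g)) := h4 ▸ d3.sub (d2.sub d1)
  have h5 : Algebra.norm K (w * g / s g) = H := by
    have e := congrArg (Algebra.norm K) (div_mul_cancel₀ (w * g) sg0)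
    rw [map_mul, map_mul, Algebra.norm_eq_of_algEquiv, hw] at e
    exact mul_right_cancel₀ (Algebra.norm_ne_zero_iff.2 g0) e
  have h6 := recip w1 d4
  have d5 := dj_dv_symm w1 d4
  rw [h3] at h6 d5
  rw [(evD_pb hu d5).2, h5, h4, evD_sub d3 (d2.sub d1), evD_sub d2 d1, e2, map_add, deg_dv,
    add_zero, h2, (evD_pb hu d3).2] at h6
  have h7 : dv k (Algebra.norm K r) = dv k h := nsmul_right_injective n0 (by
    dsimp only
    rw [← dv_pow, ← dv_pow, ← map_pow, hr, Algebra.norm_algebraMap, hc.rank])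
  rw [(evD_congr (Algebra.norm_ne_zero_iff.2 hc.ne) (hA.dj hd) h7 (hA'.deg_eq n0)).2] at h6
  rw [← h6, div_div_cancel₀ (evD_ne_zero (hA.dj hd))]

theorem Cyc.exists_wb (hc : Cyc n ζ s r) (hH : H ≠ 0) : ∃ w b : L, Algebra.norm K w = H ∧ b ≠ 0 ∧
    s b * w ^ n = b * algebraMap K L H := by
  obtain ⟨t, -, ht⟩ := IsFF.ex (k := k) (K := K)
  obtain ⟨w, hw⟩ := Pool.Agent.ZCy.tsen_norm (k := k) (E := L) t H
  have : IsCyclic (L ≃ₐ[K] L) := ⟨s, wela_zp hc⟩
  obtain ⟨y, hy⟩ := groupCohomology.exists_div_of_norm_eq_one (wela_zp hc)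
    (x := w ^ n / algebraMap K L H) (by
      rw [div_eq_mul_inv, map_mul, map_pow, hw, Algebra.norm_inv, Algebra.norm_algebraMap, hc.rank,
        mul_inv_cancel₀ (pow_ne_zero _ hH)])
  rw [div_eq_div_iff ((map_ne_zero s).2 y.ne_zero) ((map_ne_zero _).2 hH)] at hy
  exact ⟨w, y, hw, y.ne_zero, (mul_comm _ _).trans hy.symm⟩

end

end Pool.Agent.Lib.MP_16ef92_ag.AL
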