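import Mathlib
import Pool.Agent.Lib.MP_16ef92_ag.AL.WEl

set_option autoImplicit false
set_option linter.unusedSectionVars false
set_option linter.unusedVariables false

namespace Pool.Agent.Lib.MP_16ef92_ag.AL

open Pool.Agent.Lib.MP_6adaea_nt 
open scoped Classical

noncomputable section

variable {k K Ω : Type} [Field k] [Field K] [Field Ω] [Algebra k K] [Algebra k Ω] [Algebra K Ω]
  [IsScalarTower k K Ω] [IsAlgClosed Ω] [Algebra.IsAlgebraic K Ω] {n : ℕ} {ζ : k}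

/-- `L` is generated by `r`, a splitting field of a separable polynomial. -/
theorem exists_cyc (hn : (n : k) ≠ 0) (hζ : IsPrimitiveRoot ζ n) {r : Ω} (r0 : r ≠ 0) {h : K}
    (hr : r ^ n = algebraMap K Ω h) {σ₀ : Ω ≃ₐ[K] Ω} (h0 : σ₀ r = algebraMap k Ω ζ * r) :
    ∃ (L : IntermediateField K Ω) (_ : FiniteDimensional K L) (_ : IsGalois K L) (s : L ≃ₐ[K] L)
      (r' : L), (r' : Ω) = r ∧ Cyc n ζ s r' ∧ ∀ (σ : Ω ≃ₐ[K] Ω) (j : ℕ),
        σ r = algebraMap k Ω (ζ ^ j) * r → ∀ y : L, σ y = (s ^ j) y := by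
  have n0 : n ≠ 0 := fun e => hn (by simp [e])
  have : NeZero n := ⟨n0⟩
  have hz := hζ.map_of_injective (algebraMap k Ω).injective
  have rt : ∀ x : Ω, x ^ n = algebraMap K Ω h → ∃ j : ℕ, x = algebraMap k Ω (ζ ^ j) * r :=
    fun x hx => by
      obtain ⟨j, -, hj⟩ := hz.eq_pow_of_pow_eq_one (ξ := x / r)
        (by rw [div_pow, hx, hr, div_self (hr ▸ pow_ne_zero n r0)])
      exact ⟨j, by rw [map_pow, hj, div_mul_cancel₀ _ r0]⟩
  let L := IntermediateField.adjoin K ({r} : Set Ω)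
  have rL : r ∈ L := IntermediateField.mem_adjoin_simple_self K r
  have p0 : (Polynomial.X ^ n - Polynomial.C h : Polynomial K) ≠ 0 :=
    Polynomial.X_pow_sub_C_ne_zero (Nat.pos_of_ne_zero n0) h
  have hL : IntermediateField.adjoin K ((Polynomial.X ^ n - Polynomial.C h).rootSet Ω) = L := by
    refine le_antisymm (IntermediateField.adjoin_le_iff.2 fun x hx => ?_)
      (IntermediateField.adjoin.mono _ _ _ ?_)
    · rw [Polynomial.mem_rootSet_of_ne p0, map_sub, map_pow, Polynomial.aeval_X, Polynomial.aeval_C,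
        sub_eq_zero] at hx
      obtain ⟨j, rfl⟩ := rt x hx
      rw [IsScalarTower.algebraMap_apply k K Ω]
      exact mul_mem (L.algebraMap_mem _) rL
    · rintro _ rfl
      rw [Polynomial.mem_rootSet_of_ne p0, map_sub, map_pow, Polynomial.aeval_X, Polynomial.aeval_C,
        hr, sub_self]
  have : (Polynomial.X ^ n - Polynomial.C h).IsSplittingField K L :=
    hL ▸ IntermediateField.adjoin_rootSet_isSplittingField (IsAlgClosed.splits _)
  have hG : IsGalois K L := IsGalois.of_separable_splitting_field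
    (Polynomial.separable_X_pow_sub_C h
      (by rw [← map_natCast (algebraMap k K)]; exact (map_ne_zero _).2 hn)
      fun e => pow_ne_zero n r0 (by rw [hr, e, map_zero]))
  have ext : ∀ φ ψ : L →ₐ[K] Ω, φ ⟨r, rL⟩ = ψ ⟨r, rL⟩ → ∀ y, φ y = ψ y := fun φ ψ e y =>
    DFunLike.congr_fun (IntermediateField.algHom_ext_of_eq_adjoin K (S := L) rfl
      fun x hx => by obtain rfl := hx; exact e) y
  let s : L ≃ₐ[K] L := σ₀.restrictNormal L
  have hs : s ⟨r, rL⟩ = algebraMap k L ζ * ⟨r, rL⟩ :=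
    Subtype.ext ((σ₀.restrictNormal_commutes L ⟨r, rL⟩).trans h0)
  have hp : ∀ j : ℕ, (s ^ j) ⟨r, rL⟩ = algebraMap k L (ζ ^ j) * ⟨r, rL⟩ := fun j => by
    induction j with
    | zero => simp
    | succ j ih =>
      rw [pow_succ', AlgEquiv.mul_apply, ih, map_mul, hs, IsScalarTower.algebraMap_apply k K L,
        AlgEquiv.commutes, ← IsScalarTower.algebraMap_apply, pow_succ, map_mul, mul_assoc]
  have key : ∀ (φ : L →ₐ[K] Ω) (j : ℕ), φ ⟨r, rL⟩ = algebraMap k Ω (ζ ^ j) * r →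
      ∀ y, φ y = (s ^ j) y := fun φ j e =>
    ext φ (L.val.comp (s ^ j : L ≃ₐ[K] L)) (e.trans (congrArg Subtype.val (hp j)).symm)
  refine ⟨L, IntermediateField.adjoin.finiteDimensional (Algebra.IsIntegral.isIntegral r), hG, s,
    ⟨r, rL⟩, rfl, ⟨Nat.pos_of_ne_zero n0, hζ, fun τ => ?_, ?_, fun e => r0 (congrArg Subtype.val e),
      hs⟩, fun σ j e => key ((σ : Ω →ₐ[K] Ω).comp L.val) j e⟩
  · obtain ⟨j, hj⟩ := rt ((L.val.comp (τ : L →ₐ[K] L)) (⟨r, rL⟩ : L)) (by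
      rw [← map_pow, show (⟨r, rL⟩ : L) ^ n = algebraMap K L h from Subtype.ext hr,
        AlgHom.commutes])
    exact ⟨j, AlgEquiv.ext fun y => Subtype.ext (key _ j hj y)⟩
  · exact AlgEquiv.ext fun y => Subtype.ext
      (key L.val n (by rw [hζ.pow_eq_one, map_one, one_mul]; rfl) y).symm

variable [IsAlgClosed k] [PosChar k] [IsFF k K]

/-- `ω j = ∏ l < j, s ^ l w`; `IsFF.of_finite`, `QVal.Over.exists_place`, `Cyc.unram` -/
theorem el_om (hn : (n : k) ≠ 0) (hζ : IsPrimitiveRoot ζ n) {A A' : Dv k K} {h H : K}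
    (hA : Adm n A h) (hA' : Adm n A' H) (hd : Dis A A') {r : Ω} (r0 : r ≠ 0)
    (hr : r ^ n = algebraMap K Ω h) {σ₀ : Ω ≃ₐ[K] Ω} (h0 : σ₀ r = algebraMap k Ω ζ * r) :
    ∃ (ω : ℕ → Ω) (b : Ω) (B : Dv k K), b ≠ 0 ∧ (∀ j, ω j ≠ 0) ∧ ω 0 = 1 ∧
      (∀ j, ω (j + n) = ω j * algebraMap K Ω H) ∧
      (∀ (σ : Ω ≃ₐ[K] Ω) (j : ℕ), σ r = algebraMap k Ω (ζ ^ j) * r →
        (∀ j', ω (j + j') = ω j * σ (ω j')) ∧ σ b * ω j ^ n = b * algebraMap K Ω H ^ j) ∧
      ζ ^ deg B = evD h A' / evD H A ∧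
      ∀ (x : Place k K) (V : QVal Ω), V.Over x → ∃ m : ℤ, V.ord b = B x + n * m := by
  obtain ⟨L, _, _, s, r, rfl, hc, hσ⟩ := exists_cyc hn hζ r0 hr h0
  have := IsFF.of_finite (k := k) K L
  replace hr : r ^ n = algebraMap K L h := Subtype.ext hr
  obtain ⟨w, b, hw, b0, hb⟩ := hc.exists_wb hA'.1
  obtain ⟨B, h1, h2⟩ := hc.deg_eq hA hr hA' hd hw b0 hb
  have w0 : w ≠ 0 := fun e => hA'.1 (by rw [← hw, e, Algebra.norm_zero])
  let ω : ℕ → L := fun j => ∏ l ∈ Finset.range j, (s ^ l) w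
  have h3 : ∀ j j', ω (j + j') = ω j * (s ^ j) (ω j') := fun j j' => by
    simp only [ω, Finset.prod_range_add, map_prod, pow_add, AlgEquiv.mul_apply]
  have h4 : ∀ j, (s ^ j) b * ω j ^ n = b * algebraMap K L H ^ j := fun j => by
    induction j with
    | zero => simp [ω]
    | succ j ih =>
      have e := congrArg (s ^ j) hb
      rw [map_mul, map_mul, map_pow, AlgEquiv.commutes] at e
      rw [show ω (j + 1) = ω j * (s ^ j) w from Finset.prod_range_succ _ _, pow_succ s,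
        AlgEquiv.mul_apply]
      linear_combination ω j ^ n * e + algebraMap K L H * ih
  refine ⟨fun j => ω j, b, B, fun e => b0 (Subtype.ext e), fun j e => ?_, rfl, fun j => ?_,
    fun σ j e => ⟨fun j' => ?_, ?_⟩, h1, fun x V hV => ?_⟩
  · exact Finset.prod_ne_zero_iff.2 (fun l _ => (map_ne_zero _).2 w0) (Subtype.ext e : ω j = 0)
  · have e := h3 j n
    rw [show ω n = algebraMap K L H from (hw ▸ hc.norm_eq w).symm, AlgEquiv.commutes] at e
    exact congrArg Subtype.val e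
  · rw [hσ σ j e]
    exact congrArg Subtype.val (h3 j j')
  · rw [hσ σ j e]
    exact congrArg Subtype.val (h4 j)
  · obtain ⟨v, e, hv, h5⟩ := hV.exists_place L
    obtain ⟨m, hm⟩ := h2 v x e hv
    have h6 := h5 b
    rw [hc.unram hA hr hv, Nat.cast_one, one_mul, sub_eq_iff_eq_add'.1 hm] at h6
    exact ⟨m, by exact_mod_cast h6.symm⟩

end

end Pool.Agent.Lib.MP_16ef92_ag.AL
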