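import Mathlib
import Pool.Agent.Lib.MP_16ef92_ag.AL.WDef

set_option autoImplicit false
set_option linter.unusedSectionVars false
set_option linter.unusedVariables false

namespace Pool.Agent.Lib.MP_16ef92_ag.AL

open Pool.Agent.Lib.MP_6adaea_nt 
open scoped Classical

noncomputable section

variable {k T : Type} [Field k] [AddCommGroup T]

/-- a bimultiplicative pairing with nonzero values -/
structure Bim (B : T → T → k) : Prop where
  ne : ∀ x y, B x y ≠ 0
  left : ∀ x x' y, B (x + x') y = B x y * B x' y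
  right : ∀ x y y', B x (y + y') = B x y * B x y'

variable {B : T → T → k}

theorem Bim.zero_right (h : Bim B) (x : T) : B x 0 = 1 := by
  have := h.right x 0 0
  rw [add_zero] at this
  exact (mul_eq_left₀ (h.ne x 0)).1 this.symm

theorem Bim.zero_left (h : Bim B) (y : T) : B 0 y = 1 := by
  have := h.left 0 0 y
  rw [add_zero] at this
  exact (mul_eq_left₀ (h.ne 0 y)).1 this.symm

theorem Bim.nsmul_right (h : Bim B) (x y : T) (m : ℕ) : B x (m • y) = B x y ^ m := by
  induction m with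
  | zero => rw [zero_nsmul, pow_zero, h.zero_right]
  | succ m ih => rw [succ_nsmul, h.right, ih, pow_succ]

theorem Bim.nsmul_left (h : Bim B) (x y : T) (m : ℕ) : B (m • x) y = B x y ^ m := by
  induction m with
  | zero => rw [zero_nsmul, pow_zero, h.zero_left]
  | succ m ih => rw [succ_nsmul, h.left, ih, pow_succ]

/-- `x ↦ B x` embeds `T` in `Multiplicative R →* kˣ`, which has the cardinality of `R`
(`CommGroup.card_monoidHom_of_hasEnoughRootsOfUnity`; the exponent divides `n`). So `T` is finite,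
`card T ≤ card R`, `R = ⊤`, and the embedding is onto. -/
theorem Bim.perfect [IsAlgClosed k] (h : Bim B) {n : ℕ} (hn : (n : k) ≠ 0) (hT : ∀ x : T, n • x = 0)
    (R : AddSubgroup T) [Finite R] (hB : ∀ x, (∀ y ∈ R, B x y = 1) → x = 0) :
    Finite T ∧ R = ⊤ ∧ ∀ χ : T → k, (∀ y, χ y ≠ 0) → (∀ y y', χ (y + y') = χ y * χ y') →
      ∃ x, ∀ y, B x y = χ y := by
  have hd : Monoid.exponent (Multiplicative R) ∣ n :=
    Monoid.exponent_dvd_of_forall_pow_eq_one fun g =>
      congrArg Multiplicative.ofAdd (Subtype.ext (hT (g.toAdd : T)) : n • g.toAdd = 0)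
  have : NeZero (Monoid.exponent (Multiplicative R) : k) := ⟨fun e => hn (by
    obtain ⟨c, rfl⟩ := hd
    rw [Nat.cast_mul, e, zero_mul])⟩
  have hc := CommGroup.card_monoidHom_of_hasEnoughRootsOfUnity (Multiplicative R) k
  let ψ : ∀ χ : T → k, (∀ y, χ y ≠ 0) → (∀ y y', χ (y + y') = χ y * χ y') →
      (Multiplicative R →* kˣ) := fun χ h0 h1 =>
    MonoidHom.mk' (fun y => Units.mk0 (χ (y.toAdd : T)) (h0 _)) fun a b => Units.ext (h1 _ _)
  have hψ : ∀ χ h0 h1 χ' h0' h1', ψ χ h0 h1 = ψ χ' h0' h1' → ∀ y ∈ R, χ y = χ' y :=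
    fun χ h0 h1 χ' h0' h1' e y hy =>
      congrArg Units.val (DFunLike.congr_fun e (Multiplicative.ofAdd (⟨y, hy⟩ : R)))
  have hi : Function.Injective fun x => ψ (B x) (h.ne x) (h.right x) := fun x x' e =>
    sub_eq_zero.1 (hB _ fun y hy => by
      have h1 := h.left (x - x') x' y
      rw [sub_add_cancel, hψ _ (h.ne x) (h.right x) _ (h.ne x') (h.right x') e y hy] at h1
      exact (mul_eq_right₀ (h.ne x' y)).1 h1.symm)
  have : Finite (Multiplicative R →* kˣ) := Nat.finite_of_card_ne_zero (hc ▸ Nat.card_pos.ne')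
  have : Finite T := Finite.of_injective _ hi
  have hR : R = ⊤ := AddSubgroup.eq_top_of_le_card _ ((Nat.card_le_card_of_injective _ hi).trans hc.le)
  refine ⟨this, hR, fun χ h0 h1 => ?_⟩
  obtain ⟨x, hx⟩ := (hi.bijective_of_nat_card_le
    (hc.le.trans (Nat.card_le_card_of_injective _ R.subtype_injective))).2 (ψ χ h0 h1)
  exact ⟨x, fun y => hψ _ (h.ne x) (h.right x) _ h0 h1 hx y (hR ▸ AddSubgroup.mem_top y)⟩

theorem wlinb_unit {l m : ℕ} (hl : l.Prime) (a : ZMod (l ^ (m + 1))) :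
    ¬ IsUnit a ↔ (l : ZMod (l ^ (m + 1))) ∣ a := by
  have : NeZero (l ^ (m + 1)) := ⟨pow_ne_zero _ hl.ne_zero⟩
  refine ⟨fun h => ?_, fun h hu => (ZMod.isUnit_prime_iff_not_dvd hl).1 (isUnit_of_dvd_unit h hu)
    (dvd_pow_self l m.succ_ne_zero)⟩
  rw [← ZMod.natCast_zmod_val a] at h ⊢
  rw [ZMod.isUnit_iff_coprime] at h
  exact Nat.cast_dvd_cast (not_not.1 fun h' =>
    h (((Nat.Prime.coprime_iff_not_dvd hl).2 h').symm.pow_right _))

/-- The ring is local with maximal ideal generated by `l`. -/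
theorem free_of_div {l m : ℕ} (hl : l.Prime) [Module (ZMod (l ^ m)) T] [Finite T]
    (h : ∀ j ≤ m, ∀ x : T, l ^ j • x = 0 → ∃ y : T, x = l ^ (m - j) • y) :
    Module.Free (ZMod (l ^ m)) T := by
  rcases m with _ | m
  · have : Subsingleton (ZMod (l ^ 0)) := by rw [pow_zero]; infer_instance
    exact Module.Free.of_subsingleton' _ _
  have : NeZero (l ^ (m + 1)) := ⟨pow_ne_zero _ hl.ne_zero⟩
  have : Fact (1 < l ^ (m + 1)) := ⟨Nat.one_lt_pow m.succ_ne_zero hl.one_lt⟩
  have : IsLocalRing (ZMod (l ^ (m + 1))) := IsLocalRing.of_nonunits_add fun a b ha hb =>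
    (wlinb_unit hl _).2 (((wlinb_unit hl a).1 ha).add ((wlinb_unit hl b).1 hb))
  have := Module.finitePresentation_of_finite (ZMod (l ^ (m + 1))) T
  refine Module.free_of_maximalIdeal_rTensor_injective
    ((injective_iff_map_eq_zero _).2 fun z hz => ?_)
  let π : IsLocalRing.maximalIdeal (ZMod (l ^ (m + 1))) := ⟨l, (wlinb_unit hl _).2 dvd_rfl⟩
  obtain ⟨x, rfl⟩ : ∃ x : T, z = TensorProduct.tmul _ π x := by
    clear hz
    induction z using TensorProduct.induction_on with
    | zero => exact ⟨0, by simp⟩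
    | tmul a x =>
      obtain ⟨c, hc⟩ := (wlinb_unit hl a.1).1 a.2
      refine ⟨c • x, ?_⟩
      rw [← TensorProduct.smul_tmul]
      congr 1
      exact Subtype.ext (hc.trans (mul_comm _ _))
    | add z z' h1 h2 =>
      obtain ⟨x, rfl⟩ := h1
      obtain ⟨x', rfl⟩ := h2
      exact ⟨x + x', (TensorProduct.tmul_add _ _ _).symm⟩
  have h1 := congrArg (TensorProduct.lid _ T) hz
  rw [LinearMap.rTensor_tmul, TensorProduct.lid_tmul, map_zero] at h1
  obtain ⟨y, rfl⟩ := h 1 (by omega) x (by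
    rw [pow_one, ← Nat.cast_smul_eq_nsmul (ZMod (l ^ (m + 1)))]; exact h1)
  have h2 : ((l ^ (m + 1 - 1) : ℕ) : ZMod (l ^ (m + 1))) • π = 0 := Subtype.ext (by
    change _ * ((l : ℕ) : ZMod (l ^ (m + 1))) = 0
    rw [← Nat.cast_mul, Nat.add_sub_cancel, ← pow_succ, ZMod.natCast_self])
  rw [← Nat.cast_smul_eq_nsmul (ZMod (l ^ (m + 1))), ← TensorProduct.smul_tmul, h2,
    TensorProduct.zero_tmul]

variable {n : ℕ} [NeZero n] [Module (ZMod n) T] {ι : Type} [Fintype ι] {ζ : k}

theorem pow_val_add (hζ : ζ ^ n = 1) (a b : ZMod n) : ζ ^ (a + b).val = ζ ^ a.val * ζ ^ b.val := by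
  rw [ZMod.val_add, ← pow_eq_pow_mod _ hζ, pow_add]

/-- The `d i` form a basis: `x = ∑ a j • d j` where `B x (c j) = ζ ^ a j` (the values are `n`-th
roots of unity; nondegeneracy), and the coefficients are unique. `LinearMap.trace_eq_matrix_trace`. -/
theorem Bim.trace (h : Bim B) (hζ : IsPrimitiveRoot ζ n) (c : Module.Basis ι (ZMod n) T)
    (hB : ∀ x, (∀ y, B x y = 1) → x = 0) {d : ι → T} (hd : ∀ i y, B (d i) y = ζ ^ (c.repr y i).val)
    (γ : T →ₗ[ZMod n] T) {β : ι → ℤ} (hβ : ∀ i, B (γ (d i)) (c i) = ζ ^ β i) :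
    LinearMap.trace (ZMod n) T γ = ∑ i, (β i : ZMod n) := by
  have h1 : ∀ (a : ι → ZMod n) i, B (Fintype.linearCombination (ZMod n) d a) (c i) = ζ ^ (a i).val := by
    intro a i
    have h2 : ∀ j, B (a j • d j) (c i) = if j = i then ζ ^ (a i).val else 1 := fun j => by
      rw [← ZMod.natCast_zmod_val (a j), Nat.cast_smul_eq_nsmul, h.nsmul_left, hd, ← pow_mul,
        pow_eq_pow_mod _ hζ.pow_eq_one, ← ZMod.val_mul, c.repr_self, Finsupp.single_apply]
      by_cases e : j = i
      · simp [e]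
      · simp [e, Ne.symm e]
    have h3 : ∀ s : Finset ι, B (∑ j ∈ s, a j • d j) (c i) = ∏ j ∈ s, B (a j • d j) (c i) := fun s => by
      induction s using Finset.induction_on with
      | empty => exact h.zero_left _
      | insert j s hj ih => rw [Finset.sum_insert hj, Finset.prod_insert hj, h.left, ih]
    rw [Fintype.linearCombination_apply, h3]
    simp [h2]
  have hi : Function.Injective (Fintype.linearCombination (ZMod n) d) := fun a a' e =>
    funext fun i => ZMod.val_injective n (hζ.pow_inj (ZMod.val_lt _) (ZMod.val_lt _) (by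
      rw [← h1, ← h1, e]))
  have hs : Function.Surjective (Fintype.linearCombination (ZMod n) d) :=
    (Finite.injective_iff_surjective_of_equiv c.equivFun.symm.toEquiv).1 hi
  let e := LinearEquiv.ofBijective _ ⟨hi, hs⟩
  rw [LinearMap.trace_eq_matrix_trace (ZMod n) (Module.Basis.ofEquivFun e.symm), Matrix.trace]
  refine Finset.sum_congr rfl fun i _ => ?_
  have h4 : Module.Basis.ofEquivFun e.symm i = d i := by
    simp [e, Fintype.linearCombination_apply, Pi.single_apply]
  rw [Matrix.diag_apply, LinearMap.toMatrix_apply, h4, Module.Basis.ofEquivFun_repr_apply]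
  have h5 := h1 (e.symm (γ (d i))) i
  rw [show Fintype.linearCombination (ZMod n) d (e.symm _) = _ from e.apply_symm_apply _, hβ,
    ← zpow_natCast, ← div_eq_one_iff_eq (zpow_ne_zero _ (hζ.ne_zero (NeZero.ne n))),
    ← zpow_sub₀ (hζ.ne_zero (NeZero.ne n)), hζ.zpow_eq_one_iff_dvd,
    ← ZMod.intCast_eq_intCast_iff_dvd_sub] at h5
  simpa using h5

end

end Pool.Agent.Lib.MP_16ef92_ag.AL
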