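import Mathlib
import Pool.Agent.Lib.MP_16ef92_ag.AL.WDef
import Pool.Agent.Lib.MP_6adaea_nt.V.Res2
import Pool.Agent.Lib.MP_16ef92_ag.Gal

set_option autoImplicit false
set_option linter.unusedSectionVars false
set_option linter.unusedVariables false

namespace Pool.Agent.Lib.MP_16ef92_ag.AL

open Pool.Agent.Lib.MP_6adaea_nt 
open scoped Classical

noncomputable section

variable {k K Ω : Type} [Field k] [Field K] [Field Ω] [Algebra k K] [Algebra k Ω] [Algebra K Ω]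
  [IsScalarTower k K Ω] [IsAlgClosed Ω] [Algebra.IsAlgebraic K Ω]

theorem wtamea_normal : Normal K Ω :=
  have : IsAlgClosure K Ω := ⟨inferInstance, inferInstance⟩
  inferInstance

theorem wtamea_pow (p : ℕ) [ExpChar K p] (z : Ω) :
    ∃ (e : ℕ) (y : separableClosure K Ω), (y : Ω) = z ^ p ^ e := by
  have : ExpChar (separableClosure K Ω) p :=
    expChar_of_injective_algebraMap (algebraMap K _).injective p
  exact IsPurelyInseparable.pow_mem (separableClosure K Ω) p z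

theorem wtamea_lift (τ : separableClosure K Ω ≃ₐ[K] separableClosure K Ω) :
    ∃ σ : Ω ≃ₐ[K] Ω, ∀ y : separableClosure K Ω, σ y = τ y :=
  have : Normal K Ω := wtamea_normal
  ⟨τ.liftNormal Ω, fun y => τ.liftNormal_commutes Ω y⟩

theorem wtamea_fix (y : separableClosure K Ω) (h : ∀ σ : Ω ≃ₐ[K] Ω, σ y = y) :
    ∃ a : K, algebraMap K Ω a = y := by
  have : Normal K Ω := wtamea_normal
  obtain ⟨a, ha⟩ := IntermediateField.mem_bot.1 ((InfiniteGalois.mem_bot_iff_fixed (k := K) y).2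
    fun τ => by
      obtain ⟨σ, hσ⟩ := wtamea_lift τ
      exact Subtype.ext ((hσ y).symm.trans (h σ)))
  exact ⟨a, congrArg Subtype.val ha⟩

/-- an element fixed by all automorphisms is purely inseparable -/
theorem fix_pow (p : ℕ) [ExpChar K p] {z : Ω} (h : ∀ σ : Ω ≃ₐ[K] Ω, σ z = z) :
    ∃ (e : ℕ) (a : K), algebraMap K Ω a = z ^ p ^ e := by
  obtain ⟨e, y, hy⟩ := wtamea_pow (K := K) p z
  obtain ⟨a, ha⟩ := wtamea_fix y fun σ => by rw [hy, map_pow, h]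
  exact ⟨e, a, ha.trans hy⟩

/-- `z` is separable over `K` (`Polynomial.separable_X_pow_sub_C`) -/
theorem fix_sep {n : ℕ} (hn : (n : K) ≠ 0) {z : Ω} (h : ∀ σ : Ω ≃ₐ[K] Ω, σ z = z) {b : K}
    (hb : z ^ n = algebraMap K Ω b) : ∃ a : K, algebraMap K Ω a = z := by
  by_cases b0 : b = 0
  · rw [b0, map_zero] at hb
    exact ⟨0, by rw [map_zero, pow_eq_zero_iff (fun e => hn (by simp [e])) |>.1 hb]⟩
  have hs : IsSeparable K z := (Polynomial.separable_X_pow_sub_C b hn b0).of_dvd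
    (minpoly.dvd K z (by simp [hb]))
  exact wtamea_fix ⟨z, mem_separableClosure_iff.2 hs⟩ h

/-- the value only depends on the images of a finite set, and these are roots of minimal
polynomials -/
theorem near_finite_range {T : Type} [AddCommGroup T] {a : (Ω ≃ₐ[K] Ω) → T}
    (h : ∀ σ τ, a (σ * τ) = a σ + a τ) (hn : Near fun σ => a σ = 0) : (Set.range a).Finite := by
  obtain ⟨S, hS⟩ := hn
  let f : (Ω ≃ₐ[K] Ω) → ∀ s : S, (minpoly K (s : Ω)).rootSet Ω := fun σ s => ⟨σ s, by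
    rw [Polynomial.mem_rootSet, Polynomial.aeval_algHom_apply, minpoly.aeval, map_zero]
    exact ⟨minpoly.ne_zero (Algebra.IsIntegral.isIntegral _), rfl⟩⟩
  have hf : Function.FactorsThrough a f := fun σ τ e => by
    have h1 : a (σ⁻¹ * τ) = 0 := hS _ fun s hs => by
      have h2 : σ s = τ s := congrArg Subtype.val (congrFun e ⟨s, hs⟩)
      rw [AlgEquiv.mul_apply, ← h2, inv_apply_self]
    have h2 := h σ (σ⁻¹ * τ)
    rw [mul_inv_cancel_left, h1, add_zero] at h2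
    exact h2.symm
  refine (Set.finite_range (Function.extend f a 0)).subset ?_
  rintro _ ⟨σ, rfl⟩
  exact ⟨f σ, hf.extend_apply _ σ⟩

variable [IsAlgClosed k] [IsFF k K]

/-- restrict `V` to the separable closure and use the tame character -/
theorem tame (p : ℕ) [Fact p.Prime] [CharP k p] {V : QVal Ω} {x : Place k K} (hV : V.Over x) {θ : Ω}
    (h0 : θ ≠ 0) (h : ∀ σ ∈ V.stab K, V.Gt (σ θ / θ - 1) 0) :
    ∃ (a : ℕ) (m : ℤ), p ^ a * V.ord θ = m := by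
  have : CharP K p := charP_of_injective_algebraMap (algebraMap k K).injective p
  have : CharP Ω p := charP_of_injective_algebraMap (algebraMap k Ω).injective p
  have : Normal K Ω := wtamea_normal
  have : IsSepClosed (separableClosure K Ω) := IsSepClosure.sep_closed K
  have hp : (p : ℚ) ≠ 0 := by exact_mod_cast (Fact.out : p.Prime).ne_zero
  obtain ⟨e, y, hy⟩ := wtamea_pow (K := K) p θ
  have hW : (V.comap (algebraMap (separableClosure K Ω) Ω)).Over x := hV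
  have y0 : (y : Ω) ≠ 0 := hy ▸ pow_ne_zero _ h0
  obtain ⟨a, m, hm⟩ := hW.int_of_tch p (m := V.ord y) fun τ hτ => by
    obtain ⟨σ, hσ⟩ := wtamea_lift τ
    have h1 : σ ∈ V.stab K := fun z => by
      obtain ⟨d, w, hw⟩ := wtamea_pow (K := K) p z
      have h2 : V.ord (τ w : Ω) = V.ord (w : Ω) := hτ w
      rw [← hσ, hw, map_pow, V.ord_pow, V.ord_pow] at h2
      exact mul_left_cancel₀ (by exact_mod_cast pow_ne_zero d hp) h2
    refine hW.hasRes.tch_eq hτ (x := y) (fun e => y0 (congrArg Subtype.val e)) ?_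
    have h2 := (h σ h1).pow (pow_ne_zero e (Fact.out : p.Prime).ne_zero)
    rw [mul_zero, sub_pow_char_pow, one_pow, div_pow, ← map_pow, ← hy, hσ, div_sub_one y0,
      QVal.gt_div_iff y0, zero_add] at h2
    rw [map_one, one_mul]
    exact h2.imp (fun e => Subtype.ext e) id
  refine ⟨a + e, m, ?_⟩
  rw [← hm, hy, V.ord_pow]
  push_cast
  ring

/-- The cocycle `z σ = e σ * ∏ i, ω i (α i σ)` and `hilbert90`. -/
theorem coc_main {ι : Type} [Fintype ι] {n : ℕ} {α : ι → (Ω ≃ₐ[K] Ω) → ℕ}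
    {ε : ι → (Ω ≃ₐ[K] Ω) → (Ω ≃ₐ[K] Ω) → ℕ} {e : (Ω ≃ₐ[K] Ω) → Ω} {H b : ι → Ω} {ω : ι → ℕ → Ω}
    {u : Ω} (hε : ∀ i σ τ, α i σ + α i τ = α i (σ * τ) + n * ε i σ τ) (e0 : ∀ σ, e σ ≠ 0)
    (he : ∀ σ τ, e (σ * τ) = e σ * σ (e τ) * ∏ i, H i ^ ε i σ τ)
    (hu : ∀ σ : Ω ≃ₐ[K] Ω, σ u = u * (∏ i, H i ^ α i σ) * e σ ^ n)
    (hn : Near fun σ => e σ = 1 ∧ ∀ i, α i σ = 0) (b0 : ∀ i, b i ≠ 0) (ω0 : ∀ i j, ω i j ≠ 0)
    (ω1 : ∀ i, ω i 0 = 1) (ωn : ∀ i j, ω i (j + n) = ω i j * H i)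
    (hω : ∀ i σ j, ω i (α i σ + j) = ω i (α i σ) * σ (ω i j))
    (hb : ∀ i (σ : Ω ≃ₐ[K] Ω), σ (b i) * ω i (α i σ) ^ n = b i * H i ^ α i σ) :
    ∃ y : Ω, y ≠ 0 ∧ (∀ σ : Ω ≃ₐ[K] Ω, σ (u / (y ^ n * ∏ i, b i)) = u / (y ^ n * ∏ i, b i)) ∧
      ∀ σ : Ω ≃ₐ[K] Ω, (∀ i, α i σ = 0) → σ y = e σ * y := by
  have h1 : ∀ i j m, ω i (j + n * m) = ω i j * H i ^ m := fun i j m => by
    induction m with
    | zero => simp
    | succ m ih => rw [Nat.mul_succ, ← add_assoc, ωn, ih, pow_succ, mul_assoc]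
  have z0 : ∀ σ, e σ * ∏ i, ω i (α i σ) ≠ 0 := fun σ =>
    mul_ne_zero (e0 σ) (Finset.prod_ne_zero_iff.2 fun i _ => ω0 i _)
  obtain ⟨y, y0, hy⟩ := hilbert90 ⊤ (fun σ => e σ * ∏ i, ω i (α i σ)) (fun σ _ => z0 σ)
    (fun σ _ τ _ => by
      have : (∏ i, H i ^ ε i σ τ) * ∏ i, ω i (α i (σ * τ)) =
          (∏ i, ω i (α i σ)) * ∏ i, σ (ω i (α i τ)) := by
        rw [← Finset.prod_mul_distrib, ← Finset.prod_mul_distrib]
        exact Finset.prod_congr rfl fun i _ => by rw [mul_comm, ← h1, ← hε, hω]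
      rw [he, map_mul, map_prod, mul_assoc, this]
      ring) (hn.mono fun σ h _ => by simp [h.1, h.2, ω1])
  refine ⟨y, y0, fun σ => ?_, fun σ h => by simp [hy σ trivial, h, ω1]⟩
  have h2 : (∏ i, σ (b i)) * (∏ i, ω i (α i σ)) ^ n = (∏ i, b i) * ∏ i, H i ^ α i σ := by
    rw [← Finset.prod_pow, ← Finset.prod_mul_distrib, ← Finset.prod_mul_distrib]
    exact Finset.prod_congr rfl fun i _ => hb i σ
  have h3 : y ^ n * ∏ i, b i ≠ 0 :=
    mul_ne_zero (pow_ne_zero n y0) (Finset.prod_ne_zero_iff.2 fun i _ => b0 i)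
  rw [map_div₀, div_eq_div_iff ((map_ne_zero σ).2 h3) h3, map_mul, map_pow, map_prod, hu,
    hy σ trivial]
  linear_combination (-(u * e σ ^ n * y ^ n)) * h2

end

end Pool.Agent.Lib.MP_16ef92_ag.AL
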