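import Mathlib
import Pool.Agent.Lib.MP_16ef92_ag.AL.WDiv
import Pool.Agent.Lib.MP_16ef92_ag.AL.WPair
import Pool.Agent.Lib.MP_16ef92_ag.AL.WTame

set_option autoImplicit false
set_option linter.unusedSectionVars false
set_option linter.unusedVariables false

namespace Pool.Agent.Lib.MP_16ef92_ag.AL

open Pool.Agent.Lib.MP_6adaea_nt 
open scoped Classical

noncomputable section

variable {k K Ω F : Type} [Field k] [Field K] [Field Ω] [Field F] [Algebra k K]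
  [Algebra k Ω] [Algebra k F] [Algebra K F] [Algebra Ω F] [IsScalarTower k K F]
  [IsScalarTower k Ω F] [BC k K Ω F] [IsAlgClosed k] [IsFF k K] [PosChar k] [IsAlgClosed Ω]
  [IsFF Ω F] [PosChar Ω] [Algebra K Ω] [IsScalarTower k K Ω] [Algebra.IsAlgebraic K Ω] {n : ℕ}

variable (k F) in
/-- the action of the automorphisms of `Ω` over `K` -/
def ac (σ : Ω ≃ₐ[K] Ω) : SA Ω F := ext K F (σ.restrictScalars k)

variable (Ω F) in
/-- the place given by an endomorphism of `K` -/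
def gp (ψ : K →ₐ[k] K) : Place Ω F := gen F ((IsScalarTower.toAlgHom k K Ω).comp ψ)

variable {σ τ : Ω ≃ₐ[K] Ω}

theorem ac_a (σ : Ω ≃ₐ[K] Ω) (c : Ω) : (ac k F σ).a c = σ c := ext_a _ c

theorem ac_K (σ : Ω ≃ₐ[K] Ω) (a : K) : (ac k F σ).γ (algebraMap K F a) = algebraMap K F a :=
  ext_K _ a

theorem ac_dm_mul (σ τ : Ω ≃ₐ[K] Ω) (D : Dv Ω F) :
    (ac k F (σ * τ)).dm D = (ac k F σ).dm ((ac k F τ).dm D) :=
  ext_dm_mul (K := K) (σ.restrictScalars k) (τ.restrictScalars k) D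

theorem ac_cst (σ : Ω ≃ₐ[K] Ω) (x : Place k K) : (ac k F σ).pl (cst Ω F x) = cst Ω F x :=
  ext_cst _ x

theorem ac_bc (σ : Ω ≃ₐ[K] Ω) (A : Dv k K) : (ac k F σ).dm (bc Ω F A) = bc Ω F A := ext_bc _ A

theorem ac_gp (σ : Ω ≃ₐ[K] Ω) (ψ : K →ₐ[k] K) : (ac k F σ).pl (gp Ω F ψ) = gp Ω F ψ :=
  (ext_gen _ _).trans (congrArg (gen F) (AlgHom.ext fun a => σ.commutes (ψ a)))

theorem val_gp (ψ : K →ₐ[k] K) (a : K) :
    val (gp Ω F ψ) (algebraMap K F a) = algebraMap K Ω (ψ a) := val_gen _ a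

theorem gp_inj : Function.Injective (gp Ω F : (K →ₐ[k] K) → Place Ω F) := fun _ _ h =>
  AlgHom.ext fun a => (algebraMap K Ω).injective (DFunLike.congr_fun (gen_inj h) a)

theorem ac_dm_fix {D : Dv Ω F} {Q : Place Ω F} (h : (ac k F σ).pl Q = Q) :
    (ac k F σ).dm D Q = D Q := (congrArg _ h.symm).trans (SA.dm_pl _ D Q)

theorem ac_evD (σ : Ω ≃ₐ[K] Ω) (f : F) (D : Dv Ω F) :
    evD ((ac k F σ).γ f) ((ac k F σ).dm D) = σ (evD f D) := by rw [SA.evD, ac_a]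

/-- A place is `cst x`, which is fixed, or `gen ξ`, which is fixed as soon as the `ξ y` are, `y` in
the finite set of `exists_gens` (the `a` with `σ (ξ a) = ξ a` form a subfield). -/
theorem near_dm (D : Dv Ω F) : Near fun σ : Ω ≃ₐ[K] Ω => (ac k F σ).dm D = D := by
  induction D using Finsupp.induction_linear with
  | zero => exact Near.of_forall fun _ => map_zero _
  | add A B hA hB => exact (hA.and hB).mono fun σ h => by rw [map_add, h.1, h.2]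
  | single Q m =>
    rcases pt_cases (k := k) K Q with ⟨x, rfl⟩ | ⟨ξ, rfl⟩
    · exact Near.of_forall fun σ => by rw [SA.dm_single, ac_cst]
    obtain ⟨x⟩ : Nonempty (Place k K) := inferInstance
    obtain ⟨s, -, hs⟩ := exists_gens x
    refine ⟨s.image ξ, fun σ h => ?_⟩
    let R := ((σ : Ω →+* Ω).comp (ξ : K →+* Ω)).eqLocusField ξ
    have h1 := hs R.toSubring (fun c => (congrArg σ (ξ.commutes c)).trans
      (((σ.restrictScalars k).commutes c).trans (ξ.commutes c).symm))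
      (fun y hy => h _ (Finset.mem_image_of_mem _ hy)) fun a ha _ => R.inv_mem ha
    simp only [SA.dm_single, ac, ext_gen]
    refine congrArg (fun ξ => Finsupp.single (gen F ξ) m) (AlgHom.ext fun a => ?_)
    exact (x.O.mem_or_inv_mem a).elim (fun h => h1 a (x.mem_O.1 h)) fun h =>
      inv_inv a ▸ R.inv_mem (h1 _ (x.mem_O.1 h))

variable (k K Ω F) in
/-- a division by `n` of the class of the generic point -/
structure Uni (n : ℕ) where
  o : Place k K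
  D : Dv Ω F
  f : F
  a : (Ω ≃ₐ[K] Ω) → Tor k K n
  f0 : f ≠ 0
  hf : dv Ω f = n • D - Finsupp.single (gp Ω F (AlgHom.id k K)) 1 + Finsupp.single (cst Ω F o) 1
  ha : ∀ σ (A : Dv k K), cl A = a σ ↔ cl (bc Ω F A) = cl ((ac k F σ).dm D - D)

theorem wcoca_dv {o : Place k K} {D : Dv Ω F} {f : F} (f0 : f ≠ 0) (hf : dv Ω f =
    n • D - Finsupp.single (gp Ω F (AlgHom.id k K)) 1 + Finsupp.single (cst Ω F o) 1)
    (σ : Ω ≃ₐ[K] Ω) : dv Ω ((ac k F σ).γ f / f) = n • ((ac k F σ).dm D - D) := by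
  rw [dv_div ((map_ne_zero _).2 f0) f0, ← SA.dm_dv, hf, map_add, map_sub, map_nsmul, SA.dm_single,
    SA.dm_single, ac_gp, ac_cst, smul_sub]
  abel

variable (Ω F) in
/-- `pic_div` for `Ω ⊆ F`, `move`, `rigid`, `cl_bc` -/
theorem exists_uni (hn : (n : k) ≠ 0) (o : Place k K) (S : Finset (Place Ω F)) :
    ∃ X : Uni k K Ω F n, X.o = o ∧ ∀ Q ∈ S, X.D Q = 0 := by
  obtain ⟨D, f, f0, hf⟩ := pic_div (n := n) (by
    rw [← map_natCast (algebraMap k Ω)]; exact (map_ne_zero _).2 hn)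
    (D := Finsupp.single (gp Ω F (AlgHom.id k K)) 1 - Finsupp.single (cst Ω F o) 1)
    (by rw [map_sub, deg_single, deg_single, sub_self])
  obtain ⟨g, g0, hg⟩ := move D S
  have h0 := div_ne_zero (pow_ne_zero n g0) f0
  have h1 : dv Ω (g ^ n / f) = n • (D + dv Ω g) - Finsupp.single (gp Ω F (AlgHom.id k K)) 1 +
      Finsupp.single (cst Ω F o) 1 := by
    rw [dv_div (pow_ne_zero n g0) f0, dv_pow, sub_add, hf, smul_add]
    abel
  choose A h2 h3 using fun σ : Ω ≃ₐ[K] Ω => rigid k K hn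
    (D := (ac k F σ).dm (D + dv Ω g) - (D + dv Ω g)) (by
      rw [← map_nsmul, ← wcoca_dv h0 h1, cl_dv (div_ne_zero ((map_ne_zero _).2 h0) h0)])
  exact ⟨⟨o, _, _, fun σ => ⟨_, h2 σ⟩, h0, h1, fun σ B => by rw [← h3, cl_bc]⟩, rfl, hg⟩

namespace Uni

variable (X : Uni k K Ω F n)

theorem exists_y {A : Dv k K} (h : cl A = X.a σ) :
    ∃ y : F, y ≠ 0 ∧ dv Ω y = (ac k F σ).dm X.D - X.D - bc Ω F A :=
  cl_eq.1 ((X.ha σ A).1 h).symm

theorem dv_ac (σ : Ω ≃ₐ[K] Ω) :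
    dv Ω ((ac k F σ).γ X.f / X.f) = n • ((ac k F σ).dm X.D - X.D) := wcoca_dv X.f0 X.hf σ

theorem a_mul (σ τ : Ω ≃ₐ[K] Ω) : X.a (σ * τ) = X.a σ + X.a τ := by
  obtain ⟨A, hA⟩ := cl_surj (X.a σ : Pic k K)
  obtain ⟨B, hB⟩ := cl_surj (X.a τ : Pic k K)
  have h := congrArg (ac k F σ).pic ((X.ha τ B).1 hB)
  rw [SA.pic_cl, SA.pic_cl, ac_bc, map_sub] at h
  refine Subtype.ext (((X.ha _ (A + B)).2 ?_).symm.trans (by rw [map_add, hA, hB]; rfl))
  rw [map_add, map_add, (X.ha σ A).1 hA, h, ← map_add, ac_dm_mul, sub_add_sub_cancel']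

theorem a_eq_zero (h : cl ((ac k F σ).dm X.D) = cl X.D) : X.a σ = 0 :=
  Subtype.ext ((X.ha σ 0).2 (by rw [map_sub, h, sub_self, map_zero, map_zero])).symm

theorem finite_range : (Set.range X.a).Finite :=
  near_finite_range X.a_mul ((near_dm (k := k) X.D).mono fun σ h => X.a_eq_zero (by rw [h]))

theorem wcocb_ev {Δ : Dv Ω F} (hΔ : (ac k F σ).dm Δ = Δ) {y : F} (hy : Dj y Δ) :
    Dj ((ac k F σ).γ y) Δ ∧ evD ((ac k F σ).γ y) Δ = σ (evD y Δ) :=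
  ⟨hΔ ▸ (ac k F σ).dj.2 hy, by rw [← ac_evD (k := k), hΔ]⟩

theorem wcocb_adm {A : Dv k K} {h : K} (hA : Adm n A h) : Adm n (bc Ω F A) (algebraMap K F h) :=
  ⟨(map_ne_zero _).2 hA.1, by rw [dv_alg (k := k), hA.2, map_nsmul]⟩

theorem wcocb_dj {A : Dv k K} {y : F} (h0 : y ≠ 0)
    (h : ∀ x, A x ≠ 0 → dv Ω y (cst Ω F x) = 0) : Dj y (bc Ω F A) :=
  ⟨h0, fun Q hQ => by
    obtain ⟨x, rfl⟩ | ⟨ξ, rfl⟩ := pt_cases (k := k) K Q
    · exact h x (by rwa [bc_cst] at hQ)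
    · exact absurd (bc_gen A ξ) hQ⟩

theorem wcocb_step {Δ : Dv Ω F} (h0 : deg Δ = 0) (hΔ : (ac k F σ).dm Δ = Δ) (hf : Dj X.f Δ)
    {A : Dv k K} {h : K} (hA : Adm n A h) (hh : Dj (algebraMap K F h) Δ) {y : F} (hy : Dj y Δ)
    (e : dv Ω y = (ac k F σ).dm X.D - X.D - bc Ω F A) :
    σ (evD X.f Δ) = evD X.f Δ * evD (algebraMap K F h) Δ * evD y Δ ^ n := by
  obtain ⟨h1, h2⟩ := wcocb_ev hΔ hf
  have h3 := X.dv_ac σ
  rw [dv_div h1.1 hf.1, sub_eq_iff_eq_add'] at h3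
  rw [← h2, ← evD_pow hy, ← evD_mul hf hh, ← evD_mul (hf.mul hh) (hy.pow n)]
  refine (evD_congr h1.1 ((hf.mul hh).mul (hy.pow n)) ?_ h0).2
  rw [dv_mul (hf.mul hh).1 (hy.pow n).1, dv_mul hf.1 hh.1, dv_pow, (wcocb_adm hA).2, e, h3,
    smul_sub n _ (bc Ω F A)]
  abel

/-- `r = evD h D / evD f (bc A)` and reciprocity -/
theorem kummer (hn : n ≠ 0) {A : Dv k K} {h : K} (hA : Adm n A h) (ho : A X.o = 0)
    (hD : ∀ x, A x = 0 ∨ X.D (cst Ω F x) = 0) {c : Tor k K n} (hc : cl A = c) : ∃ r : Ω, r ≠ 0 ∧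
      r ^ n = algebraMap K Ω (h / algebraMap k K (val X.o h)) ∧
        ∀ σ : Ω ≃ₐ[K] Ω, σ r = algebraMap k Ω (wp n c (X.a σ)) * r := by
  have hB := wcocb_adm (Ω := Ω) (F := F) hA
  have h1 : Dj X.f (bc Ω F A) := wcocb_dj X.f0 fun x hx => by
    rw [X.hf, Finsupp.add_apply, Finsupp.sub_apply, Finsupp.smul_apply, (hD x).resolve_left hx,
      gp, Finsupp.single_eq_of_ne' (gen_ne_cst _ x),
      Finsupp.single_eq_of_ne (cst_inj.ne fun e : x = X.o => hx (e ▸ ho))]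
    simp
  have h2 : Dj (algebraMap K F h) X.D := hB.dj fun Q => by
    obtain ⟨x, rfl⟩ | ⟨ξ, rfl⟩ := pt_cases (k := k) K Q
    · rw [bc_cst]
      exact hD x
    · exact Or.inl (bc_gen A ξ)
  have h3 : X.o.ord h = 0 := by rw [← dv_apply, hA.2, Finsupp.smul_apply, ho, smul_zero]
  have n1 := evD_ne_zero h1
  have n2 := evD_ne_zero h2
  refine ⟨evD (algebraMap K F h) X.D / evD X.f (bc Ω F A), div_ne_zero n2 n1, ?_, fun σ => ?_⟩
  · have h4 := dj_single (v := gp Ω F (AlgHom.id k K)) hB.1 (gen_ord _ h) 1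
    have h5 := dj_single (v := cst Ω F X.o) hB.1 ((cst_ord X.o h).trans h3) 1
    rw [div_pow, ← evD_nsmul h1, ← hB.2, recip hB.1 (hB.2 ▸ h1.nsmul n), X.hf,
      evD_add ((h2.nsmul n).sub h4) h5, evD_sub (h2.nsmul n) h4, evD_nsmul h2, evD_single,
      evD_single, zpow_one, zpow_one, val_gp, val_cst (Or.inr h3.ge), map_div₀,
      ← IsScalarTower.algebraMap_apply, div_mul_eq_mul_div, div_div_eq_mul_div,
      mul_div_mul_left _ _ (pow_ne_zero n n2), AlgHom.id_apply]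
  · obtain ⟨A', h', hA', c', d, -⟩ := wpair_avoid (X.a σ) A A
    obtain ⟨y, y0, hy⟩ := X.exists_y c'
    have h4 : Dj y (bc Ω F A) := wcocb_dj y0 fun x hx => by
      rw [hy, Finsupp.sub_apply, Finsupp.sub_apply, ac_dm_fix (ac_cst σ x), bc_cst,
        (d x).resolve_left hx, sub_self, sub_zero]
    obtain ⟨a1, a2⟩ := evD_bc (Ω := Ω) (F := F) (hA.dj d)
    obtain ⟨b1, b2⟩ := evD_bc (Ω := Ω) (F := F) (hA'.dj d.symm)
    have h5 := (ac k F σ).dj.2 h2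
    rw [ac_K] at h5
    have n3 := evD_ne_zero h5
    have n4 := evD_ne_zero a1
    have n5 := evD_ne_zero b1
    rw [map_div₀, X.wcocb_step (hB.deg_eq hn) (ac_bc σ A) h1 hA' b1 h4 hy, ← evD_nsmul h4, ← hB.2,
      recip hB.1 (hB.2 ▸ h4.nsmul n), hy, evD_sub (h5.sub h2) a1, evD_sub h5 h2,
      ← ac_evD (k := k), ac_K, wp_spec hn hA hA' d hc c', map_div₀, ← a2, ← b2]
    field_simp

theorem exists_adm (c : Tor k K n) (S : Finset (Place k K)) : ∃ A h, Adm n A h ∧ cl A = c ∧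
    A X.o = 0 ∧ (∀ x, A x = 0 ∨ X.D (cst Ω F x) = 0) ∧ ∀ v ∈ S, A v = 0 := by
  obtain ⟨A, h, h1, h2, h3⟩ := AL.exists_adm c
    (insert X.o (S ∪ X.D.support.preimage (cst Ω F) cst_inj.injOn))
  exact ⟨A, h, h1, h2, h3 _ (by simp), fun x => or_iff_not_imp_right.2 fun hx =>
    h3 x (by simp [hx]), fun v hv => h3 v (by simp [hv])⟩

/-- `r` is fixed, so in `K` (`fix_sep`), and `A = dv r` -/
theorem nondeg (hn : (n : k) ≠ 0) {c : Tor k K n} (h : ∀ σ, wp n c (X.a σ) = 1) : c = 0 := by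
  have n0 : n ≠ 0 := fun e => hn (by rw [e, Nat.cast_zero])
  obtain ⟨A, g, h1, h2, h3, h4, -⟩ := X.exists_adm c ∅
  obtain ⟨r, r0, h5, h6⟩ := X.kummer n0 h1 h3 h4 h2
  obtain ⟨a, rfl⟩ := fix_sep (by
    rw [← map_natCast (algebraMap k K)]; exact (map_ne_zero _).2 hn)
    (fun σ => by rw [h6, h, map_one, one_mul]) h5
  have a0 : a ≠ 0 := (map_ne_zero _).1 r0
  have h7 := (algebraMap K Ω).injective ((map_pow _ _ _).trans h5)
  have h8 := congrArg (dv k) h7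
  rw [dv_pow, dv_div h1.1 fun e => pow_ne_zero n a0 (by rw [h7, e, div_zero]), dv_const, sub_zero,
    h1.2] at h8
  exact Subtype.ext (by rw [← h2, ← nsmul_right_injective n0 h8, cl_dv a0]; rfl)

variable {Δ : Dv Ω F}

/-- the values on an invariant divisor of degree zero -/
theorem ev_step (h0 : deg Δ = 0) (hΔ : (ac k F σ).dm Δ = Δ) (hf : Dj X.f Δ) {A : Dv k K} {h : K}
    (hA : Adm n A h) (hh : Dj (algebraMap K F h) Δ) {y : F} (hy : Dj y Δ)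
    (e : dv Ω y = (ac k F σ).dm X.D - X.D - bc Ω F A) :
    σ (evD X.f Δ) = evD X.f Δ * evD (algebraMap K F h) Δ * evD y Δ ^ n :=
  X.wcocb_step h0 hΔ hf hA hh hy e

theorem ev_mul (h0 : deg Δ = 0) (hΔ : (ac k F σ).dm Δ = Δ) {A₁ A₂ A₃ : Dv k K} {g : K}
    (hA : A₁ + A₂ = A₃ + dv k g) (hg : Dj (algebraMap K F g) Δ) {y₁ y₂ y₃ : F} (h1 : Dj y₁ Δ)
    (h2 : Dj y₂ Δ) (h3 : y₃ ≠ 0) (e1 : dv Ω y₁ = (ac k F σ).dm X.D - X.D - bc Ω F A₁)
    (e2 : dv Ω y₂ = (ac k F τ).dm X.D - X.D - bc Ω F A₂)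
    (e3 : dv Ω y₃ = (ac k F (σ * τ)).dm X.D - X.D - bc Ω F A₃) :
    evD y₃ Δ = evD y₁ Δ * σ (evD y₂ Δ) * evD (algebraMap K F g) Δ := by
  obtain ⟨a1, a2⟩ := wcocb_ev hΔ h2
  rw [← a2, ← evD_mul h1 a1, ← evD_mul (h1.mul a1) hg]
  refine (evD_congr h3 ((h1.mul a1).mul hg) ?_ h0).2
  rw [dv_mul (h1.mul a1).1 hg.1, dv_mul h1.1 a1.1, ← SA.dm_dv, e1, e2, e3, dv_alg (k := k),
    map_sub, map_sub, ac_bc, ← ac_dm_mul, ← sub_eq_iff_eq_add'.2 hA, map_sub, map_add]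
  abel

end Uni

end

end Pool.Agent.Lib.MP_16ef92_ag.AL
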