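import Mathlib
import Pool.Agent.Lib.MP_16ef92_ag.AL.WPair
import Pool.Agent.Lib.MP_16ef92_ag.AL.WRie

set_option autoImplicit false
set_option linter.unusedSectionVars false
set_option linter.unusedVariables false

namespace Pool.Agent.Lib.MP_16ef92_ag.AL

open Pool.Agent.Lib.MP_6adaea_nt 
open scoped Classical

noncomputable section

variable {k K : Type} [Field k] [Field K] [Algebra k K] [IsAlgClosed k] [IsFF k K] [PosChar k]

/-- `φ` is the endomorphism of `K` that moves the places like `s` -/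
structure Cor (s : SA k K) (Q : ℕ) (φ : K →ₐ[k] K) : Prop where
  pos : 0 < Q
  a : ∀ c, s.a c = c ^ Q
  phi : ∀ f, φ f = s.γ.symm f ^ Q
  fix : ∀ v, s.pl v = v → ∀ t, v.ord t = 1 → v.ord (φ t - t) = 1

theorem exists_cor (s : SA k K) (p r : ℕ) [ExpChar k p] (hs : ∀ c, s.a c = c ^ p ^ r)
    (hfix : ∀ v, s.pl v = v → ∀ t, v.ord t = 1 → v.ord (s.γ.symm t ^ p ^ r - t) = 1) :
    ∃ φ, Cor s (p ^ r) φ := by
  have := expChar_of_injective_algebraMap (algebraMap k K).injective p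
  refine ⟨⟨(iterateFrobenius K p r).comp s.γ.symm, fun c => ?_⟩, expChar_pow_pos k p r, hs,
    fun _ => rfl, hfix⟩
  change s.symm.γ _ ^ p ^ r = _
  rw [s.symm.h, ← map_pow, ← hs]
  exact congrArg _ (s.a.apply_symm_apply c)

theorem wphi_nsmul {n : ℕ} (hn : n ≠ 0) (c d : Tor k K n) (m : ℕ) :
    wp n c (m • d) = wp n c d ^ m := by
  induction m with
  | zero =>
    have := wp_add_right hn c 0 0
    rw [add_zero] at this
    rw [zero_smul, pow_zero]
    exact (mul_eq_left₀ (wp_ne_zero c 0)).1 this.symm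
  | succ m ih => rw [succ_nsmul, wp_add_right hn, ih, pow_succ]

variable {s : SA k K} {Q : ℕ} {φ : K →ₐ[k] K} (h : Cor s Q φ) {n : ℕ}
include h

theorem Cor.ord_phi (v : Place k K) (f : K) : v.ord (φ f) = Q * (s.pl v).ord f := by
  rw [h.phi, v.ord_pow, s.pl_ord']

theorem Cor.val_phi {v : Place k K} {f : K} (hf : (s.pl v).Ge f 0) :
    v.Ge (φ f) 0 ∧ val v (φ f) = val (s.pl v) f := by
  obtain ⟨g, rfl⟩ := s.γ.surjective f
  rw [s.pl_ge] at hf
  rw [h.phi, s.γ.symm_apply_apply, val_pow hf, s.val_pl, h.a]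
  exact ⟨ge_pow_zero hf _, rfl⟩

theorem Cor.dv_phi (f : K) : dv k (φ f) = Q • s.symm.dm (dv k f) := by
  exact Finsupp.ext fun v => (h.ord_phi v f).trans (nsmul_eq_mul _ _).symm

theorem Cor.adm {A : Dv k K} {f : K} (hA : Adm n A f) {c : k} (hc : c ≠ 0) :
    Adm n (Q • s.symm.dm A) (φ f / algebraMap k K c) := by
  have h1 : φ f ≠ 0 := (map_ne_zero φ).2 hA.1
  have h2 : algebraMap k K c ≠ 0 := (map_ne_zero _).2 hc
  exact ⟨div_ne_zero h1 h2, by
    rw [dv_div h1 h2, dv_const, sub_zero, h.dv_phi, hA.2, map_nsmul, smul_comm]⟩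

theorem Cor.exists_ne : ∃ f, φ f ≠ f := by
  by_contra! h1
  obtain ⟨v⟩ : Nonempty (Place k K) := inferInstance
  have hQ : (0 : ℤ) < Q := Int.natCast_pos.2 h.pos
  have h2 : ∀ f, v.ord f = Q * (s.pl v).ord f := fun f => by rw [← h.ord_phi, h1]
  obtain ⟨t, -, ht⟩ := v.surj
  have h3 := h.fix v (Place.eq_of_ge (fun x hx => hx.imp_right fun a => ?_)
    fun x hx => hx.imp_right fun a => ?_) t ht
  · simp [h1] at h3
  · rw [h2]
    positivity
  · rw [h2]
    exact mul_pos hQ a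

/-- a fixed place is a pole of `f` or a zero of `φ f - f` -/
theorem Cor.finite : {v | s.pl v = v}.Finite := by
  obtain ⟨f, hf⟩ := h.exists_ne
  refine ((ord_fin f).union (ord_fin (φ f - f))).subset fun v (hv : s.pl v = v) => ?_
  by_cases h0 : v.ord f = 0
  · have h1 : v.Ge f 0 := Or.inr h0.ge
    obtain ⟨h2, h3⟩ := h.val_phi (v := v) (hv.symm ▸ h1)
    have h4 := ((val_eq_zero_iff (h2.sub h1)).1 (by rw [val_sub h2 h1, h3, hv, sub_self])).le
      (sub_ne_zero.2 hf)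
    exact Or.inr (one_pos.trans_le h4).ne'
  · exact Or.inl h0

theorem Cor.wp_eq (hn : n ≠ 0) (d : Tor k K n) {c c' : Tor k K n} {A : Dv k K} (hc : cl A = c)
    (hc' : cl (Q • s.symm.dm A) = c') : wp n (s.tor n d) c = wp n d c' := by
  have h1 : s.tor n (s.symm.tor n c) = c := Subtype.ext (by
    rw [SA.tor_val, SA.tor_val, ← hc, SA.pic_cl, SA.pic_cl]
    exact congrArg _ (s.dm.apply_symm_apply A))
  have h2 : c' = Q • s.symm.tor n c := Subtype.ext (by
    rw [← hc', map_nsmul, AddSubgroup.coe_nsmul, SA.tor_val, ← hc, SA.pic_cl])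
  rw [← h1, wp_tor hn, h.a, h2, wphi_nsmul hn]

omit h in
theorem deg_cong {p : ℕ} (hp : Nat.Coprime p n) {g : K} {e : ℕ} {Z : Dv k K}
    (hZ : ∀ x : Place k K, ∃ (a : ℕ) (m : ℤ), p ^ a * x.ord g = p ^ (a + e) * Z x + n * m) :
    ((deg Z : ℤ) : ZMod n) = 0 := by
  have hu := fun a => ((ZMod.isUnit_iff_coprime p n).2 hp).pow a
  have h1 : ((deg (dv k g - p ^ e • Z) : ℤ) : ZMod n) = 0 := by
    rw [deg_eq_sum _ subset_rfl, Int.cast_sum]
    refine Finset.sum_eq_zero fun x _ => ?_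
    obtain ⟨a, m, h2⟩ := hZ x
    have h3 := congrArg (Int.cast : ℤ → ZMod n) h2
    push_cast at h3
    rw [ZMod.natCast_self, zero_mul, add_zero, pow_add, mul_assoc] at h3
    simp [(hu a).mul_left_cancel h3]
  rw [map_sub, deg_dv, map_nsmul, zero_sub, nsmul_eq_mul] at h1
  push_cast at h1
  exact (hu e).mul_right_eq_zero.1 (neg_eq_zero.1 h1)

end

end Pool.Agent.Lib.MP_16ef92_ag.AL
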