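import Mathlib
import Pool.Agent.Lib.MP_16ef92_ag.AL.WCoc
import Pool.Agent.Lib.MP_16ef92_ag.AL.WPhi

set_option autoImplicit false
set_option linter.unusedSectionVars false
set_option linter.unusedVariables false

namespace Pool.Agent.Lib.MP_16ef92_ag.AL

open Pool.Agent.Lib.MP_6adaea_nt 
open scoped Classical

noncomputable section

variable {k K Ω F : Type} [Field k] [Field K] [Field Ω] [Field F] [Algebra k K]
  [Algebra k Ω] [Algebra k F] [Algebra K F] [Algebra Ω F] [IsScalarTower k K F]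
  [IsScalarTower k Ω F] [BC k K Ω F] [IsAlgClosed k] [IsFF k K] [PosChar k] [IsAlgClosed Ω]
  [IsFF Ω F] [PosChar Ω] [Algebra K Ω] [IsScalarTower k K Ω] [Algebra.IsAlgebraic K Ω] {n : ℕ}

/-- `U` is the valuation ring of `V` -/
structure Cmp (V : QVal Ω) (U : KV k Ω) : Prop where
  has : V.HasRes k
  mem : ∀ z, z ∈ U.O ↔ V.Ge z 0
  res : ∀ z, V.Ge z 0 → V.Gt (z - algebraMap k Ω (U.rs z)) 0

variable {V : QVal Ω} {U : KV k Ω} {x x₁ : Place k K} {t : K} {σ : Ω ≃ₐ[K] Ω} {P : Place Ω F}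
  {D : Dv Ω F} {z z' : Ω}

theorem exists_cmp (hV : V.Over x) : ∃ U : KV k Ω, Cmp V U :=
  let ⟨U, h⟩ := exists_kv_of_qval hV.hasRes
  ⟨U, hV.hasRes, h.1, h.2⟩

theorem wloca_rs (h : Cmp V U) {c : k} (e : V.Gt (z - algebraMap k Ω c) 0) :
    z ∈ U.O ∧ U.rs z = c := by
  have hz : V.Ge z 0 := by simpa using e.ge.add (h.has.ge_const c)
  have := e.sub (h.res z hz)
  rw [sub_sub_sub_cancel_left] at this
  exact ⟨(h.mem z).2 hz, h.has.eq_of_gt this⟩

theorem Cmp.stab (h : Cmp V U) (hσ : σ ∈ V.stab K) : ∀ z ∈ U.O, σ z ∈ U.O ∧ U.rs (σ z) = U.rs z := by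
  intro z hz
  have := (QVal.gt_stab hσ).2 (h.res z ((h.mem z).1 hz))
  rw [map_sub, show σ (algebraMap k Ω _) = _ from (σ.restrictScalars k).commutes _] at this
  exact wloca_rs h this

theorem Cmp.unit (h : Cmp V U) (h0 : U.rs z ≠ 0) : z ≠ 0 ∧ V.ord z = 0 := by
  obtain ⟨h1, h2, h3, -⟩ := U.inv_mem h0
  have h4 := ((h.mem _).1 h3).le (inv_ne_zero h2)
  rw [QVal.ord_inv] at h4
  exact ⟨h2, le_antisymm (by linarith) (((h.mem _).1 h1).le h2)⟩

theorem Cmp.div (h : Cmp V U) (h0 : U.rs z ≠ 0) (e : U.rs z' = U.rs z) : V.Gt (z' / z - 1) 0 := by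
  obtain ⟨-, -, h3, h4⟩ := U.inv_mem h0
  have h5 := (U.inv_mem (e ▸ h0 : U.rs z' ≠ 0)).1
  have := h.res _ ((h.mem _).1 (mul_mem h5 h3))
  rwa [U.rs_mul h5 h3, h4, e, mul_inv_cancel₀ h0, map_one, ← div_eq_mul_inv] at this

theorem Cmp.sp_gp (h : Cmp V U) (hV : V.Over x) {ψ : K →ₐ[k] K}
    (hψ : ∀ a, x₁.Ge a 0 → x.Ge (ψ a) 0 ∧ val x (ψ a) = val x₁ a) : Sp U (gp Ω F ψ) x₁ := by
  refine fun a ha => ⟨Or.inr (gen_ord _ a).ge, ?_⟩
  rw [val_gp, ← (hψ a ha).2]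
  refine wloca_rs h ?_
  rw [IsScalarTower.algebraMap_apply k K Ω, ← map_sub]
  exact hV.gt_zero.2 (val_spec (hψ a ha).1)

theorem spD_ac (h : ∀ z ∈ U.O, σ z ∈ U.O ∧ U.rs (σ z) = U.rs z) (D : Dv Ω F) :
    spD K U ((ac k F σ).dm D) = spD K U D := by
  induction D using Finsupp.induction_linear with
  | zero => rw [map_zero]
  | add a b ha hb => rw [map_add, map_add, map_add, ha, hb]
  | single Q m =>
    rw [SA.dm_single, spD_single, spD_single, ac, sp_ext (σ := σ.restrictScalars k) h]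

theorem ac_lp (h : ∀ z ∈ U.O, σ z ∈ U.O ∧ U.rs (σ z) = U.rs z) (x : Place k K) (t : K)
    (D : Dv Ω F) : (ac k F σ).γ (lp U x t D) = lp U x t ((ac k F σ).dm D) := by
  rw [lp, lp, map_finsuppProd]
  refine Eq.trans (Finsupp.prod_congr fun Q _ => ?_) (Finsupp.prod_equivMapDomain _ _ _).symm
  rw [apply_ite (ac k F σ).γ, map_one, map_zpow₀, lin, lin, map_sub, ac_K, SA.h, ac_a, ac,
    sp_ext (σ := σ.restrictScalars k) h, val_ext]
  rfl

theorem val_lp_ne (hP : Sp U P x) (ht : x.ord t = 1) (h0 : D P = 0) : val P (lp U x t D) ≠ 0 := by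
  exact val_ne_zero (ne_zero_of_red (wg4b_red ht D)) ((ord_lp ht hP D).trans h0)

theorem wloca_add (hP : Sp U P x) (ht : x.ord t = 1) {D' : Dv Ω F} (h0 : D P = 0) (h1 : D' P = 0) :
    val P (lp U x t (D + D')) = val P (lp U x t D) * val P (lp U x t D') := by
  rw [lp_add ht, val_mul (Or.inr ((ord_lp ht hP D).trans h0).ge)
    (Or.inr ((ord_lp ht hP D').trans h1).ge)]

theorem loc_val (hP : Sp U P x) (ht : x.ord t = 1) {g : F} (hg : red K U g ≠ 0) (h0 : P.ord g = 0) :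
    ∃ ε, U.rs ε ≠ 0 ∧ U.rs ε = val x (red K U g / t ^ x.ord (red K U g)) ∧
      val P g = ε * val P (lp U x t (dv Ω g)) := by
  obtain ⟨u, uB, uv, e⟩ := local_form ht hg
  obtain ⟨h1, -, h2⟩ := hP.eval uB
  have h3 := congrArg (red K U) e
  rw [red_mul (Bx_le uB) (mem_Gs_of_red (wg4b_red ht _)), red_lp ht, spD_dv hg, dv_apply,
    ← div_eq_iff (zpow_ne_zero _ (wg4_t ht))] at h3
  exact ⟨val P u, h2 ▸ uv, h3 ▸ h2, (congrArg (val P) e).trans
    (val_mul h1 (Or.inr ((ord_lp ht hP _).trans h0).ge))⟩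

theorem loc_move (h : ∀ z ∈ U.O, σ z ∈ U.O ∧ U.rs (σ z) = U.rs z) (hP : Sp U P x) (ht : x.ord t = 1)
    (hσ : (ac k F σ).pl P = P) (h0 : D P = 0) {y : F} {c : k} (hc : c ≠ 0)
    (hy : red K U y = algebraMap k K c) (e : dv Ω y = (ac k F σ).dm D - D) :
    ∃ ε, U.rs ε = c ∧ val P y * val P (lp U x t D) = ε * σ (val P (lp U x t D)) := by
  have h1 : dv Ω y P = 0 := by rw [e, Finsupp.sub_apply, ac_dm_fix hσ, sub_self]
  obtain ⟨ε, -, h2, h3⟩ := loc_val hP ht (hy ▸ (map_ne_zero _).2 hc) h1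
  rw [hy, Place.ord_const, zpow_zero, _root_.div_one, val_const] at h2
  refine ⟨ε, h2, ?_⟩
  rw [h3, mul_assoc, ← wloca_add hP ht h1 h0, e, sub_add_cancel, ← ac_lp h, ← ac_a (k := k) (F := F),
    ← SA.val_pl, hσ]

theorem wloca_ord (V : QVal Ω) (hP : Sp U P x) (ht : x.ord t = 1) {D' : Dv Ω F} (h0 : D P = 0)
    (h1 : D' P = 0) : V.ord (val P (lp U x t (D + D'))) =
      V.ord (val P (lp U x t D)) + V.ord (val P (lp U x t D')) := by
  rw [wloca_add hP ht h0 h1, V.ord_mul (val_lp_ne hP ht h0) (val_lp_ne hP ht h1)]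

theorem wloca_single (V : QVal Ω) (hP : Sp U P x) (ht : x.ord t = 1) {Q : Place Ω F} (h : P ≠ Q) :
    V.ord (val P (lp U x t (Finsupp.single Q 1))) = if sp K U Q = x then
      V.ord (val P (algebraMap K F t) - val Q (algebraMap K F t)) else 0 := by
  rw [val_lp ht hP (Finsupp.single_eq_of_ne h), Finsupp.prod_single_index (by simp), zpow_one,
    apply_ite V.ord, V.ord_one]

theorem loc_ord (h : Cmp V U) (hP : Sp U P x) (ht : x.ord t = 1) (h0 : D P = 0) {P₁ P₂ : Place Ω F}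
    (h1 : P ≠ P₁) (h2 : P ≠ P₂) {g : F} (hg : red K U g ≠ 0)
    (e : dv Ω g = n • D - Finsupp.single P₁ 1 + Finsupp.single P₂ 1) :
    V.ord (val P g) = n * V.ord (val P (lp U x t D)) -
      (if sp K U P₁ = x then V.ord (val P (algebraMap K F t) - val P₁ (algebraMap K F t)) else 0) +
      if sp K U P₂ = x then V.ord (val P (algebraMap K F t) - val P₂ (algebraMap K F t)) else 0 := by
  have s1 := Finsupp.single_eq_of_ne (b := (1 : ℤ)) h1
  have s2 := Finsupp.single_eq_of_ne (b := (1 : ℤ)) h2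
  have n0 : ∀ m : ℕ, (m • D) P = 0 := fun m => by simp [h0]
  have g0 : dv Ω g P = 0 := by rw [e, Finsupp.add_apply, Finsupp.sub_apply, n0, s1, s2]; rfl
  have hn : ∀ m : ℕ, V.ord (val P (lp U x t (m • D))) = m * V.ord (val P (lp U x t D)) := by
    intro m
    induction m with
    | zero => simp [lp, val_one]
    | succ m ih => rw [succ_nsmul, wloca_ord V hP ht (n0 m) h0, ih, Nat.cast_succ, add_one_mul]
  obtain ⟨ε, e0, -, h3⟩ := loc_val hP ht hg g0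
  have h4 := wloca_ord V hP ht g0 s1
  rw [e, add_right_comm, sub_add_cancel, wloca_ord V hP ht (n0 n) s2, hn, wloca_single V hP ht h1,
    wloca_single V hP ht h2, ← e] at h4
  rw [h3, V.ord_mul (h.unit e0).1 (val_lp_ne hP ht g0), (h.unit e0).2]
  linarith

variable (Ω F) in
/-- the graph of `φ` minus a constant point -/
def del (φ : K →ₐ[k] K) (o : Place k K) : Dv Ω F :=
  Finsupp.single (gp Ω F φ) 1 - Finsupp.single (cst Ω F o) 1

variable {φ : K →ₐ[k] K} {o : Place k K} {s : SA k K} {Q : ℕ}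

theorem deg_del : deg (del Ω F φ o) = 0 := by
  rw [del, map_sub, deg_single, deg_single, sub_self]

theorem ac_del (σ : Ω ≃ₐ[K] Ω) : (ac k F σ).dm (del Ω F φ o) = del Ω F φ o := by
  rw [del, map_sub, SA.dm_single, SA.dm_single, ac_gp, ac_cst]

theorem dj_del {g : F} (h0 : g ≠ 0) (h1 : dv Ω g (gp Ω F φ) = 0) (h2 : dv Ω g (cst Ω F o) = 0) :
    Dj g (del Ω F φ o) := by
  exact (dj_single h0 h1 1).sub (dj_single h0 h2 1)

theorem wloca_ne (φ : K →ₐ[k] K) (o : Place k K) : gp Ω F φ ≠ cst Ω F o := gen_ne_cst _ o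

theorem evD_del {g : F} (h : Dj g (del Ω F φ o)) :
    evD g (del Ω F φ o) = val (gp Ω F φ) g / val (cst Ω F o) g := by
  rw [del, evD_sub (dj_single h.1 (h.2 _ (by simp [del, wloca_ne])) 1)
    (dj_single h.1 (h.2 _ (by simp [del, (wloca_ne φ o).symm])) 1), evD_single, evD_single,
    zpow_one, zpow_one]

theorem evD_del_K {a : K} (h0 : a ≠ 0) (h : o.ord a = 0) : Dj (algebraMap K F a) (del Ω F φ o) ∧
    evD (algebraMap K F a) (del Ω F φ o) = algebraMap K Ω (φ a / algebraMap k K (val o a)) := by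
  have h1 : Dj (algebraMap K F a) (del Ω F φ o) :=
    dj_del ((map_ne_zero _).2 h0) (gen_ord _ a) ((cst_ord o a).trans h)
  refine ⟨h1, ?_⟩
  rw [evD_del h1, val_gp, val_cst (Or.inr h.ge), map_div₀, IsScalarTower.algebraMap_apply k K Ω]

theorem Uni.dj_f (X : Uni k K Ω F n) (h : Cor s Q φ) (ho : o ≠ X.o) (h1 : X.D (gp Ω F φ) = 0)
    (h2 : X.D (cst Ω F o) = 0) : Dj X.f (del Ω F φ o) := by
  obtain ⟨f, hf⟩ := h.exists_ne
  have h3 : gp Ω F φ ≠ gp Ω F (AlgHom.id k K) := fun e => hf (DFunLike.congr_fun (gp_inj e) f)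
  refine dj_del X.f0 ?_ ?_ <;> rw [X.hf]
  · simp [h1, h3, wloca_ne]
  · simp [h2, (wloca_ne _ o).symm, cst_inj.ne ho]

theorem wlocb_norm (U : KV k Ω) {f : F} (h : f ≠ 0) :
    ∃ g : F, g ≠ 0 ∧ red K U g ≠ 0 ∧ dv Ω g = dv Ω f := by
  obtain ⟨c, c0, hc⟩ := exists_norm (K := K) (U := U) h
  have c1 : algebraMap Ω F c ≠ 0 := by simpa using c0
  exact ⟨_, div_ne_zero h c1, hc, by rw [dv_div h c1, dv_const, sub_zero]⟩

theorem wlocb_val (ht : x.ord t = 1) : val (cst Ω F x) (algebraMap K F t) = 0 := by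
  rw [val_cst (Or.inr (by omega)), (val_eq_zero_iff (Or.inr (by omega))).2 (Or.inr ht.ge), map_zero]

/-- the local computation at a valuation above `x` -/
theorem Uni.loc (X : Uni k K Ω F n) (h : Cor s Q φ) (ho : o ≠ X.o) (h1 : X.D (gp Ω F φ) = 0)
    (h2 : X.D (cst Ω F o) = 0) (hV : V.Over x) : ∃ ϑ : Ω, ϑ ≠ 0 ∧
      V.ord (evD X.f (del Ω F φ o)) = (((if s.pl x = X.o then Q else 0) + (if x = o then 1 else 0) -
        (if s.pl x = x then 1 else 0) : ℤ) : ℚ) + n * V.ord ϑ ∧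
      ∀ σ ∈ V.stab K, X.a σ = 0 ∧ ∀ y : F, y ≠ 0 → dv Ω y = (ac k F σ).dm X.D - X.D →
        V.Gt (σ ϑ / ϑ / evD y (del Ω F φ o) - 1) 0 := by
  obtain ⟨U, hU⟩ := exists_cmp hV
  have s1 : Sp U (gp Ω F φ) (s.pl x) := hU.sp_gp hV fun a ha => h.val_phi ha
  have s2 : Sp U (cst Ω F o) o := sp_eq_iff.1 (sp_cst U o)
  have s3 : sp K U (gp Ω F (AlgHom.id k K)) = x := sp_eq_iff.2 (hU.sp_gp hV fun a ha => ⟨ha, rfl⟩)
  obtain ⟨t₁, -, ht₁⟩ := (s.pl x).surj
  obtain ⟨t₂, -, ht₂⟩ := o.surj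
  have a1 := val_lp_ne s1 ht₁ h1
  have a2 := val_lp_ne s2 ht₂ h2
  refine ⟨_, div_ne_zero a1 a2, ?_, fun σ hσ => ?_⟩
  · obtain ⟨g, g0, g1, g2⟩ := wlocb_norm (K := K) U X.f0
    obtain ⟨d1, d2⟩ := evD_congr g0 (X.dj_f h ho h1 h2) g2 deg_del
    obtain ⟨b1, b2⟩ := div_ne_zero_iff.1 (evD_del d1 ▸ evD_ne_zero d1)
    have n1 : gp Ω F φ ≠ gp Ω F (AlgHom.id k K) := fun e => by
      obtain ⟨f, hf⟩ := h.exists_ne
      exact hf (by rw [gp_inj e]; rfl)
    have e1 := loc_ord hU s1 ht₁ h1 n1 (gen_ne_cst _ _) g1 (g2.trans X.hf)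
    have e2 := loc_ord (P₁ := gp Ω F (AlgHom.id k K)) hU s2 ht₂ h2 (gen_ne_cst _ _).symm
      (cst_inj.ne ho) g1 (g2.trans X.hf)
    rw [s3, sp_cst, val_gp, val_gp, ← map_sub, hV] at e1
    rw [s3, sp_cst, if_neg ho.symm, wlocb_val ht₂, val_gp, zero_sub, ← map_neg, hV] at e2
    have c1 : (if x = s.pl x then ((x.ord (φ t₁ - AlgHom.id k K t₁) : ℤ) : ℚ) else 0) =
        if s.pl x = x then 1 else 0 := by
      by_cases e : s.pl x = x
      · rw [if_pos e.symm, if_pos e, AlgHom.id_apply, h.fix x e t₁ (e ▸ ht₁), Int.cast_one]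
      · rw [if_neg (Ne.symm e), if_neg e]
    have c2 : (if X.o = s.pl x then V.ord (algebraMap K Ω (φ t₁) -
        val (cst Ω F X.o) (algebraMap K F t₁)) else 0) = if s.pl x = X.o then (Q : ℚ) else 0 := by
      by_cases e : s.pl x = X.o
      · rw [if_pos e.symm, if_pos e, wlocb_val (e ▸ ht₁), sub_zero, hV, h.ord_phi, ht₁]
        simp
      · rw [if_neg (Ne.symm e), if_neg e]
    have c3 : (if x = o then ((x.ord (-AlgHom.id k K t₂) : ℤ) : ℚ) else 0) =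
        if x = o then 1 else 0 := by
      by_cases e : x = o
      · rw [if_pos e, if_pos e, AlgHom.id_apply, Place.ord_neg, e, ht₂, Int.cast_one]
      · rw [if_neg e, if_neg e]
    rw [← d2, evD_del d1, V.ord_div b1 b2, V.ord_div a1 a2, e1, e2, c1, c2, c3]
    push_cast
    ring
  · have hs := hU.stab hσ
    have z : spD K U ((ac k F σ).dm X.D - X.D) = 0 := by rw [map_sub, spD_ac hs, sub_self]
    refine ⟨?_, fun y y0 e => ?_⟩
    · obtain ⟨A, hA⟩ := cl_surj (X.a σ : Pic k K)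
      have := cl_spD (K := K) U ((X.ha σ A).1 hA)
      rw [spD_bc, z, map_zero, hA] at this
      exact Subtype.ext this
    obtain ⟨g, g0, g1, g2⟩ := wlocb_norm (K := K) U y0
    have e' := g2.trans e
    obtain ⟨c, hc⟩ := const_of_dv (k := k) (f := red K U g) (by rw [← spD_dv g1, e', z])
    have c0 : c ≠ 0 := fun e => g1 (by rw [hc, e, map_zero])
    obtain ⟨ε₁, r1, m1⟩ := loc_move hs s1 ht₁ (ac_gp σ φ) h1 c0 hc e'
    obtain ⟨ε₂, r2, m2⟩ := loc_move hs s2 ht₂ (ac_cst σ o) h2 c0 hc e'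
    have d1 : Dj g (del Ω F φ o) := dj_del g0
      (by rw [e', Finsupp.sub_apply, ac_dm_fix (ac_gp σ φ), sub_self])
      (by rw [e', Finsupp.sub_apply, ac_dm_fix (ac_cst σ o), sub_self])
    have u1 := (hU.unit (r1 ▸ c0)).1
    have u2 := (hU.unit (r2 ▸ c0)).1
    have a3 := (map_ne_zero σ).2 a1
    have a4 := (map_ne_zero σ).2 a2
    have := hU.div (r1 ▸ c0) (r2.trans r1.symm)
    rw [(evD_congr y0 d1 g2.symm deg_del).2, evD_del d1, map_div₀, eq_div_of_mul_eq a1 m1,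
      eq_div_of_mul_eq a2 m2]
    rwa [show ∀ a b c d e f : Ω, a ≠ 0 → b ≠ 0 → c ≠ 0 → d ≠ 0 → e ≠ 0 → f ≠ 0 →
      a / b / (c / d) / (e * a / c / (f * b / d)) = f / e from
        fun a b c d e f _ _ _ _ _ _ => by field_simp] <;> assumption

end

end Pool.Agent.Lib.MP_16ef92_ag.AL
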