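import Mathlib
import Pool.Agent.Lib.MP_16ef92_ag.AL.WLoc
import Pool.Agent.Lib.MP_16ef92_ag.AL.WEl2
import Pool.Agent.Lib.MP_16ef92_ag.AL.WLin

set_option autoImplicit false
set_option linter.unusedSectionVars false
set_option linter.unusedVariables false

namespace Pool.Agent.Lib.MP_16ef92_ag.AL

open Pool.Agent.Lib.MP_6adaea_nt 
open scoped Classical

noncomputable section

variable {k K Ω F : Type} [Field k] [Field K] [Field Ω] [Field F] [Algebra k K]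
  [Algebra k Ω] [Algebra k F] [Algebra K F] [Algebra Ω F] [IsScalarTower k K F]
  [IsScalarTower k Ω F] [BC k K Ω F] [IsAlgClosed k] [IsFF k K] [PosChar k] [IsAlgClosed Ω]
  [IsFF Ω F] [PosChar Ω] [Algebra K Ω] [IsScalarTower k K Ω] [Algebra.IsAlgebraic K Ω] {n : ℕ}

theorem wp_bim (hn : n ≠ 0) : Bim (wp n : Tor k K n → Tor k K n → k) :=
  ⟨wp_ne_zero, wp_add_left hn, wp_add_right hn⟩

theorem Uni.perfect (X : Uni k K Ω F n) (hn : (n : k) ≠ 0) : Finite (Tor k K n) ∧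
    Function.Surjective X.a ∧ ∀ χ : Tor k K n → k, (∀ y, χ y ≠ 0) →
      (∀ y y', χ (y + y') = χ y * χ y') → ∃ x, ∀ y, wp n x y = χ y := by
  have h1 : X.a 1 = 0 := by simpa using X.a_mul 1 1
  let R : AddSubgroup (Tor k K n) :=
    { carrier := Set.range X.a
      zero_mem' := ⟨1, h1⟩
      add_mem' := by
        rintro _ _ ⟨σ, rfl⟩ ⟨τ, rfl⟩
        exact ⟨_, X.a_mul σ τ⟩
      neg_mem' := by
        rintro _ ⟨σ, rfl⟩
        exact ⟨σ⁻¹, eq_neg_of_add_eq_zero_left (by rw [← X.a_mul, inv_mul_cancel, h1])⟩ }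
  have : Finite R := X.finite_range
  obtain ⟨h2, h3, h4⟩ := (wp_bim (by rintro rfl; simp at hn)).perfect hn (fun x => Subtype.ext x.2) R
    fun x hx => X.nondeg hn fun σ => hx _ ⟨σ, rfl⟩
  exact ⟨h2, fun c => (h3 ▸ AddSubgroup.mem_top c : c ∈ R), h4⟩

variable {ζ : k} {s : SA k K} {Q : ℕ} {φ : K →ₐ[k] K}

/-- Let `A' = Q • s.symm.dm A₀` (`Cor.adm`). Take `A`, `g` from `Uni.exists_adm` for `d` and the
support of `A'`, `r` from `kummer`, and apply `el_om` to `g / val o g`. `wp_spec`, `Cor.wp_eq`. -/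
theorem Uni.exists_el (X : Uni k K Ω F n) (hn : (n : k) ≠ 0) (hζ : IsPrimitiveRoot ζ n)
    (h : Cor s Q φ) {A₀ : Dv k K} {h₀ : K} (hA : Adm n A₀ h₀) {c₀ d : Tor k K n} (hc : cl A₀ = c₀)
    {c : k} (hc0 : c ≠ 0) {α : (Ω ≃ₐ[K] Ω) → ℕ} (hα : ∀ σ, wp n d (X.a σ) = ζ ^ α σ)
    {σ₀ : Ω ≃ₐ[K] Ω} (h0 : wp n d (X.a σ₀) = ζ) :
    ∃ (ω : ℕ → Ω) (b : Ω) (B : Dv k K), b ≠ 0 ∧ (∀ j, ω j ≠ 0) ∧ ω 0 = 1 ∧
      (∀ j, ω (j + n) = ω j * algebraMap K Ω (φ h₀ / algebraMap k K c)) ∧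
      (∀ σ j, ω (α σ + j) = ω (α σ) * σ (ω j)) ∧ (∀ σ : Ω ≃ₐ[K] Ω,
        σ b * ω (α σ) ^ n = b * algebraMap K Ω (φ h₀ / algebraMap k K c) ^ α σ) ∧
      wp n (s.tor n d) c₀ = ζ ^ deg B ∧
      ∀ (x : Place k K) (V : QVal Ω), V.Over x → ∃ m : ℤ, V.ord b = B x + n * m := by
  have hn' : n ≠ 0 := by
    rintro rfl
    simp at hn
  have hA' := h.adm hA hc0
  obtain ⟨A, g, hg, hcl, ho, hD, hS⟩ := X.exists_adm d (Q • s.symm.dm A₀).support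
  obtain ⟨r, r0, hr, hσ⟩ := X.kummer hn' hg ho hD hcl
  have hv : val X.o g ≠ 0 := val_ne_zero hg.1 (by
    rw [← dv_apply, hg.2, Finsupp.smul_apply, ho, smul_zero])
  have hv' := (map_ne_zero (algebraMap k K)).2 hv
  have hg' : Adm n A (g / algebraMap k K (val X.o g)) :=
    ⟨div_ne_zero hg.1 hv', by rw [dv_div hg.1 hv', dv_const, sub_zero, hg.2]⟩
  have hd : Dis A (Q • s.symm.dm A₀) := fun v =>
    or_iff_not_imp_right.2 fun e => hS v (Finsupp.mem_support_iff.2 e)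
  obtain ⟨ω, b, B, b0, ω0, ω1, ωn, hω, hB, hb⟩ :=
    el_om hn hζ hg' hA' hd r0 hr (σ₀ := σ₀) (by rw [hσ, h0])
  refine ⟨ω, b, B, b0, ω0, ω1, ωn, fun σ => (hω σ _ (by rw [hσ, hα])).1,
    fun σ => (hω σ _ (by rw [hσ, hα])).2, ?_, hb⟩
  rw [h.wp_eq hn' d hc (c' := ⟨_, hA'.mem⟩) rfl, wp_spec hn' hg' hA' hd hcl rfl, hB]

theorem wtrb_cl [NeZero n] {ι : Type} [Fintype ι] (c : Module.Basis ι (ZMod n) (Tor k K n))
    {A : ι → Dv k K} (hc : ∀ i, cl (A i) = c i) (x : Tor k K n) :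
    cl (∑ i, (c.repr x i).val • A i) = x := by
  conv_rhs => rw [← c.sum_repr x]
  rw [map_sum, AddSubmonoidClass.coe_finsetSum]
  refine Finset.sum_congr rfl fun i _ => ?_
  rw [map_nsmul, hc, ← AddSubmonoidClass.coe_nsmul, ← Nat.cast_smul_eq_nsmul (ZMod n),
    ZMod.natCast_zmod_val]

theorem wtrb_dv {ι : Type} {A : ι → Dv k K} {h : ι → K} (hA : ∀ i, Adm n (A i) (h i)) (m : ι → ℕ)
    (s : Finset ι) : Adm n (∑ i ∈ s, m i • A i) (∏ i ∈ s, h i ^ m i) := by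
  induction s using Finset.induction_on with
  | empty => exact ⟨by simp, by simp [dv_one]⟩
  | insert i s hi ih =>
    have h1 := pow_ne_zero (m i) (hA i).1
    rw [Finset.sum_insert hi, Finset.prod_insert hi]
    exact ⟨mul_ne_zero h1 ih.1, by rw [dv_mul h1 ih.1, dv_pow, (hA i).2, ih.2, smul_add, smul_comm]⟩

theorem wtrb_ev {ι : Type} [Fintype ι] {h : ι → K} {Δ : Dv Ω F}
    (hh : ∀ i, Dj (algebraMap K F (h i)) Δ) (m : ι → ℕ) :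
    Dj (algebraMap K F (∏ i, h i ^ m i)) Δ ∧
      evD (algebraMap K F (∏ i, h i ^ m i)) Δ = ∏ i, evD (algebraMap K F (h i)) Δ ^ m i := by
  simp only [map_prod, map_pow]
  exact ⟨Dj.prod fun i _ => (hh i).pow _, (evD_prod fun i _ => (hh i).pow _).trans
    (Finset.prod_congr rfl fun i _ => evD_pow (hh i) _)⟩

theorem Uni.exists_e [NeZero n] (X : Uni k K Ω F n) {ι : Type} [Fintype ι]
    (c : Module.Basis ι (ZMod n) (Tor k K n)) {A : ι → Dv k K} {h : ι → K}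
    (hA : ∀ i, Adm n (A i) (h i)) (hc : ∀ i, cl (A i) = c i) {Δ : Dv Ω F} (h0 : deg Δ = 0)
    (hΔ : ∀ Q, Δ Q ≠ 0 → X.D Q = 0 ∧ ∀ σ : Ω ≃ₐ[K] Ω, (ac k F σ).pl Q = Q)
    (hf : Dj X.f Δ) (hh : ∀ i, Dj (algebraMap K F (h i)) Δ) : ∃ e : (Ω ≃ₐ[K] Ω) → Ω,
      (∀ σ, e σ ≠ 0) ∧ (∀ σ τ, e (σ * τ) = e σ * σ (e τ) * ∏ i, evD (algebraMap K F (h i)) Δ ^
        (((c.repr (X.a σ) i).val + (c.repr (X.a τ) i).val) / n)) ∧
      (∀ σ : Ω ≃ₐ[K] Ω, σ (evD X.f Δ) = evD X.f Δ *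
        (∏ i, evD (algebraMap K F (h i)) Δ ^ (c.repr (X.a σ) i).val) * e σ ^ n) ∧
      (Near fun σ => e σ = 1 ∧ ∀ i, (c.repr (X.a σ) i).val = 0) ∧
      ∀ σ, X.a σ = 0 → ∃ y : F, y ≠ 0 ∧ dv Ω y = (ac k F σ).dm X.D - X.D ∧ e σ = evD y Δ := by
  choose y y0 hy using fun σ => X.exists_y (wtrb_cl c hc (X.a σ))
  have h1 : ∀ σ : Ω ≃ₐ[K] Ω, (ac k F σ).dm Δ = Δ := fun σ => Finsupp.ext fun Q => by
    obtain ⟨Q, rfl⟩ := (ac k F σ).pl.surjective Q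
    by_cases h2 : Δ Q = 0
    · rw [SA.dm_pl, h2]
      by_contra h3
      exact h3 (by rw [(ac k F σ).pl.injective ((hΔ _ (Ne.symm h3)).2 σ), h2])
    · rw [SA.dm_pl, (hΔ Q h2).2]
  have h2 : ∀ σ, Dj (y σ) Δ := fun σ => ⟨y0 σ, fun Q hQ => by
    have h3 := (wtrb_ev hh fun i => (c.repr (X.a σ) i).val).1.2 Q hQ
    rw [← dv_apply, dv_alg (k := k), (wtrb_dv hA _ _).2, map_nsmul, Finsupp.smul_apply,
      smul_eq_zero, or_iff_right (NeZero.ne n)] at h3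
    rw [← dv_apply, hy, Finsupp.sub_apply, Finsupp.sub_apply, ac_dm_fix ((hΔ Q hQ).2 σ), h3,
      sub_self, sub_self]⟩
  have h3 : ∀ σ, X.a σ = 0 → dv Ω (y σ) = (ac k F σ).dm X.D - X.D := fun σ e => by
    simp [hy, e]
  refine ⟨fun σ => evD (y σ) Δ, fun σ => evD_ne_zero (h2 σ), fun σ τ => ?_, fun σ => ?_,
    (near_dm (k := k) X.D).mono fun σ e => ?_, fun σ e => ⟨y σ, y0 σ, h3 σ e, rfl⟩⟩
  · rw [← (wtrb_ev hh _).2]
    refine X.ev_mul h0 (h1 σ) ?_ (wtrb_ev hh _).1 (h2 σ) (h2 τ) (y0 _) (hy σ) (hy τ) (hy _)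
    rw [(wtrb_dv hA _ _).2, Finset.smul_sum, ← Finset.sum_add_distrib, ← Finset.sum_add_distrib]
    refine Finset.sum_congr rfl fun i _ => ?_
    rw [X.a_mul, map_add, Finsupp.add_apply, ZMod.val_add, smul_smul, ← add_smul, ← add_smul,
      Nat.mod_add_div]
  · rw [← (wtrb_ev hh _).2]
    exact X.ev_step h0 (h1 σ) hf (wtrb_dv hA _ _) (wtrb_ev hh _).1 (h2 σ) (hy σ)
  · have h4 := X.a_eq_zero (congrArg cl e)
    obtain ⟨b, hb⟩ := const_of_dv ((h3 σ h4).trans (sub_eq_zero.2 e))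
    refine ⟨?_, fun i => by simp [h4]⟩
    beta_reduce
    rw [hb, evD_const fun e => y0 σ (by rw [hb, e, map_zero]), h0, zpow_zero]

/-- `tame` for `ϑ / y` -/
theorem ord_cong (p : ℕ) [Fact p.Prime] [CharP k p] {x : Place k K} {V : QVal Ω} (hV : V.Over x)
    {ι : Type} [Fintype ι] {u y ϑ : Ω} {b : ι → Ω} {g : K} {e : ℕ}
    (hg : algebraMap K Ω g = (u / (y ^ n * ∏ i, b i)) ^ p ^ e) (u0 : u ≠ 0) (y0 : y ≠ 0)
    (ϑ0 : ϑ ≠ 0) (b0 : ∀ i, b i ≠ 0) {z : ℤ} (hu : V.ord u = z + n * V.ord ϑ) {β : ι → ℤ}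
    (hb : ∀ i, ∃ m : ℤ, V.ord (b i) = β i + n * m)
    (h : ∀ σ ∈ V.stab K, V.Gt (σ ϑ / ϑ / (σ y / y) - 1) 0) :
    ∃ (a : ℕ) (m : ℤ), p ^ a * x.ord g = p ^ (a + e) * (z - ∑ i, β i) + n * m := by
  obtain ⟨a, m, hm⟩ := tame p hV (div_ne_zero ϑ0 y0) fun σ hσ => by
    rw [map_div₀, div_div_div_comm]
    exact h σ hσ
  choose μ hμ using hb
  have b1 := Finset.prod_ne_zero_iff.2 fun i (_ : i ∈ Finset.univ) => b0 i
  have h1 := hV g
  rw [hg, V.ord_pow, V.ord_div u0 (mul_ne_zero (pow_ne_zero _ y0) b1),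
    V.ord_mul (pow_ne_zero _ y0) b1, V.ord_pow, V.ord_prod _ _ fun i _ => b0 i, hu,
    Finset.sum_congr rfl fun i _ => hμ i, Finset.sum_add_distrib, ← Finset.mul_sum] at h1
  rw [V.ord_div ϑ0 y0] at hm
  refine ⟨a, p ^ e * m - p ^ (a + e) * ∑ i, μ i, Int.cast_injective (α := ℚ) ?_⟩
  push_cast at h1 ⊢
  rw [← h1, ← hm]
  ring

theorem Cor.exists_dv (h : Cor s Q φ) (o o' : Place k K) : ∃ Z : Dv k K,
    deg Z = Q + 1 - ({v | s.pl v = v}.ncard : ℕ) ∧ ∀ x, Z x = (if s.pl x = o then Q else 0) +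
      (if x = o' then 1 else 0) - if s.pl x = x then 1 else 0 := by
  refine ⟨Finsupp.single (s.pl.symm o) (Q : ℤ) + Finsupp.single o' 1 -
    ∑ v ∈ h.finite.toFinset, Finsupp.single v 1, ?_, fun x => ?_⟩
  · rw [map_sub, map_add, map_sum, deg_single, deg_single,
      Finset.sum_congr rfl fun v _ => deg_single v 1, Set.ncard_eq_toFinset_card _ h.finite]
    simp
  · simp only [Finsupp.sub_apply, Finsupp.add_apply, Finsupp.finsetSum_apply, Finsupp.single_apply,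
      Finset.sum_ite_eq', Set.Finite.mem_toFinset, Set.mem_ofPred_eq, Equiv.symm_apply_eq,
      eq_comm (a := o), eq_comm (a := o'), Nat.cast_ite, Nat.cast_zero]

end

end Pool.Agent.Lib.MP_16ef92_ag.AL
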