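import Mathlib
import Pool.Agent.Lib.MP_16ef92_ag.AL.WTr1

set_option autoImplicit false
set_option linter.unusedSectionVars false
set_option linter.unusedVariables false

namespace Pool.Agent.Lib.MP_16ef92_ag.AL

open Pool.Agent.Lib.MP_6adaea_nt 
open scoped Classical

noncomputable section

variable {k K Ω F : Type} [Field k] [Field K] [Field Ω] [Field F] [Algebra k K]
  [Algebra k Ω] [Algebra k F] [Algebra K F] [Algebra Ω F] [IsScalarTower k K F]
  [IsScalarTower k Ω F] [BC k K Ω F] [IsAlgClosed k] [IsFF k K] [PosChar k] [IsAlgClosed Ω]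
  [IsFF Ω F] [PosChar Ω] [Algebra K Ω] [IsScalarTower k K Ω] [Algebra.IsAlgebraic K Ω] {n : ℕ}
  {s : SA k K} {Q : ℕ} {φ : K →ₐ[k] K}

variable (Ω F) in
include Ω F in
theorem weil_om (p : ℕ) [Fact p.Prime] [CharP k p] (hn : (n : k) ≠ 0) {ι : Type} [Fintype ι]
    (c : Module.Basis ι (ZMod n) (Tor k K n)) (h : Cor s Q φ) :
    LinearMap.trace (ZMod n) _ (s.tor n) = 1 + (Q : ZMod n) - ({v | s.pl v = v}.ncard : ℕ) := by
  have hn0 : n ≠ 0 := by rintro rfl; simp at hn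
  have := NeZero.mk hn0
  have := NeZero.mk hn
  have := ff1_char k K p
  obtain ⟨o, o', ho⟩ := exists_pair_ne (Place k K)
  obtain ⟨X, rfl, hX⟩ := exists_uni Ω F hn o {gp Ω F φ, cst Ω F o'}
  have X1 := hX _ (Finset.mem_insert_self _ _)
  have X2 := hX (cst Ω F o') (by simp)
  obtain ⟨ζ, hζ⟩ := HasEnoughRootsOfUnity.exists_primitiveRoot k n
  obtain ⟨-, hs, hp⟩ := X.perfect hn
  choose A f hA hc hv using fun i => exists_adm (c i) {o'}
  have hf i : o'.ord (f i) = 0 := by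
    rw [← dv_apply, (hA i).2, Finsupp.smul_apply, hv i o' (by simp), smul_zero]
  have ζ0 := hζ.ne_zero hn0
  choose d hd using fun i => hp (fun y => ζ ^ (c.repr y i).val) (fun y => pow_ne_zero _ ζ0)
    fun y y' => by rw [map_add, Finsupp.add_apply, pow_val_add hζ.pow_eq_one]
  choose σ₀ h0 using fun i => hs (c i)
  choose ω b B b0 ω0 ω1 ωn hω hb hB hV using fun i => X.exists_el hn hζ h (hA i) (hc i)
    (val_ne_zero (hA i).1 (hf i)) (fun σ => hd i (X.a σ)) (σ₀ := σ₀ i) (by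
      rw [hd, h0, c.repr_self, Finsupp.single_eq_same, ZMod.val_one_eq_one_mod,
        ← pow_eq_pow_mod 1 hζ.pow_eq_one, pow_one])
  have hD := X.dj_f h ho.symm X1 X2
  have hE i := evD_del_K (Ω := Ω) (F := F) (φ := φ) (hA i).1 (hf i)
  obtain ⟨e, e0, he, hu, hN, hy⟩ := X.exists_e c hA hc deg_del (fun Q hQ => by
    by_cases e1 : Q = gp Ω F φ
    · exact e1 ▸ ⟨X1, fun σ => ac_gp σ φ⟩
    by_cases e2 : Q = cst Ω F o'
    · exact e2 ▸ ⟨X2, fun σ => ac_cst σ o'⟩
    · simp [del, e1, e2] at hQ) hD fun i => (hE i).1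
  simp only [fun i => (hE i).2] at he hu
  obtain ⟨y, y0, h1, h2⟩ := coc_main (fun i σ τ => by
    rw [X.a_mul, map_add, Finsupp.add_apply, ZMod.val_add, Nat.mod_add_div]) e0 he hu hN b0 ω0 ω1 ωn
    hω hb
  obtain ⟨m, g, hg⟩ := fix_pow p h1
  obtain ⟨Z, hZ, hz⟩ := h.exists_dv X.o o'
  have key := deg_cong (n := n) (p := p) (g := g) (e := m) (Z := Z - ∑ i, B i)
    (((Fact.out : p.Prime).coprime_iff_not_dvd).2 fun e => hn ((CharP.cast_eq_zero_iff k p n).2 e))
    fun x => by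
      obtain ⟨V, hx⟩ := exists_qval Ω x
      obtain ⟨ϑ, ϑ0, h3, h4⟩ := X.loc h ho.symm X1 X2 hx
      rw [Finsupp.sub_apply, Finsupp.finsetSum_apply, hz]
      refine ord_cong p hx hg (evD_ne_zero hD) y0 ϑ0 b0 h3 (fun i => hV i x V hx) fun σ hσ => ?_
      obtain ⟨h5, h6⟩ := h4 σ hσ
      obtain ⟨w, w0, h7, h8⟩ := hy σ h5
      rw [h2 σ fun i => by simp [h5], mul_div_cancel_right₀ _ y0, h8]
      exact h6 w w0 h7
  rw [(wp_bim hn0).trace hζ c (fun x hx => X.nondeg hn fun σ => hx _) hd _ hB]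
  rw [map_sub, map_sum, hZ] at key
  push_cast at key
  linear_combination -key

end

end Pool.Agent.Lib.MP_16ef92_ag.AL
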