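import Mathlib
import Pool.Agent.Lib.MP_16ef92_ag.AL.WTr

set_option autoImplicit false
set_option linter.unusedSectionVars false
set_option linter.unusedVariables false

namespace Pool.Agent.Lib.MP_16ef92_ag.AL

open Pool.Agent.Lib.MP_6adaea_nt

noncomputable section

variable {k K : Type} [Field k] [Field K] [Algebra k K] [IsAlgClosed k] [IsFF k K] [PosChar k]

theorem tor_finite {n : ℕ} (hn : (n : k) ≠ 0) : Finite (Tor k K n) := by
  obtain ⟨F, _, _, _, _, _, _, _⟩ := exists_bc k K (AlgebraicClosure K)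
  have := bc_isFF k K (AlgebraicClosure K) F
  have := posChar_of k (AlgebraicClosure K)
  obtain ⟨X, -⟩ := exists_uni (K := K) (AlgebraicClosure K) F hn (Classical.arbitrary _) ∅
  exact (X.perfect hn).1

theorem tor_free {l : ℕ} (hl : l.Prime) (hk : (l : k) ≠ 0) (m : ℕ) :
    Module.Free (ZMod (l ^ m)) (Tor k K (l ^ m)) := by
  have hn (j : ℕ) : ((l ^ j : ℕ) : k) ≠ 0 := by simpa using fun h => absurd h hk
  have := tor_finite (K := K) (hn m)
  refine free_of_div hl fun j hj x hx => ?_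
  obtain ⟨A, f, hA, hc, -⟩ := exists_adm x ∅
  obtain ⟨D, g, g0, e⟩ := pic_div (hn (m - j)) (hA.deg_eq (pow_ne_zero _ hl.ne_zero))
  have h1 : (x : Pic k K) = l ^ (m - j) • cl D := by
    rw [← hc, e, map_add, cl_dv g0, add_zero, map_nsmul]
  refine ⟨⟨cl D, ?_⟩, Subtype.ext h1⟩
  rw [mem_Tor, ← Nat.add_sub_cancel' hj, pow_add, mul_smul, ← h1]
  exact congrArg Subtype.val hx

/-- Weil's fixed point formula. -/
theorem weil {l : ℕ} (hl : l.Prime) (hk : (l : k) ≠ 0) (m : ℕ) (s : SA k K) (p r : ℕ) [ExpChar k p]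
    (hs : ∀ c, s.a c = c ^ p ^ r)
    (hfix : ∀ v, s.pl v = v → ∀ t, v.ord t = 1 → v.ord (s.γ.symm t ^ p ^ r - t) = 1) :
    {v | s.pl v = v}.Finite ∧ LinearMap.trace (ZMod (l ^ m)) _ (s.tor (l ^ m)) =
      1 + (p : ZMod (l ^ m)) ^ r - ({v | s.pl v = v}.ncard : ℕ) := by
  have hn : ((l ^ m : ℕ) : k) ≠ 0 := by simpa using fun h => absurd h hk
  obtain ⟨φ, h⟩ := exists_cor s p r hs hfix
  obtain ⟨F, _, _, _, _, _, _, _⟩ := exists_bc k K (AlgebraicClosure K)
  have := bc_isFF k K (AlgebraicClosure K) F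
  have := posChar_of k (AlgebraicClosure K)
  obtain ⟨q, hq, _⟩ := PosChar.ex (k := k)
  have := Fact.mk hq
  have := tor_finite (K := K) hn
  have := tor_free (K := K) hl hk m
  have : Module.Finite (ZMod (l ^ m)) (Tor k K (l ^ m)) := Module.Finite.of_finite
  refine ⟨h.finite, ?_⟩
  rw [weil_om (AlgebraicClosure K) F q hn (Module.Free.chooseBasis _ _) h, Nat.cast_pow]

/-- The case of a Frobenius. -/
theorem weil_frob {l : ℕ} (hl : l.Prime) (hk : (l : k) ≠ 0) (m : ℕ) (s : SA k K) (p r : ℕ)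
    [Fact p.Prime] [CharP k p] (hr : 0 < r) (hs : ∀ c, s.a c = c ^ p ^ r) :
    {v | s.pl v = v}.Finite ∧ LinearMap.trace (ZMod (l ^ m)) _ (s.tor (l ^ m)) =
      1 + (p : ZMod (l ^ m)) ^ r - ({v | s.pl v = v}.ncard : ℕ) := by
  refine weil hl hk m s p r hs fun v hv t ht => ?_
  have h0 : t ≠ 0 := fun h => by simp [h] at ht
  have h1 : v.ord (s.γ.symm t) = 1 := by rw [← s.pl_ord', hv, ht]
  have h2 : 1 < p ^ r := Nat.one_lt_pow hr.ne' (Fact.out : p.Prime).one_lt
  have := (v.ord_add_of_ge (f := -t) (g := s.γ.symm t ^ p ^ r) (neg_ne_zero.2 h0)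
    (Or.inr (by rw [Place.ord_neg, Place.ord_pow, h1, ht]; omega))).2
  rwa [Place.ord_neg, ht, neg_add_eq_sub] at this

end

end Pool.Agent.Lib.MP_16ef92_ag.AL
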