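import Mathlib
import Pool.Agent.Lib.MP_16ef92_ag.AL.PTr2
import Pool.Agent.Lib.MP_16ef92_ag.AL.PT
import Pool.Agent.Lib.MP_16ef92_ag.AL.WMain

set_option autoImplicit false
set_option linter.unusedSectionVars false
set_option linter.unusedVariables false

namespace Pool.Agent.Lib.MP_16ef92_ag.AL

open Polynomial LinearMap Pool.Agent.Lib.MP_6adaea_nt

noncomputable section

open scoped Classical in
theorem ptr_four {R T A B : Type} [CommRing R] [PF R] [AddCommGroup T] [Module R T]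
    [AddCommGroup A] [Module R A] [Fintype B] [Nonempty B] [Module.Free R T] [Module.Finite R T]
    {i : T →ₗ[R] A} {p : A →ₗ[R] B → R} (hi : Function.Injective i)
    (h1 : ∀ χ, (∃ c, i c = χ) ↔ p χ = 0) (h2 : ∀ u, (∃ χ, p χ = u) ↔ ∑ v, u v = 0) :
    Module.Free R A ∧ Module.Finite R A ∧ ∀ (fT : Module.End R T) (fA : Module.End R A)
      (β : Equiv.Perm B), (∀ c, fA (i c) = i (fT c)) → (∀ χ v, p (fA χ) v = p χ (β v)) →
      trace R A fA + 1 = trace R T fT + {v | β v = v}.ncard := by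
  let S : (B → R) →ₗ[R] R := ∑ v, proj v
  have hS : ∀ u, S u = ∑ v, u v := fun u => LinearMap.sum_apply _ _ _
  have s1 : Function.Surjective S := fun x =>
    ⟨Pi.single (Classical.arbitrary B) x, by simp [hS]⟩
  have s2 := exact_subtype_ker_map S
  obtain ⟨c1, c2⟩ := free_ker (ker S).injective_subtype s1 s2
  let q := p.codRestrict (ker S) fun χ => (hS _).trans ((h2 _).1 ⟨χ, rfl⟩)
  have q1 : Function.Surjective q := fun u =>
    ((h2 u.1).2 ((hS _).symm.trans u.2)).imp fun χ e => Subtype.ext e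
  have q2 : Function.Exact i q := fun χ => Subtype.ext_iff.trans (h1 χ).symm
  obtain ⟨a1, a2⟩ := free_mid hi q1 q2
  refine ⟨a1, a2, fun fT fA β e1 e2 => ?_⟩
  have b : ∀ u, S (funLeft R R β u) = S u := fun u => by
    rw [hS, hS]
    exact Equiv.sum_comp β u
  have t1 := tr3 hi q1 q2 (fC := (funLeft R R β).restrict fun u hu => (b u).trans hu) e1
    fun χ => Subtype.ext (funext (e2 χ))
  have t2 := tr3 (ker S).injective_subtype s1 s2 (fB := funLeft R R β) (fC := 1)
    (fA := (funLeft R R β).restrict fun u hu => (b u).trans hu) (fun _ => rfl) b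
  have t3 : trace R R 1 = 1 := by
    nontriviality R
    simp
  rw [trace_fun, Finset.sum_boole, t3, ← Set.ncard_coe_finset, Finset.coe_filter_univ] at t2
  rw [t1, t2, add_assoc]

variable {F : Type} [Field F] [Clos F] [Fintype F] [hq : Fact (Odd (Fintype.card F))]

/-- The number of fixed good places. -/
def fx (N : F[X]) (U : OS F) [U.H.Normal] (φ : Gam F) : ℕ :=
  {v : U.Pl | Gd N (OS.bel v) ∧ U.ac φ v = v}.ncard

variable {N : F[X]} {U : OS F} [U.H.Normal] {l : ℕ} [Fact l.Prime]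

/-- The trace on characters from the formula of Weil. -/
theorem ac_trace (hN : N ≠ 0) (hl : (l : F) ≠ 0) (hU : AdU N U) {s : Gam F} {j : ℕ} (hj : 0 < j)
    (hs : Fr s (Fintype.card F ^ j)) (a : ℕ) :
    Module.Free (ZMod (l ^ a)) (AcU N U (l ^ a)) ∧
      Module.Finite (ZMod (l ^ a)) (AcU N U (l ^ a)) ∧ ∀ δ : Geo F,
      ((Fintype.card F ^ j : ℕ) : ZMod (l ^ a)) * trace _ _ (twA _ (fam_inv s) hU.mem δ) =
        (Fintype.card F ^ j : ℕ) - (fx N U (δ * s) : ℕ) := by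
  have hn : ((l ^ a : ℕ) : F) ≠ 0 := Nat.cast_pow (α := F) l a ▸ pow_ne_zero a hl
  obtain ⟨r, hr⟩ := exists_prm hn
  have := bad_finite (U := U) hN
  have := Fintype.ofFinite (Bad N U)
  have := tor_free (K := U.K) Fact.out (cast_kk_ne hl) a
  have := tor_finite (K := U.K) (cast_kk_ne hn)
  have : Module.Finite (ZMod (l ^ a)) (Tor (kk F) U.K (l ^ a)) := .of_finite
  obtain ⟨res, r1, r2⟩ := exists_res hl hr hU
  obtain ⟨inc, i1, i2, i3⟩ := exists_inc hl hr hU
  obtain ⟨a1, a2, a3⟩ := ptr_four i1 (p := res) (fun χ => by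
    obtain ⟨f, hf⟩ := exists_Rad hr χ
    rw [i3 χ f hf]
    exact ⟨fun h => funext fun v => (r1 χ f hf v).trans (h v), fun h v => by_contra fun e =>
      e ((r1 χ f hf ⟨v, fun g => e (hf.good hr hl g)⟩).symm.trans (congrFun h _))⟩) r2
  refine ⟨a1, a2, fun δ => ?_⟩
  obtain ⟨p, e, hp, hc, he, hq⟩ := exists_char (F := F)
  have := Fact.mk hp
  have hQ : Fintype.card F ^ j = p ^ (e * j) := by rw [hq, pow_mul]
  obtain ⟨w1, w2⟩ := weil_frob Fact.out (cast_kk_ne hl) a (U.sa (δ * s)) p (e * j) (Nat.mul_pos he hj)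
    fun c => Subtype.ext (hQ ▸ hs.geo_mul δ.2 c)
  let β : Equiv.Perm (Bad N U) := (U.ac (δ * s)⁻¹).subtypePerm fun v => by rw [OS.bel_ac, gd_map]
  have t := a3 ((U.sa (δ * s)).tor _)
    (((Fintype.card F ^ j : ℕ) : ZMod (l ^ a)) • twA _ (fam_inv s) hU.mem δ) β (fun c => by
      obtain ⟨D, hD⟩ := cl_surj c.1
      obtain ⟨f, f0, hf⟩ := cl_eq_zero.1 (show cl (l ^ a • D) = 0 by rw [map_nsmul, hD]; exact c.2)
      exact ((i2 c D f hD f0 hf).tw hr hU hs δ).ext (i2 _ ((U.sa (δ * s)).dm D) _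
        (congrArg (U.sa (δ * s)).pic hD) ((_root_.map_ne_zero _).2 f0)
        (by rw [← SA.dm_dv, hf, map_nsmul]))) fun χ v => by
      obtain ⟨f, hf⟩ := exists_Rad hr χ
      rw [r1 _ _ hf, LinearMap.smul_apply, r1 _ _ (hf.tw hr hU hs δ)]
      exact congrArg (fun z : U.K => (v.1.ord z : ZMod (l ^ a)))
        (Subtype.ext (DFunLike.congr_fun (inv_inv _).symm _))
  have c : {v | (U.sa (δ * s)).pl v = v}.ncard = fx N U (δ * s) + {v | β v = v}.ncard := by
    rw [← Set.ncard_inter_add_ncard_sdiff_eq_ncard _ {v | Gd N (OS.bel v)} w1, Set.inter_comm,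
      ← Set.ncard_image_of_injective {v | β v = v} Subtype.val_injective]
    congr 2
    ext v
    have k : U.ac (δ * s)⁻¹ v = v ↔ (U.sa (δ * s)).pl v = v := by
      rw [map_inv, Equiv.Perm.inv_eq_iff_eq, eq_comm, OS.ac_eq]
    exact ⟨fun h => ⟨⟨v, h.2⟩, Subtype.ext (k.2 h.1), rfl⟩,
      fun ⟨w, h, e⟩ => by subst e; exact ⟨k.1 (congrArg Subtype.val h), w.2⟩⟩
  rw [map_smul, smul_eq_mul, w2, c, ← Nat.cast_pow, ← hQ, Nat.cast_add] at t
  linear_combination t

end

end Pool.Agent.Lib.MP_16ef92_ag.AL
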