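import Mathlib
import Pool.Agent.Lib.MP_16ef92_ag.AL.PTr
import Pool.Agent.Lib.MP_16ef92_ag.AL.PCnt
import Pool.Agent.Lib.MP_16ef92_ag.AL.PH2
import Pool.Agent.Lib.MP_16ef92_ag.AL.PA5

set_option autoImplicit false
set_option linter.unusedSectionVars false
set_option linter.unusedVariables false

namespace Pool.Agent.Lib.MP_16ef92_ag.AL

open Polynomial LinearMap Module

noncomputable section

variable {F : Type} [Field F] [Clos F] [Fintype F] [hq : Fact (Odd (Fintype.card F))]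
  {N : F[X]} {l n : ℕ} [Fact l.Prime]

theorem psi_geo {R M : Type} [CommRing R] [AddCommGroup M] [Module R M] (ρ : Gam F →* End R M)
    (s : Gam F) (g : Geo F) :
    ρ s * ρ.comp (Geo F).subtype (sgm s g) = ρ.comp (Geo F).subtype g * ρ s := by
  simp [← map_mul, mul_assoc]

/-- The trace formula. -/
theorem tf (hN : N ≠ 0) (hl : (l : F) ≠ 0) {M : Type} [AddCommGroup M] [Module (ZMod (l ^ n)) M]
    [Module.Free (ZMod (l ^ n)) M] [Module.Finite (ZMod (l ^ n)) M]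
    (ρ : Gam F →* End (ZMod (l ^ n)) M) (h1 : (fam N).Ev fun g => ρ g = 1) {s : Gam F} {j : ℕ}
    (hj : 0 < j) (hs : Fr s (Fintype.card F ^ j)) (B : Finset (kk F))
    (hB : ∀ c, c ∈ B ↔ aeval c N ≠ 0 ∧ (c : Om F) ^ Fintype.card F ^ j = c)
    (b : kk F → ZMod (l ^ n)) (hb : ∀ c ∈ B, ∀ O, Over O (some c) → ∀ f ∈ St O,
      Fr f (Fintype.card F ^ j) → trace _ M (ρ f) = b c) :
    Module.Finite (ZMod (l ^ n)) (Zc (fam N) (ρ.comp (Geo F).subtype)) ∧
      ((Fintype.card F ^ j : ℕ) : ZMod (l ^ n)) *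
        trace _ _ (Psi (fam_inv (N := N) s) (psi_geo ρ s)) =
        (Fintype.card F ^ j : ℕ) * trace _ M (ρ s) - ∑ c ∈ B, b c := by
  obtain ⟨_, ⟨U, hU, rfl⟩, h1⟩ := h1
  have := hU.normal
  have := U.finiteIndex
  have := Fintype.ofFinite (Geo F ⧸ U.H.subgroupOf (Geo F))
  refine (main_abs (h2_fam hl) (fam_inv s) hU.mem h1 (psi_geo ρ s) _ (fun δ => fx N U (δ * s)) B b
    (ac_trace hN hl hU hj hs) ?_).2
  simp only [MonoidHom.comp_apply, Subgroup.subtype_apply, ← map_mul]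
  exact count hU hs B hB (fun f => (trace _ M (ρ f)).val)
    (fun h hh g => by rw [map_mul, h1 ⟨h, U.le hh⟩ hh, one_mul]) (fun c => (b c).val)
    fun c hc O hO f hf hQ => by rw [hb c hc O hO f hf hQ]

end

end Pool.Agent.Lib.MP_16ef92_ag.AL
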