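import Mathlib
import Pool.Agent.Lib.MP_16ef92_ag.AL.PMain
import Pool.Agent.Lib.MP_16ef92_ag.AL.NDic
import Pool.Agent.Lib.MP_16ef92_ag.AL.NA1
import Pool.Agent.Lib.MP_16ef92_ag.AL.NA2
import Pool.Agent.Lib.MP_16ef92_ag.ET.W2

set_option autoImplicit false
set_option linter.unusedSectionVars false
set_option linter.unusedVariables false

namespace Pool.Agent.Lib.MP_16ef92_ag.AL

open Polynomial Module LinearMap

noncomputable section

theorem nmain_lc {K L X : Type} [Field K] [Field L] [Algebra K L] [Algebra.IsAlgebraic K L]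
    (H : Subgroup (L ≃ₐ[K] L)) (f : (L ≃ₐ[K] L) → X)
    (hf : Near fun h => h ∈ H → ∀ g ∈ H, f (g * h) = f g) :
    IsLocallyConstant fun g : H => f g := by
  obtain ⟨S, hS⟩ := hf
  have hfin : FiniteDimensional K (IntermediateField.adjoin K (S : Set L)) :=
    IntermediateField.finiteDimensional_adjoin fun z _ => Algebra.IsIntegral.isIntegral z
  rw [IsLocallyConstant.iff_eventually_eq]
  intro g
  have h1 : IsOpen ((fun h : H => (g : L ≃ₐ[K] L)⁻¹ * h) ⁻¹'
      ((IntermediateField.adjoin K (S : Set L)).fixingSubgroup : Set (L ≃ₐ[K] L))) :=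
    (IntermediateField.fixingSubgroup_isOpen _).preimage (by fun_prop)
  filter_upwards [h1.mem_nhds (by simp : g ∈ _)] with h hh
  have := hS _ (fun z hz => (IntermediateField.mem_fixingSubgroup_iff _ _).1 hh z
    (IntermediateField.subset_adjoin _ _ hz)) (mul_mem (inv_mem g.2) h.2) g g.2
  rwa [mul_inv_cancel_left] at this

variable {F : Type} [Field F] [Clos F] [Fintype F] [hq : Fact (Odd (Fintype.card F))]
  {N : F[X]} {l : ℕ} [hl : Fact l.Prime] {W : WeierstrassCurve (RatFunc F)} {T : TM l W}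
  {a : kk F → ℕ → ℤ} {s : Gam F}

theorem psiI_pow (s : Gam F) (j : ℕ) : PsiI (fam_inv (N := N) s) (T.psi s) ^ j =
    PsiI (fam_inv (s ^ j)) (T.psi (s ^ j)) := by
  induction j with
  | zero =>
    refine LinearMap.ext fun z => Subtype.ext (funext fun g => ?_)
    rw [PsiI_apply, show sgm (s ^ 0) g = g from Subtype.ext (by simp)]
    simp
  | succ j ih =>
    refine LinearMap.ext fun z => Subtype.ext (funext fun g => ?_)
    rw [pow_succ, ih, End.mul_apply, PsiI_apply, PsiI_apply, PsiI_apply, ← End.mul_apply, ← map_mul,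
      ← pow_succ, show sgm s (sgm (s ^ j) g) = sgm (s ^ (j + 1)) g from
        Subtype.ext (by simp [pow_succ, mul_assoc])]

variable (N) in
theorem exists_fixed (j : ℕ) : ∃ B : Finset (kk F), 0 < j →
    ∀ c, c ∈ B ↔ aeval c N ≠ 0 ∧ (c : Om F) ^ Fintype.card F ^ j = c := by
  classical
  refine ⟨(X ^ Fintype.card F ^ j - X : (kk F)[X]).roots.toFinset.filter (aeval · N ≠ 0),
    fun hj c => ?_⟩
  rw [Finset.mem_filter, Multiset.mem_toFinset, mem_roots (FiniteField.X_pow_card_sub_X_ne_zero _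
    (Nat.one_lt_pow hj.ne' Fintype.one_lt_card)), and_comm, IsRoot, eval_sub, eval_pow, eval_X,
    sub_eq_zero, Subtype.ext_iff]
  rfl

theorem trace_lim (hN : N ≠ 0) (hF : (l : F) ≠ 0) (hT : T.Good N a) {j : ℕ} (hj : 0 < j)
    (hs : Fr s (Fintype.card F ^ j)) (B : Finset (kk F))
    (hB : ∀ c, c ∈ B ↔ aeval c N ≠ 0 ∧ (c : Om F) ^ Fintype.card F ^ j = c) :
    Module.Free ℤ_[l] (Zi (fam N) T.rg) ∧ Module.Finite ℤ_[l] (Zi (fam N) T.rg) ∧
      ((Fintype.card F ^ j : ℕ) : ℤ_[l]) * trace _ _ (PsiI (fam_inv (N := N) s) (T.psi s)) =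
        (Fintype.card F ^ j : ℕ) * trace _ _ (T.ro s) - ((∑ c ∈ B, a c j : ℤ) : ℤ_[l]) := by
  have key := fun n => tf hN hF ((redE (PadicInt.toZModPow n) 2).comp T.ro) (hT.cr.rn n) hj hs B hB
    (fun c => a c j) fun c hc O hO f hf hQ => by
      rw [MonoidHom.comp_apply, trace_redE, hT.tr c ((hB c).1 hc).1 O hO f hf j hj hQ, map_intCast]
  obtain ⟨h1, h2, h3⟩ := limit (h2_fam hF) hT.cr (fam_inv s) (T.psi s)
    (have : Module.Finite (ZMod (l ^ 1)) (Zc (fam N) (rn T.rg 1)) := (key 1).1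
    Module.finite_of_finite (ZMod (l ^ 1)))
  refine ⟨h1, h2, PadicInt.ext_of_toZModPow.1 fun n => ?_⟩
  rw [map_sub, map_mul, map_mul, map_natCast, map_intCast, ← h3, ← trace_redE, Int.cast_sum]
  exact (key n).2

theorem exists_mult_TM (hN : N ≠ 0) (hF : (l : F) ≠ 0) (hT : T.Good N a)
    (hs : Fr s (Fintype.card F)) : ∃ m, Mult (fun j =>
      -((∑ c ∈ (exists_fixed N j).choose, a c j : ℤ) : ℚ) / (Fintype.card F ^ j : ℕ)) m ∧
        (SimpleL l W s ↔ m ≤ 1) := by
  have key := fun j hj => trace_lim hN hF hT hj (hs.pow j) _ ((exists_fixed N j).choose_spec hj)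
  obtain ⟨h1, h2, -⟩ := key 1 one_pos
  rw [simpleL_iff hF hT hs]
  refine exists_mult ℚ_[l] (t := T.ro s) (fun x => Subtype.ext (_root_.funext fun g => ?_))
    (hT.h0 hN hs) _ fun j hj => ?_
  · rw [PsiI_apply, cob_apply, cob_apply, map_sub, ← End.mul_apply, ← End.mul_apply, T.psi]
  · have h3 := congrArg (algebraMap ℤ_[l] ℚ_[l]) (key j hj).2.2
    have h4 : ((Fintype.card F ^ j : ℕ) : ℚ_[l]) ≠ 0 := by simp
    rw [map_sub, map_mul, map_mul, map_natCast, map_intCast] at h3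
    rw [psiI_pow, ← map_pow, map_sub, Rat.cast_div, Rat.cast_neg, Rat.cast_intCast,
      Rat.cast_natCast, eq_div_iff h4]
    linear_combination h3

variable {A B D : F[X]}

theorem simpleL_two (h : GF.Fam0 A B D) (hS : GF.Simple (Om F) (curve A B D))
    (hs : Fr s (Fintype.card F)) : SimpleL 2 (curve A B D) s := by
  obtain ⟨c₀, h0, h1, h2⟩ := hS s fun c hc => hs ⟨c, mem_algebraicClosure_iff.2 hc⟩
  have e : c₀ 1 = 0 := by simpa [act_one] using h0.mul 1 (one_mem _) 1 (one_mem _)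
  refine ⟨c₀, ⟨h0.mem, h0.mul, fun n => (Near.of_locConst _ (fun g => c₀ g n) (h0.cont n)).mono
    fun g hg h => (hg h).trans (congrFun e n)⟩, isNull_iff.1 h1, fun c hc hn => ?_⟩
  obtain ⟨a, b, ha, e⟩ := h2 c (ET.weight h.sq h.pos h.dB h.dC hs hc.mem hc.mul (fun n =>
    nmain_lc _ (fun g => c g n) ((hc.near n).mono fun g hg h k hk => by
      rw [hc.mul k hk g h, Pi.add_apply, act_apply, hg h, map_zero, add_zero])) (isNull_iff.2 hn))
    (isNull_iff.2 hn)
  exact ⟨a, b, ha, isNull_iff.1 e⟩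

/-- Simplicity of the eigenvalue one passes from the prime two to every prime. -/
theorem simpleL_of (h : GF.Fam0 A B D) (hS : GF.Simple (Om F) (curve A B D)) (l : ℕ)
    [Fact l.Prime] (hF : (l : F) ≠ 0) (s : Gam F) (hs : Fr s (Fintype.card F)) :
    SimpleL l (curve A B D) s := by
  have hN := h.sq.ne_zero
  have h2 : ((2 : ℕ) : F) ≠ 0 := by exact_mod_cast two_neF
  obtain ⟨a, ha⟩ := exists_TM hN
  obtain ⟨T, hT⟩ := ha l hF
  obtain ⟨T₂, hT₂⟩ := ha 2 h2
  obtain ⟨m, hm, e⟩ := exists_mult_TM hN hF hT hs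
  obtain ⟨m₂, hm₂, e₂⟩ := exists_mult_TM hN h2 hT₂ hs
  rw [e, hm.unique hm₂, ← e₂]
  exact simpleL_two h hS hs

end

end Pool.Agent.Lib.MP_16ef92_ag.AL
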